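import Mathlib

set_option autoImplicit false

namespace Pool.Agent.CycCrit

open Polynomial MeasureTheory Set

/-- `x` times the logarithmic derivative of the `n`-th cyclotomic polynomial. -/
noncomputable def LD (n : ℕ) (x : ℝ) : ℝ :=
  x * (derivative (cyclotomic n ℝ)).eval x / (cyclotomic n ℝ).eval x

lemma LD_mul {n p : ℕ} (hp : p.Prime) (hpn : ¬ p ∣ n) {x : ℝ}
    (h1 : (cyclotomic n ℝ).eval x ≠ 0) (h2 : (cyclotomic (n * p) ℝ).eval x ≠ 0) :
    LD (n * p) x = p * LD n (x ^ p) - LD n x := by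
  have e := cyclotomic_expand_eq_cyclotomic_mul hp hpn ℝ
  have e1 : (cyclotomic n ℝ).eval (x ^ p) =
      (cyclotomic (n * p) ℝ).eval x * (cyclotomic n ℝ).eval x := by
    have := congrArg (eval x) e
    rwa [expand_eval, eval_mul] at this
  have e2 : (derivative (cyclotomic n ℝ)).eval (x ^ p) * (p * x ^ (p - 1)) =
      (derivative (cyclotomic (n * p) ℝ)).eval x * (cyclotomic n ℝ).eval x +
      (cyclotomic (n * p) ℝ).eval x * (derivative (cyclotomic n ℝ)).eval x := by
    have := congrArg (fun q => eval x (derivative q)) e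
    simp only [derivative_expand, derivative_mul, eval_mul, eval_add, expand_eval, eval_natCast,
      eval_pow, eval_X] at this
    exact this
  unfold LD
  have e3 : x ^ p = x ^ (p - 1) * x := by
    rw [← pow_succ]; congr 1
    have := hp.pos; omega
  rw [e1]
  have e4 : (p : ℝ) * (x ^ p * (derivative (cyclotomic n ℝ)).eval (x ^ p)) =
      x * ((derivative (cyclotomic n ℝ)).eval (x ^ p) * (p * x ^ (p - 1))) := by
    rw [e3]; ring
  have e5 : (p : ℝ) * (x ^ p * (derivative (cyclotomic n ℝ)).eval (x ^ p) /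
      ((cyclotomic (n * p) ℝ).eval x * (cyclotomic n ℝ).eval x)) =
      x * ((derivative (cyclotomic (n * p) ℝ)).eval x * (cyclotomic n ℝ).eval x +
      (cyclotomic (n * p) ℝ).eval x * (derivative (cyclotomic n ℝ)).eval x) /
      ((cyclotomic (n * p) ℝ).eval x * (cyclotomic n ℝ).eval x) := by
    rw [← e2, ← e4]; ring
  rw [e5]
  field_simp
  ring

/-- `Φ_n` has no zero on the segment from `0` to `s`. -/
def NZ (n : ℕ) (s : ℝ) : Prop := ∀ y ∈ Icc (0 : ℝ) 1, (cyclotomic n ℝ).eval (s * y) ≠ 0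

lemma NZ_of_two_lt {n : ℕ} (hn : 2 < n) (s : ℝ) : NZ n s :=
  fun _ _ => (cyclotomic_pos hn _).ne'

lemma NZ_one : NZ 1 (-1) := by
  intro y hy
  simp only [cyclotomic_one, eval_sub, eval_X, eval_one]
  have := hy.1
  intro h
  linarith

lemma log_pow_bound (j : ℕ) {t : ℝ} (ht : 0 < t) :
    |Real.log t| ^ j ≤ 2 ^ j * j.factorial * (t ^ ((2 : ℝ) - 1) + t ^ ((1 / 2 : ℝ) - 1)) := by
  have hj : (0 : ℝ) < j.factorial := by exact_mod_cast j.factorial_pos
  rcases le_or_gt 1 t with h | h
  · have h1 : 0 ≤ Real.log t := Real.log_nonneg h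
    have h2 := Real.pow_div_factorial_le_exp _ h1 j
    rw [Real.exp_log ht, div_le_iff₀ hj] at h2
    rw [abs_of_nonneg h1]
    have h3 : t ^ ((2 : ℝ) - 1) = t := by norm_num
    have h4 : 0 ≤ t ^ ((1 / 2 : ℝ) - 1) := Real.rpow_nonneg ht.le _
    have h5 : (1 : ℝ) ≤ 2 ^ j := one_le_pow₀ (by norm_num)
    rw [h3]
    calc Real.log t ^ j ≤ t * j.factorial := h2
      _ = 1 * j.factorial * t := by ring
      _ ≤ 2 ^ j * j.factorial * (t + t ^ ((1 / 2 : ℝ) - 1)) := by
        apply mul_le_mul (mul_le_mul_of_nonneg_right h5 hj.le) (by linarith) ht.le (by positivity)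
  · have h1 : Real.log t < 0 := Real.log_neg ht h
    have h2 := Real.pow_div_factorial_le_exp (-Real.log t / 2) (by linarith) j
    have h6 : Real.exp (-Real.log t / 2) = t ^ ((1 / 2 : ℝ) - 1) := by
      rw [Real.rpow_def_of_pos ht]; congr 1; ring
    rw [h6, div_le_iff₀ hj, div_pow, div_le_iff₀ (by positivity)] at h2
    rw [abs_of_neg h1]
    have h4 : 0 ≤ t ^ ((2 : ℝ) - 1) := Real.rpow_nonneg ht.le _
    calc (-Real.log t) ^ j ≤ t ^ ((1 / 2 : ℝ) - 1) * j.factorial * 2 ^ j := h2
      _ = 2 ^ j * j.factorial * t ^ ((1 / 2 : ℝ) - 1) := by ring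
      _ ≤ _ := by
        exact mul_le_mul_of_nonneg_left (le_add_of_nonneg_left h4) (by positivity)

lemma eval_log_bound (Q : ℝ[X]) : ∃ C : ℝ, ∀ t : ℝ, 0 < t →
    |Q.eval (Real.log t)| ≤ C * (t ^ ((2 : ℝ) - 1) + t ^ ((1 / 2 : ℝ) - 1)) := by
  induction Q using Polynomial.induction_on' with
  | add p q hp hq =>
    obtain ⟨C1, h1⟩ := hp
    obtain ⟨C2, h2⟩ := hq
    refine ⟨C1 + C2, fun t ht => ?_⟩
    rw [eval_add, add_mul]
    exact (abs_add_le _ _).trans (add_le_add (h1 t ht) (h2 t ht))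
  | monomial n a =>
    refine ⟨|a| * (2 ^ n * n.factorial), fun t ht => ?_⟩
    rw [eval_monomial, abs_mul, abs_pow, mul_assoc]
    exact mul_le_mul_of_nonneg_left (log_pow_bound n ht) (abs_nonneg a)

lemma integrable_exp_log (g : ℝ → ℝ) (hg : ContinuousOn g (Ioi 0)) {C : ℝ}
    (hC : ∀ t : ℝ, 0 < t → |g t| ≤ C * Real.exp (-t)) (Q : ℝ[X]) :
    IntegrableOn (fun t => g t * Q.eval (Real.log t)) (Ioi 0) := by
  obtain ⟨C2, h2⟩ := eval_log_bound Q
  have h3 : IntegrableOn (fun t : ℝ => C * C2 * (Real.exp (-t) * t ^ ((2 : ℝ) - 1) +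
      Real.exp (-t) * t ^ ((1 / 2 : ℝ) - 1))) (Ioi 0) :=
    ((Real.GammaIntegral_convergent (by norm_num)).add
      (Real.GammaIntegral_convergent (by norm_num))).const_mul _
  apply Integrable.mono' h3
  · apply ContinuousOn.aestronglyMeasurable _ measurableSet_Ioi
    apply hg.mul
    apply Q.continuous.comp_continuousOn
    exact Real.continuousOn_log.mono (fun x hx => (ne_of_gt hx))
  · rw [ae_restrict_iff' measurableSet_Ioi]
    refine Filter.Eventually.of_forall (fun t ht => ?_)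
    have ht' : 0 < t := ht
    rw [Real.norm_eq_abs, abs_mul]
    have h4 : 0 ≤ C * Real.exp (-t) := (abs_nonneg _).trans (hC t ht')
    calc |g t| * |Q.eval (Real.log t)|
        ≤ (C * Real.exp (-t)) * (C2 * (t ^ ((2 : ℝ) - 1) + t ^ ((1 / 2 : ℝ) - 1))) :=
          mul_le_mul (hC t ht') (h2 t ht') (abs_nonneg _) h4
      _ = _ := by ring

lemma exp_neg_mem {t : ℝ} (ht : 0 < t) : Real.exp (-t) ∈ Icc (0 : ℝ) 1 :=
  ⟨(Real.exp_pos _).le, by rw [Real.exp_le_one_iff]; linarith⟩

lemma LD_bound {n : ℕ} {s : ℝ} (h : NZ n s) :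
    ContinuousOn (fun t => LD n (s * Real.exp (-t))) (Ioi 0) ∧
    ∃ C : ℝ, ∀ t : ℝ, 0 < t → |LD n (s * Real.exp (-t))| ≤ C * Real.exp (-t) := by
  have hcont : ContinuousOn (fun y : ℝ => s * ((derivative (cyclotomic n ℝ)).eval (s * y) /
      (cyclotomic n ℝ).eval (s * y))) (Icc 0 1) := by
    apply continuousOn_const.mul
    apply ContinuousOn.div
    · exact ((derivative (cyclotomic n ℝ)).continuous.comp (continuous_const.mul
        continuous_id)).continuousOn
    · exact ((cyclotomic n ℝ).continuous.comp (continuous_const.mul continuous_id)).continuousOn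
    · exact h
  have hform : ∀ t : ℝ, LD n (s * Real.exp (-t)) = Real.exp (-t) *
      (s * ((derivative (cyclotomic n ℝ)).eval (s * Real.exp (-t)) /
      (cyclotomic n ℝ).eval (s * Real.exp (-t)))) := by
    intro t; unfold LD; ring
  constructor
  · have h1 : ContinuousOn (fun t : ℝ => Real.exp (-t)) (Ioi 0) :=
      (Real.continuous_exp.comp continuous_neg).continuousOn
    have h2 := h1.mul (hcont.comp h1 (fun t ht => exp_neg_mem ht))
    refine h2.congr (fun t _ => ?_)
    rw [hform]; rfl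
  · obtain ⟨C, hC⟩ := isCompact_Icc.exists_bound_of_continuousOn hcont
    refine ⟨C, fun t ht => ?_⟩
    rw [hform, abs_mul, abs_of_pos (Real.exp_pos _), mul_comm]
    exact mul_le_mul_of_nonneg_right (hC _ (exp_neg_mem ht)) (Real.exp_pos _).le

/-- The moment functional. -/
noncomputable def Mo (n : ℕ) (s : ℝ) (Q : ℝ[X]) : ℝ :=
  ∫ t in Ioi (0 : ℝ), LD n (s * Real.exp (-t)) * Q.eval (Real.log t)

lemma integrable_LD {n : ℕ} {s : ℝ} (h : NZ n s) (Q : ℝ[X]) :
    IntegrableOn (fun t => LD n (s * Real.exp (-t)) * Q.eval (Real.log t)) (Ioi 0) := by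
  obtain ⟨h1, C, h2⟩ := LD_bound h
  exact integrable_exp_log _ h1 h2 Q

lemma Mo_step {n p : ℕ} (hp : p.Prime) (hodd : Odd p) (hpn : ¬ p ∣ n) {s : ℝ}
    (hs : s = 1 ∨ s = -1) (h1 : NZ n s) (h2 : NZ (n * p) s) (Q : ℝ[X]) :
    Mo (n * p) s Q = Mo n s (taylor (-Real.log p) Q - Q) := by
  have hsp : s ^ p = s := by
    rcases hs with rfl | rfl
    · exact one_pow _
    · exact hodd.neg_one_pow
  have hp0 : (0 : ℝ) < p := by exact_mod_cast hp.pos
  have hI1 := integrable_LD h1 Q
  have hI2 := integrable_LD h1 (taylor (-Real.log p) Q)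
  -- the pointwise identity
  have hpt : ∀ t ∈ Ioi (0 : ℝ), LD (n * p) (s * Real.exp (-t)) * Q.eval (Real.log t) =
      p * (LD n (s * Real.exp (-(p * t))) * (taylor (-Real.log p) Q).eval (Real.log (p * t))) -
      LD n (s * Real.exp (-t)) * Q.eval (Real.log t) := by
    intro t ht
    have ht' : 0 < t := ht
    have e1 : (s * Real.exp (-t)) ^ p = s * Real.exp (-(p * t)) := by
      rw [mul_pow, hsp, ← Real.exp_nat_mul]; congr 2; ring
    rw [LD_mul hp hpn (h1 _ (exp_neg_mem ht')) (h2 _ (exp_neg_mem ht')), e1, taylor_eval,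
      Real.log_mul hp0.ne' ht'.ne']
    have e2 : Real.log p + Real.log t + -Real.log p = Real.log t := by ring
    rw [e2]; ring
  unfold Mo
  rw [setIntegral_congr_fun measurableSet_Ioi hpt]
  set g : ℝ → ℝ := fun u => LD n (s * Real.exp (-u)) * (taylor (-Real.log p) Q).eval (Real.log u)
    with hg
  have hI3 : IntegrableOn (fun t => g (p * t)) (Ioi 0) := by
    rw [integrableOn_Ioi_comp_mul_left_iff g 0 hp0, mul_zero]
    exact hI2
  have hI4 : IntegrableOn (fun t => (p : ℝ) * g (p * t)) (Ioi 0) := hI3.const_mul _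
  have e3 : ∫ t in Ioi (0 : ℝ), (p : ℝ) * g (p * t) = ∫ t in Ioi (0 : ℝ), g t := by
    rw [integral_const_mul, integral_comp_mul_left_Ioi g 0 hp0, mul_zero, smul_eq_mul,
      ← mul_assoc, mul_inv_cancel₀ hp0.ne', one_mul]
  calc ∫ t in Ioi (0 : ℝ), ((p : ℝ) * g (p * t) - LD n (s * Real.exp (-t)) * Q.eval (Real.log t))
      = (∫ t in Ioi (0 : ℝ), (p : ℝ) * g (p * t)) -
        ∫ t in Ioi (0 : ℝ), LD n (s * Real.exp (-t)) * Q.eval (Real.log t) :=
          integral_sub hI4 hI1
    _ = (∫ t in Ioi (0 : ℝ), g t) -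
        ∫ t in Ioi (0 : ℝ), LD n (s * Real.exp (-t)) * Q.eval (Real.log t) := by rw [e3]
    _ = ∫ t in Ioi (0 : ℝ), (g t - LD n (s * Real.exp (-t)) * Q.eval (Real.log t)) :=
          (integral_sub hI2 hI1).symm
    _ = _ := by
      apply setIntegral_congr_fun measurableSet_Ioi
      intro t _
      simp only [hg, eval_sub]
      ring

/-- Vanishing of the moments of order less than `m`. -/
def Van (n : ℕ) (s : ℝ) (m : ℕ) : Prop := ∀ Q : ℝ[X], Q.degree < m → Mo n s Q = 0

lemma Van_zero (n : ℕ) (s : ℝ) : Van n s 0 := by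
  intro Q hQ
  have : Q = 0 := by
    rw [← degree_eq_bot]
    exact (Nat.WithBot.lt_zero_iff).mp (by exact_mod_cast hQ)
  rw [this]; simp [Mo]

lemma Van_step {n p m : ℕ} (hp : p.Prime) (hodd : Odd p) (hpn : ¬ p ∣ n) {s : ℝ}
    (hs : s = 1 ∨ s = -1) (h1 : NZ n s) (h2 : NZ (n * p) s) (h : Van n s m) :
    Van (n * p) s (m + 1) := by
  intro Q hQ
  rw [Mo_step hp hodd hpn hs h1 h2]
  apply h
  by_cases hQ0 : Q = 0
  · rw [hQ0]; simp
  · have hd : (taylor (-Real.log p) Q).degree = Q.degree := by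
      have h3 : taylor (-Real.log p) Q ≠ 0 := by
        intro h4
        have := leadingCoeff_taylor (-Real.log p) Q
        rw [h4, leadingCoeff_zero] at this
        exact hQ0 (leadingCoeff_eq_zero.mp this.symm)
      rw [degree_eq_natDegree h3, degree_eq_natDegree hQ0, natDegree_taylor]
    have h3 : (taylor (-Real.log p) Q - Q).degree < Q.degree :=
      lt_of_lt_of_eq (degree_sub_lt_left hd (by
        intro h4
        have := leadingCoeff_taylor (-Real.log p) Q
        rw [h4, leadingCoeff_zero] at this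
        exact hQ0 (leadingCoeff_eq_zero.mp this.symm)) (leadingCoeff_taylor _ _)) hd
    have h4 : Q.degree ≤ m := by
      rw [degree_eq_natDegree hQ0] at hQ ⊢
      have : Q.natDegree < m + 1 := by exact_mod_cast hQ
      exact_mod_cast (by omega : Q.natDegree ≤ m)
    exact lt_of_lt_of_le h3 h4

/-! ### products of distinct odd primes -/

lemma prod_odd {S : Finset ℕ} (hS : ∀ p ∈ S, p.Prime ∧ p ≠ 2) : Odd (∏ p ∈ S, p) := by
  apply Finset.prod_induction _ Odd (fun a b ha hb => ha.mul hb) odd_one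
  intro p hp
  exact (hS p hp).1.odd_of_ne_two (hS p hp).2

lemma prod_gt_two {S : Finset ℕ} (hS : ∀ p ∈ S, p.Prime ∧ p ≠ 2) (hne : S.Nonempty) :
    2 < ∏ p ∈ S, p := by
  obtain ⟨q, hq⟩ := hne
  have h1 : q ∣ ∏ p ∈ S, p := Finset.dvd_prod_of_mem _ hq
  have h2 : 0 < ∏ p ∈ S, p := Finset.prod_pos (fun p hp => (hS p hp).1.pos)
  have h3 := Nat.le_of_dvd h2 h1
  have h4 := (hS q hq).1.two_le
  have h5 := (hS q hq).2
  omega

lemma not_dvd_prod {S : Finset ℕ} (hS : ∀ p ∈ S, p.Prime ∧ p ≠ 2) {q : ℕ} (hq : q.Prime)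
    (hqS : q ∉ S) : ¬ q ∣ ∏ p ∈ S, p := by
  intro h
  obtain ⟨r, hr, hqr⟩ := (hq.prime.dvd_finsetProd_iff _).mp h
  rw [(Nat.prime_dvd_prime_iff_eq hq (hS r hr).1).mp hqr] at hqS
  exact hqS hr

lemma NZ_prod_neg {S : Finset ℕ} (hS : ∀ p ∈ S, p.Prime ∧ p ≠ 2) : NZ (∏ p ∈ S, p) (-1) := by
  rcases S.eq_empty_or_nonempty with rfl | h
  · simpa using NZ_one
  · exact NZ_of_two_lt (prod_gt_two hS h) _

lemma Van_neg {S : Finset ℕ} (hS : ∀ p ∈ S, p.Prime ∧ p ≠ 2) :
    Van (∏ p ∈ S, p) (-1) S.card := by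
  induction S using Finset.induction_on with
  | empty => exact Van_zero _ _
  | insert q S hq ih =>
    have hS' : ∀ p ∈ S, p.Prime ∧ p ≠ 2 := fun p hp => hS p (Finset.mem_insert_of_mem hp)
    have hq' := hS q (Finset.mem_insert_self _ _)
    have h2 := NZ_prod_neg hS
    rw [Finset.prod_insert hq, mul_comm] at h2 ⊢
    rw [Finset.card_insert_of_notMem hq]
    exact Van_step hq'.1 (hq'.1.odd_of_ne_two hq'.2) (not_dvd_prod hS' hq'.1 hq) (Or.inr rfl)
      (NZ_prod_neg hS') h2 (ih hS')

lemma Van_pos {S : Finset ℕ} (hS : ∀ p ∈ S, p.Prime ∧ p ≠ 2) (hne : S.Nonempty) :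
    Van (∏ p ∈ S, p) 1 (S.card - 1) := by
  induction S using Finset.induction_on with
  | empty => exact absurd hne (by simp)
  | insert q S hq ih =>
    have hS' : ∀ p ∈ S, p.Prime ∧ p ≠ 2 := fun p hp => hS p (Finset.mem_insert_of_mem hp)
    have hq' := hS q (Finset.mem_insert_self _ _)
    have h2 := NZ_of_two_lt (prod_gt_two hS hne) 1
    rcases S.eq_empty_or_nonempty with rfl | h
    · simpa using Van_zero _ _
    · rw [Finset.prod_insert hq, mul_comm] at h2 ⊢
      rw [Finset.card_insert_of_notMem hq, Nat.add_sub_cancel]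
      have hc := h.card_pos
      have e : S.card = (S.card - 1) + 1 := by omega
      rw [e]
      exact Van_step hq'.1 (hq'.1.odd_of_ne_two hq'.2) (not_dvd_prod hS' hq'.1 hq) (Or.inl rfl)
        (NZ_of_two_lt (prod_gt_two hS' h) 1) h2 (ih hS' h)

/-! ### sign changes -/

/-- one factor has constant sign -/
lemma factor_sign {s : ℝ} (hs : s = 1 ∨ s = -1) {t a : ℝ} (ht : 0 < t)
    (ha : 0 < s * a ∧ s * a < 1) :
    0 ≤ -s * ((s * Real.exp (-t) - a) * (Real.log t - Real.log (-Real.log (s * a)))) ∧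
    (t ≠ -Real.log (s * a) →
      0 < -s * ((s * Real.exp (-t) - a) * (Real.log t - Real.log (-Real.log (s * a))))) := by
  set u := -Real.log (s * a) with hu
  have hu0 : 0 < u := by
    have := Real.log_neg ha.1 ha.2
    linarith
  have hss : s * s = 1 := by rcases hs with rfl | rfl <;> norm_num
  have hsa : s * a = Real.exp (-u) := by
    rw [hu, neg_neg, Real.exp_log ha.1]
  have e : -s * ((s * Real.exp (-t) - a) * (Real.log t - Real.log u)) =
      (Real.exp (-u) - Real.exp (-t)) * (Real.log t - Real.log u) := by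
    rw [← hsa]
    linear_combination (-(Real.exp (-t)) * (Real.log t - Real.log u)) * hss
  rw [e]
  rcases lt_trichotomy t u with h | h | h
  · have h1 : Real.exp (-u) < Real.exp (-t) := Real.exp_lt_exp.mpr (by linarith)
    have h2 : Real.log t < Real.log u := Real.log_lt_log ht h
    have h3 : 0 < (Real.exp (-u) - Real.exp (-t)) * (Real.log t - Real.log u) :=
      mul_pos_of_neg_of_neg (by linarith) (by linarith)
    exact ⟨h3.le, fun _ => h3⟩
  · rw [h]; simp
  · have h1 : Real.exp (-t) < Real.exp (-u) := Real.exp_lt_exp.mpr (by linarith)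
    have h2 : Real.log u < Real.log t := Real.log_lt_log hu0 h
    have h3 : 0 < (Real.exp (-u) - Real.exp (-t)) * (Real.log t - Real.log u) :=
      mul_pos (by linarith) (by linarith)
    exact ⟨h3.le, fun _ => h3⟩

lemma prod_sign {s : ℝ} (hs : s = 1 ∨ s = -1) {t : ℝ} (ht : 0 < t) (R : Multiset ℝ)
    (hR : ∀ a ∈ R, 0 < s * a ∧ s * a < 1) :
    0 ≤ (R.map (fun a => -s * ((s * Real.exp (-t) - a) *
      (Real.log t - Real.log (-Real.log (s * a)))))).prod ∧
    (t ∉ R.map (fun a => -Real.log (s * a)) →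
      0 < (R.map (fun a => -s * ((s * Real.exp (-t) - a) *
      (Real.log t - Real.log (-Real.log (s * a)))))).prod) := by
  induction R using Multiset.induction_on with
  | empty => simp
  | cons a R ih =>
    have h1 := factor_sign hs ht (hR a (Multiset.mem_cons_self a R))
    have h2 := ih (fun b hb => hR b (Multiset.mem_cons_of_mem hb))
    rw [Multiset.map_cons, Multiset.prod_cons]
    refine ⟨mul_nonneg h1.1 h2.1, fun h => ?_⟩
    rw [Multiset.map_cons, Multiset.mem_cons, not_or] at h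
    exact mul_pos (h1.2 h.1) (h2.2 h.2)

/-- a continuous nonvanishing function on `(0,∞)` has constant sign -/
lemma const_sign {g : ℝ → ℝ} (hg : ContinuousOn g (Ioi 0)) (h0 : ∀ t ∈ Ioi (0 : ℝ), g t ≠ 0) :
    ∃ e : ℝ, ∀ t ∈ Ioi (0 : ℝ), 0 < e * g t := by
  have hpre : IsPreconnected (g '' Ioi 0) := isPreconnected_Ioi.image g hg
  refine ⟨g 1, fun t ht => ?_⟩
  by_contra hcon
  push Not at hcon
  have h1 := h0 1 (by simp)
  have ht0 := h0 t ht
  have hord := hpre.ordConnected
  rcases lt_or_gt_of_ne h1 with h | h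
  · have h3 : 0 < g t := by
      rcases lt_or_gt_of_ne ht0 with h4 | h4
      · exfalso; nlinarith [mul_pos_of_neg_of_neg h h4]
      · exact h4
    have h5 := hord.out (mem_image_of_mem g (show (1 : ℝ) ∈ Ioi 0 by simp))
      (mem_image_of_mem g ht) (show (0 : ℝ) ∈ Icc (g 1) (g t) from ⟨h.le, h3.le⟩)
    obtain ⟨x, hx, hx0⟩ := h5
    exact h0 x hx hx0
  · have h3 : g t < 0 := by
      rcases lt_or_gt_of_ne ht0 with h4 | h4
      · exact h4
      · exfalso; nlinarith [mul_pos h h4]
    have h5 := hord.out (mem_image_of_mem g ht)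
      (mem_image_of_mem g (show (1 : ℝ) ∈ Ioi 0 by simp))
      (show (0 : ℝ) ∈ Icc (g t) (g 1) from ⟨h3.le, h.le⟩)
    obtain ⟨x, hx, hx0⟩ := h5
    exact h0 x hx hx0

theorem card_roots_ge {n m : ℕ} {s : ℝ} (hs : s = 1 ∨ s = -1) (hnz : NZ n s)
    (hP : derivative (cyclotomic n ℝ) ≠ 0) (hV : Van n s m) :
    m ≤ (Multiset.filter (fun a : ℝ => 0 < s * a ∧ s * a < 1)
      (derivative (cyclotomic n ℝ)).roots).card := by
  classical
  set P := derivative (cyclotomic n ℝ) with hPdef
  set R := Multiset.filter (fun a : ℝ => 0 < s * a ∧ s * a < 1) P.roots with hRdef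
  by_contra hlt
  push Not at hlt
  have hRmem : ∀ a ∈ R, 0 < s * a ∧ s * a < 1 := fun a ha => (Multiset.mem_filter.mp ha).2
  have hRle : R ≤ P.roots := Multiset.filter_le _ _
  obtain ⟨P2, hP2⟩ := (Multiset.prod_X_sub_C_dvd_iff_le_roots hP R).mpr hRle
  have hs0 : s ≠ 0 := by rcases hs with rfl | rfl <;> norm_num
  have hss : s * s = 1 := by rcases hs with rfl | rfl <;> norm_num
  have hP2nz : ∀ x : ℝ, 0 < s * x → s * x < 1 → P2.eval x ≠ 0 := by
    intro x hx0 hx1 hx
    have hP20 : P2 ≠ 0 := by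
      rintro rfl
      rw [mul_zero] at hP2
      exact hP hP2
    have h1 : P.roots = R + P2.roots := by
      conv_lhs => rw [hP2]
      rw [roots_mul (by rw [← hP2]; exact hP), roots_multiset_prod_X_sub_C]
    have h2 : x ∈ P2.roots := (mem_roots hP20).mpr hx
    have h3 : Multiset.count x P.roots = Multiset.count x R + Multiset.count x P2.roots := by
      conv_lhs => rw [h1]
      rw [Multiset.count_add]
    have h4 : Multiset.count x R = Multiset.count x P.roots := by
      rw [hRdef, Multiset.count_filter_of_pos ⟨hx0, hx1⟩]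
    have h5 : 0 < Multiset.count x P2.roots := Multiset.count_pos.mpr h2
    omega
  -- the test polynomial
  set Q : ℝ[X] := (R.map (fun a => X - C (Real.log (-Real.log (s * a))))).prod with hQ
  have hQdeg : Q.degree < m := by
    have h1 : Q = ((R.map (fun a => Real.log (-Real.log (s * a)))).map (fun b => X - C b)).prod := by
      rw [hQ, Multiset.map_map]; rfl
    have h2 : Q.natDegree = R.card := by
      rw [h1, natDegree_multiset_prod_X_sub_C_eq_card, Multiset.card_map]
    have h3 : Q.Monic := by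
      rw [h1]; exact monic_multisetProd_X_sub_C _
    rw [degree_eq_natDegree h3.ne_zero, h2]
    exact_mod_cast hlt
  have hzero := hV Q hQdeg
  -- the nonvanishing factor
  set G : ℝ → ℝ := fun t => s * Real.exp (-t) * P2.eval (s * Real.exp (-t)) /
    (cyclotomic n ℝ).eval (s * Real.exp (-t)) with hG
  have hGc : ContinuousOn G (Ioi 0) := by
    have h1 : Continuous (fun t : ℝ => s * Real.exp (-t)) :=
      continuous_const.mul (Real.continuous_exp.comp continuous_neg)
    apply ContinuousOn.div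
    · exact (h1.mul (P2.continuous.comp h1)).continuousOn
    · exact ((cyclotomic n ℝ).continuous.comp h1).continuousOn
    · intro t ht
      exact hnz _ (exp_neg_mem ht)
  have hG0 : ∀ t ∈ Ioi (0 : ℝ), G t ≠ 0 := by
    intro t ht
    have ht' : 0 < t := ht
    have h1 : s * (s * Real.exp (-t)) = Real.exp (-t) := by rw [← mul_assoc, hss, one_mul]
    have h2 : Real.exp (-t) < 1 := by rw [Real.exp_lt_one_iff]; linarith
    apply div_ne_zero
    · apply mul_ne_zero (mul_ne_zero hs0 (Real.exp_pos _).ne')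
      apply hP2nz
      · rw [h1]; exact Real.exp_pos _
      · rw [h1]; exact h2
    · exact hnz _ (exp_neg_mem ht')
  obtain ⟨e, he⟩ := const_sign hGc hG0
  set c : ℝ := (-s) ^ R.card with hc
  have hF : ∀ t : ℝ, (c * e) * (LD n (s * Real.exp (-t)) * Q.eval (Real.log t)) =
      (e * G t) * (R.map (fun a => -s * ((s * Real.exp (-t) - a) *
      (Real.log t - Real.log (-Real.log (s * a)))))).prod := by
    intro t
    have h1 : (R.map (fun a => -s * ((s * Real.exp (-t) - a) *
      (Real.log t - Real.log (-Real.log (s * a)))))).prod =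
      c * ((R.map (fun a => s * Real.exp (-t) - a)).prod *
        (R.map (fun a => Real.log t - Real.log (-Real.log (s * a)))).prod) := by
      rw [← Multiset.prod_map_mul, hc, ← Multiset.card_map (fun a => (s * Real.exp (-t) - a) *
        (Real.log t - Real.log (-Real.log (s * a)))) R, ← Multiset.prod_replicate,
        ← Multiset.map_const', Multiset.map_map, ← Multiset.prod_map_mul]
      rfl
    have h2 : Q.eval (Real.log t) =
        (R.map (fun a => Real.log t - Real.log (-Real.log (s * a)))).prod := by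
      rw [hQ, eval_multiset_prod, Multiset.map_map]
      simp
    have h3 : P.eval (s * Real.exp (-t)) =
        (R.map (fun a => s * Real.exp (-t) - a)).prod * P2.eval (s * Real.exp (-t)) := by
      conv_lhs => rw [hP2]
      rw [eval_mul, eval_multiset_prod, Multiset.map_map]
      simp
    rw [h1, h2, hG]
    unfold LD
    rw [← hPdef, h3]
    ring
  have hnn : ∀ t ∈ Ioi (0 : ℝ), 0 ≤ (c * e) * (LD n (s * Real.exp (-t)) * Q.eval (Real.log t)) := by
    intro t ht
    rw [hF]
    exact mul_nonneg (he t ht).le (prod_sign hs ht R hRmem).1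
  have hpos : ∀ t ∈ Ioi (0 : ℝ), t ∉ R.map (fun a => -Real.log (s * a)) →
      0 < (c * e) * (LD n (s * Real.exp (-t)) * Q.eval (Real.log t)) := by
    intro t ht h
    rw [hF]
    exact mul_pos (he t ht) ((prod_sign hs ht R hRmem).2 h)
  have hint : IntegrableOn (fun t => (c * e) * (LD n (s * Real.exp (-t)) *
      Q.eval (Real.log t))) (Ioi 0) := (integrable_LD hnz Q).const_mul _
  have hI : ∫ t in Ioi (0 : ℝ), (c * e) * (LD n (s * Real.exp (-t)) * Q.eval (Real.log t)) = 0 := by
    rw [integral_const_mul]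
    have : ∫ t in Ioi (0 : ℝ), LD n (s * Real.exp (-t)) * Q.eval (Real.log t) = 0 := hzero
    rw [this, mul_zero]
  have hae : 0 ≤ᵐ[volume.restrict (Ioi (0 : ℝ))] (fun t => (c * e) * (LD n (s * Real.exp (-t)) *
      Q.eval (Real.log t))) := by
    rw [Filter.EventuallyLE, ae_restrict_iff' measurableSet_Ioi]
    exact Filter.Eventually.of_forall hnn
  have hz := (integral_eq_zero_iff_of_nonneg_ae hae hint).mp hI
  rw [Filter.EventuallyEq, ae_restrict_iff' measurableSet_Ioi, ae_iff] at hz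
  have hsub : Ioi (0 : ℝ) \ ((R.map (fun a => -Real.log (s * a))).toFinset : Set ℝ) ⊆
      {a | ¬(a ∈ Ioi (0 : ℝ) → (c * e) * (LD n (s * Real.exp (-a)) * Q.eval (Real.log a)) =
        (0 : ℝ → ℝ) a)} := by
    intro t ht
    simp only [Set.mem_ofPred_eq, Pi.zero_apply]
    intro h
    have h1 := hpos t ht.1 (fun h2 => ht.2 (by
      rw [Finset.mem_coe, Multiset.mem_toFinset]; exact h2))
    exact h1.ne' (h ht.1)
  have h0 : volume (Ioi (0 : ℝ) \ ((R.map (fun a => -Real.log (s * a))).toFinset : Set ℝ)) = 0 :=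
    measure_mono_null hsub hz
  have h1 : volume (Ioi (0 : ℝ)) = 0 := by
    have h2 : volume (((R.map (fun a => -Real.log (s * a))).toFinset : Set ℝ)) = 0 :=
      (Finset.finite_toSet _).measure_zero _
    have h3 : Ioi (0 : ℝ) ⊆ (Ioi (0 : ℝ) \ ((R.map (fun a => -Real.log (s * a))).toFinset : Set ℝ))
        ∪ ((R.map (fun a => -Real.log (s * a))).toFinset : Set ℝ) := by
      intro x hx
      by_cases h : x ∈ ((R.map (fun a => -Real.log (s * a))).toFinset : Set ℝ)
      · exact Or.inr h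
      · exact Or.inl ⟨hx, h⟩
    exact measure_mono_null h3 (measure_union_null h0 h2)
  rw [Real.volume_Ioi] at h1
  exact ENNReal.top_ne_zero h1

lemma derivative_cyclotomic_ne_zero {n : ℕ} (hn : 0 < n) : derivative (cyclotomic n ℝ) ≠ 0 := by
  intro h
  have h1 := derivative_eq_zero.mp h
  rw [natDegree_cyclotomic] at h1
  exact (Nat.totient_pos.mpr hn).ne' h1

/-- lower bounds for the number of critical points in `(-1,0)` and in `(0,1)`. -/
theorem main_lower (S : Finset ℕ) (hS : ∀ p ∈ S, p.Prime ∧ p ≠ 2) (hne : S.Nonempty) :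
    S.card ≤ ((derivative (cyclotomic (∏ p ∈ S, p) ℝ)).roots.filter
      (fun x => -1 < x ∧ x < 0)).card ∧
    S.card - 1 ≤ ((derivative (cyclotomic (∏ p ∈ S, p) ℝ)).roots.filter
      (fun x => 0 < x ∧ x < 1)).card := by
  have hP := derivative_cyclotomic_ne_zero (n := ∏ p ∈ S, p) (by
    have := prod_gt_two hS hne; omega)
  constructor
  · have h := card_roots_ge (Or.inr rfl) (NZ_prod_neg hS) hP (Van_neg hS)
    refine h.trans_eq ?_
    congr 1
    apply Multiset.filter_congr
    intro x _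
    constructor
    · rintro ⟨h1, h2⟩; constructor <;> linarith
    · rintro ⟨h1, h2⟩; constructor <;> linarith
  · have h := card_roots_ge (Or.inl rfl) (NZ_of_two_lt (prod_gt_two hS hne) 1) hP (Van_pos hS hne)
    refine h.trans_eq ?_
    congr 1
    apply Multiset.filter_congr
    intro x _
    simp

theorem main_total (S : Finset ℕ) (hS : ∀ p ∈ S, p.Prime ∧ p ≠ 2) (hne : S.Nonempty) :
    2 * S.card - 1 ≤ (derivative (cyclotomic (∏ p ∈ S, p) ℝ)).roots.card := by
  obtain ⟨h1, h2⟩ := main_lower S hS hne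
  have h3 : ((derivative (cyclotomic (∏ p ∈ S, p) ℝ)).roots.filter
      (fun x => -1 < x ∧ x < 0)) + ((derivative (cyclotomic (∏ p ∈ S, p) ℝ)).roots.filter
      (fun x => 0 < x ∧ x < 1)) ≤ (derivative (cyclotomic (∏ p ∈ S, p) ℝ)).roots := by
    rw [Multiset.filter_add_filter]
    have h4 : Multiset.filter (fun a : ℝ => (-1 < a ∧ a < 0) ∧ 0 < a ∧ a < 1)
        (derivative (cyclotomic (∏ p ∈ S, p) ℝ)).roots = 0 := by
      rw [Multiset.filter_eq_nil]
      rintro a _ ⟨⟨_, h5⟩, h6, _⟩
      exact absurd h5 (not_lt.mpr h6.le)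
    rw [h4, add_zero]
    exact Multiset.filter_le _ _
  have h5 := Multiset.card_le_card h3
  rw [Multiset.card_add] at h5
  omega

end Pool.Agent.CycCrit
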