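import Pool.Agent.CycCrit.Two

/-!
# Critical points of cyclotomic polynomials of odd order: they are in `(-1, 1)` and not `0`
-/

set_option autoImplicit false

namespace Pool.Agent.CycCrit

open Polynomial

theorem root_mem_odd {n : ℕ} (hn2 : 2 < n) (hodd : Odd n) {x : ℝ}
    (hx : (derivative (cyclotomic n ℝ)).IsRoot x) : -1 < x ∧ x < 1 := by
  have hdeg : 0 < (cyclotomic n ℂ).degree := degree_cyclotomic_pos n ℂ (by omega)
  have hroot : ∀ z ∈ (cyclotomic n ℂ).rootSet ℂ, ‖z‖ = 1 ∧ z ^ n = 1 ∧ z ≠ 1 := by
    intro z hz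
    have h1 : (cyclotomic n ℂ).IsRoot z := by
      have := (mem_rootSet.1 hz).2
      simpa [IsRoot.def, coe_aeval_eq_eval] using this
    haveI : NeZero (n : ℂ) := ⟨by exact_mod_cast (by omega : n ≠ 0)⟩
    have h2 := (isRoot_cyclotomic_iff).1 h1
    refine ⟨Complex.norm_eq_one_of_pow_eq_one h2.pow_eq_one (by omega), h2.pow_eq_one, ?_⟩
    exact h2.ne_one (by omega)
  have hxr : (x : ℂ) ∈ (derivative (cyclotomic n ℂ)).rootSet ℂ := by
    rw [mem_rootSet]
    have hmap : derivative (cyclotomic n ℂ) = (derivative (cyclotomic n ℝ)).map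
        (algebraMap ℝ ℂ) := by
      rw [← derivative_map, map_cyclotomic]
    refine ⟨?_, ?_⟩
    · intro h
      have h1 := derivative_eq_zero.mp h
      rw [natDegree_cyclotomic] at h1
      exact (Nat.totient_pos.mpr (by omega)).ne' h1
    · rw [hmap, aeval_def, Algebra.algebraMap_self, eval₂_id]
      have h3 := eval_map_algebraMap (derivative (cyclotomic n ℝ)) (x : ℂ)
      rw [h3]
      have h4 : aeval (algebraMap ℝ ℂ x) (derivative (cyclotomic n ℝ)) =
          algebraMap ℝ ℂ ((derivative (cyclotomic n ℝ)).eval x) := by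
        rw [aeval_algebraMap_apply, coe_aeval_eq_eval]
      have h5 : (derivative (cyclotomic n ℝ)).eval x = 0 := hx
      have h6 : (algebraMap ℝ ℂ x) = (x : ℂ) := rfl
      rw [← h6, h4, h5, map_zero]
  have hc := rootSet_derivative_subset_convexHull_rootSet hdeg hxr
  constructor
  · have hconv : Convex ℝ {z : ℂ | -1 < z.re} := convex_halfSpace_re_gt (-1)
    have h1 : (cyclotomic n ℂ).rootSet ℂ ⊆ {z : ℂ | -1 < z.re} := by
      intro z hz
      obtain ⟨h2, h3, h4⟩ := hroot z hz
      show -1 < z.re
      by_contra hcon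
      push Not at hcon
      have h5 := Complex.abs_re_le_norm z
      rw [h2] at h5
      have h6 : z.re = -1 := le_antisymm hcon (by linarith [neg_abs_le z.re])
      have h7 : z.im = 0 := by
        have := Complex.sq_norm z
        rw [h2, Complex.normSq_apply, h6] at this
        nlinarith
      have h8 : z = -1 := by
        apply Complex.ext
        · simpa using h6
        · simpa using h7
      rw [h8, hodd.neg_one_pow] at h3
      norm_num at h3
    have := convexHull_min h1 hconv hc
    simpa using this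
  · have hconv : Convex ℝ {z : ℂ | z.re < 1} := convex_halfSpace_re_lt 1
    have h1 : (cyclotomic n ℂ).rootSet ℂ ⊆ {z : ℂ | z.re < 1} := by
      intro z hz
      obtain ⟨h2, h3, h4⟩ := hroot z hz
      show z.re < 1
      by_contra hcon
      push Not at hcon
      have h5 := Complex.abs_re_le_norm z
      rw [h2] at h5
      have h6 : z.re = 1 := le_antisymm (by linarith [le_abs_self z.re]) hcon
      have h7 : z.im = 0 := by
        have := Complex.sq_norm z
        rw [h2, Complex.normSq_apply, h6] at this
        nlinarith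
      apply h4
      apply Complex.ext
      · simpa using h6
      · simpa using h7
    have := convexHull_min h1 hconv hc
    simpa using this

theorem der_zero_step {n p : ℕ} (hn : 1 < n) (hp : p.Prime) (hpn : ¬ p ∣ n)
    (h : (derivative (cyclotomic n ℝ)).eval 0 ≠ 0) :
    (derivative (cyclotomic (n * p) ℝ)).eval 0 ≠ 0 := by
  have e := cyclotomic_expand_eq_cyclotomic_mul hp (n := n) hpn ℝ
  have e2 := congrArg (fun P => eval 0 (derivative P)) e
  simp only [derivative_expand, derivative_mul, eval_mul, eval_add, expand_eval, eval_natCast,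
    eval_pow, eval_X] at e2
  have h1 : (cyclotomic n ℝ).eval 0 = 1 := by
    rw [← coeff_zero_eq_eval_zero, cyclotomic_coeff_zero ℝ hn]
  have h2 : (cyclotomic (n * p) ℝ).eval 0 = 1 := by
    rw [← coeff_zero_eq_eval_zero, cyclotomic_coeff_zero ℝ (by
      have := hp.two_le
      nlinarith)]
  have hq1 : (0 : ℝ) ^ (p - 1) = 0 := zero_pow (by
    have := hp.two_le
    omega)
  rw [h1, h2, hq1] at e2
  intro h3
  rw [h3] at e2
  apply h
  linarith

theorem der_zero_prime {p : ℕ} (hp : p.Prime) : (derivative (cyclotomic p ℝ)).eval 0 ≠ 0 := by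
  haveI := Fact.mk hp
  have h3 : (derivative (cyclotomic p ℝ)).eval 0 = 1 := by
    rw [← coeff_zero_eq_eval_zero, coeff_derivative, cyclotomic_prime, finsetSum_coeff]
    have h4 : ∀ i ∈ Finset.range p, ((X : ℝ[X]) ^ i).coeff (0 + 1) = if i = 1 then 1 else 0 := by
      intro i _
      rw [coeff_X_pow]
      simp [eq_comm]
    rw [Finset.sum_congr rfl h4, Finset.sum_ite_eq' , if_pos (Finset.mem_range.2 hp.one_lt)]
    norm_num
  rw [h3]
  norm_num

theorem der_zero_prod (S : Finset ℕ) (hS : ∀ p ∈ S, p.Prime) (hne : S.Nonempty) :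
    1 < ∏ p ∈ S, p ∧ (derivative (cyclotomic (∏ p ∈ S, p) ℝ)).eval 0 ≠ 0 := by
  classical
  induction S using Finset.induction_on with
  | empty => exact absurd hne (by simp)
  | insert a S ha ih =>
    have hap := hS a (Finset.mem_insert_self _ _)
    rw [Finset.prod_insert ha]
    rcases S.eq_empty_or_nonempty with rfl | hne'
    · rw [Finset.prod_empty, mul_one]
      exact ⟨hap.one_lt, der_zero_prime hap⟩
    · obtain ⟨h1, h2⟩ := ih (fun p hp => hS p (Finset.mem_insert_of_mem hp)) hne'
      refine ⟨by nlinarith [hap.two_le], ?_⟩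
      rw [mul_comm]
      refine der_zero_step h1 hap (fun h => ?_) h2
      obtain ⟨b, hb, hab⟩ := (Prime.dvd_finset_prod_iff hap.prime _).1 h
      have hbp := hS b (Finset.mem_insert_of_mem hb)
      have := (Nat.prime_dvd_prime_iff_eq hap hbp).1 hab
      exact ha (this ▸ hb)

end Pool.Agent.CycCrit
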