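import Mathlib

/-!
# Sign changes of iterated partial sums of the coefficients (helper44)

Every root of a real polynomial in `(0, 1)` forces one more sign change of the third partial sums of
the coefficients.
-/

set_option autoImplicit false

namespace Pool.Agent.CycCrit

open Polynomial Filter Topology

/-- The partial sums. -/
def psum (c : ℕ → ℝ) (n : ℕ) : ℝ := ∑ i ∈ Finset.range (n + 1), c i

/-- `c` has at least `v` sign changes. -/
def Alt (c : ℕ → ℝ) (v : ℕ) : Prop :=
  ∃ (m : ℕ → ℕ) (s : ℝ), (∀ i, i < v → m i < m (i + 1)) ∧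
    ∀ i, i ≤ v → 0 < s * (-1) ^ i * c (m i)

/-- Multiplication by `a - X` on the level of coefficients. -/
def tw (a : ℝ) (h : ℕ → ℝ) : ℕ → ℝ
  | 0 => a * h 0
  | n + 1 => a * h (n + 1) - h n

theorem psum_tw (a : ℝ) (h : ℕ → ℝ) : psum (tw a h) = tw a (psum h) := by
  funext n
  induction n with
  | zero => simp [psum, tw]
  | succ n ih =>
    have h1 : psum (tw a h) (n + 1) = psum (tw a h) n + tw a h (n + 1) := by
      simp only [psum]
      rw [Finset.sum_range_succ]
    have h2 : psum h (n + 1) = psum h n + h (n + 1) := by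
      simp only [psum]
      rw [Finset.sum_range_succ]
    rw [h1, ih]
    cases n with
    | zero =>
      simp only [tw, h2]
      simp only [psum]
      simp
      ring
    | succ k =>
      have h3 : psum h (k + 1) = psum h k + h (k + 1) := by
        simp only [psum]
        rw [Finset.sum_range_succ]
      simp only [tw, h2, h3]
      ring

theorem psum_neg (c : ℕ → ℝ) : psum (fun n => - c n) = fun n => - psum c n := by
  funext n
  simp [psum]

theorem alt_neg {c : ℕ → ℝ} {v : ℕ} (h : Alt c v) : Alt (fun n => - c n) v := by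
  obtain ⟨m, s, hm, hs⟩ := h
  refine ⟨m, -s, hm, fun i hi => ?_⟩
  have := hs i hi
  have e : -s * (-1) ^ i * - c (m i) = s * (-1) ^ i * c (m i) := by ring
  rw [e]
  exact this

theorem pick {c : ℕ → ℝ} {a t : ℝ} (ha : 0 < a) (F : Finset ℕ)
    (h : 0 < t * ∑ j ∈ F, c j * a ^ j) : ∃ j ∈ F, 0 < t * c j := by
  by_contra hc
  push Not at hc
  have : t * ∑ j ∈ F, c j * a ^ j ≤ 0 := by
    rw [Finset.mul_sum]
    refine Finset.sum_nonpos fun j hj => ?_
    have h1 := hc j hj
    have h2 : 0 ≤ a ^ j := (pow_pos ha j).le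
    have e : t * (c j * a ^ j) = (t * c j) * a ^ j := by ring
    rw [e]
    exact mul_nonpos_of_nonpos_of_nonneg h1 h2
  linarith

theorem sum_tw (a : ℝ) (h : ℕ → ℝ) (n : ℕ) :
    ∑ j ∈ Finset.range (n + 1), tw a h j * a ^ j = a ^ (n + 1) * h n := by
  induction n with
  | zero => simp [tw]
  | succ n ih =>
    rw [Finset.sum_range_succ, ih]
    simp only [tw]
    ring

theorem step {h : ℕ → ℝ} {a : ℝ} {v : ℕ} (ha0 : 0 < a) (hA : Alt h v)
    (hlim : Tendsto (fun n : ℕ => a ^ (n + 1) * h n) atTop (𝓝 0)) : Alt (tw a h) (v + 1) := by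
  obtain ⟨m, s, hm, hs⟩ := hA
  have hv := hs v le_rfl
  have hneg : s * (-1) ^ (v + 1) * (a ^ (m v + 1) * h (m v)) < 0 := by
    have h1 : 0 < a ^ (m v + 1) * (s * (-1) ^ v * h (m v)) := mul_pos (pow_pos ha0 _) hv
    have e : s * (-1) ^ (v + 1) * (a ^ (m v + 1) * h (m v)) =
        - (a ^ (m v + 1) * (s * (-1) ^ v * h (m v))) := by ring
    rw [e]
    linarith
  have hl : Tendsto (fun n : ℕ => s * (-1) ^ (v + 1) * (a ^ (n + 1) * h n)) atTop (𝓝 0) := by
    have := hlim.const_mul (s * (-1) ^ (v + 1))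
    simpa using this
  have hev := hl.eventually_const_lt hneg
  obtain ⟨n, hn1, hn2⟩ := (hev.and (eventually_gt_atTop (m v))).exists
  let M : ℕ → ℕ := fun i => if i ≤ v then m i else n
  have hMi : ∀ i, i ≤ v → M i = m i := fun i hi => by simp [M, hi]
  have hMv : M (v + 1) = n := by simp [M]
  have hMlt : ∀ i, i ≤ v → M i < M (i + 1) := by
    intro i hi
    rcases Nat.lt_or_ge i v with h1 | h1
    · rw [hMi i hi, hMi (i + 1) h1]
      exact hm i h1
    · have : i = v := le_antisymm hi h1
      subst this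
      rw [hMi i le_rfl, hMv]
      exact hn2
  have hdiff : ∀ i, i ≤ v → 0 < s * (-1) ^ (i + 1) *
      (a ^ (M (i + 1) + 1) * h (M (i + 1)) - a ^ (M i + 1) * h (M i)) := by
    intro i hi
    rcases Nat.lt_or_ge i v with h1 | h1
    · rw [hMi i hi, hMi (i + 1) h1]
      have p1 := hs i hi
      have p2 := hs (i + 1) h1
      have q1 : 0 < a ^ (m i + 1) * (s * (-1) ^ i * h (m i)) := mul_pos (pow_pos ha0 _) p1
      have q2 : 0 < a ^ (m (i + 1) + 1) * (s * (-1) ^ (i + 1) * h (m (i + 1))) :=
        mul_pos (pow_pos ha0 _) p2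
      have e : s * (-1) ^ (i + 1) *
          (a ^ (m (i + 1) + 1) * h (m (i + 1)) - a ^ (m i + 1) * h (m i)) =
          a ^ (m (i + 1) + 1) * (s * (-1) ^ (i + 1) * h (m (i + 1))) +
          a ^ (m i + 1) * (s * (-1) ^ i * h (m i)) := by ring
      rw [e]
      linarith
    · have : i = v := le_antisymm hi h1
      subst this
      rw [hMi i le_rfl, hMv, mul_sub]
      linarith
  have key : ∀ i, i ≤ v → ∃ j, M i < j ∧ j ≤ M (i + 1) ∧ 0 < s * (-1) ^ (i + 1) * tw a h j := by
    intro i hi
    have hlt := hMlt i hi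
    have e : ∑ j ∈ Finset.Ico (M i + 1) (M (i + 1) + 1), tw a h j * a ^ j =
        a ^ (M (i + 1) + 1) * h (M (i + 1)) - a ^ (M i + 1) * h (M i) := by
      rw [Finset.sum_Ico_eq_sub _ (by omega), sum_tw, sum_tw]
    have h1 := hdiff i hi
    rw [← e] at h1
    obtain ⟨j, hj, hj2⟩ := pick ha0 _ h1
    rw [Finset.mem_Ico] at hj
    exact ⟨j, by omega, by omega, hj2⟩
  have key0 : ∃ j, j ≤ M 0 ∧ 0 < s * tw a h j := by
    have h1 := hs 0 (Nat.zero_le v)
    have h2 : 0 < s * ∑ j ∈ Finset.range (M 0 + 1), tw a h j * a ^ j := by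
      rw [sum_tw, hMi 0 (Nat.zero_le v)]
      have q : 0 < a ^ (m 0 + 1) * (s * (-1) ^ 0 * h (m 0)) := mul_pos (pow_pos ha0 _) h1
      have e : s * (a ^ (m 0 + 1) * h (m 0)) = a ^ (m 0 + 1) * (s * (-1) ^ 0 * h (m 0)) := by
        ring
      rw [e]
      exact q
    obtain ⟨j, hj, hj2⟩ := pick ha0 _ h2
    rw [Finset.mem_range] at hj
    exact ⟨j, by omega, hj2⟩
  choose! f hf1 hf2 hf3 using key
  obtain ⟨j0, hj0, hj0'⟩ := key0
  let m' : ℕ → ℕ := fun i => match i with
    | 0 => j0
    | k + 1 => f k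
  refine ⟨m', s, ?_, ?_⟩
  · intro i hi
    cases i with
    | zero =>
      change j0 < f 0
      exact lt_of_le_of_lt hj0 (hf1 0 (Nat.zero_le v))
    | succ k =>
      change f k < f (k + 1)
      exact lt_of_le_of_lt (hf2 k (by omega)) (hf1 (k + 1) (by omega))
  · intro i hi
    cases i with
    | zero =>
      change 0 < s * (-1) ^ 0 * tw a h j0
      rw [pow_zero, mul_one]
      exact hj0'
    | succ k =>
      change 0 < s * (-1) ^ (k + 1) * tw a h (f k)
      exact hf3 k (by omega)

theorem psum_bound {c : ℕ → ℝ} {K : ℝ} {k : ℕ} (hK : 0 ≤ K)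
    (h : ∀ m : ℕ, |c m| ≤ K * ((m : ℝ) + 1) ^ k) (m : ℕ) :
    |psum c m| ≤ K * ((m : ℝ) + 1) ^ (k + 1) := by
  unfold psum
  calc |∑ i ∈ Finset.range (m + 1), c i| ≤ ∑ i ∈ Finset.range (m + 1), |c i| :=
        Finset.abs_sum_le_sum_abs _ _
    _ ≤ ∑ _i ∈ Finset.range (m + 1), K * ((m : ℝ) + 1) ^ k := by
        refine Finset.sum_le_sum fun i hi => (h i).trans ?_
        rw [Finset.mem_range] at hi
        have : (i : ℝ) ≤ m := by exact_mod_cast (by omega : i ≤ m)
        have h0 : (0 : ℝ) ≤ (i : ℝ) + 1 := by positivity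
        gcongr
    _ = K * ((m : ℝ) + 1) ^ (k + 1) := by
        rw [Finset.sum_const, Finset.card_range, nsmul_eq_mul]
        push_cast
        ring

theorem coeff_bound (Q : ℝ[X]) : ∃ K : ℝ, 0 ≤ K ∧ ∀ m : ℕ, |Q.coeff m| ≤ K := by
  refine ⟨∑ i ∈ Finset.range (Q.natDegree + 1), |Q.coeff i|,
    Finset.sum_nonneg fun _ _ => abs_nonneg _, fun m => ?_⟩
  rcases Nat.lt_or_ge Q.natDegree m with h | h
  · rw [coeff_eq_zero_of_natDegree_lt h, abs_zero]
    exact Finset.sum_nonneg fun _ _ => abs_nonneg _
  · exact Finset.single_le_sum (f := fun i => |Q.coeff i|) (fun _ _ => abs_nonneg _)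
      (Finset.mem_range.2 (by omega))

theorem lim_zero (Q : ℝ[X]) {a : ℝ} (ha0 : 0 < a) (ha1 : a < 1) :
    Tendsto (fun n : ℕ => a ^ (n + 1) * psum (psum (psum Q.coeff)) n) atTop (𝓝 0) := by
  obtain ⟨K, hK, hQ⟩ := coeff_bound Q
  have h3 : ∀ m : ℕ, |psum (psum (psum Q.coeff)) m| ≤ K * ((m : ℝ) + 1) ^ 3 := by
    refine psum_bound hK (psum_bound hK (psum_bound hK fun m => ?_))
    rw [pow_zero, mul_one]
    exact hQ m
  have ha : |a| < 1 := by rw [abs_of_pos ha0]; exact ha1
  have h1 := tendsto_pow_const_mul_const_pow_of_abs_lt_one 3 ha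
  have h2 := (h1.comp (tendsto_add_atTop_nat 1)).const_mul K
  rw [mul_zero] at h2
  refine squeeze_zero_norm (fun n => ?_) h2
  rw [Real.norm_eq_abs, abs_mul, abs_of_pos (pow_pos ha0 _)]
  have := h3 n
  have hp := pow_pos ha0 (n + 1)
  simp only [Function.comp]
  push_cast
  calc a ^ (n + 1) * |psum (psum (psum Q.coeff)) n|
      ≤ a ^ (n + 1) * (K * ((n : ℝ) + 1) ^ 3) := mul_le_mul_of_nonneg_left this hp.le
    _ = K * (((n : ℝ) + 1) ^ 3 * a ^ (n + 1)) := by ring

theorem coeff_mul_tw (a : ℝ) (Q : ℝ[X]) :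
    ((X - C a) * Q).coeff = fun n => - tw a Q.coeff n := by
  funext n
  rw [sub_mul, coeff_sub, coeff_C_mul]
  cases n with
  | zero => simp [tw]
  | succ k =>
    rw [coeff_X_mul]
    simp only [tw]
    ring

theorem psum3_mul (a : ℝ) (Q : ℝ[X]) :
    psum (psum (psum ((X - C a) * Q).coeff)) =
      fun n => - tw a (psum (psum (psum Q.coeff))) n := by
  rw [coeff_mul_tw, psum_neg, psum_tw, psum_neg, psum_tw, psum_neg, psum_tw]

theorem psum_inj {c : ℕ → ℝ} (h : ∀ n, psum c n = 0) (n : ℕ) : c n = 0 := by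
  cases n with
  | zero =>
    have := h 0
    simpa [psum] using this
  | succ k =>
    have h1 := h (k + 1)
    have h2 := h k
    unfold psum at h1 h2
    rw [Finset.sum_range_succ, h2, zero_add] at h1
    exact h1

theorem alt_prod (s : Multiset ℝ) : ∀ H : ℝ[X], H ≠ 0 → (∀ a ∈ s, 0 < a ∧ a < 1) →
    Alt (psum (psum (psum ((s.map fun a => X - C a).prod * H).coeff))) s.card := by
  induction s using Multiset.induction_on with
  | empty =>
    intro H hH _
    simp only [Multiset.map_zero, Multiset.prod_zero, one_mul, Multiset.card_zero]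
    have hex : ∃ n, psum (psum (psum H.coeff)) n ≠ 0 := by
      by_contra hc
      push Not at hc
      apply hH
      ext n
      rw [coeff_zero]
      exact psum_inj (psum_inj (psum_inj hc)) n
    obtain ⟨n, hn⟩ := hex
    refine ⟨fun _ => n, psum (psum (psum H.coeff)) n, fun i hi => absurd hi (by omega),
      fun i hi => ?_⟩
    have : i = 0 := by omega
    subst this
    rw [pow_zero, mul_one]
    exact mul_self_pos.2 hn
  | cons a s ih =>
    intro H hH hs
    have ha := hs a (Multiset.mem_cons_self a s)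
    have h1 := ih H hH fun b hb => hs b (Multiset.mem_cons_of_mem hb)
    rw [Multiset.map_cons, Multiset.prod_cons, Multiset.card_cons, mul_assoc, psum3_mul]
    exact alt_neg (step ha.1 h1 (lim_zero _ ha.1 ha.2))

/-- Roots in `(0, 1)` give sign changes of the third partial sums of the coefficients. -/
theorem alt_of_roots (P : ℝ[X]) (hP : P ≠ 0) :
    Alt (psum (psum (psum P.coeff))) (P.roots.countP (fun x => 0 < x ∧ x < 1)) := by
  classical
  set t : Multiset ℝ := P.roots.filter (fun x => 0 < x ∧ x < 1) with ht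
  have hdvd : (t.map fun a => X - C a).prod ∣ P := by
    have h1 : (P.roots.map fun a => X - C a).prod ∣ P := prod_multiset_X_sub_C_dvd P
    refine dvd_trans ?_ h1
    exact Multiset.prod_dvd_prod_of_le (Multiset.map_le_map (Multiset.filter_le _ _))
  obtain ⟨H, hH⟩ := hdvd
  have hH0 : H ≠ 0 := by
    rintro rfl
    rw [mul_zero] at hH
    exact hP hH
  have h2 := alt_prod t H hH0 fun a ha => (Multiset.mem_filter.1 ha).2
  rw [← hH] at h2
  have h3 : P.roots.countP (fun x => 0 < x ∧ x < 1) = t.card := by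
    rw [ht, Multiset.countP_eq_card_filter]
  rw [h3]
  exact h2

/-- The number of sign changes is at most the number of places where a sign function changes. -/
theorem alt_le {c : ℕ → ℝ} {v : ℕ} (hc : Alt c v) (b : ℕ → Bool)
    (hb : ∀ i, (b i = true → 0 ≤ c i) ∧ (b i = false → c i ≤ 0)) (F : Finset ℕ)
    (hF : ∀ i, b i ≠ b (i + 1) → i ∈ F) : v ≤ F.card := by
  obtain ⟨m, s, hm, hs⟩ := hc
  have hne : ∀ i, i < v → b (m i) ≠ b (m (i + 1)) := by
    intro i hi he
    have h1 := hs i hi.le
    have h2 := hs (i + 1) hi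
    have e2 : s * (-1) ^ (i + 1) * c (m (i + 1)) = - (s * (-1) ^ i * c (m (i + 1))) := by ring
    rw [e2] at h2
    set t := s * (-1) ^ i
    have h3 : t * c (m (i + 1)) < 0 := by linarith
    cases hbi : b (m i) with
    | true =>
      have c1 := (hb (m i)).1 hbi
      have c2 := (hb (m (i + 1))).1 (by rw [← he]; exact hbi)
      have t1 : 0 < t := by
        by_contra hc
        push Not at hc
        have := mul_nonpos_of_nonpos_of_nonneg hc c1
        linarith
      have := mul_nonneg t1.le c2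
      linarith
    | false =>
      have c1 := (hb (m i)).2 hbi
      have c2 := (hb (m (i + 1))).2 (by rw [← he]; exact hbi)
      have t1 : t < 0 := by
        by_contra hc
        push Not at hc
        have := mul_nonpos_of_nonneg_of_nonpos hc c1
        linarith
      have := mul_nonneg_of_nonpos_of_nonpos t1.le c2
      linarith
  have hex : ∀ i, i < v → ∃ j, m i ≤ j ∧ j < m (i + 1) ∧ j ∈ F := by
    intro i hi
    by_contra hcon
    push Not at hcon
    have hconst : ∀ k, m i + k ≤ m (i + 1) → b (m i + k) = b (m i) := by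
      intro k
      induction k with
      | zero => intro _; rfl
      | succ k ih =>
        intro hk
        have h1 := ih (by omega)
        by_contra h2
        have h3 : b (m i + k) ≠ b (m i + k + 1) := by
          intro h4
          apply h2
          rw [← h1, h4]
          rfl
        exact hcon (m i + k) (by omega) (by omega) (hF _ h3)
    have hmi := hm i hi
    have h5 := hconst (m (i + 1) - m i) (by omega)
    have h6 : m i + (m (i + 1) - m i) = m (i + 1) := by omega
    rw [h6] at h5
    exact hne i hi h5.symm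
  choose! f hf1 hf2 hf3 using hex
  have hmono : ∀ i k, i ≤ k → k ≤ v → m i ≤ m k := by
    intro i k hik
    induction k, hik using Nat.le_induction with
    | base => intro _; exact le_rfl
    | succ k hk ih =>
      intro hkv
      exact (ih (by omega)).trans (hm k (by omega)).le
  have hinj : Set.InjOn f (Finset.range v : Set ℕ) := by
    intro i hi k hk hik
    rw [Finset.coe_range, Set.mem_Iio] at hi hk
    rcases Nat.lt_trichotomy i k with h | h | h
    · exfalso
      have h1 := hf2 i hi
      have h2 := hf1 k hk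
      have h3 := hmono (i + 1) k h hk.le
      omega
    · exact h
    · exfalso
      have h1 := hf2 k hk
      have h2 := hf1 i hi
      have h3 := hmono (k + 1) i h hi.le
      omega
  calc v = (Finset.range v).card := (Finset.card_range v).symm
    _ ≤ F.card := Finset.card_le_card_of_injOn f
        (fun i hi => hf3 i (by simpa using hi)) hinj

end Pool.Agent.CycCrit
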