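import Pool.Agent.CycCrit.Pattern

/-!
# The functions `t/(e^t - 1)` and `t/(e^t + 1)` and their derivatives in the logarithmic scale
-/

set_option autoImplicit false

namespace Pool.Agent.CycCrit

open Set

theorem chainPM {N M : ℝ → ℝ} {a : ℝ} (hd : ∀ t, HasDerivAt N (M t) t) (h0 : 0 ≤ N 0)
    (hM : PM M a) (hb : ∃ b, 0 < b ∧ N b < 0) : ∃ z, PM N z := by
  obtain ⟨a0, a1, a2⟩ := hM
  obtain ⟨b, b0, hb⟩ := hb
  have hc : Continuous N := continuous_iff_continuousAt.2 fun t => (hd t).continuousAt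
  have hI : StrictMonoOn N (Icc 0 a) := strictMonoOn_of_deriv_pos (convex_Icc 0 a)
    hc.continuousOn fun t ht => by
      rw [interior_Icc] at ht
      rw [(hd t).deriv]
      exact a1 t ht.1 ht.2
  have hD : StrictAntiOn N (Ici a) := strictAntiOn_of_deriv_neg (convex_Ici a)
    hc.continuousOn fun t ht => by
      rw [interior_Ici] at ht
      rw [(hd t).deriv]
      exact a2 t ht
  have hNa : 0 < N a := h0.trans_lt (hI ⟨le_rfl, a0.le⟩ ⟨a0.le, le_rfl⟩ a0)
  have hab : a < b := by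
    by_contra hcon
    push Not at hcon
    have := hI.monotoneOn ⟨le_rfl, a0.le⟩ ⟨b0.le, hcon⟩ b0.le
    linarith
  obtain ⟨z, hz, hz0⟩ : (0 : ℝ) ∈ N '' Icc a b :=
    intermediate_value_Icc' hab.le hc.continuousOn ⟨hb.le, hNa.le⟩
  have hz1 : a < z := by
    refine lt_of_le_of_ne hz.1 fun e => ?_
    rw [e, hz0] at hNa
    exact lt_irrefl _ hNa
  refine ⟨z, a0.trans hz1, fun t ht htz => ?_, fun t htz => ?_⟩
  · rcases le_or_gt t a with h | h
    · have := hI ⟨le_rfl, a0.le⟩ ⟨ht.le, h⟩ ht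
      linarith
    · have := hD (show t ∈ Ici a from h.le) (show z ∈ Ici a from hz1.le) htz
      linarith
  · have := hD (show z ∈ Ici a from hz1.le) (show t ∈ Ici a from (hz1.trans htz).le) htz
    linarith

theorem chainPMP {N M : ℝ → ℝ} {a : ℝ} (hd : ∀ t, HasDerivAt N (M t) t) (h0 : 0 < N 0)
    (hM : PM (fun t => -M t) a) {b c : ℝ} (hb0 : 0 < b) (hb : N b < 0) (hbc : b < c)
    (hc0 : 0 < N c) : ∃ y z, PMP N y z := by
  obtain ⟨a0, a1, a2⟩ := hM
  have hc : Continuous N := continuous_iff_continuousAt.2 fun t => (hd t).continuousAt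
  have hI : StrictAntiOn N (Icc 0 a) := strictAntiOn_of_deriv_neg (convex_Icc 0 a)
    hc.continuousOn fun t ht => by
      rw [interior_Icc] at ht
      rw [(hd t).deriv]
      have := a1 t ht.1 ht.2
      linarith
  have hD : StrictMonoOn N (Ici a) := strictMonoOn_of_deriv_pos (convex_Ici a)
    hc.continuousOn fun t ht => by
      rw [interior_Ici] at ht
      rw [(hd t).deriv]
      have := a2 t ht
      linarith
  have hNa : N a < 0 := by
    rcases le_or_gt b a with h | h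
    · have := hI.antitoneOn ⟨hb0.le, h⟩ ⟨a0.le, le_rfl⟩ h
      linarith
    · have := hD (show a ∈ Ici a from le_refl a) (show b ∈ Ici a from h.le) h
      linarith
  have hac : a < c := by
    by_contra hcon
    push Not at hcon
    have := hI ⟨hb0.le, by linarith⟩ ⟨by linarith, hcon⟩ hbc
    linarith
  obtain ⟨y, hy, hy0⟩ : (0 : ℝ) ∈ N '' Icc 0 a :=
    intermediate_value_Icc' a0.le hc.continuousOn ⟨hNa.le, h0.le⟩
  obtain ⟨z, hz, hz0⟩ : (0 : ℝ) ∈ N '' Icc a c :=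
    intermediate_value_Icc hac.le hc.continuousOn ⟨hNa.le, hc0.le⟩
  have hy1 : 0 < y := by
    refine lt_of_le_of_ne hy.1 fun e => ?_
    rw [← e] at hy0
    linarith
  have hy2 : y < a := by
    refine lt_of_le_of_ne hy.2 fun e => ?_
    rw [← e, hy0] at hNa
    exact lt_irrefl _ hNa
  have hz1 : a < z := by
    refine lt_of_le_of_ne hz.1 fun e => ?_
    rw [e, hz0] at hNa
    exact lt_irrefl _ hNa
  refine ⟨y, z, hy1, hy2.trans hz1, fun t ht hty => ?_, fun t hty htz => ?_, fun t htz => ?_⟩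
  · have := hI ⟨ht.le, (hty.trans hy2).le⟩ hy hty
    linarith
  · rcases le_or_gt t a with h | h
    · have := hI hy ⟨(hy1.trans hty).le, h⟩ hty
      linarith
    · have := hD (show t ∈ Ici a from h.le) (show z ∈ Ici a from hz1.le) htz
      linarith
  · have := hD (show z ∈ Ici a from hz1.le) (show t ∈ Ici a from (hz1.trans htz).le) htz
    linarith

theorem PM.mul {g h k : ℝ → ℝ} {z : ℝ} (H : PM g z) (hk : ∀ t, 0 < t → 0 < k t)
    (e : ∀ t, 0 < t → h t = k t * g t) : PM h z := by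
  obtain ⟨h0, h1, h2⟩ := H
  refine ⟨h0, fun t ht htz => ?_, fun t htz => ?_⟩
  · rw [e t ht]
    exact mul_pos (hk t ht) (h1 t ht htz)
  · rw [e t (h0.trans htz)]
    exact mul_neg_of_pos_of_neg (hk t (h0.trans htz)) (h2 t htz)

theorem PMP.mul {g h k : ℝ → ℝ} {y z : ℝ} (H : PMP g y z) (hk : ∀ t, 0 < t → 0 < k t)
    (e : ∀ t, 0 < t → h t = k t * g t) : PMP h y z := by
  obtain ⟨h0, h01, h1, h2, h3⟩ := H
  refine ⟨h0, h01, fun t ht htz => ?_, fun t hty htz => ?_, fun t htz => ?_⟩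
  · rw [e t ht]
    exact mul_pos (hk t ht) (h1 t ht htz)
  · rw [e t (h0.trans hty)]
    exact mul_neg_of_pos_of_neg (hk t (h0.trans hty)) (h2 t hty htz)
  · rw [e t ((h0.trans h01).trans htz)]
    exact mul_pos (hk t ((h0.trans h01).trans htz)) (h3 t htz)

/-- a quadratic polynomial -/
theorem PM_quad : ∃ z, PM (fun t : ℝ => 1 - 8 * t - 2 * t ^ 2) z := by
  have hs : (0 : ℝ) < Real.sqrt 18 := by positivity
  have hs2 : Real.sqrt 18 ^ 2 = 18 := Real.sq_sqrt (by norm_num)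
  have hz : (0 : ℝ) < Real.sqrt 18 / 2 - 2 := by nlinarith
  refine ⟨Real.sqrt 18 / 2 - 2, hz, fun t ht htz => ?_, fun t htz => ?_⟩
  · show 0 < 1 - 8 * t - 2 * t ^ 2
    nlinarith
  · show 1 - 8 * t - 2 * t ^ 2 < 0
    nlinarith

open Real in
theorem hasDerivAt_expmul {q : ℝ → ℝ} {q' : ℝ} {t : ℝ} (h : HasDerivAt q q' t) :
    HasDerivAt (fun t => exp t * q t) (exp t * (q t + q')) t := by
  refine ((Real.hasDerivAt_exp t).mul h).congr_deriv ?_
  ring

theorem hd_poly (a b c t : ℝ) :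
    HasDerivAt (fun t : ℝ => a * t ^ 2 + b * t + c) (2 * a * t + b) t := by
  have h1 := ((hasDerivAt_pow 2 t).const_mul a).add ((hasDerivAt_id t).const_mul b)
  have h2 := h1.add_const c
  refine (h2.congr_deriv ?_).congr_of_eventuallyEq ?_
  · push_cast
    ring
  · exact Filter.Eventually.of_forall fun s => by simp

/-- derivative of `e^t (a t^2 + b t + c) + (a' t^2 + b' t + c')` -/
theorem hd_ep (a b c a' b' c' t : ℝ) :
    HasDerivAt (fun t : ℝ => Real.exp t * (a * t ^ 2 + b * t + c) + (a' * t ^ 2 + b' * t + c'))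
      (Real.exp t * (a * t ^ 2 + (b + 2 * a) * t + (c + b)) + (2 * a' * t + b')) t := by
  refine ((hasDerivAt_expmul (hd_poly a b c t)).add (hd_poly a' b' c' t)).congr_deriv ?_
  ring

theorem exp_ge (t : ℝ) : t + 1 ≤ Real.exp t := Real.add_one_le_exp t

/-- the numerator of the second derivative of `-t/(e^t - 1)` -/
noncomputable def Np (t : ℝ) : ℝ :=
  Real.exp t * (Real.exp t * (-1 * t ^ 2 + 3 * t + -1) + (-1 * t ^ 2 + -3 * t + 2)) - 1

theorem PM_Np : ∃ z, PM Np z := by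
  obtain ⟨z0, h0⟩ := PM_quad
  have e0 : PM (fun t : ℝ => Real.exp t * (-2 * t ^ 2 + -8 * t + 1) + (2 * 0 * t + 0)) z0 :=
    h0.mul (k := Real.exp) (fun t _ => Real.exp_pos t) fun t _ => by ring
  -- `M2`
  obtain ⟨z1, h1⟩ := chainPM (N := fun t : ℝ => Real.exp t * (-2 * t ^ 2 + -4 * t + 5) +
    (0 * t ^ 2 + 0 * t + -2)) (M := fun t : ℝ => Real.exp t * (-2 * t ^ 2 + -8 * t + 1) +
    (2 * 0 * t + 0)) (fun t => by
      refine (hd_ep (-2) (-4) 5 0 0 (-2) t).congr_deriv ?_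
      ring) (by norm_num) e0 ⟨2, by norm_num, by
        have := Real.exp_pos 2
        nlinarith⟩
  -- `M1`
  obtain ⟨z2, h2⟩ := chainPM (N := fun t : ℝ => Real.exp t * (-2 * t ^ 2 + 0 * t + 5) +
    (0 * t ^ 2 + -2 * t + -5)) (M := fun t : ℝ => Real.exp t * (-2 * t ^ 2 + -4 * t + 5) +
    (0 * t ^ 2 + 0 * t + -2)) (fun t => by
      refine (hd_ep (-2) 0 5 0 (-2) (-5) t).congr_deriv ?_
      ring) (by norm_num) h1 ⟨2, by norm_num, by
        have := Real.exp_pos 2
        nlinarith⟩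
  -- `M`
  obtain ⟨z3, h3⟩ := chainPM (N := fun t : ℝ => Real.exp t * (-2 * t ^ 2 + 4 * t + 1) +
    (-1 * t ^ 2 + -5 * t + -1)) (M := fun t : ℝ => Real.exp t * (-2 * t ^ 2 + 0 * t + 5) +
    (0 * t ^ 2 + -2 * t + -5)) (fun t => by
      refine (hd_ep (-2) 4 1 (-1) (-5) (-1) t).congr_deriv ?_
      ring) (by norm_num) h2 ⟨3, by norm_num, by
        have := Real.exp_pos 3
        nlinarith⟩
  -- `N`
  have h4 : PM (fun t : ℝ => Real.exp t * (Real.exp t * (-2 * t ^ 2 + 4 * t + 1) +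
      (-1 * t ^ 2 + -5 * t + -1))) z3 :=
    h3.mul (k := Real.exp) (fun t _ => Real.exp_pos t) fun t _ => by ring
  refine chainPM (N := Np) (fun t => ?_) (by norm_num [Np]) h4 ⟨3, by norm_num, ?_⟩
  · have h5 := (hasDerivAt_expmul (hd_ep (-1) 3 (-1) (-1) (-3) 2 t)).sub_const 1
    refine h5.congr_deriv ?_
    ring
  · have := Real.exp_pos 3
    unfold Np
    nlinarith [mul_pos this this]

/-- the numerator of the second derivative of `t/(e^t + 1)` -/
noncomputable def Nm (t : ℝ) : ℝ :=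
  Real.exp t * (Real.exp t * (1 * t ^ 2 + -3 * t + 1) + (-1 * t ^ 2 + -3 * t + 2)) + 1

theorem PMP_Nm : ∃ y z, PMP Nm y z := by
  obtain ⟨z0, h0⟩ := PM_quad
  have e0 : PM (fun t : ℝ => Real.exp t * (-2 * t ^ 2 + -8 * t + 1) + (2 * 0 * t + 0)) z0 :=
    h0.mul (k := Real.exp) (fun t _ => Real.exp_pos t) fun t _ => by ring
  obtain ⟨z1, h1⟩ := chainPM (N := fun t : ℝ => Real.exp t * (-2 * t ^ 2 + -4 * t + 5) +
    (0 * t ^ 2 + 0 * t + 2)) (M := fun t : ℝ => Real.exp t * (-2 * t ^ 2 + -8 * t + 1) +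
    (2 * 0 * t + 0)) (fun t => by
      refine (hd_ep (-2) (-4) 5 0 0 2 t).congr_deriv ?_
      ring) (by norm_num) e0 ⟨2, by norm_num, by
        have := exp_ge 2
        nlinarith⟩
  obtain ⟨z2, h2⟩ := chainPM (N := fun t : ℝ => Real.exp t * (-2 * t ^ 2 + 0 * t + 5) +
    (0 * t ^ 2 + 2 * t + 5)) (M := fun t : ℝ => Real.exp t * (-2 * t ^ 2 + -4 * t + 5) +
    (0 * t ^ 2 + 0 * t + 2)) (fun t => by
      refine (hd_ep (-2) 0 5 0 2 5 t).congr_deriv ?_
      ring) (by norm_num) h1 ⟨3, by norm_num, by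
        have := exp_ge 3
        nlinarith⟩
  obtain ⟨z3, h3⟩ := chainPM (N := fun t : ℝ => Real.exp t * (-2 * t ^ 2 + 4 * t + 1) +
    (1 * t ^ 2 + 5 * t + 1)) (M := fun t : ℝ => Real.exp t * (-2 * t ^ 2 + 0 * t + 5) +
    (0 * t ^ 2 + 2 * t + 5)) (fun t => by
      refine (hd_ep (-2) 4 1 1 5 1 t).congr_deriv ?_
      ring) (by norm_num) h2 ⟨4, by norm_num, by
        have := exp_ge 4
        nlinarith⟩
  have h4 : PM (fun t : ℝ => -(Real.exp t * (Real.exp t * (2 * t ^ 2 + -4 * t + -1) +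
      (-1 * t ^ 2 + -5 * t + -1)))) z3 :=
    h3.mul (k := Real.exp) (fun t _ => Real.exp_pos t) fun t _ => by ring
  refine chainPMP (N := Nm) (fun t => ?_) (by norm_num [Nm]) h4 (b := 1) (c := 5)
    (by norm_num) ?_ (by norm_num) ?_
  · have h5 := (hasDerivAt_expmul (hd_ep 1 (-3) 1 (-1) (-3) 2 t)).add_const 1
    refine h5.congr_deriv ?_
    ring
  · have := exp_ge 1
    unfold Nm
    nlinarith
  · have := exp_ge 5
    unfold Nm
    nlinarith

/-- the sign of the first derivative of `t/(e^t + 1)` -/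
theorem PM_b : ∃ z, PM (fun t : ℝ => Real.exp t + 1 - t * Real.exp t) z := by
  have hd : ∀ t : ℝ, HasDerivAt (fun t : ℝ => Real.exp t + 1 - t * Real.exp t)
      (-(t * Real.exp t)) t := by
    intro t
    have h1 := ((Real.hasDerivAt_exp t).add_const 1).sub
      ((hasDerivAt_id t).mul (Real.hasDerivAt_exp t))
    refine h1.congr_deriv ?_
    simp
  have hc : Continuous (fun t : ℝ => Real.exp t + 1 - t * Real.exp t) := by fun_prop
  have hD : StrictAntiOn (fun t : ℝ => Real.exp t + 1 - t * Real.exp t) (Ici 0) :=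
    strictAntiOn_of_deriv_neg (convex_Ici 0) hc.continuousOn fun t ht => by
      rw [interior_Ici] at ht
      rw [(hd t).deriv]
      have ht' : 0 < t := ht
      have : 0 < t * Real.exp t := by positivity
      linarith
  have h2 : Real.exp 2 + 1 - 2 * Real.exp 2 < 0 := by
    have := exp_ge 2
    linarith
  obtain ⟨z, hz, hz0⟩ : (0 : ℝ) ∈ (fun t : ℝ => Real.exp t + 1 - t * Real.exp t) '' Icc 0 2 :=
    intermediate_value_Icc' (by norm_num) hc.continuousOn ⟨h2.le, by norm_num⟩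
  have hz1 : 0 < z := by
    refine lt_of_le_of_ne hz.1 fun e => ?_
    rw [← e] at hz0
    norm_num at hz0
  refine ⟨z, hz1, fun t ht htz => ?_, fun t htz => ?_⟩
  · have := hD (show t ∈ Ici (0 : ℝ) from ht.le) (show z ∈ Ici (0 : ℝ) from hz1.le) htz
    have e : Real.exp z + 1 - z * Real.exp z = 0 := hz0
    simp only at this
    show 0 < Real.exp t + 1 - t * Real.exp t
    linarith
  · have := hD (show z ∈ Ici (0 : ℝ) from hz1.le) (show t ∈ Ici (0 : ℝ) from
      (hz1.trans htz).le) htz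
    have e : Real.exp z + 1 - z * Real.exp z = 0 := hz0
    simp only at this
    show Real.exp t + 1 - t * Real.exp t < 0
    linarith

/-! ### the functions -/

noncomputable def A0 (t : ℝ) : ℝ := -(t / (Real.exp t - 1))

noncomputable def A1 (t : ℝ) : ℝ :=
  t * (t * Real.exp t - Real.exp t + 1) / (Real.exp t - 1) ^ 2

noncomputable def A2 (t : ℝ) : ℝ := t * Np t / (Real.exp t - 1) ^ 3

noncomputable def B0 (t : ℝ) : ℝ := t / (Real.exp t + 1)

noncomputable def B1 (t : ℝ) : ℝ :=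
  t * (Real.exp t + 1 - t * Real.exp t) / (Real.exp t + 1) ^ 2

noncomputable def B2 (t : ℝ) : ℝ := t * Nm t / (Real.exp t + 1) ^ 3

theorem em1_pos {t : ℝ} (ht : 0 < t) : 0 < Real.exp t - 1 := by
  have := Real.one_lt_exp_iff.2 ht
  linarith

theorem ep1_pos (t : ℝ) : 0 < Real.exp t + 1 := by
  have := Real.exp_pos t
  linarith

theorem LDer_A0 : LDer A0 A1 := by
  intro t ht
  have h0 := (em1_pos ht).ne'
  have h1 := ((hasDerivAt_id t).div ((Real.hasDerivAt_exp t).sub_const 1) h0).neg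
  refine h1.congr_deriv ?_
  unfold A1
  simp only [id]
  field_simp
  try ring

theorem LDer_B0 : LDer B0 B1 := by
  intro t ht
  have h0 := (ep1_pos t).ne'
  have h1 := ((hasDerivAt_id t).div ((Real.hasDerivAt_exp t).add_const 1) h0)
  refine h1.congr_deriv ?_
  unfold B1
  simp only [id]
  field_simp
  try ring

theorem LDer_A1 : LDer A1 A2 := by
  intro t ht
  have h0 := (em1_pos ht).ne'
  have e1 := Real.hasDerivAt_exp t
  have e2 := hasDerivAt_id t
  have h1 := ((e2.mul (((e2.mul e1).sub e1).add_const 1)).div ((e1.sub_const 1).pow 2)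
    (pow_ne_zero 2 h0))
  refine h1.congr_deriv ?_
  unfold A2 Np
  simp only [id, Pi.mul_apply, Pi.sub_apply, Pi.pow_apply]
  field_simp
  push_cast
  ring

theorem LDer_B1 : LDer B1 B2 := by
  intro t ht
  have h0 := (ep1_pos t).ne'
  have e1 := Real.hasDerivAt_exp t
  have e2 := hasDerivAt_id t
  have h1 := ((e2.mul ((e1.add_const 1).sub (e2.mul e1))).div ((e1.add_const 1).pow 2)
    (pow_ne_zero 2 h0))
  refine h1.congr_deriv ?_
  unfold B2 Nm
  simp only [id, Pi.mul_apply, Pi.sub_apply, Pi.pow_apply]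
  field_simp
  push_cast
  ring

theorem PM_A2 : ∃ z, PM A2 z := by
  obtain ⟨z, hz⟩ := PM_Np
  refine ⟨z, hz.mul (k := fun t => t / (Real.exp t - 1) ^ 3) (fun t ht => ?_) fun t ht => ?_⟩
  · have := em1_pos ht
    positivity
  · unfold A2
    ring

theorem PM_B1 : ∃ z, PM B1 z := by
  obtain ⟨z, hz⟩ := PM_b
  refine ⟨z, hz.mul (k := fun t => t / (Real.exp t + 1) ^ 2) (fun t ht => ?_) fun t ht => ?_⟩
  · have := ep1_pos t
    positivity
  · unfold B1
    ring

theorem PMP_B2 : ∃ y z, PMP B2 y z := by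
  obtain ⟨y, z, hz⟩ := PMP_Nm
  refine ⟨y, z, hz.mul (k := fun t => t / (Real.exp t + 1) ^ 3) (fun t ht => ?_) fun t ht => ?_⟩
  · have := ep1_pos t
    positivity
  · unfold B2
    ring

/-- the positive side for two factors -/
theorem two_pos {p q : ℝ} (hp : 1 < p) (hq : 1 < q) : ∃ (G H : ℝ → ℝ) (z : ℝ),
    (∀ t, G t = (A0 (p * (q * t)) - A0 (q * t)) - (A0 (p * t) - A0 t)) ∧ LDer G H ∧ PM G z ∧
    G z = 0 ∧ H z ≠ 0 := by
  obtain ⟨z0, h0⟩ := PM_A2
  obtain ⟨z1, h1, -⟩ := patA LDer_A1 h0 hp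
  have hp0 : 0 < p := by linarith
  have hq0 : 0 < q := by linarith
  obtain ⟨z2, h2, h3, h4⟩ := patA (LDer_A0.diff hp0) h1 hq
  exact ⟨_, _, z2, fun t => rfl, (LDer_A0.diff hp0).diff hq0, h2, h4, h3.ne⟩

/-- the negative side for two factors -/
theorem two_neg {p q : ℝ} (hp : 1 < p) (hq : 1 < q) : ∃ (G H : ℝ → ℝ) (y z : ℝ),
    (∀ t, G t = (B0 (p * (q * t)) - B0 (q * t)) - (B0 (p * t) - B0 t)) ∧ LDer G H ∧ PMP G y z ∧
    G y = 0 ∧ G z = 0 ∧ H y ≠ 0 ∧ H z ≠ 0 := by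
  obtain ⟨z0, h0⟩ := PM_B1
  obtain ⟨y1, z1, h1⟩ := PMP_B2
  have hp0 : 0 < p := by linarith
  have hq0 : 0 < q := by linarith
  obtain ⟨z2, h2, -⟩ := patA LDer_B0 h0 hp
  obtain ⟨a, b, h3, -⟩ := patC LDer_B1 h0 h1 hp
  obtain ⟨a', b', h4, h5, h6, h7, h8⟩ := patC (LDer_B0.diff hp0) h2 h3 hq
  exact ⟨_, _, a', b', fun t => rfl, (LDer_B0.diff hp0).diff hq0, h4, h7, h8, h5.ne, h6.ne'⟩

end Pool.Agent.CycCrit
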