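import Mathlib

set_option autoImplicit false

/-! # Lower bounds for the double partial sums of the window sequence (MP_1d6ef7_nt) -/

namespace Pool.Agent.CycCrit.Win

open Finset

/-- number of `i < n` with `⌊i/d⌋` odd -/
def cnt (d n : ℕ) : ℕ := ∑ i ∈ range n, if Odd (i / d) then 1 else 0

theorem cnt_block {d : ℕ} (hd : 0 < d) (k t : ℕ) (ht : t ≤ d) :
    cnt d (d * k + t) = cnt d (d * k) + t * (if Odd k then 1 else 0) := by
  induction t with
  | zero => simp
  | succ t ih =>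
    have h1 : (d * k + t) / d = k := by
      rw [Nat.mul_add_div hd, Nat.div_eq_of_lt (by omega)]; simp
    have h2 : cnt d (d * k + (t + 1)) = cnt d (d * k + t) + if Odd ((d * k + t) / d) then 1 else 0 := by
      unfold cnt; rw [← add_assoc, sum_range_succ]
    rw [h2, ih (by omega), h1]; ring

theorem cnt_mul {d : ℕ} (hd : 0 < d) (k : ℕ) : cnt d (d * k) = d * (k / 2) := by
  induction k with
  | zero => simp [cnt]
  | succ k ih =>
    have h := cnt_block hd k d le_rfl
    have e : d * (k + 1) = d * k + d := by ring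
    rw [e, h, ih]
    rcases Nat.even_or_odd k with hk | hk
    · have : ¬ Odd k := Nat.not_odd_iff_even.mpr hk
      obtain ⟨c, rfl⟩ := hk
      have h1 : (c + c) / 2 = c := by omega
      have h2 : (c + c + 1) / 2 = c := by omega
      rw [if_neg this, h1, h2]; ring
    · rw [if_pos hk]
      obtain ⟨c, rfl⟩ := hk
      have h1 : (2 * c + 1) / 2 = c := by omega
      have h2 : (2 * c + 1 + 1) / 2 = c + 1 := by omega
      rw [h1, h2]; ring

theorem cnt_lower {d : ℕ} (hd : 0 < d) (n : ℕ) : n ≤ 2 * cnt d n + d := by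
  have hn : n = d * (n / d) + n % d := (Nat.div_add_mod n d).symm
  have ht : n % d < d := Nat.mod_lt n hd
  set k := n / d with hk
  set t := n % d with htt
  rw [hn, cnt_block hd k t ht.le, cnt_mul hd]
  rcases Nat.even_or_odd k with h | h
  · have : ¬ Odd k := Nat.not_odd_iff_even.mpr h
    rw [if_neg this]
    obtain ⟨c, hc⟩ := h
    rw [hc]
    have h1 : (c + c) / 2 = c := by omega
    rw [h1]
    have : d * (c + c) = 2 * (d * c) := by ring
    omega
  · rw [if_pos h]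
    obtain ⟨c, hc⟩ := h
    rw [hc]
    have h1 : (2 * c + 1) / 2 = c := by omega
    rw [h1]
    have : d * (2 * c + 1) = 2 * (d * c) + d := by ring
    omega

theorem cnt_one (n : ℕ) : 2 * cnt 1 n ≤ n := by
  have h := cnt_mul (d := 1) one_pos n
  rw [one_mul] at h
  rw [h]; omega

theorem cnt_small {d n : ℕ} (h : n ≤ d) : cnt d n = 0 := by
  unfold cnt
  refine sum_eq_zero fun i hi => ?_
  have : i < n := mem_range.mp hi
  rw [Nat.div_eq_of_lt (by omega)]; simp

theorem cnt_pos {d n : ℕ} (hd : 0 < d) (h : d < n) : 1 ≤ cnt d n := by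
  unfold cnt
  have h1 : (if Odd (d / d) then 1 else 0) ≤ ∑ i ∈ range n, if Odd (i / d) then 1 else 0 :=
    single_le_sum (f := fun i => if Odd (i / d) then (1 : ℕ) else 0) (fun _ _ => Nat.zero_le _)
      (mem_range.mpr h)
  rw [Nat.div_self hd] at h1
  simpa using h1

theorem cnt_big {d n : ℕ} (hd : 2 ≤ d) (h : d < n) : n ≤ 2 * (d * cnt d n) := by
  have h1 := cnt_pos (by omega) h
  have h2 := cnt_lower (by omega : 0 < d) n
  rcases le_or_gt n (2 * d) with h3 | h3
  · nlinarith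
  · have h4 : 2 * (2 * cnt d n) ≤ 2 * (d * cnt d n) := by
      have := Nat.mul_le_mul_right (cnt d n) hd
      omega
    omega

/-- the window sequence -/
noncomputable def phi (p q m : ℕ) : ℝ :=
  -(if Odd m then (1 : ℝ) else 0) + (p : ℝ) * (if Odd (m / p) then 1 else 0) +
    (q : ℝ) * (if Odd (m / q) then 1 else 0)

/-- partial sums -/
noncomputable def S (p q j : ℕ) : ℝ := ∑ i ∈ range (j + 1), phi p q i

/-- double partial sums -/
noncomputable def Lam (p q m : ℕ) : ℝ := ∑ j ∈ range (m + 1), S p q j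

theorem S_eq (p q j : ℕ) :
    S p q j = -(cnt 1 (j + 1) : ℝ) + p * cnt p (j + 1) + q * cnt q (j + 1) := by
  unfold S phi cnt
  rw [sum_add_distrib, sum_add_distrib, ← mul_sum, ← mul_sum, sum_neg_distrib]
  push_cast
  simp only [Nat.div_one]

theorem S_lower {p q : ℕ} (hp : 0 < p) (hq : 0 < q) (j : ℕ) :
    (((p : ℝ) + q - 1) * (j + 1) - (p ^ 2 + q ^ 2)) / 2 ≤ S p q j := by
  rw [S_eq]
  have h1 : (2 : ℝ) * cnt 1 (j + 1) ≤ (j : ℝ) + 1 := by exact_mod_cast cnt_one (j + 1)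
  have h2 : (j : ℝ) + 1 ≤ 2 * cnt p (j + 1) + p := by exact_mod_cast cnt_lower hp (j + 1)
  have h3 : (j : ℝ) + 1 ≤ 2 * cnt q (j + 1) + q := by exact_mod_cast cnt_lower hq (j + 1)
  have hp' : (0 : ℝ) ≤ p := Nat.cast_nonneg p
  have hq' : (0 : ℝ) ≤ q := Nat.cast_nonneg q
  nlinarith [mul_le_mul_of_nonneg_left h2 hp', mul_le_mul_of_nonneg_left h3 hq']

theorem S_nonneg {p q j : ℕ} (hp : 2 ≤ p) (hj : p ≤ j) : 0 ≤ S p q j := by
  rw [S_eq]
  have h1 : (2 : ℝ) * cnt 1 (j + 1) ≤ (j : ℝ) + 1 := by exact_mod_cast cnt_one (j + 1)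
  have h2 : (j : ℝ) + 1 ≤ 2 * (p * cnt p (j + 1)) := by
    exact_mod_cast cnt_big hp (by omega : p < j + 1)
  have h3 : (0 : ℝ) ≤ q * cnt q (j + 1) := by positivity
  linarith

theorem S_small {p q j : ℕ} (hpq : p ≤ q) (hj : j < p) : S p q j = -(cnt 1 (j + 1) : ℝ) := by
  rw [S_eq, cnt_small (by omega : j + 1 ≤ p), cnt_small (by omega : j + 1 ≤ q)]; simp

theorem Lam_succ (p q m : ℕ) : Lam p q (m + 1) = Lam p q m + S p q (m + 1) := by
  unfold Lam; rw [sum_range_succ]

theorem Lam_lower {p q : ℕ} (hp : 0 < p) (hq : 0 < q) (m : ℕ) :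
    ((p : ℝ) + q - 1) * (m + 1) * (m + 2) / 4 - (p ^ 2 + q ^ 2) * (m + 1) / 2 ≤ Lam p q m := by
  induction m with
  | zero =>
    have := S_lower hp hq 0
    unfold Lam; simp only [zero_add, sum_range_one, CharP.cast_eq_zero]
    simp only [CharP.cast_eq_zero, zero_add] at this
    linarith
  | succ m ih =>
    rw [Lam_succ]
    have := S_lower hp hq (m + 1)
    push_cast at this ⊢
    linarith

theorem Lam_mono {p q : ℕ} (hp : 2 ≤ p) {m n : ℕ} (hm : p ≤ m + 1) (hmn : m ≤ n) :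
    Lam p q m ≤ Lam p q n := by
  induction n, hmn using Nat.le_induction with
  | base => exact le_rfl
  | succ n hn ih =>
    rw [Lam_succ]
    have := S_nonneg (p := p) (q := q) (j := n + 1) hp (by omega)
    linarith

theorem Lam_small_bound {p q m : ℕ} (hpq : p ≤ q) (hm : m < p) :
    Lam p q m ≤ 0 ∧ -(((m : ℝ) + 1) * (m + 2) / 4) ≤ Lam p q m := by
  induction m with
  | zero =>
    have h := S_small (q := q) hpq hm
    unfold Lam; simp only [zero_add, sum_range_one, CharP.cast_eq_zero]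
    rw [h]
    have : cnt 1 1 = 0 := by simp [cnt]
    simp only [zero_add, this, Nat.cast_zero, neg_zero]
    norm_num
  | succ m ih =>
    obtain ⟨h1, h2⟩ := ih (by omega)
    rw [Lam_succ, S_small (q := q) hpq hm]
    have h3 : (2 : ℝ) * cnt 1 (m + 1 + 1) ≤ (m : ℝ) + 2 := by
      have := cnt_one (m + 1 + 1)
      have h4 : ((2 * cnt 1 (m + 1 + 1) : ℕ) : ℝ) ≤ ((m + 1 + 1 : ℕ) : ℝ) := by exact_mod_cast this
      push_cast at h4; linarith
    have h5 : (0 : ℝ) ≤ cnt 1 (m + 1 + 1) := Nat.cast_nonneg _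
    constructor
    · linarith
    · push_cast; nlinarith

/-- `Lam ≥ -p(p+1)/4` always -/
theorem Lam_ge {p q : ℕ} (hp : 2 ≤ p) (hpq : p ≤ q) (m : ℕ) :
    -((p : ℝ) * (p + 1) / 4) ≤ Lam p q m := by
  have hpp : (2 : ℝ) ≤ p := by exact_mod_cast hp
  rcases lt_or_ge m p with h | h
  · have h1 := (Lam_small_bound hpq h).2
    have h2 : (m : ℝ) + 1 ≤ p := by exact_mod_cast h
    have h3 : (0 : ℝ) ≤ m := Nat.cast_nonneg m
    nlinarith
  · have h1 := (Lam_small_bound (m := p - 1) hpq (by omega)).2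
    have h2 := Lam_mono (q := q) hp (m := p - 1) (n := m) (by omega) (by omega)
    have h3 : ((p - 1 : ℕ) : ℝ) = p - 1 := by
      rw [Nat.cast_sub (by omega)]; simp
    rw [h3] at h1
    nlinarith

theorem cnt_mid {d i : ℕ} (hd : 0 < d) (hi : i ≤ d) : cnt d (d + i) = i := by
  have h := cnt_block hd 1 i hi
  have h1 := cnt_mul hd 1
  rw [mul_one] at h h1
  rw [h, h1]; simp

theorem Lam_mid {p q : ℕ} (hp : 2 ≤ p) (hpq : p ≤ q) (t : ℕ) (ht : t ≤ p) :
    -((p : ℝ) * (p + 1) / 4) + p * t * (t + 1) / 2 - p * t / 2 - t * (t + 1) / 4 ≤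
      Lam p q (p - 1 + t) := by
  induction t with
  | zero =>
    have := Lam_ge hp hpq (p - 1)
    simp only [CharP.cast_eq_zero, mul_zero, zero_add, mul_one, zero_div, add_zero, sub_zero,
      zero_mul]
    linarith
  | succ t ih =>
    have ih := ih (by omega)
    rw [← add_assoc, Lam_succ, S_eq]
    have e : p - 1 + t + 1 + 1 = p + (t + 1) := by omega
    rw [e, cnt_mid (by omega) ht]
    have h1 : (2 : ℝ) * cnt 1 (p + (t + 1)) ≤ (p : ℝ) + (t + 1) := by
      exact_mod_cast cnt_one (p + (t + 1))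
    have h3 : (0 : ℝ) ≤ q * cnt q (p + (t + 1)) := by positivity
    push_cast
    linarith

/-- one sign change: there is `m0` with `Lam ≤ 0` before and `0 ≤ Lam` from `m0` on -/
theorem Lam_sign {p q : ℕ} (hp : 2 ≤ p) (hpq : p ≤ q) :
    ∃ m0, p ≤ m0 ∧ m0 < 2 * p ∧ (∀ m, m < m0 → Lam p q m ≤ 0) ∧ ∀ m, m0 ≤ m → 0 ≤ Lam p q m := by
  classical
  have hpp : (2 : ℝ) ≤ p := by exact_mod_cast hp
  have hex : ∃ m, p ≤ m ∧ 0 ≤ Lam p q m := by
    refine ⟨p - 1 + p, by omega, ?_⟩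
    have h := Lam_mid hp hpq p le_rfl
    nlinarith [mul_nonneg (by linarith : (0 : ℝ) ≤ p - 2) (by linarith : (0 : ℝ) ≤ (p : ℝ))]
  have h2 : 0 ≤ Lam p q (p - 1 + p) := by
    have h := Lam_mid hp hpq p le_rfl
    nlinarith [mul_nonneg (by linarith : (0 : ℝ) ≤ p - 2) (by linarith : (0 : ℝ) ≤ (p : ℝ))]
  have hs := Nat.find_spec hex
  refine ⟨Nat.find hex, hs.1, ?_, ?_, ?_⟩
  · have := Nat.find_min' hex ⟨(by omega : p ≤ p - 1 + p), h2⟩
    omega
  · intro m hm
    rcases lt_or_ge m p with h | h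
    · exact (Lam_small_bound hpq h).1
    · by_contra hc
      exact Nat.find_min hex hm ⟨h, by linarith [not_le.mp hc]⟩
  · intro m hm
    exact le_trans hs.2 (Lam_mono hp (by omega) hm)

end Pool.Agent.CycCrit.Win
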