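import Pool.Agent.CycCrit.ThreeNeg
import Pool.Agent.CycCrit.AltSeq
import Pool.Agent.CycCrit.WinLam

/-!
# Third partial sums of the numerator below `p r`
-/

set_option autoImplicit false

namespace Pool.Agent.CycCrit

open PowerSeries

/-- a sequence as a power series -/
noncomputable def ser (c : ℕ → ℝ) : PowerSeries ℝ := PowerSeries.mk c

/-- the geometric series -/
noncomputable def UU : PowerSeries ℝ := PowerSeries.mk fun _ => 1

theorem ser_psum (c : ℕ → ℝ) : ser (psum c) = ser c * UU := by
  ext n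
  rw [ser, coeff_mk, coeff_mul, psum, Finset.Nat.sum_antidiagonal_eq_sum_range_succ_mk]
  refine Finset.sum_congr rfl fun i _ => ?_
  simp [ser, UU]

/-- `d` on the blocks with odd number -/
noncomputable def blk (d : ℕ) (m : ℕ) : ℝ := if Odd (m / d) then d else 0

theorem coeff_one_add_mul (d : ℕ) (V : PowerSeries ℝ) (m : ℕ) :
    coeff m ((1 + X ^ d) * V) = coeff m V + if d ≤ m then coeff (m - d) V else 0 := by
  rw [add_mul, one_mul, map_add, coeff_X_pow_mul']

theorem blk_eq {d : ℕ} (hd : 0 < d) : (1 + X ^ d) * ser (blk d) = C (d : ℝ) * X ^ d * UU := by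
  ext m
  rw [coeff_one_add_mul, mul_assoc, coeff_C_mul, coeff_X_pow_mul']
  by_cases h : d ≤ m
  · rw [if_pos h, if_pos h]
    obtain ⟨k, rfl⟩ := Nat.exists_eq_add_of_le h
    have e1 : (d + k) / d = k / d + 1 := by rw [Nat.add_div_left _ hd]
    have e2 : d + k - d = k := by omega
    rw [e2]
    simp only [ser, coeff_mk, blk, UU, e1, Nat.odd_add_one]
    by_cases hk : Odd (k / d)
    · simp [hk]
    · simp [hk]
  · rw [if_neg h, if_neg h]
    have e1 : m / d = 0 := Nat.div_eq_of_lt (by omega)
    simp [ser, blk, e1]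

/-- the numerator without the factors that start at `p r` or later -/
noncomputable def A0p (p q r : ℕ) : Polynomial ℝ :=
  (1 + Polynomial.X ^ r) * ((1 + Polynomial.X ^ q) * ((1 + Polynomial.X ^ p) * 1))

/-- the denominator without the factors that start at `p r` or later -/
noncomputable def B0p (p q : ℕ) : Polynomial ℝ :=
  (1 + Polynomial.X ^ (p * q)) * ((1 + Polynomial.X ^ 1) * 1)

theorem coeff_low (d : ℕ) (F : Polynomial ℝ) {u : ℕ} (h : u < d) :
    ((1 + Polynomial.X ^ d) * F).coeff u = F.coeff u := by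
  rw [add_mul, one_mul, Polynomial.coeff_add, Polynomial.coeff_X_pow_mul', if_neg (by omega),
    add_zero]

theorem theta_one_add (d : ℕ) : (Polynomial.X : Polynomial ℝ) *
    Polynomial.derivative (1 + Polynomial.X ^ d) =
      Polynomial.C (d : ℝ) * Polynomial.X ^ d := by
  rcases d with _ | d
  · simp
  · rw [Polynomial.derivative_add, Polynomial.derivative_one, zero_add,
      Polynomial.derivative_X_pow]
    push_cast
    rw [pow_succ]
    ring

/-- the window sequence -/
noncomputable def WW (p q r m : ℕ) : ℝ :=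
  Win.phi p q m + (if r ≤ m then Win.phi p q (m - r) else 0) +
    (if p * q ≤ m then Win.phi p q (m - p * q) else 0) +
    (if p * q + r ≤ m then Win.phi p q (m - (p * q + r)) else 0) +
    (if r ≤ m then (r : ℝ) else 0) + (if p * q + r ≤ m then ((r : ℝ) - p * q) else 0) -
    (if p * q ≤ m then (p * q : ℝ) else 0)

theorem ser_phi (p q : ℕ) : ser (Win.phi p q) = -ser (blk 1) + ser (blk p) + ser (blk q) := by
  ext m
  simp only [ser, map_add, map_neg, coeff_mk, Win.phi, blk, Nat.div_one]
  split_ifs <;> simp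

theorem ser_WW (p q r : ℕ) : ser (WW p q r) = ser (Win.phi p q) + X ^ r * ser (Win.phi p q) +
    X ^ (p * q) * ser (Win.phi p q) + X ^ (p * q + r) * ser (Win.phi p q) +
    C (r : ℝ) * (X ^ r * UU) + C ((r : ℝ) - p * q) * (X ^ (p * q + r) * UU) -
    C ((p * q : ℝ)) * (X ^ (p * q) * UU) := by
  ext m
  rw [map_sub, map_add, map_add, map_add, map_add, map_add, coeff_X_pow_mul', coeff_X_pow_mul',
    coeff_X_pow_mul', coeff_C_mul, coeff_C_mul, coeff_C_mul, coeff_X_pow_mul', coeff_X_pow_mul',
    coeff_X_pow_mul']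
  simp only [ser, coeff_mk, WW, UU]
  split_ifs <;> simp

theorem theta_mul (F G : Polynomial ℝ) : Polynomial.X * Polynomial.derivative (F * G) =
    (Polynomial.X * Polynomial.derivative F) * G +
      F * (Polynomial.X * Polynomial.derivative G) := by
  rw [Polynomial.derivative_mul]
  ring

theorem low_poly (p q r : ℕ) : (Polynomial.X * (Polynomial.derivative (A0p p q r) * B0p p q -
      A0p p q r * Polynomial.derivative (B0p p q)) : Polynomial ℝ) =
    (Polynomial.C (r : ℝ) * Polynomial.X ^ r * ((1 + Polynomial.X ^ q) * (1 + Polynomial.X ^ p))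
      + (1 + Polynomial.X ^ r) * (Polynomial.C (q : ℝ) * Polynomial.X ^ q *
        (1 + Polynomial.X ^ p) + (1 + Polynomial.X ^ q) * (Polynomial.C (p : ℝ) *
          Polynomial.X ^ p))) * ((1 + Polynomial.X ^ (p * q)) * (1 + Polynomial.X ^ 1)) -
    (1 + Polynomial.X ^ r) * ((1 + Polynomial.X ^ q) * (1 + Polynomial.X ^ p)) *
      (Polynomial.C ((p * q : ℕ) : ℝ) * Polynomial.X ^ (p * q) * (1 + Polynomial.X ^ 1) +
        (1 + Polynomial.X ^ (p * q)) * (Polynomial.C ((1 : ℕ) : ℝ) * Polynomial.X ^ 1)) := by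
  have e : (Polynomial.X * (Polynomial.derivative (A0p p q r) * B0p p q -
      A0p p q r * Polynomial.derivative (B0p p q)) : Polynomial ℝ) =
      (Polynomial.X * Polynomial.derivative (A0p p q r)) * B0p p q -
        A0p p q r * (Polynomial.X * Polynomial.derivative (B0p p q)) := by ring
  rw [e]
  unfold A0p B0p
  rw [mul_one, mul_one, theta_mul, theta_mul, theta_mul, theta_one_add, theta_one_add,
    theta_one_add, theta_one_add, theta_one_add]

theorem low_series {p q r : ℕ} (hp : 0 < p) (hq : 0 < q) :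
    ((Polynomial.X * (Polynomial.derivative (A0p p q r) * B0p p q -
      A0p p q r * Polynomial.derivative (B0p p q)) : Polynomial ℝ) : PowerSeries ℝ) * UU =
    (1 + X ^ 1) * ((1 + X ^ p) * ((1 + X ^ q) * ser (WW p q r))) := by
  have h1 := blk_eq (d := 1) one_pos
  have h2 := blk_eq hp
  have h3 := blk_eq hq
  rw [low_poly, ser_WW, ser_phi]
  simp only [Polynomial.coe_add, Polynomial.coe_sub, Polynomial.coe_mul, Polynomial.coe_pow,
    Polynomial.coe_X, Polynomial.coe_C, Polynomial.coe_one]
  have c1 : C (((1 : ℕ) : ℝ)) = (1 : PowerSeries ℝ) := by simp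
  have c2 : C (((p * q : ℕ) : ℝ)) = (C (p * q : ℝ) : PowerSeries ℝ) := by push_cast; rfl
  have c3 : (C ((r : ℝ) - p * q) : PowerSeries ℝ) = C (r : ℝ) - C (p * q : ℝ) := map_sub _ _ _
  rw [c1] at h1
  rw [c1, c2, c3, pow_add]
  linear_combination (1 + X ^ r) * (1 + X ^ (p * q)) * ((1 + X ^ p) * (1 + X ^ q) * h1 -
    (1 + X ^ 1) * (1 + X ^ q) * h2 - (1 + X ^ 1) * (1 + X ^ p) * h3)

/-- below `p r` the numerator is the low numerator -/
theorem num_low {p q r i : ℕ} (hi : i < p * r) (h1 : p * r ≤ q * r) (h2 : p * r ≤ p * q * r) :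
    (Polynomial.X * (Polynomial.derivative (PA p q r) * PB p q r -
      PA p q r * Polynomial.derivative (PB p q r))).coeff i =
    (Polynomial.X * (Polynomial.derivative (A0p p q r) * B0p p q -
      A0p p q r * Polynomial.derivative (B0p p q))).coeff i := by
  rw [coeff_num, coeff_num]
  refine Finset.sum_congr rfl fun x hx => ?_
  have hx' := Finset.HasAntidiagonal.mem_antidiagonal.1 hx
  have eA : (PA p q r).coeff x.1 = (A0p p q r).coeff x.1 := by
    unfold PA A0p
    exact coeff_low _ _ (by omega)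
  have eB : (PB p q r).coeff x.2 = (B0p p q).coeff x.2 := by
    unfold PB B0p
    rw [coeff_low _ _ (by omega), coeff_low _ _ (by omega)]
  rw [eA, eB]

theorem nn_mul1 {V : PowerSeries ℝ} {a b : ℕ} (d : ℕ)
    (h : ∀ i, a ≤ i → i < b → 0 ≤ coeff i V) :
    ∀ i, a + d ≤ i → i < b → 0 ≤ coeff i ((1 + X ^ d) * V) := by
  intro i h1 h2
  rw [coeff_one_add_mul, if_pos (by omega)]
  exact add_nonneg (h i (by omega) h2) (h (i - d) (by omega) (by omega))

theorem psum_congr {c c' : ℕ → ℝ} {b : ℕ} (h : ∀ i, i < b → c i = c' i) :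
    ∀ i, i < b → psum c i = psum c' i := by
  intro i hi
  unfold psum
  refine Finset.sum_congr rfl fun j hj => h j ?_
  have := Finset.mem_range.1 hj
  omega

/-- the window: third partial sums of the numerator are nonnegative -/
theorem window_nonneg {p q r m0 : ℕ} (hp : 0 < p) (hq : 0 < q) (h1 : p * r ≤ q * r)
    (h2 : p * r ≤ p * q * r)
    (hW : ∀ m, m0 ≤ m → m < p * r → 0 ≤ psum (psum (WW p q r)) m) {m : ℕ}
    (hm : m0 + (p + q + 1) ≤ m) (hm2 : m < p * r) :
    0 ≤ psum (psum (psum (Polynomial.X * (Polynomial.derivative (PA p q r) * PB p q r -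
      PA p q r * Polynomial.derivative (PB p q r))).coeff)) m := by
  have e1 : psum (psum (psum (Polynomial.X * (Polynomial.derivative (PA p q r) * PB p q r -
      PA p q r * Polynomial.derivative (PB p q r))).coeff)) m =
      psum (psum (psum (Polynomial.X * (Polynomial.derivative (A0p p q r) * B0p p q -
      A0p p q r * Polynomial.derivative (B0p p q))).coeff)) m :=
    psum_congr (psum_congr (psum_congr fun i hi => num_low hi h1 h2)) m hm2
  rw [e1]
  have e2 := low_series (r := r) hp hq
  have e3 : ser (psum (psum (psum (Polynomial.X * (Polynomial.derivative (A0p p q r) *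
      B0p p q - A0p p q r * Polynomial.derivative (B0p p q))).coeff))) =
      (1 + X ^ 1) * ((1 + X ^ p) * ((1 + X ^ q) * ser (psum (psum (WW p q r))))) := by
    rw [ser_psum, ser_psum, ser_psum, ser_psum, ser_psum]
    have e4 : ser (Polynomial.X * (Polynomial.derivative (A0p p q r) *
      B0p p q - A0p p q r * Polynomial.derivative (B0p p q))).coeff =
      ((Polynomial.X * (Polynomial.derivative (A0p p q r) * B0p p q -
      A0p p q r * Polynomial.derivative (B0p p q)) : Polynomial ℝ) : PowerSeries ℝ) := by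
      ext i
      rw [ser, coeff_mk, Polynomial.coeff_coe]
    rw [e4, e2]
    ring
  have e5 := congrArg (coeff m) e3
  rw [ser, coeff_mk] at e5
  rw [e5]
  refine nn_mul1 1 (a := m0 + q + p) (b := p * r) (nn_mul1 p (a := m0 + q) (nn_mul1 q
    (a := m0) fun i hi hi2 => ?_)) m (by omega) hm2
  rw [ser, coeff_mk]
  exact hW i hi hi2

end Pool.Agent.CycCrit
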