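import Pool.Agent.CycCrit.ThreeNeg
import Pool.Agent.CycCrit.AltSeq

/-!
# The case `p = 3`, `r = 2 q - 1` or `r = 2 q + 1`: first partial sums of the numerator after `3 r`
-/

set_option autoImplicit false

namespace Pool.Agent.CycCrit.Exc3

open Polynomial Pool.Agent.CycCrit

/-- the numerator -/
noncomputable def num (A B : ℝ[X]) : ℝ[X] := X * (derivative A * B - A * derivative B)

noncomputable def A0 (q r : ℕ) : ℝ[X] := (1 + X ^ r) * ((1 + X ^ q) * ((1 + X ^ 3) * 1))

noncomputable def B0 (q : ℕ) : ℝ[X] := (1 + X ^ (3 * q)) * ((1 + X ^ 1) * 1)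

noncomputable def B1 (q r : ℕ) : ℝ[X] :=
  X ^ (3 * r) * B0 q + X ^ (q * r) * ((1 + X ^ (3 * r)) * B0 q)

theorem PB_eq (q r : ℕ) : PB 3 q r = B0 q + B1 q r := by
  unfold PB B1 B0
  ring

theorem coeff_PA {q r u : ℕ} (hu : u < 3 * q * r) : (PA 3 q r).coeff u = (A0 q r).coeff u := by
  unfold PA A0
  rw [add_mul, one_mul, coeff_add, coeff_X_pow_mul', if_neg (by omega), add_zero]

theorem num_add (A B C : ℝ[X]) : num A (B + C) = num A B + num A C := by
  unfold num
  rw [derivative_add]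
  ring

theorem coeff_K {q r i : ℕ} (hi : i < 3 * q * r) :
    (num (PA 3 q r) (PB 3 q r)).coeff i =
      (num (A0 q r) (B0 q)).coeff i + (num (A0 q r) (B1 q r)).coeff i := by
  rw [← coeff_add, ← num_add, ← PB_eq]
  unfold num
  rw [coeff_num, coeff_num]
  refine Finset.sum_congr rfl fun x hx => ?_
  have h := Finset.HasAntidiagonal.mem_antidiagonal.1 hx
  rw [coeff_PA (by omega)]

theorem suppA0 (q r : ℕ) : Supp (A0 q r) (fun u => u = 0 ∨ u = 3 ∨ u = q ∨ u = q + 3 ∨
    u = r ∨ u = r + 3 ∨ u = r + q ∨ u = r + q + 3) := by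
  unfold A0
  refine Supp.mul1 (S := fun u => u = 0 ∨ u = 3 ∨ u = q ∨ u = q + 3) ?_ r
    (fun u hu => ?_) (fun u hu => ?_)
  · refine Supp.mul1 (S := fun u => u = 0 ∨ u = 3) ?_ q (fun u hu => ?_) (fun u hu => ?_)
    · exact Supp.one.mul1 3 (fun u hu => Or.inl hu) (fun u hu => by right; omega)
    · omega
    · omega
  · omega
  · omega

theorem suppB0 (q : ℕ) : Supp (B0 q) (fun u => u = 0 ∨ u = 1 ∨ u = 3 * q ∨ u = 3 * q + 1) := by
  unfold B0
  refine Supp.mul1 (S := fun u => u = 0 ∨ u = 1) ?_ (3 * q) (fun u hu => ?_) (fun u hu => ?_)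
  · exact Supp.one.mul1 1 (fun u hu => Or.inl hu) (fun u hu => by right; omega)
  · omega
  · omega

theorem coeff_shift (F : ℝ[X]) (d u : ℕ) :
    (X ^ d * F).coeff u = if d ≤ u then F.coeff (u - d) else 0 := coeff_X_pow_mul' _ _ _

theorem suppB1 {q r : ℕ} (h : 3 * r ≤ q * r) : Supp (B1 q r) (fun u => 3 * r ≤ u) := by
  have hB := suppB0 q
  have hC : Supp ((1 + X ^ (3 * r)) * B0 q) (fun _ => True) :=
    hB.mul1 (3 * r) (fun _ _ => trivial) (fun _ _ => trivial)
  intro u
  have e : (B1 q r).coeff u = (if 3 * r ≤ u then (B0 q).coeff (u - 3 * r) else 0) +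
      (if q * r ≤ u then ((1 + X ^ (3 * r)) * B0 q).coeff (u - q * r) else 0) := by
    unfold B1
    rw [coeff_add, coeff_shift, coeff_shift]
  rw [e]
  constructor
  · refine add_nonneg ?_ ?_
    · split_ifs
      · exact (hB _).1
      · exact le_rfl
    · split_ifs
      · exact (hC _).1
      · exact le_rfl
  · intro hne
    by_contra hu
    apply hne
    rw [if_neg hu, if_neg (by omega), add_zero]

theorem B0_zero {q : ℕ} (hq : 5 ≤ q) : (B0 q).coeff 0 = 1 := by
  unfold B0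
  rw [add_mul, one_mul, coeff_add, coeff_shift, if_neg (by omega), add_zero, mul_one, coeff_add,
    coeff_one, coeff_X_pow]
  norm_num

theorem B0_one {q : ℕ} (hq : 5 ≤ q) : (B0 q).coeff 1 = 1 := by
  unfold B0
  rw [add_mul, one_mul, coeff_add, coeff_shift, if_neg (by omega), add_zero, mul_one, coeff_add,
    coeff_one, coeff_X_pow]
  norm_num

theorem A0_zero {q r : ℕ} (hq : 5 ≤ q) (hr : 5 ≤ r) : (A0 q r).coeff 0 = 1 := by
  unfold A0
  rw [add_mul, one_mul, coeff_add, coeff_shift, if_neg (by omega), add_zero, add_mul, one_mul,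
    coeff_add, coeff_shift, if_neg (by omega), add_zero, mul_one, coeff_add, coeff_one,
    coeff_X_pow]
  norm_num

theorem B1_ge {q r k : ℕ} (_h : 3 * r ≤ q * r) (hk : (B0 q).coeff k = 1) :
    1 ≤ (B1 q r).coeff (3 * r + k) := by
  have hC : Supp ((1 + X ^ (3 * r)) * B0 q) (fun _ => True) :=
    (suppB0 q).mul1 (3 * r) (fun _ _ => trivial) (fun _ _ => trivial)
  unfold B1
  rw [coeff_add, coeff_shift, coeff_shift, if_pos (by omega), Nat.add_sub_cancel_left, hk]
  have : 0 ≤ (if q * r ≤ 3 * r + k then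
      ((1 + X ^ (3 * r)) * B0 q).coeff (3 * r + k - q * r) else 0) := by
    split_ifs
    · exact (hC _).1
    · exact le_rfl
  linarith

theorem numB1_nonpos {q r : ℕ} (h : 3 * r ≤ q * r) (h2 : q + 3 ≤ 2 * r) (i : ℕ) :
    (num (A0 q r) (B1 q r)).coeff i ≤ 0 := by
  refine num_nonpos (suppA0 q r) (suppB1 h) ?_
  intro u v huv hu hv
  omega

theorem numB1_le {q r k : ℕ} (hq : 5 ≤ q) (hr : 5 ≤ r) (h : 3 * r ≤ q * r)
    (h2 : q + 3 ≤ 2 * r) (hk : (B0 q).coeff k = 1) :
    (num (A0 q r) (B1 q r)).coeff (3 * r + k) ≤ -((3 * r + k : ℕ) : ℝ) := by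
  unfold num
  rw [coeff_num]
  have hsA := suppA0 q r
  have hsB := suppB1 (q := q) h
  have hterm : ∀ x ∈ Finset.HasAntidiagonal.antidiagonal (3 * r + k),
      0 ≤ -(((x.1 : ℝ) - x.2) * ((A0 q r).coeff x.1 * (B1 q r).coeff x.2)) := by
    intro x hx
    by_cases h1 : (A0 q r).coeff x.1 = 0
    · rw [h1]; simp
    by_cases h3 : (B1 q r).coeff x.2 = 0
    · rw [h3]; simp
    have hu := (hsA _).2 h1
    have hv := (hsB _).2 h3
    have h4 : x.1 ≤ x.2 := by
      simp only at hu hv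
      omega
    have h5 : (x.1 : ℝ) ≤ x.2 := by exact_mod_cast h4
    have := mul_nonpos_of_nonpos_of_nonneg (by linarith : (x.1 : ℝ) - x.2 ≤ 0)
      (mul_nonneg (hsA x.1).1 (hsB x.2).1)
    linarith
  have hmem : ((0, 3 * r + k) : ℕ × ℕ) ∈ Finset.HasAntidiagonal.antidiagonal (3 * r + k) := by
    rw [Finset.HasAntidiagonal.mem_antidiagonal]
    simp
  have hs := Finset.single_le_sum hterm hmem
  rw [Finset.sum_neg_distrib] at hs
  simp only at hs
  rw [A0_zero hq hr] at hs
  have hb := B1_ge (q := q) (r := r) h hk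
  have hpos : (0 : ℝ) ≤ ((3 * r + k : ℕ) : ℝ) := Nat.cast_nonneg _
  have hm := mul_le_mul_of_nonneg_left hb hpos
  rw [Nat.cast_zero] at hs
  nlinarith

theorem num_eval_one (q r : ℕ) :
    (num (A0 q r) (B0 q)).eval 1 = 16 * ((r : ℝ) + 2 - 2 * q) := by
  unfold num A0 B0
  simp only [derivative_mul, derivative_add, derivative_one, derivative_X_pow, eval_mul,
    eval_add, eval_sub, eval_X, eval_pow, eval_one, eval_zero, eval_C, one_pow, Nat.cast_mul,
    eval_natCast, zero_add, mul_zero, add_zero]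
  push_cast
  ring

theorem psum_le {q r i : ℕ} (hi : r + 4 * q + 3 ≤ i) (hr : 2 * q ≤ r + 1) :
    psum (num (A0 q r) (B0 q)).coeff i ≤ 16 * ((r : ℝ) + 2 - 2 * q) := by
  rw [← num_eval_one]
  set P := num (A0 q r) (B0 q) with hP
  set N := max (i + 1) (P.natDegree + 1) with hN
  have h1 : P.eval 1 = ∑ j ∈ Finset.range N, P.coeff j := by
    rw [eval_eq_sum_range' (n := N) (lt_of_lt_of_le (Nat.lt_succ_self _) (le_max_right _ _))]
    refine Finset.sum_congr rfl fun j _ => ?_
    rw [one_pow, mul_one]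
  rw [h1]
  unfold psum
  refine Finset.sum_le_sum_of_subset_of_nonneg ?_ ?_
  · intro j hj
    rw [Finset.mem_range] at hj ⊢
    exact lt_of_lt_of_le hj (le_max_left _ _)
  · intro j _ hj
    rw [Finset.mem_range] at hj
    rw [hP]
    refine num_nonneg (suppA0 q r) (suppB0 q) ?_
    intro u v huv hu hv
    omega

/-- the first partial sums are nonpositive from `r + 4 q + 3` to `3 q r` -/
theorem psum_nonpos {q r i : ℕ} (hq : 5 ≤ q) (hr : r + 1 = 2 * q ∨ r = 2 * q + 1)
    (hi : r + 4 * q + 3 ≤ i) (hi2 : i < 3 * q * r) :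
    psum (num (PA 3 q r) (PB 3 q r)).coeff i ≤ 0 := by
  have h : 3 * r ≤ q * r := Nat.mul_le_mul_right r (by omega)
  have h2 : q + 3 ≤ 2 * r := by omega
  have e : psum (num (PA 3 q r) (PB 3 q r)).coeff i =
      psum (num (A0 q r) (B0 q)).coeff i + psum (num (A0 q r) (B1 q r)).coeff i := by
    unfold psum
    rw [← Finset.sum_add_distrib]
    refine Finset.sum_congr rfl fun j hj => ?_
    rw [Finset.mem_range] at hj
    exact coeff_K (by omega)
  have e1 := psum_le (q := q) (r := r) hi (by omega)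
  have e2 : psum (num (A0 q r) (B1 q r)).coeff i ≤ -(3 * (r : ℝ)) - (3 * r + 1) := by
    unfold psum
    have hneg : ∀ j ∈ Finset.range (i + 1), 0 ≤ -(num (A0 q r) (B1 q r)).coeff j := by
      intro j _
      have := numB1_nonpos (q := q) h h2 j
      linarith
    have hsub : ({3 * r, 3 * r + 1} : Finset ℕ) ⊆ Finset.range (i + 1) := by
      intro j hj
      rw [Finset.mem_insert, Finset.mem_singleton] at hj
      rw [Finset.mem_range]
      omega
    have hs := Finset.sum_le_sum_of_subset_of_nonneg hsub (fun j hj _ => hneg j hj)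
    rw [Finset.sum_neg_distrib, Finset.sum_neg_distrib,
      Finset.sum_pair (by omega : (3 * r : ℕ) ≠ 3 * r + 1)] at hs
    have a0 := numB1_le (k := 0) hq (by omega : 5 ≤ r) h h2 (B0_zero hq)
    have a1 := numB1_le (k := 1) hq (by omega : 5 ≤ r) h h2 (B0_one hq)
    rw [add_zero] at a0
    push_cast at a0 a1
    linarith
  rw [e]
  have hrr : (9 : ℝ) ≤ r := by exact_mod_cast (by omega : 9 ≤ r)
  rcases hr with hr | hr
  · have hc : (r : ℝ) + 1 = 2 * q := by exact_mod_cast hr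
    linarith
  · have hc : (r : ℝ) = 2 * q + 1 := by exact_mod_cast hr
    linarith

/-- the coefficients are nonpositive from `3 r` to `r + 4 q + 2` -/
theorem coeff_nonpos {q r i : ℕ} (hq : 5 ≤ q) (hr : r + 1 = 2 * q ∨ r = 2 * q + 1)
    (hi : 3 * r ≤ i) (hi2 : i ≤ r + 4 * q + 2) (hn : i < 3 * q * r) :
    (num (PA 3 q r) (PB 3 q r)).coeff i ≤ 0 := by
  have h : 3 * r ≤ q * r := Nat.mul_le_mul_right r (by omega)
  rw [coeff_K hn]
  have h1 := numB1_nonpos (q := q) h (by omega) i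
  have h2 : (num (A0 q r) (B0 q)).coeff i ≤ 0 := by
    refine num_nonpos (suppA0 q r) (suppB0 q) ?_
    intro u v huv hu hv
    omega
  linarith

/-- The first partial sums after `3 r`: first nonnegative, then nonpositive up to `3 q r`. -/
theorem exc_pattern {q r : ℕ} (hq : 5 ≤ q) (hr : r + 1 = 2 * q ∨ r = 2 * q + 1) :
    ∃ t, 3 * r ≤ t + 1 ∧ t ≤ r + 4 * q + 3 ∧
      (∀ i, 3 * r ≤ i + 1 → i < t → 0 ≤ psum (num (PA 3 q r) (PB 3 q r)).coeff i) ∧
      (∀ i, t ≤ i → i < 3 * q * r → psum (num (PA 3 q r) (PB 3 q r)).coeff i ≤ 0) := by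
  classical
  set c := psum (num (PA 3 q r) (PB 3 q r)).coeff with hc
  have hn : r + 4 * q + 3 < 3 * q * r := by
    have : 3 * q * 9 ≤ 3 * q * r := Nat.mul_le_mul_left _ (by omega)
    omega
  have hex : ∃ t, 3 * r ≤ t + 1 ∧ c t ≤ 0 :=
    ⟨r + 4 * q + 3, by omega, psum_nonpos hq hr le_rfl hn⟩
  have hstep : ∀ i, 3 * r ≤ i + 1 → i + 1 ≤ r + 4 * q + 2 → c (i + 1) ≤ c i := by
    intro i h1 h2
    have h3 : c (i + 1) = c i + (num (PA 3 q r) (PB 3 q r)).coeff (i + 1) := by
      rw [hc]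
      unfold psum
      rw [Finset.sum_range_succ]
    have h4 := coeff_nonpos (i := i + 1) hq hr h1 h2 (by omega)
    linarith
  have hs := Nat.find_spec hex
  refine ⟨Nat.find hex, hs.1,
    Nat.find_min' hex ⟨by omega, psum_nonpos hq hr le_rfl hn⟩, ?_, ?_⟩
  · intro i h1 h2
    by_contra h3
    exact Nat.find_min hex h2 ⟨h1, (not_le.mp h3).le⟩
  · intro i h1 h2
    rcases lt_or_ge i (r + 4 * q + 3) with h3 | h3
    · have hmono : ∀ j, Nat.find hex ≤ j → j ≤ r + 4 * q + 2 → c j ≤ 0 := by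
        intro j hj
        induction j, hj using Nat.le_induction with
        | base => intro _; exact hs.2
        | succ j hj ih =>
          intro h4
          have h5 := hs.1
          exact (hstep j (by omega) h4).trans (ih (by omega))
      exact hmono i h1 (by omega)
    · exact psum_nonpos hq hr h3 h2

end Pool.Agent.CycCrit.Exc3
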