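import Mathlib

set_option autoImplicit false

/-!
# MP_1d6ef7_nt: double partial sums of the sequences `floor (i / d)` odd and `i` odd
-/

namespace Pool.Agent.CycCrit

open Finset

/-- the indicator of the numbers `i` with `floor (i / d)` odd -/
noncomputable def chi (d i : ℕ) : ℝ := if (i / d) % 2 = 1 then 1 else 0

/-- the indicator of the odd numbers -/
noncomputable def chio (i : ℕ) : ℝ := if i % 2 = 1 then 1 else 0

theorem chi_block {d : ℕ} (hd : 0 < d) (k s : ℕ) (hs : s < 2 * d) :
    chi d (2 * d * k + s) = if d ≤ s then 1 else 0 := by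
  have h1 : (2 * d * k + s) / d = 2 * k + s / d := by
    rw [show 2 * d * k + s = s + d * (2 * k) by ring, Nat.add_mul_div_left _ _ hd]
    ring
  unfold chi
  rw [h1]
  by_cases h : d ≤ s
  · have h2 : s / d = 1 := by
      rw [Nat.div_eq_iff hd]
      omega
    rw [if_pos h, if_pos (by omega)]
  · have h2 : s / d = 0 := Nat.div_eq_of_lt (by omega)
    rw [if_neg h, if_neg (by omega)]

/-- number of the `i < N` with `floor (i / d)` odd, `N = 2 d k + s` -/
theorem cnt_block {d : ℕ} (hd : 0 < d) (k s : ℕ) (hs : s ≤ 2 * d) :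
    ∑ i ∈ range (2 * d * k + s), chi d i = (d : ℝ) * k + ((s - d : ℕ) : ℝ) := by
  induction k generalizing s with
  | zero =>
    induction s with
    | zero => simp
    | succ s ih =>
      have h1 := chi_block hd 0 s (by omega)
      rw [← add_assoc, sum_range_succ, ih (by omega), h1]
      by_cases h : d ≤ s
      · rw [if_pos h, show s + 1 - d = s - d + 1 by omega]
        push_cast
        ring
      · rw [if_neg h, show s + 1 - d = s - d by omega]
        ring
  | succ k ihk =>
    induction s with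
    | zero =>
      have h1 := ihk (2 * d) le_rfl
      rw [show 2 * d * (k + 1) + 0 = 2 * d * k + 2 * d by ring, h1,
        show 2 * d - d = d by omega]
      simp
      ring
    | succ s ih =>
      have h1 := chi_block hd (k + 1) s (by omega)
      rw [← add_assoc, sum_range_succ, ih (by omega), h1]
      by_cases h : d ≤ s
      · rw [if_pos h, show s + 1 - d = s - d + 1 by omega]
        push_cast
        ring
      · rw [if_neg h, show s + 1 - d = s - d by omega]
        ring

/-- the periodic part -/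
noncomputable def per (d s : ℕ) : ℝ :=
  if s ≤ d then 4 * s * (d - s - 1) else -4 * d - 4 * (s - d) * (2 * d - 1 - s)

theorem per_succ (d s k : ℕ) :
    per d (s + 1) + (4 * ((2 * d * k + s + 1 : ℕ) : ℝ) * ((2 * d * k + s + 1 : ℕ) + 1)
      - 4 * d * (2 * d * k + s + 1 : ℕ)) =
    per d s + (4 * ((2 * d * k + s : ℕ) : ℝ) * ((2 * d * k + s : ℕ) + 1)
      - 4 * d * (2 * d * k + s : ℕ)) + 16 * ((d : ℝ) * k + ((s + 1 - d : ℕ) : ℝ)) := by
  unfold per
  by_cases h : s + 1 ≤ d
  · rw [if_pos h, if_pos (by omega), show s + 1 - d = 0 by omega]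
    push_cast
    ring
  · have h1 : ((s + 1 - d : ℕ) : ℝ) = s + 1 - d := by
      rw [Nat.cast_sub (by omega)]
      push_cast
      ring
    rw [if_neg h, h1]
    by_cases h2 : s ≤ d
    · have h3 : s = d := by omega
      subst h3
      rw [if_pos le_rfl]
      push_cast
      ring
    · rw [if_neg h2]
      push_cast
      ring

theorem sd_block {d : ℕ} (hd : 0 < d) (k s : ℕ) (hs : s ≤ 2 * d) :
    16 * ∑ j ∈ range (2 * d * k + s), ∑ i ∈ range (j + 1), chi d i =
      per d s + (4 * ((2 * d * k + s : ℕ) : ℝ) * ((2 * d * k + s : ℕ) + 1)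
      - 4 * d * (2 * d * k + s : ℕ)) := by
  induction k generalizing s with
  | zero =>
    induction s with
    | zero => simp [per]
    | succ s ih =>
      have h1 := cnt_block hd 0 (s + 1) hs
      have h2 := per_succ d s 0
      rw [← add_assoc] at h1 ⊢
      rw [h2, sum_range_succ, mul_add, ih (by omega), h1]
  | succ k ihk =>
    induction s with
    | zero =>
      have h1 := ihk (2 * d) le_rfl
      have h3 : per d (2 * d) = 0 := by
        unfold per
        rw [if_neg (by omega)]
        push_cast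
        ring
      have h4 : per d 0 = 0 := by
        unfold per
        simp
      rw [show 2 * d * (k + 1) + 0 = 2 * d * k + 2 * d by ring, h1, h3, h4]
    | succ s ih =>
      have h1 := cnt_block hd (k + 1) (s + 1) hs
      have h2 := per_succ d s (k + 1)
      rw [← add_assoc] at h1 ⊢
      rw [h2, sum_range_succ, mul_add, ih (by omega), h1]

theorem per_lower (d s : ℕ) (_hs : s ≤ 2 * d) : -((d : ℝ) + 1) ^ 2 ≤ per d s := by
  unfold per
  by_cases h : s ≤ d
  · rw [if_pos h]
    have h1 : (s : ℝ) ≤ d := by exact_mod_cast h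
    have h2 : (0 : ℝ) ≤ s := Nat.cast_nonneg s
    nlinarith [mul_nonneg h2 (sub_nonneg.2 h1), sq_nonneg ((d : ℝ) - 1)]
  · rw [if_neg h]
    nlinarith [sq_nonneg ((d : ℝ) - 1 - 2 * (s - d))]

theorem per_upper (d s : ℕ) (hs : s ≤ 2 * d) : per d s ≤ ((d : ℝ) - 1) ^ 2 := by
  unfold per
  by_cases h : s ≤ d
  · rw [if_pos h]
    nlinarith [sq_nonneg ((d : ℝ) - 1 - 2 * s)]
  · rw [if_neg h]
    have h1 : (s : ℝ) ≤ 2 * d := by exact_mod_cast hs
    have h2 : (d : ℝ) ≤ s := by exact_mod_cast (by omega : d ≤ s)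
    have h3 : (0 : ℝ) ≤ d := Nat.cast_nonneg d
    nlinarith [mul_nonneg (sub_nonneg.2 h2) (sub_nonneg.2 h1), sq_nonneg ((d : ℝ) + 1)]

/-- lower bound of the double partial sums of `chi d` -/
theorem sd_lower {d : ℕ} (hd : 0 < d) (m : ℕ) :
    4 * ((m : ℝ) + 1) * (m + 2) - 4 * d * (m + 1) - ((d : ℝ) + 1) ^ 2 ≤
      16 * ∑ j ∈ range (m + 1), ∑ i ∈ range (j + 1), chi d i := by
  have h1 := sd_block hd ((m + 1) / (2 * d)) ((m + 1) % (2 * d))
    (Nat.mod_lt _ (by omega)).le
  rw [Nat.div_add_mod] at h1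
  rw [h1]
  have h2 := per_lower d ((m + 1) % (2 * d)) (Nat.mod_lt _ (by omega)).le
  push_cast
  linarith

/-- upper bound of the double partial sums of `chi d` -/
theorem sd_upper {d : ℕ} (hd : 0 < d) (m : ℕ) :
    16 * ∑ j ∈ range (m + 1), ∑ i ∈ range (j + 1), chi d i ≤
      4 * ((m : ℝ) + 1) * (m + 2) - 4 * d * (m + 1) + ((d : ℝ) - 1) ^ 2 := by
  have h1 := sd_block hd ((m + 1) / (2 * d)) ((m + 1) % (2 * d))
    (Nat.mod_lt _ (by omega)).le
  rw [Nat.div_add_mod] at h1
  rw [h1]
  have h2 := per_upper d ((m + 1) % (2 * d)) (Nat.mod_lt _ (by omega)).le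
  push_cast
  linarith

theorem cnt_odd (N : ℕ) : 2 * ∑ i ∈ range N, chio i = (N : ℝ) - (N % 2 : ℕ) := by
  induction N with
  | zero => simp
  | succ N ih =>
    rw [sum_range_succ, mul_add, ih]
    unfold chio
    rcases Nat.mod_two_eq_zero_or_one N with h | h
    · have h1 : (N + 1) % 2 = 1 := by omega
      rw [h, h1, if_neg (by norm_num)]
      push_cast
      ring
    · have h1 : (N + 1) % 2 = 0 := by omega
      rw [h, h1, if_pos rfl]
      push_cast
      ring

theorem odd_block (M : ℕ) :
    4 * ∑ j ∈ range M, ∑ i ∈ range (j + 1), chio i = (M : ℝ) ^ 2 - (M % 2 : ℕ) := by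
  induction M with
  | zero => simp
  | succ M ih =>
    rw [sum_range_succ, mul_add, ih]
    have h0 := cnt_odd (M + 1)
    rcases Nat.mod_two_eq_zero_or_one M with h | h
    · have h1 : (M + 1) % 2 = 1 := by omega
      rw [h1] at h0 ⊢
      rw [h]
      push_cast at h0 ⊢
      linarith
    · have h1 : (M + 1) % 2 = 0 := by omega
      rw [h1] at h0 ⊢
      rw [h]
      push_cast at h0 ⊢
      linarith

/-- upper bound of the double partial sums of the odd indicator -/
theorem odd_upper (m : ℕ) :
    4 * ∑ j ∈ range (m + 1), ∑ i ∈ range (j + 1), chio i ≤ ((m : ℝ) + 1) ^ 2 := by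
  rw [odd_block]
  have h := Nat.cast_nonneg (α := ℝ) ((m + 1) % 2)
  push_cast at h ⊢
  linarith

end Pool.Agent.CycCrit
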