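import Mathlib

/-!
# Bounds for the counting sums of the window (MP_1d6ef7_nt)
-/

set_option autoImplicit false

namespace Pool.Agent.CycCrit

/-- the number of `i < n` with `i / d` odd -/
def ocnt (d n : ℕ) : ℕ := ∑ i ∈ Finset.range n, if Odd (i / d) then 1 else 0

theorem ocnt_succ (d n : ℕ) : ocnt d (n + 1) = ocnt d n + if Odd (n / d) then 1 else 0 := by
  unfold ocnt; rw [Finset.sum_range_succ]

theorem ocnt_eq {d : ℕ} (hd : 0 < d) (n : ℕ) :
    ocnt d n = d * ((n / d) / 2) + if Odd (n / d) then n % d else 0 := by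
  induction n with
  | zero => simp [ocnt]
  | succ n ih =>
    rw [ocnt_succ, ih]
    rcases Nat.eq_zero_or_pos ((n + 1) % d) with h | h
    · -- the block ends
      have h1 : (n + 1) / d = n / d + 1 := by
        have : (n + 1) / d = n / d + if d ∣ n + 1 then 1 else 0 := Nat.succ_div
        rw [if_pos (Nat.dvd_of_mod_eq_zero h)] at this
        exact this
      have h2 : n % d = d - 1 := by
        have e1 := Nat.div_add_mod n d
        have e2 := Nat.div_add_mod (n + 1) d
        rw [h1, h, mul_add] at e2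
        omega
      rw [h1, h, h2]
      rcases Nat.even_or_odd (n / d) with ho | ho
      · have h3 : ¬ Odd (n / d) := by simpa using ho
        obtain ⟨k, hk⟩ := ho
        have h4 : Odd (n / d + 1) := by rw [hk]; exact ⟨k, by ring⟩
        rw [if_neg h3, if_neg h3, if_pos h4, hk]
        have : (k + k) / 2 = (k + k + 1) / 2 := by omega
        rw [this]
      · have h4 : ¬ Odd (n / d + 1) := by
          rw [Nat.not_odd_iff_even]; exact Odd.add_one ho
        rw [if_pos ho, if_pos ho, if_neg h4]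
        obtain ⟨k, hk⟩ := ho
        rw [hk]
        have e1 : (2 * k + 1) / 2 = k := by omega
        have e2 : (2 * k + 1 + 1) / 2 = k + 1 := by omega
        rw [e1, e2, mul_add]
        omega
    · have h1 : (n + 1) / d = n / d := by
        have : (n + 1) / d = n / d + if d ∣ n + 1 then 1 else 0 := Nat.succ_div
        rw [if_neg (fun hdv => by have := Nat.mod_eq_zero_of_dvd hdv; omega)] at this
        exact this
      have h2 : (n + 1) % d = n % d + 1 := by
        have e1 := Nat.div_add_mod n d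
        have e2 := Nat.div_add_mod (n + 1) d
        rw [h1] at e2
        omega
      rw [h1, h2]
      split_ifs <;> omega

theorem ocnt_lower {d : ℕ} (hd : 0 < d) (n : ℕ) : n ≤ 2 * ocnt d n + d := by
  rw [ocnt_eq hd]
  have e1 := Nat.div_add_mod n d
  have e2 := Nat.mod_lt n hd
  have e3 := Nat.zero_le (n % d)
  rcases Nat.even_or_odd (n / d) with ho | ho
  · obtain ⟨k, hk⟩ := ho
    have h3 : ¬ Odd (n / d) := by rw [hk]; simp
    rw [if_neg h3, hk]
    have : (k + k) / 2 = k := by omega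
    rw [this]
    rw [hk] at e1
    nlinarith
  · rw [if_pos ho]
    obtain ⟨k, hk⟩ := ho
    rw [hk]
    have : (2 * k + 1) / 2 = k := by omega
    rw [this]
    rw [hk] at e1
    nlinarith

theorem ocnt_upper {d : ℕ} (hd : 0 < d) (n : ℕ) : 2 * ocnt d n ≤ n := by
  rw [ocnt_eq hd]
  have e1 := Nat.div_add_mod n d
  have e2 := Nat.mod_lt n hd
  have e3 := Nat.zero_le (n % d)
  rcases Nat.even_or_odd (n / d) with ho | ho
  · obtain ⟨k, hk⟩ := ho
    have h3 : ¬ Odd (n / d) := by rw [hk]; simp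
    rw [if_neg h3, hk]
    have : (k + k) / 2 = k := by omega
    rw [this]
    rw [hk] at e1
    nlinarith
  · rw [if_pos ho]
    obtain ⟨k, hk⟩ := ho
    rw [hk]
    have : (2 * k + 1) / 2 = k := by omega
    rw [this]
    rw [hk] at e1
    nlinarith

/-- first partial sum of `phi` (`n` terms) -/
noncomputable def gsum (p q n : ℕ) : ℝ := -(ocnt 1 n : ℝ) + p * (ocnt p n : ℝ) + q * (ocnt q n : ℝ)

/-- second partial sum of `phi` -/
noncomputable def Lam (p q m : ℕ) : ℝ := ∑ i ∈ Finset.range (m + 1), gsum p q (i + 1)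

theorem gsum_lower {p q : ℕ} (hp : 0 < p) (hq : 0 < q) (n : ℕ) :
    (p + q - 1 : ℝ) * n / 2 - (p ^ 2 + q ^ 2 : ℝ) / 2 ≤ gsum p q n := by
  have h1 : (2 * ocnt 1 n : ℝ) ≤ n := by exact_mod_cast ocnt_upper one_pos n
  have h2 : (n : ℝ) ≤ 2 * ocnt p n + p := by exact_mod_cast ocnt_lower hp n
  have h3 : (n : ℝ) ≤ 2 * ocnt q n + q := by exact_mod_cast ocnt_lower hq n
  have hp0 : (0 : ℝ) ≤ p := Nat.cast_nonneg p
  have hq0 : (0 : ℝ) ≤ q := Nat.cast_nonneg q
  have e2 := mul_le_mul_of_nonneg_left h2 hp0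
  have e3 := mul_le_mul_of_nonneg_left h3 hq0
  unfold gsum
  nlinarith

theorem Lam_lower {p q : ℕ} (hp : 0 < p) (hq : 0 < q) (m : ℕ) :
    (p + q - 1 : ℝ) / 4 * (m + 1) * (m + 2) - (p ^ 2 + q ^ 2 : ℝ) / 2 * (m + 1) ≤ Lam p q m := by
  induction m with
  | zero =>
    have := gsum_lower hp hq 1
    simp only [Lam, zero_add, Finset.sum_range_one]
    push_cast at this ⊢
    linarith
  | succ m ih =>
    have h := gsum_lower hp hq (m + 1 + 1)
    have e : Lam p q (m + 1) = Lam p q m + gsum p q (m + 1 + 1) := by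
      unfold Lam; rw [Finset.sum_range_succ]
    rw [e]
    push_cast at h ⊢
    nlinarith

theorem ocnt_zero {d n : ℕ} (hn : n ≤ d) : ocnt d n = 0 := by
  unfold ocnt
  apply Finset.sum_eq_zero
  intro i hi
  have : i / d = 0 := Nat.div_eq_of_lt (by have := Finset.mem_range.mp hi; omega)
  rw [this]; simp

/-- `psum phi ≥ 0` from `p` on -/
theorem gsum_nonneg {p q n : ℕ} (hp : 2 ≤ p) (hn : p < n) : 0 ≤ gsum p q n := by
  have h1 : (2 * ocnt 1 n : ℝ) ≤ n := by exact_mod_cast ocnt_upper one_pos n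
  have h2 : (n : ℝ) ≤ 2 * ocnt p n + p := by exact_mod_cast ocnt_lower (by omega) n
  have h4 : 1 ≤ ocnt p n := by
    rw [ocnt_eq (by omega : 0 < p)]
    have e1 := Nat.div_add_mod n p
    have e2 := Nat.mod_lt n (by omega : 0 < p)
    rcases Nat.lt_or_ge (n / p) 2 with h | h
    · have h5 : n / p = 1 := by
        have : 1 ≤ n / p := (Nat.one_le_div_iff (by omega)).mpr hn.le
        omega
      rw [h5] at e1 ⊢
      simp
      omega
    · have : 1 ≤ n / p / 2 := by omega
      have := Nat.mul_le_mul (by omega : 1 ≤ p) this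
      omega
  have h4' : (1 : ℝ) ≤ ocnt p n := by exact_mod_cast h4
  have hp' : (2 : ℝ) ≤ p := by exact_mod_cast hp
  have hn' : (p + 1 : ℝ) ≤ n := by exact_mod_cast hn
  have hq0 : (0 : ℝ) ≤ q * (ocnt q n : ℝ) := by positivity
  unfold gsum
  rcases le_total (n : ℝ) (2 * p) with h | h
  · nlinarith
  · nlinarith

/-- `psum phi ≤ 0` before `p` -/
theorem gsum_nonpos {p q n : ℕ} (hn : n ≤ p) (hpq : p ≤ q) : gsum p q n ≤ 0 := by
  unfold gsum
  rw [ocnt_zero hn, ocnt_zero (hn.trans hpq)]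
  simp

theorem Lam_succ (p q m : ℕ) : Lam p q (m + 1) = Lam p q m + gsum p q (m + 2) := by
  unfold Lam; rw [Finset.sum_range_succ]

theorem Lam_nonpos {p q m : ℕ} (hm : m < p) (hpq : p ≤ q) : Lam p q m ≤ 0 := by
  unfold Lam
  apply Finset.sum_nonpos
  intro i hi
  have := Finset.mem_range.mp hi
  exact gsum_nonpos (by omega) hpq

theorem Lam_small {p q m : ℕ} (hp : 2 ≤ p) (hpq : p ≤ q) (hm : m < p) :
    -((m + 1 : ℝ) * (m + 2) / 4) ≤ Lam p q m := by
  induction m with
  | zero =>
    have h1 : (2 * ocnt 1 1 : ℝ) ≤ (1 : ℕ) := by exact_mod_cast ocnt_upper one_pos 1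
    simp only [Lam, zero_add, Finset.sum_range_one, gsum]
    have h2 : (0 : ℝ) ≤ p * (ocnt p 1 : ℝ) := by positivity
    have h3 : (0 : ℝ) ≤ q * (ocnt q 1 : ℝ) := by positivity
    push_cast at h1 ⊢
    linarith
  | succ m ih =>
    have h := ih (by omega)
    rw [Lam_succ]
    have h1 : (2 * ocnt 1 (m + 2) : ℝ) ≤ ((m + 2 : ℕ) : ℝ) := by
      exact_mod_cast ocnt_upper one_pos (m + 2)
    have h2 : (0 : ℝ) ≤ p * (ocnt p (m + 2) : ℝ) := by positivity
    have h3 : (0 : ℝ) ≤ q * (ocnt q (m + 2) : ℝ) := by positivity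
    unfold gsum
    push_cast at h1 ⊢
    nlinarith

/-- `Lam` is at least its value at `p - 1` -/
theorem Lam_ge {p q : ℕ} (hp : 2 ≤ p) (hpq : p ≤ q) (m : ℕ) : -((p : ℝ) ^ 2) ≤ Lam p q m := by
  have hp' : (2 : ℝ) ≤ p := by exact_mod_cast hp
  induction m with
  | zero =>
    have := Lam_small (m := 0) hp hpq (by omega)
    push_cast at this
    nlinarith
  | succ m ih =>
    rcases Nat.lt_or_ge (m + 1) p with h | h
    · have h1 := Lam_small (m := m + 1) hp hpq h
      have h2 : ((m + 1 : ℕ) : ℝ) + 1 ≤ p := by exact_mod_cast h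
      have h3 : (0 : ℝ) ≤ ((m + 1 : ℕ) : ℝ) := Nat.cast_nonneg _
      nlinarith
    · rw [Lam_succ]
      have := gsum_nonneg (q := q) hp (by omega : p < m + 2)
      linarith

/-- `Lam` increases from `p - 1` on -/
theorem Lam_mono {p q m n : ℕ} (hp : 2 ≤ p) (hm : p ≤ m + 1) (hmn : m ≤ n) :
    Lam p q m ≤ Lam p q n := by
  induction n, hmn using Nat.le_induction with
  | base => exact le_rfl
  | succ n hn ih =>
    rw [Lam_succ]
    have := gsum_nonneg (q := q) hp (by omega : p < n + 2)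
    linarith

end Pool.Agent.CycCrit
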