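import Mathlib

/-!
# Sign patterns of differences `g (c t) - g t`
-/

set_option autoImplicit false

namespace Pool.Agent.CycCrit

open Set

/-- positive on `(0, z)`, negative on `(z, ∞)` -/
def PM (g : ℝ → ℝ) (z : ℝ) : Prop :=
  0 < z ∧ (∀ t, 0 < t → t < z → 0 < g t) ∧ ∀ t, z < t → g t < 0

/-- positive on `(0, a)`, negative on `(a, b)`, positive on `(b, ∞)` -/
def PMP (g : ℝ → ℝ) (a b : ℝ) : Prop :=
  0 < a ∧ a < b ∧ (∀ t, 0 < t → t < a → 0 < g t) ∧ (∀ t, a < t → t < b → g t < 0) ∧
    ∀ t, b < t → 0 < g t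

/-- `h` is the derivative of `g` in the logarithmic scale -/
def LDer (g h : ℝ → ℝ) : Prop := ∀ t, 0 < t → HasDerivAt g (h t / t) t

theorem LDer.diff {g h : ℝ → ℝ} (H : LDer g h) {c : ℝ} (hc : 0 < c) :
    LDer (fun t => g (c * t) - g t) (fun t => h (c * t) - h t) := by
  intro t ht
  have h1 : HasDerivAt (fun t => g (c * t)) (h (c * t) / (c * t) * c) t := by
    have h2 : HasDerivAt (fun t : ℝ => c * t) c t := by
      simpa using (hasDerivAt_id t).const_mul c
    exact (H (c * t) (by positivity)).comp t h2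
  have h3 := h1.sub (H t ht)
  refine h3.congr_deriv ?_
  field_simp

theorem LDer.cont {g h : ℝ → ℝ} (H : LDer g h) : ContinuousOn g (Ioi 0) :=
  fun t ht => (H t ht).continuousAt.continuousWithinAt

theorem mono_of {g h : ℝ → ℝ} (H : LDer g h) {s : Set ℝ} (hs : Convex ℝ s)
    (h0 : s ⊆ Ioi 0) (hp : ∀ t ∈ interior s, 0 < h t) : StrictMonoOn g s := by
  refine strictMonoOn_of_deriv_pos hs (H.cont.mono h0) fun t ht => ?_
  have ht0 : 0 < t := h0 (interior_subset ht)
  rw [(H t ht0).deriv]
  exact div_pos (hp t ht) ht0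

theorem anti_of {g h : ℝ → ℝ} (H : LDer g h) {s : Set ℝ} (hs : Convex ℝ s)
    (h0 : s ⊆ Ioi 0) (hp : ∀ t ∈ interior s, h t < 0) : StrictAntiOn g s := by
  refine strictAntiOn_of_deriv_neg hs (H.cont.mono h0) fun t ht => ?_
  have ht0 : 0 < t := h0 (interior_subset ht)
  rw [(H t ht0).deriv]
  exact div_neg_of_neg_of_pos (hp t ht) ht0

/-- a unimodal function: the difference changes its sign once -/
theorem patA {g h : ℝ → ℝ} {z c : ℝ} (H : LDer g h) (hz : PM h z) (hc : 1 < c) :
    ∃ z', PM (fun t => g (c * t) - g t) z' ∧ h (c * z') - h z' < 0 ∧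
      g (c * z') - g z' = 0 := by
  obtain ⟨z0, z1, z2⟩ := hz
  have hc0 : 0 < c := by linarith
  have hinc : StrictMonoOn g (Ioc 0 z) := mono_of H (convex_Ioc 0 z)
    (fun t ht => ht.1) (fun t ht => by
      rw [interior_Ioc] at ht
      exact z1 t ht.1 ht.2)
  have hdec : StrictAntiOn g (Ici z) := anti_of H (convex_Ici z)
    (fun t ht => lt_of_lt_of_le z0 ht) (fun t ht => by
      rw [interior_Ici] at ht
      exact z2 t ht)
  have hzc : 0 < z / c := by positivity
  have hzc' : z / c < z := div_lt_self z0 hc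
  obtain ⟨Df, hDf⟩ : ∃ Df : ℝ → ℝ, Df = fun t => g (c * t) - g t := ⟨_, rfl⟩
  have hcz : c * (z / c) = z := by field_simp
  have hlt : ∀ t, 0 < t → t < c * t := fun t ht => by nlinarith
  have D1 : ∀ t, 0 < t → t ≤ z / c → 0 < Df t := by
    intro t ht h1
    have h2 : c * t ≤ z := by
      calc c * t ≤ c * (z / c) := by gcongr
        _ = z := hcz
    have h3 := hinc ⟨ht, (hlt t ht).le.trans h2⟩ ⟨by positivity, h2⟩ (hlt t ht)
    rw [hDf]
    simpa using h3
  have D2 : ∀ t, z ≤ t → Df t < 0 := by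
    intro t h1
    have ht : 0 < t := by linarith
    have h3 := hdec (show t ∈ Ici z from h1) (show c * t ∈ Ici z from h1.trans (hlt t ht).le)
      (hlt t ht)
    rw [hDf]
    simpa using h3
  have D3 : StrictAntiOn Df (Icc (z / c) z) := by
    intro s hs t ht hst
    have hs0 : 0 < s := hzc.trans_le hs.1
    have h1 := hinc ⟨hs0, hs.2⟩ ⟨hs0.trans hst, ht.2⟩ hst
    have h2 : c * s < c * t := by gcongr
    have h3 : z ≤ c * s := by
      calc z = c * (z / c) := hcz.symm
        _ ≤ c * s := by
            have := hs.1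
            gcongr
    have h4 := hdec (show c * s ∈ Ici z from h3) (show c * t ∈ Ici z from h3.trans h2.le) h2
    rw [hDf]
    simp only
    linarith
  have hcont : ContinuousOn Df (Icc (z / c) z) := by
    have := (H.diff hc0).cont
    rw [hDf]
    exact this.mono fun t ht => hzc.trans_le ht.1
  obtain ⟨y, hy, hy0⟩ : (0 : ℝ) ∈ Df '' Icc (z / c) z :=
    intermediate_value_Icc' hzc'.le hcont ⟨(D2 z le_rfl).le, (D1 _ hzc le_rfl).le⟩
  have hy1 : z / c < y := by
    refine lt_of_le_of_ne hy.1 fun e => ?_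
    have := D1 _ hzc le_rfl
    rw [e, hy0] at this
    exact lt_irrefl _ this
  have hy2 : y < z := by
    refine lt_of_le_of_ne hy.2 fun e => ?_
    have := D2 z le_rfl
    rw [← e, hy0] at this
    exact lt_irrefl _ this
  have hy00 : 0 < y := hzc.trans hy1
  refine ⟨y, ⟨hy00, ?_, ?_⟩, ?_, ?_⟩
  · intro t ht hty
    show 0 < g (c * t) - g t
    have e : g (c * t) - g t = Df t := by rw [hDf]
    rw [e]
    rcases le_or_gt t (z / c) with h1 | h1
    · exact D1 t ht h1
    · have := D3 ⟨h1.le, (hty.trans hy2).le⟩ hy hty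
      linarith
  · intro t hty
    show g (c * t) - g t < 0
    have e : g (c * t) - g t = Df t := by rw [hDf]
    rw [e]
    rcases le_or_gt z t with h1 | h1
    · exact D2 t h1
    · have := D3 hy ⟨(hy1.trans hty).le, h1.le⟩ hty
      linarith
  · have h1 := z1 y hy00 hy2
    have h2 := z2 (c * y) (by
      calc z = c * (z / c) := hcz.symm
        _ < c * y := by gcongr)
    linarith
  · rw [hDf] at hy0
    exact hy0

/-- two sign changes -/
theorem patC {g h : ℝ → ℝ} {z a b c : ℝ} (H : LDer g h) (hz : PM g z) (hh : PMP h a b)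
    (hc : 1 < c) :
    ∃ a' b', PMP (fun t => g (c * t) - g t) a' b' ∧ h (c * a') - h a' < 0 ∧
      0 < h (c * b') - h b' ∧ g (c * a') - g a' = 0 ∧ g (c * b') - g b' = 0 := by
  obtain ⟨z0, z1, z2⟩ := hz
  obtain ⟨a0, hab, h1, h2, h3⟩ := hh
  have hc0 : 0 < c := by linarith
  have hI : StrictMonoOn g (Ioc 0 a) := mono_of H (convex_Ioc 0 a)
    (fun t ht => ht.1) (fun t ht => by
      rw [interior_Ioc] at ht
      exact h1 t ht.1 ht.2)
  have hD : StrictAntiOn g (Icc a b) := anti_of H (convex_Icc a b)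
    (fun t ht => lt_of_lt_of_le a0 ht.1) (fun t ht => by
      rw [interior_Icc] at ht
      exact h2 t ht.1 ht.2)
  have hJ : StrictMonoOn g (Ici b) := mono_of H (convex_Ici b)
    (fun t ht => (a0.trans hab).trans_le ht) (fun t ht => by
      rw [interior_Ici] at ht
      exact h3 t ht)
  have hb0 : 0 < b := a0.trans hab
  have hgz : g z = 0 := by
    have hcz := (H z z0).continuousAt
    refine le_antisymm ?_ ?_
    · refine le_of_tendsto (hcz.tendsto.mono_left nhdsWithin_le_nhds : Filter.Tendsto g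
        (nhdsWithin z (Ioi z)) (nhds (g z))) ?_
      filter_upwards [self_mem_nhdsWithin] with t ht
      exact (z2 t ht).le
    · refine ge_of_tendsto (hcz.tendsto.mono_left nhdsWithin_le_nhds : Filter.Tendsto g
        (nhdsWithin z (Iio z)) (nhds (g z))) ?_
      have : Ioo 0 z ∈ nhdsWithin z (Iio z) := Ioo_mem_nhdsLT z0
      filter_upwards [this] with t ht
      exact (z1 t ht.1 ht.2).le
  have haz : a < z := by
    by_contra hcon
    push Not at hcon
    have := hI ⟨by linarith, by linarith⟩ ⟨z0, hcon⟩ (show z / 2 < z by linarith)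
    have := z1 (z / 2) (by linarith) (by linarith)
    linarith
  have hzb : z < b := by
    by_contra hcon
    push Not at hcon
    have := hJ (show z ∈ Ici b from hcon) (show z + 1 ∈ Ici b from by
      show b ≤ z + 1
      linarith) (show z < z + 1 by linarith)
    have := z2 (z + 1) (by linarith)
    linarith
  obtain ⟨Df, hDf⟩ : ∃ Df : ℝ → ℝ, Df = fun t => g (c * t) - g t := ⟨_, rfl⟩
  have hlt : ∀ t, 0 < t → t < c * t := fun t ht => by nlinarith
  have hDc : ContinuousOn Df (Ioi 0) := by
    rw [hDf]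
    exact (H.diff hc0).cont
  have hDe : ∀ t, g (c * t) - g t = Df t := fun t => by rw [hDf]
  have hmul : ∀ {x t : ℝ}, x / c ≤ t → x ≤ c * t := fun {x t} hx => by
    rw [div_le_iff₀ hc0] at hx
    linarith
  have hmul' : ∀ {x t : ℝ}, t ≤ x / c → c * t ≤ x := fun {x t} hx => by
    rw [le_div_iff₀ hc0] at hx
    linarith
  have hmull : ∀ {x t : ℝ}, x / c < t → x < c * t := fun {x t} hx => by
    rw [div_lt_iff₀ hc0] at hx
    linarith
  have hmull' : ∀ {x t : ℝ}, t < x / c → c * t < x := fun {x t} hx => by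
    rw [lt_div_iff₀ hc0] at hx
    linarith
  -- first zero
  have hac : 0 < a / c := by positivity
  have D1 : ∀ t, 0 < t → t ≤ a / c → 0 < Df t := by
    intro t ht h4
    have h5 := hI ⟨ht, (hlt t ht).le.trans (hmul' h4)⟩ ⟨by positivity, hmul' h4⟩ (hlt t ht)
    rw [← hDe]
    linarith
  obtain ⟨u, hu⟩ : ∃ u, u = min a (z / c) := ⟨_, rfl⟩
  have hua : u ≤ a := hu ▸ min_le_left _ _
  have huz : u ≤ z / c := hu ▸ min_le_right _ _
  have hau : a / c < u := by
    rw [hu]
    exact lt_min (div_lt_self a0 hc) (by gcongr)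
  have hu0 : 0 < u := hac.trans hau
  obtain ⟨w, hw⟩ : ∃ w, w = max (b / c) z := ⟨_, rfl⟩
  have hwb : b / c ≤ w := hw ▸ le_max_left _ _
  have hwz : z ≤ w := hw ▸ le_max_right _ _
  have hwb' : w < b := by
    rw [hw]
    exact max_lt (div_lt_self hb0 hc) hzb
  have huw : u < w := lt_of_le_of_lt hua (haz.trans_le hwz)
  have D2 : ∀ t, u ≤ t → t ≤ w → Df t < 0 := by
    intro t h4 h5
    have ht : 0 < t := hu0.trans_le h4
    rw [← hDe]
    rcases lt_trichotomy (c * t) z with h6 | h6 | h6
    · have h7 : a ≤ t := by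
        by_contra hcon
        push Not at hcon
        have h8 : t < z / c := by
          rw [lt_div_iff₀ hc0]
          linarith
        have : t < u := by
          rw [hu]
          exact lt_min hcon h8
        linarith
      have h8 := hD ⟨h7, by linarith [hlt t ht]⟩ ⟨by linarith [hlt t ht], by linarith⟩ (hlt t ht)
      linarith
    · have h7 := z1 t ht (by linarith [hlt t ht])
      rw [h6, hgz]
      linarith
    · rcases lt_trichotomy t z with h7 | h7 | h7
      · have := z1 t ht h7
        have := z2 (c * t) h6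
        linarith
      · have := z2 (c * t) h6
        rw [h7, hgz, ← h7]
        linarith
      · have h8 : t ≤ b / c := by
          by_contra hcon
          push Not at hcon
          have : w < t := by
            rw [hw]
            exact max_lt hcon h7
          linarith
        have h9 := hD ⟨by linarith, by linarith [hlt t ht, hmul' h8]⟩
          ⟨by linarith, hmul' h8⟩ (hlt t ht)
        linarith
  have D3 : ∀ t, b ≤ t → 0 < Df t := by
    intro t h4
    have ht : 0 < t := hb0.trans_le h4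
    have h5 := hJ (show t ∈ Ici b from h4) (show c * t ∈ Ici b from h4.trans (hlt t ht).le)
      (hlt t ht)
    rw [← hDe]
    linarith
  have A1 : StrictAntiOn Df (Icc (a / c) u) := by
    intro s hs t ht hst
    have hs0 : 0 < s := hac.trans_le hs.1
    have h4 := hI ⟨hs0, hs.2.trans hua⟩ ⟨hs0.trans hst, ht.2.trans hua⟩ hst
    have h5 : c * s < c * t := by gcongr
    have h6 : c * t ≤ z := hmul' (ht.2.trans huz)
    have h7 := hD ⟨hmul hs.1, by linarith⟩ ⟨by linarith [hmul hs.1], by linarith⟩ h5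
    rw [← hDe, ← hDe]
    linarith
  have A2 : StrictMonoOn Df (Icc w b) := by
    intro s hs t ht hst
    have hs0 : 0 < s := by linarith [hs.1]
    have h4 := hD ⟨by linarith [hs.1], hs.2⟩ ⟨by linarith [hs.1], ht.2⟩ hst
    have h5 : c * s < c * t := by gcongr
    have h6 : b ≤ c * s := hmul (hwb.trans hs.1)
    have h7 := hJ (show c * s ∈ Ici b from h6) (show c * t ∈ Ici b from h6.trans h5.le) h5
    rw [← hDe, ← hDe]
    linarith
  obtain ⟨y, hy, hy0⟩ : (0 : ℝ) ∈ Df '' Icc (a / c) u :=
    intermediate_value_Icc' hau.le (hDc.mono fun t ht => hac.trans_le ht.1)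
      ⟨(D2 u le_rfl huw.le).le, (D1 _ hac le_rfl).le⟩
  obtain ⟨x, hx, hx0⟩ : (0 : ℝ) ∈ Df '' Icc w b :=
    intermediate_value_Icc hwb'.le (hDc.mono fun t ht => (hu0.trans huw).trans_le ht.1)
      ⟨(D2 w huw.le le_rfl).le, (D3 _ le_rfl).le⟩
  have hy1 : a / c < y := by
    refine lt_of_le_of_ne hy.1 fun e => ?_
    have := D1 _ hac le_rfl
    rw [e, hy0] at this
    exact lt_irrefl _ this
  have hy2 : y < u := by
    refine lt_of_le_of_ne hy.2 fun e => ?_
    have := D2 u le_rfl huw.le
    rw [← e, hy0] at this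
    exact lt_irrefl _ this
  have hx1 : w < x := by
    refine lt_of_le_of_ne hx.1 fun e => ?_
    have := D2 w huw.le le_rfl
    rw [e, hx0] at this
    exact lt_irrefl _ this
  have hx2 : x < b := by
    refine lt_of_le_of_ne hx.2 fun e => ?_
    have := D3 b le_rfl
    rw [← e, hx0] at this
    exact lt_irrefl _ this
  have hyp : 0 < y := hac.trans hy1
  refine ⟨y, x, ⟨hyp, by linarith, ?_, ?_, ?_⟩, ?_, ?_, ?_, ?_⟩
  · intro t ht hty
    show 0 < g (c * t) - g t
    rw [hDe]
    rcases le_or_gt t (a / c) with h4 | h4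
    · exact D1 t ht h4
    · have := A1 ⟨h4.le, (hty.trans hy2).le⟩ hy hty
      linarith
  · intro t hty htx
    show g (c * t) - g t < 0
    rw [hDe]
    rcases le_or_gt t u with h4 | h4
    · have := A1 hy ⟨(hy1.trans hty).le, h4⟩ hty
      linarith
    · rcases le_or_gt t w with h5 | h5
      · exact D2 t h4.le h5
      · have := A2 ⟨h5.le, (htx.trans hx2).le⟩ hx htx
        linarith
  · intro t htx
    show 0 < g (c * t) - g t
    rw [hDe]
    rcases le_or_gt b t with h4 | h4
    · exact D3 t h4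
    · have := A2 hx ⟨(hx1.trans htx).le, h4.le⟩ htx
      linarith
  · have h4 := h1 y hyp (by linarith)
    have h5 := h2 (c * y) (hmull hy1) (by linarith [hmull' (hy2.trans_le huz)])
    linarith
  · have h4 := h2 x (by linarith) hx2
    have h5 := h3 (c * x) (hmull (hwb.trans_lt hx1))
    linarith
  · rw [hDe]
    exact hy0
  · rw [hDe]
    exact hx0

end Pool.Agent.CycCrit
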