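import Mathlib

namespace Pool.Agent.CycCrit

open Polynomial

/-- If `s m ≠ s n` and `m ≤ n` there is a switch in `[m, n)`. -/
theorem sw_exists (s : ℕ → Bool) (m : ℕ) : ∀ n, m ≤ n → s m ≠ s n →
    ∃ i, m ≤ i ∧ i < n ∧ s i ≠ s (i + 1) := by
  intro n hmn hne
  induction n, hmn using Nat.le_induction with
  | base => exact absurd rfl hne
  | succ k hk ih =>
    by_cases h : s m = s k
    · exact ⟨k, hk, Nat.lt_succ_self k, by rw [← h]; exact hne⟩
    · obtain ⟨i, h1, h2, h3⟩ := ih h
      exact ⟨i, h1, Nat.lt_succ_of_lt h2, h3⟩

/-- The number of sign variations of a real polynomial is at most the number of switches, below the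
degree, of any compatible sign pattern `s` of its coefficients. -/
theorem sv_le (P : ℝ[X]) (s : ℕ → Bool)
    (h : ∀ i, (s i = true → 0 ≤ P.coeff i) ∧ (s i = false → P.coeff i ≤ 0)) :
    signVariations P ≤ ((Finset.range P.natDegree).filter (fun i => s i ≠ s (i + 1))).card := by
  induction hn : P.support.card using Nat.strong_induction_on generalizing P with
  | _ k ih =>
  by_cases hP : P = 0
  · subst hP; simp
  rw [signVariations_eq_eraseLead_add_ite hP]
  have hlt : P.eraseLead.support.card < k := by
    rw [← hn]; exact eraseLead_support_card_lt hP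
  have hE : ∀ i, (s i = true → 0 ≤ P.eraseLead.coeff i) ∧
      (s i = false → P.eraseLead.coeff i ≤ 0) := by
    intro i
    rw [eraseLead_coeff]
    split_ifs
    · simp
    · exact h i
  have h1 := ih _ hlt P.eraseLead hE rfl
  have hlead : P.leadingCoeff ≠ 0 := leadingCoeff_ne_zero.mpr hP
  by_cases hQ : P.eraseLead = 0
  · rw [hQ]
    have : SignType.sign P.leadingCoeff ≠ 0 := by
      simpa using hlead
    simp [hP]
  · have hlead2 : P.eraseLead.leadingCoeff ≠ 0 := leadingCoeff_ne_zero.mpr hQ
    have hdeg : P.eraseLead.natDegree < P.natDegree := by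
      rcases eraseLead_natDegree_lt_or_eraseLead_eq_zero P with h' | h'
      · exact h'
      · exact absurd h' hQ
    have hsub : (Finset.range P.eraseLead.natDegree).filter (fun i => s i ≠ s (i + 1)) ⊆
        (Finset.range P.natDegree).filter (fun i => s i ≠ s (i + 1)) := by
      intro i hi
      rw [Finset.mem_filter, Finset.mem_range] at hi ⊢
      exact ⟨lt_trans hi.1 hdeg, hi.2⟩
    split_ifs with hs
    · have hcm : P.coeff P.eraseLead.natDegree = P.eraseLead.leadingCoeff := by
        rw [leadingCoeff, eraseLead_coeff, if_neg (ne_of_lt hdeg)]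
      have hne : s P.eraseLead.natDegree ≠ s P.natDegree := by
        intro heq
        have a1 := h P.eraseLead.natDegree
        have a2 := h P.natDegree
        rw [hcm] at a1
        rw [coeff_natDegree] at a2
        cases hb : s P.natDegree with
        | true =>
          rw [hb] at heq
          have b1 : 0 < P.eraseLead.leadingCoeff := lt_of_le_of_ne (a1.1 heq) (Ne.symm hlead2)
          have b2 : 0 < P.leadingCoeff := lt_of_le_of_ne (a2.1 hb) (Ne.symm hlead)
          rw [sign_pos b1, sign_pos b2] at hs
          exact absurd hs (by decide)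
        | false =>
          rw [hb] at heq
          have b1 : P.eraseLead.leadingCoeff < 0 := lt_of_le_of_ne (a1.2 heq) hlead2
          have b2 : P.leadingCoeff < 0 := lt_of_le_of_ne (a2.2 hb) hlead
          rw [sign_neg b1, sign_neg b2] at hs
          exact absurd hs (by decide)
      obtain ⟨i, hi1, hi2, hi3⟩ := sw_exists s _ _ hdeg.le hne
      have hlt2 : ((Finset.range P.eraseLead.natDegree).filter
          (fun i => s i ≠ s (i + 1))).card <
          ((Finset.range P.natDegree).filter (fun i => s i ≠ s (i + 1))).card := by
        apply Finset.card_lt_card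
        refine ⟨hsub, fun hc => ?_⟩
        have hmem : i ∈ (Finset.range P.natDegree).filter (fun i => s i ≠ s (i + 1)) := by
          rw [Finset.mem_filter, Finset.mem_range]; exact ⟨hi2, hi3⟩
        have := hc hmem
        rw [Finset.mem_filter, Finset.mem_range] at this
        omega
      omega
    · have := Finset.card_le_card hsub
      omega

end Pool.Agent.CycCrit
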