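import Mathlib

/-!
# Lower bound for the double sums of the indicator of an odd quotient
-/

set_option autoImplicit false

namespace Pool.Agent.CycCrit

open Finset

/-- `1` if `i / d` is odd, `0` otherwise -/
def od (d i : ℕ) : ℤ := if (i / d) % 2 = 1 then 1 else 0

theorem od_eq (d a b : ℕ) (hd : 1 ≤ d) (hb : b < 2 * d) :
    od d (2 * d * a + b) = if d ≤ b then 1 else 0 := by
  unfold od
  have h1 : (2 * d * a + b) / d = 2 * a + b / d := by
    have : 2 * d * a + b = b + d * (2 * a) := by ring
    rw [this, Nat.add_mul_div_left _ _ (by omega)]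
    ring
  rw [h1]
  by_cases h : d ≤ b
  · have h2 : b / d = 1 := by
      rw [Nat.div_eq_iff (by omega)]
      omega
    rw [h2, if_pos h, if_pos (by omega)]
  · have h2 : b / d = 0 := Nat.div_eq_of_lt (by omega)
    rw [h2, if_neg h, if_neg (by omega)]

/-- the counting function -/
theorem cnt_eq (d : ℕ) (hd : 1 ≤ d) : ∀ a b : ℕ, b ≤ 2 * d →
    ∑ i ∈ range (2 * d * a + b), od d i = d * a + (if d ≤ b then (b : ℤ) - d else 0) := by
  intro a
  induction a with
  | zero =>
    intro b
    induction b with
    | zero =>
      intro _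
      rw [if_neg (by omega)]
      simp
    | succ b ih =>
      intro hb
      have h1 := od_eq d 0 b hd (by omega)
      rw [← Nat.add_assoc, sum_range_succ, ih (by omega), h1]
      split_ifs with h2 h3 h3
      · push_cast; ring
      · omega
      · have : b + 1 = d := by omega
        have h4 : ((b : ℤ) + 1) = d := by exact_mod_cast this
        push_cast
        linarith
      · push_cast; ring
  | succ a iha =>
    intro b
    induction b with
    | zero =>
      intro _
      have h := iha (2 * d) le_rfl
      rw [if_pos (by omega)] at h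
      rw [if_neg (by omega)]
      have e : 2 * d * (a + 1) + 0 = 2 * d * a + 2 * d := by ring
      rw [e, h]
      push_cast
      ring
    | succ b ih =>
      intro hb
      have h1 := od_eq d (a + 1) b hd (by omega)
      rw [← Nat.add_assoc, sum_range_succ, ih (by omega), h1]
      split_ifs with h2 h3 h3
      · push_cast; ring
      · omega
      · have : b + 1 = d := by omega
        have h4 : ((b : ℤ) + 1) = d := by exact_mod_cast this
        push_cast
        linarith
      · push_cast; ring

/-- the exact value of the double sum -/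
theorem S_eq (d : ℕ) (hd : 1 ≤ d) : ∀ a b : ℕ, b ≤ 2 * d →
    16 * ∑ j ∈ range (2 * d * a + b), ∑ i ∈ range (j + 1), od d i =
      4 * ((2 * d * a + b : ℕ) : ℤ) * (((2 * d * a + b : ℕ) : ℤ) + 1) -
        4 * d * ((2 * d * a + b : ℕ) : ℤ) +
      (if d ≤ b then 4 * ((b : ℤ) - d + 1) * (b - 2 * d) else 4 * b * ((d : ℤ) - 1 - b)) := by
  intro a
  induction a with
  | zero =>
    intro b
    induction b with
    | zero =>
      intro _
      rw [if_neg (by omega)]
      simp
    | succ b ih =>
      intro hb
      have h1 := cnt_eq d hd 0 (b + 1) hb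
      rw [← Nat.add_assoc, sum_range_succ, mul_add, ih (by omega), Nat.add_assoc _ b 1, h1]
      split_ifs with h2 h3 h3
      · push_cast; ring
      · omega
      · have : b + 1 = d := by omega
        have h4 : (d : ℤ) = b + 1 := by exact_mod_cast this.symm
        push_cast
        rw [h4]
        ring
      · push_cast; ring
  | succ a iha =>
    intro b
    induction b with
    | zero =>
      intro _
      have h := iha (2 * d) le_rfl
      rw [if_pos (by omega)] at h
      rw [if_neg (by omega)]
      have e : 2 * d * (a + 1) + 0 = 2 * d * a + 2 * d := by ring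
      rw [e, h]
      push_cast
      ring
    | succ b ih =>
      intro hb
      have h1 := cnt_eq d hd (a + 1) (b + 1) hb
      rw [← Nat.add_assoc, sum_range_succ, mul_add, ih (by omega), Nat.add_assoc _ b 1, h1]
      split_ifs with h2 h3 h3
      · push_cast; ring
      · omega
      · have : b + 1 = d := by omega
        have h4 : (d : ℤ) = b + 1 := by exact_mod_cast this.symm
        push_cast
        rw [h4]
        ring
      · push_cast; ring

/-- the lower bound -/
theorem S_lower (d : ℕ) (hd : 1 ≤ d) (x : ℕ) :
    4 * (x : ℤ) * (x + 1) - 4 * d * x - (d + 1) ^ 2 ≤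
      16 * ∑ j ∈ range x, ∑ i ∈ range (j + 1), od d i := by
  have h := S_eq d hd (x / (2 * d)) (x % (2 * d)) (Nat.mod_lt _ (by omega)).le
  rw [Nat.div_add_mod] at h
  rw [h]
  split_ifs with h2
  · nlinarith [sq_nonneg (2 * (((x % (2 * d) : ℕ) : ℤ) - d) + 1 - d)]
  · have h3 : ((x % (2 * d) : ℕ) : ℤ) + 1 ≤ d := by
      have : x % (2 * d) + 1 ≤ d := by omega
      exact_mod_cast this
    have h4 : (0 : ℤ) ≤ ((x % (2 * d) : ℕ) : ℤ) := by positivity
    have h5 := mul_nonneg h4 (sub_nonneg.2 h3)
    nlinarith [sq_nonneg ((d : ℤ) + 1)]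

/-- the double sum of the indicator of the odd numbers -/
theorem S_odd (x : ℕ) : 4 * ∑ j ∈ range x, ∑ i ∈ range (j + 1), od 1 i ≤ (x : ℤ) ^ 2 := by
  have h := S_eq 1 le_rfl (x / (2 * 1)) (x % (2 * 1)) (Nat.mod_lt _ (by omega)).le
  rw [Nat.div_add_mod] at h
  have h1 : x % (2 * 1) = 0 ∨ x % (2 * 1) = 1 := by omega
  rcases h1 with h1 | h1
  · rw [h1, if_neg (by omega)] at h
    push_cast at h
    nlinarith
  · rw [h1, if_pos (by omega)] at h
    push_cast at h
    nlinarith

end Pool.Agent.CycCrit
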