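import Pool.Agent.CycCrit.AltSeq

/-!
# Alternations of partial sums beyond an index
-/

set_option autoImplicit false

namespace Pool.Agent.CycCrit

/-- `v` sign changes at indices greater than `a`, the first sign is negative -/
def NAlt (a : ℕ) (c : ℕ → ℝ) (v : ℕ) : Prop := ∃ m : ℕ → ℕ, a < m 0 ∧
  (∀ i, i < v → m i < m (i + 1)) ∧ ∀ i, i ≤ v → (-1) ^ i * c (m i) < 0

theorem psum_step {c : ℕ → ℝ} {a b : ℕ} (hab : a ≤ b) :
    psum c b = psum c a + ∑ i ∈ Finset.Ico (a + 1) (b + 1), c i := by
  unfold psum
  rw [Finset.sum_range_add_sum_Ico _ (by omega)]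

/-- a partial sum that is nonnegative at `a` and alternates after it -/
theorem NAlt.down {a : ℕ} {c : ℕ → ℝ} {v : ℕ} (h0 : 0 ≤ psum c a) (h : NAlt a (psum c) v) :
    NAlt a c v := by
  obtain ⟨m, h1, h2, h3⟩ := h
  have key : ∀ i, i ≤ v → ∃ j, (if i = 0 then a else m (i - 1)) < j ∧ j ≤ m i ∧
      (-1) ^ i * c j < 0 := by
    intro i hi
    obtain ⟨l, hl⟩ : ∃ l, l = if i = 0 then a else m (i - 1) := ⟨_, rfl⟩
    rw [← hl]
    have hlm : l < m i := by
      rw [hl]
      split_ifs with h4
      · rw [h4]; exact h1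
      · have := h2 (i - 1) (by omega)
        rwa [Nat.sub_add_cancel (by omega)] at this
    have hls : 0 ≤ (-1) ^ i * psum c l := by
      rw [hl]
      split_ifs with h4
      · rw [h4]; simpa using h0
      · have h5 := h3 (i - 1) (by omega)
        obtain ⟨k, rfl⟩ : ∃ k, i = k + 1 := ⟨i - 1, by omega⟩
        rw [Nat.add_sub_cancel] at h5 ⊢
        rw [pow_succ]
        nlinarith
    have h6 := h3 i hi
    rw [psum_step hlm.le, mul_add] at h6
    by_contra hcon
    push Not at hcon
    have h7 : 0 ≤ (-1 : ℝ) ^ i * ∑ j ∈ Finset.Ico (l + 1) (m i + 1), c j := by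
      rw [Finset.mul_sum]
      refine Finset.sum_nonneg fun j hj => ?_
      have := Finset.mem_Ico.1 hj
      exact hcon j (by omega) (by omega)
    linarith
  choose! f hf using key
  refine ⟨f, ?_, fun i hi => ?_, fun i hi => (hf i hi).2.2⟩
  · have := (hf 0 (Nat.zero_le _)).1
    simpa using this
  · have h4 := (hf i hi.le).2.1
    have h5 := (hf (i + 1) hi).1
    simp only [Nat.add_eq_zero_iff, one_ne_zero, and_false, if_false, Nat.add_sub_cancel] at h5
    omega

/-- a sequence that is nonpositive on `(a, b)` and nonnegative from `b` on -/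
theorem NAlt.le_one {a b : ℕ} {c : ℕ → ℝ} {v : ℕ} (h1 : ∀ i, a < i → i < b → c i ≤ 0)
    (h2 : ∀ i, b ≤ i → 0 ≤ c i) (h : NAlt a c v) : v ≤ 1 := by
  by_contra hcon
  push Not at hcon
  obtain ⟨m, h3, h4, h5⟩ := h
  have e0 : m 0 < m 1 := h4 0 (by omega)
  have e1 : m 1 < m 2 := h4 1 (by omega)
  have s1 := h5 1 (by omega)
  have s2 := h5 2 (by omega)
  simp only [pow_one] at s1
  have s2' : c (m 2) < 0 := by
    have : (-1 : ℝ) ^ 2 = 1 := by norm_num
    rw [this] at s2
    linarith
  have hb : b ≤ m 1 := by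
    by_contra hb
    push Not at hb
    have := h1 (m 1) (by omega) hb
    linarith
  have := h2 (m 2) (by omega)
  linarith

/-- once positive, nonnegative up to `a` -/
def Up (c : ℕ → ℝ) (a : ℕ) : Prop := ∀ i j, i ≤ j → j < a → 0 < c i → 0 ≤ c j

theorem Up.psum {c : ℕ → ℝ} {a : ℕ} (h : Up c a) : Up (psum c) a := by
  intro i j hij hj hi
  have h1 : ∃ k, k ≤ i ∧ 0 < c k := by
    by_contra hcon
    push Not at hcon
    have : CycCrit.psum c i ≤ 0 := Finset.sum_nonpos fun k hk => hcon k (by
      have := Finset.mem_range.1 hk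
      omega)
    linarith
  obtain ⟨k, hk, hk2⟩ := h1
  rw [psum_step hij]
  refine add_nonneg hi.le (Finset.sum_nonneg fun l hl => ?_)
  have := Finset.mem_Ico.1 hl
  exact h k l (by omega) (by omega) hk2

/-- at most one change before `a`, and then `NAlt` -/
theorem alt_split {c : ℕ → ℝ} {a v K : ℕ} (hU : Up c (a + 1))
    (hN : ∀ w, NAlt a c w → w ≤ K) (h : Alt c v) : v ≤ K + 2 := by
  by_contra hcon
  push Not at hcon
  obtain ⟨m, s, h1, h2⟩ := h
  have hmono : ∀ i j, i < j → j ≤ v → m i < m j := by
    intro i j hij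
    induction j with
    | zero => omega
    | succ j ih =>
      intro hj
      rcases Nat.lt_succ_iff_lt_or_eq.1 hij with h3 | h3
      · exact (ih h3 (by omega)).trans (h1 j (by omega))
      · rw [h3]; exact h1 j (by omega)
  -- index of a positive value followed by a negative value
  have main : ∀ e, e ≤ 1 → 0 < s * (-1) ^ e → False := by
    intro e he hs
    have p0 := h2 e (by omega)
    have p1 := h2 (e + 1) (by omega)
    have q0 : 0 < c (m e) := by
      by_contra hc
      push Not at hc
      nlinarith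
    have q1 : c (m (e + 1)) < 0 := by
      rw [pow_succ] at p1
      by_contra hc
      push Not at hc
      nlinarith
    have ha : a < m (e + 1) := by
      by_contra ha
      push Not at ha
      have := hU (m e) (m (e + 1)) (h1 e (by omega)).le (by omega) q0
      linarith
    have := hN (v - (e + 1)) ⟨fun i => m (e + 1 + i), ha, fun i hi => ?_, fun i hi => ?_⟩
    · omega
    · exact h1 (e + 1 + i) (by omega)
    · have p2 := h2 (e + 1 + i) (by omega)
      have e2 : s * (-1) ^ (e + 1 + i) * c (m (e + 1 + i)) =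
          (s * (-1) ^ e) * (-((-1) ^ i * c (m (e + 1 + i)))) := by
        rw [pow_add, pow_add]
        ring
      rw [e2] at p2
      by_contra hc
      push Not at hc
      nlinarith
  have p0 := h2 0 (by omega)
  have hs0 : s ≠ 0 := by
    rintro rfl
    simp at p0
  rcases lt_or_gt_of_ne hs0 with hs | hs
  · exact main 1 le_rfl (by simpa using hs)
  · exact main 0 (by omega) (by simpa using hs)

end Pool.Agent.CycCrit
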