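import Pool.Agent.CycCrit.Base

/-!
# The positive side for three factors
-/

set_option autoImplicit false

namespace Pool.Agent.CycCrit

open Set

/-- a chain step: the derivative has the sign pattern plus, minus, plus -/
theorem chainPMP2 {N M : ℝ → ℝ} {a b : ℝ} (hd : ∀ t, HasDerivAt N (M t) t) (h0 : 0 ≤ N 0)
    (hM : PMP M a b) {p c : ℝ} (hp0 : 0 < p) (hp : N p < 0) (hpc : p < c) (hc0 : 0 < N c) :
    ∃ y z, PMP N y z := by
  obtain ⟨a0, hab, m1, m2, m3⟩ := hM
  have hc : Continuous N := continuous_iff_continuousAt.2 fun t => (hd t).continuousAt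
  have hI : StrictMonoOn N (Icc 0 a) := strictMonoOn_of_deriv_pos (convex_Icc 0 a)
    hc.continuousOn fun t ht => by
      rw [interior_Icc] at ht
      rw [(hd t).deriv]
      exact m1 t ht.1 ht.2
  have hD : StrictAntiOn N (Icc a b) := strictAntiOn_of_deriv_neg (convex_Icc a b)
    hc.continuousOn fun t ht => by
      rw [interior_Icc] at ht
      rw [(hd t).deriv]
      exact m2 t ht.1 ht.2
  have hJ : StrictMonoOn N (Ici b) := strictMonoOn_of_deriv_pos (convex_Ici b)
    hc.continuousOn fun t ht => by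
      rw [interior_Ici] at ht
      rw [(hd t).deriv]
      exact m3 t ht
  have hpos : ∀ t, 0 < t → t ≤ a → 0 < N t := fun t ht hta =>
    h0.trans_lt (hI ⟨le_rfl, a0.le⟩ ⟨ht.le, hta⟩ ht)
  have hNa : 0 < N a := hpos a a0 le_rfl
  have hap : a < p := by
    by_contra hcon
    push Not at hcon
    have := hpos p hp0 hcon
    linarith
  have hNb : N b < 0 := by
    rcases le_or_gt p b with h | h
    · have := hD.antitoneOn ⟨hap.le, h⟩ ⟨hab.le, le_rfl⟩ h
      linarith
    · have := hJ (show b ∈ Ici b from le_refl b) (show p ∈ Ici b from h.le) h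
      linarith
  have hbc : b < c := by
    by_contra hcon
    push Not at hcon
    have := hD ⟨hap.le, by linarith⟩ ⟨by linarith, hcon⟩ hpc
    linarith
  obtain ⟨y, hy, hy0⟩ : (0 : ℝ) ∈ N '' Icc a b :=
    intermediate_value_Icc' hab.le hc.continuousOn ⟨hNb.le, hNa.le⟩
  obtain ⟨z, hz, hz0⟩ : (0 : ℝ) ∈ N '' Icc b c :=
    intermediate_value_Icc hbc.le hc.continuousOn ⟨hNb.le, hc0.le⟩
  have hy1 : a < y := by
    refine lt_of_le_of_ne hy.1 fun e => ?_
    rw [← e] at hy0
    linarith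
  have hy2 : y < b := by
    refine lt_of_le_of_ne hy.2 fun e => ?_
    rw [← e, hy0] at hNb
    exact lt_irrefl _ hNb
  have hz1 : b < z := by
    refine lt_of_le_of_ne hz.1 fun e => ?_
    rw [e, hz0] at hNb
    exact lt_irrefl _ hNb
  refine ⟨y, z, a0.trans hy1, hy2.trans hz1, fun t ht hty => ?_, fun t hty htz => ?_,
    fun t htz => ?_⟩
  · rcases le_or_gt t a with h | h
    · exact hpos t ht h
    · have := hD ⟨h.le, (hty.trans hy2).le⟩ hy hty
      linarith
  · rcases le_or_gt t b with h | h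
    · have := hD hy ⟨(hy1.trans hty).le, h⟩ hty
      linarith
    · have := hJ (show t ∈ Ici b from h.le) (show z ∈ Ici b from hz1.le) htz
      linarith
  · have := hJ (show z ∈ Ici b from hz1.le) (show t ∈ Ici b from (hz1.trans htz).le) htz
    linarith

/-- a cubic polynomial -/
noncomputable def cub (a b c d t : ℝ) : ℝ := a * t ^ 3 + b * t ^ 2 + c * t + d

theorem hd_cub (a b c d t : ℝ) :
    HasDerivAt (cub a b c d) (cub 0 (3 * a) (2 * b) c t) t := by
  have h1 := (((hasDerivAt_pow 3 t).const_mul a).add ((hasDerivAt_pow 2 t).const_mul b)).add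
    ((hasDerivAt_id t).const_mul c)
  have h2 := h1.add_const d
  refine (h2.congr_deriv ?_).congr_of_eventuallyEq ?_
  · unfold cub
    push_cast
    ring
  · exact Filter.Eventually.of_forall fun s => by simp [cub]

theorem hd_e1 (a b c d a' b' c' d' t : ℝ) :
    HasDerivAt (fun t : ℝ => Real.exp t * cub a b c d t + cub a' b' c' d' t)
      (Real.exp t * cub a (b + 3 * a) (c + 2 * b) (d + c) t + cub 0 (3 * a') (2 * b') c' t)
      t := by
  refine ((hasDerivAt_expmul (hd_cub a b c d t)).add (hd_cub a' b' c' d' t)).congr_deriv ?_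
  unfold cub
  ring

theorem hd_e2 (a b c d a' b' c' d' a'' b'' c'' d'' t : ℝ) :
    HasDerivAt (fun t : ℝ => Real.exp t * (Real.exp t * cub a b c d t + cub a' b' c' d' t) +
      cub a'' b'' c'' d'' t)
      (Real.exp t * (Real.exp t * cub (2 * a) (2 * b + 3 * a) (2 * c + 2 * b) (2 * d + c) t +
        cub a' (b' + 3 * a') (c' + 2 * b') (d' + c') t) + cub 0 (3 * a'') (2 * b'') c'' t)
      t := by
  refine ((hasDerivAt_expmul (hd_e1 a b c d a' b' c' d' t)).add
    (hd_cub a'' b'' c'' d'' t)).congr_deriv ?_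
  unfold cub
  ring

/-- the numerator of the third derivative of `-t/(e^t - 1)` -/
noncomputable def N3 (t : ℝ) : ℝ :=
  Real.exp t * (Real.exp t * (Real.exp t * cub 1 (-6) 7 (-1) t + cub 4 0 (-14) 3 t) +
    cub 1 6 7 (-3) t) + 1

theorem hd_N3 (t : ℝ) :
    HasDerivAt N3 (Real.exp t * (Real.exp t * (Real.exp t * cub 3 (-15) 9 4 t +
      cub 8 12 (-28) (-8) t) + cub 1 9 19 4 t)) t := by
  refine ((hasDerivAt_expmul (hd_e2 1 (-6) 7 (-1) 4 0 (-14) 3 1 6 7 (-3) t)).add_const
    1).congr_deriv ?_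
  unfold cub
  ring

theorem PM_cub : ∃ z, PM (fun t : ℝ => -cub 48 624 1728 (-32) t) z := by
  have hc : Continuous (fun t : ℝ => -cub 48 624 1728 (-32) t) := by
    unfold cub
    fun_prop
  obtain ⟨z, hz, hz0⟩ : (0 : ℝ) ∈ (fun t : ℝ => -cub 48 624 1728 (-32) t) '' Icc 0 1 :=
    intermediate_value_Icc' (by norm_num) hc.continuousOn ⟨by norm_num [cub], by norm_num [cub]⟩
  have e : 48 * z ^ 3 + 624 * z ^ 2 + 1728 * z + -32 = 0 := by
    have h : -(48 * z ^ 3 + 624 * z ^ 2 + 1728 * z + -32) = 0 := hz0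
    linarith
  have hz1 : 0 < z := by
    refine lt_of_le_of_ne hz.1 fun e' => ?_
    rw [← e'] at e
    norm_num at e
  have key : ∀ s t : ℝ, 0 < s → s < t →
      48 * s ^ 3 + 624 * s ^ 2 + 1728 * s < 48 * t ^ 3 + 624 * t ^ 2 + 1728 * t := by
    intro s t hs hst
    have ht : 0 < t := hs.trans hst
    have h1 : 0 < (t - s) * (48 * (t ^ 2 + t * s + s ^ 2) + 624 * (t + s) + 1728) :=
      mul_pos (by linarith) (by positivity)
    nlinarith
  refine ⟨z, hz1, fun t ht htz => ?_, fun t htz => ?_⟩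
  · have := key t z ht htz
    show 0 < -(48 * t ^ 3 + 624 * t ^ 2 + 1728 * t + -32)
    linarith
  · have := key z t hz1 htz
    show -(48 * t ^ 3 + 624 * t ^ 2 + 1728 * t + -32) < 0
    linarith

theorem exp_two_ge : 7 ≤ Real.exp 2 := by
  have h := Real.exp_one_gt_d9
  have e : Real.exp 2 = Real.exp 1 * Real.exp 1 := by
    rw [← Real.exp_add]
    norm_num
  rw [e]
  nlinarith

theorem PMP_N3 : ∃ y z, PMP N3 y z := by
  obtain ⟨z0, h0⟩ := PM_cub
  have e0 : PM (fun t : ℝ => -(Real.exp t * cub 48 624 1728 (-32) t)) z0 :=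
    h0.mul (k := Real.exp) (fun t _ => Real.exp_pos t) fun t _ => by ring
  -- `f8`
  obtain ⟨z1, h1⟩ := chainPM
    (N := fun t : ℝ => -(Real.exp t * cub 48 480 768 (-800) t + cub 0 0 0 48 t))
    (M := fun t : ℝ => -(Real.exp t * cub 48 624 1728 (-32) t)) (fun t => by
      refine (hd_e1 48 480 768 (-800) 0 0 0 48 t).neg.congr_deriv ?_
      unfold cub
      ring) (by norm_num [cub]) e0 ⟨1, by norm_num, by
        have := Real.exp_pos 1
        norm_num [cub]
        linarith⟩
  -- `f7`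
  obtain ⟨z2, h2⟩ := chainPM
    (N := fun t : ℝ => -(Real.exp t * cub 48 336 96 (-896) t + cub 0 0 48 216 t))
    (M := fun t : ℝ => -(Real.exp t * cub 48 480 768 (-800) t + cub 0 0 0 48 t)) (fun t => by
      refine (hd_e1 48 336 96 (-896) 0 0 48 216 t).neg.congr_deriv ?_
      unfold cub
      ring) (by norm_num [cub]) h1 ⟨2, by norm_num, by
        have := Real.exp_pos 2
        norm_num [cub]
        linarith⟩
  -- `f6`
  obtain ⟨z3, h3⟩ := chainPM
    (N := fun t : ℝ => -(Real.exp t * cub 48 192 (-288) (-608) t + cub 0 24 216 356 t))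
    (M := fun t : ℝ => -(Real.exp t * cub 48 336 96 (-896) t + cub 0 0 48 216 t)) (fun t => by
      refine (hd_e1 48 192 (-288) (-608) 0 24 216 356 t).neg.congr_deriv ?_
      unfold cub
      ring) (by norm_num [cub]) h2 ⟨3, by norm_num, by
        have := Real.exp_pos 3
        norm_num [cub]
        linarith⟩
  -- `f5`
  obtain ⟨z4, h4⟩ := chainPM
    (N := fun t : ℝ => -(Real.exp t * cub 48 48 (-384) (-224) t + cub 8 108 356 216 t))
    (M := fun t : ℝ => -(Real.exp t * cub 48 192 (-288) (-608) t + cub 0 24 216 356 t))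
    (fun t => by
      refine (hd_e1 48 48 (-384) (-224) 8 108 356 216 t).neg.congr_deriv ?_
      unfold cub
      ring) (by norm_num [cub]) h3 ⟨3, by norm_num, by
        have := Real.exp_pos 3
        norm_num [cub]
        linarith⟩
  have e4 : PM (fun t : ℝ => -(Real.exp t * (Real.exp t * cub 48 48 (-384) (-224) t +
      cub 8 108 356 216 t))) z4 :=
    h4.mul (k := Real.exp) (fun t _ => Real.exp_pos t) fun t _ => by ring
  -- `f4`
  obtain ⟨y5, z5, h5⟩ := chainPMP
    (N := fun t : ℝ => Real.exp t * (Real.exp t * cub 24 (-12) (-180) (-22) t +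
      cub 8 84 188 28 t) + cub 0 0 0 6 t)
    (M := fun t : ℝ => Real.exp t * (Real.exp t * cub 48 48 (-384) (-224) t +
      cub 8 108 356 216 t)) (fun t => by
      refine (hd_e2 24 (-12) (-180) (-22) 8 84 188 28 0 0 0 6 t).congr_deriv ?_
      unfold cub
      ring) (by norm_num [cub]) e4 (b := 1) (c := 4) (by norm_num) (by
        have := exp_ge 1
        norm_num [cub]
        nlinarith) (by norm_num) (by
        have := Real.exp_pos 4
        norm_num [cub]
        positivity)
  -- `f3`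
  obtain ⟨y6, z6, h6⟩ := chainPMP2
    (N := fun t : ℝ => Real.exp t * (Real.exp t * cub 12 (-24) (-66) 22 t +
      cub 8 60 68 (-40) t) + cub 0 0 6 18 t)
    (M := fun t : ℝ => Real.exp t * (Real.exp t * cub 24 (-12) (-180) (-22) t +
      cub 8 84 188 28 t) + cub 0 0 0 6 t) (fun t => by
      refine (hd_e2 12 (-24) (-66) 22 8 60 68 (-40) 0 0 6 18 t).congr_deriv ?_
      unfold cub
      ring) (by norm_num [cub]) h5 (p := 1) (c := 4) (by norm_num) (by
        have := exp_ge 1
        norm_num [cub]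
        nlinarith) (by norm_num) (by
        have := Real.exp_pos 4
        norm_num [cub]
        positivity)
  -- `f2`
  obtain ⟨y7, z7, h7⟩ := chainPMP2
    (N := fun t : ℝ => Real.exp t * (Real.exp t * cub 6 (-21) (-12) 17 t +
      cub 8 36 (-4) (-36) t) + cub 0 3 18 19 t)
    (M := fun t : ℝ => Real.exp t * (Real.exp t * cub 12 (-24) (-66) 22 t +
      cub 8 60 68 (-40) t) + cub 0 0 6 18 t) (fun t => by
      refine (hd_e2 6 (-21) (-12) 17 8 36 (-4) (-36) 0 3 18 19 t).congr_deriv ?_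
      unfold cub
      ring) (by norm_num [cub]) h6 (p := 2) (c := 4) (by norm_num) (by
        have := exp_two_ge
        norm_num [cub]
        nlinarith) (by norm_num) (by
        have := Real.exp_pos 4
        norm_num [cub]
        positivity)
  -- `f1`
  obtain ⟨y8, z8, h8⟩ := chainPMP2
    (N := fun t : ℝ => Real.exp t * (Real.exp t * cub 3 (-15) 9 4 t +
      cub 8 12 (-28) (-8) t) + cub 1 9 19 4 t)
    (M := fun t : ℝ => Real.exp t * (Real.exp t * cub 6 (-21) (-12) 17 t +
      cub 8 36 (-4) (-36) t) + cub 0 3 18 19 t) (fun t => by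
      refine (hd_e2 3 (-15) 9 4 8 12 (-28) (-8) 1 9 19 4 t).congr_deriv ?_
      unfold cub
      ring) (by norm_num [cub]) h7 (p := 2) (c := 5) (by norm_num) (by
        have := exp_two_ge
        norm_num [cub]
        nlinarith) (by norm_num) (by
        have := Real.exp_pos 5
        norm_num [cub]
        positivity)
  have e8 : PMP (fun t : ℝ => Real.exp t * (Real.exp t * (Real.exp t * cub 3 (-15) 9 4 t +
      cub 8 12 (-28) (-8) t) + cub 1 9 19 4 t)) y8 z8 :=
    h8.mul (k := Real.exp) (fun t _ => Real.exp_pos t) fun t _ => rfl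
  -- `N3`
  refine chainPMP2 (N := N3) hd_N3 (by norm_num [N3, cub]) e8 (p := 2) (c := 5) (by norm_num)
    ?_ (by norm_num) ?_
  · have := exp_two_ge
    norm_num [N3, cub]
    nlinarith [mul_nonneg (sub_nonneg.2 this) (sub_nonneg.2 this),
      mul_nonneg (mul_nonneg (sub_nonneg.2 this) (sub_nonneg.2 this)) (Real.exp_pos 2).le]
  · have := Real.exp_pos 5
    norm_num [N3, cub]
    positivity

noncomputable def A3 (t : ℝ) : ℝ := t * N3 t / (Real.exp t - 1) ^ 4

theorem LDer_A2 : LDer A2 A3 := by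
  intro t ht
  have h0 := (em1_pos ht).ne'
  have e1 := Real.hasDerivAt_exp t
  have e2 := hasDerivAt_id t
  have e3 : HasDerivAt Np (Real.exp t * (Real.exp t * (-2 * t ^ 2 + 4 * t + 1) +
      (-1 * t ^ 2 + -5 * t + -1))) t := by
    have h5 := (hasDerivAt_expmul (hd_ep (-1) 3 (-1) (-1) (-3) 2 t)).sub_const 1
    refine h5.congr_deriv ?_
    ring
  have h1 := ((e2.mul e3).div ((e1.sub_const 1).pow 3) (pow_ne_zero 3 h0))
  refine h1.congr_deriv ?_
  unfold A3 N3 Np cub
  simp only [id, Pi.mul_apply, Pi.sub_apply, Pi.pow_apply]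
  field_simp
  push_cast
  ring

theorem PMP_A3 : ∃ y z, PMP A3 y z := by
  obtain ⟨y, z, hz⟩ := PMP_N3
  refine ⟨y, z, hz.mul (k := fun t => t / (Real.exp t - 1) ^ 4) (fun t ht => ?_) fun t ht => ?_⟩
  · have := em1_pos ht
    positivity
  · unfold A3
    ring

/-- the positive side for three factors -/
theorem three_pos {p q r : ℝ} (hp : 1 < p) (hq : 1 < q) (hr : 1 < r) :
    ∃ (G H : ℝ → ℝ) (y z : ℝ),
      (∀ t, G t = ((A0 (p * (q * (r * t))) - A0 (q * (r * t))) -
        (A0 (p * (r * t)) - A0 (r * t))) -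
        ((A0 (p * (q * t)) - A0 (q * t)) - (A0 (p * t) - A0 t))) ∧
      LDer G H ∧ PMP G y z ∧ G y = 0 ∧ G z = 0 ∧ H y ≠ 0 ∧ H z ≠ 0 := by
  obtain ⟨z0, h0⟩ := PM_A2
  obtain ⟨y1, z1, h1⟩ := PMP_A3
  have hp0 : 0 < p := by linarith
  have hq0 : 0 < q := by linarith
  have hr0 : 0 < r := by linarith
  obtain ⟨z2, h2, -⟩ := patA LDer_A1 h0 hp
  obtain ⟨a, b, h3, -⟩ := patC LDer_A2 h0 h1 hp
  obtain ⟨z3, h4, -⟩ := patA (LDer_A0.diff hp0) h2 hq
  obtain ⟨a', b', h5, -⟩ := patC (LDer_A1.diff hp0) h2 h3 hq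
  obtain ⟨y, z, h6, h7, h8, h9, h10⟩ := patC ((LDer_A0.diff hp0).diff hq0) h4 h5 hr
  exact ⟨_, _, y, z, fun t => rfl, ((LDer_A0.diff hp0).diff hq0).diff hr0, h6, h9, h10,
    h7.ne, h8.ne'⟩

end Pool.Agent.CycCrit
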