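import Pool.Agent.CycCrit.Two

/-!
# Exactly three real critical points for a product of two distinct odd primes
-/

set_option autoImplicit false

namespace Pool.Agent.CycCrit

open Polynomial Set

theorem two_count {p q : ℕ} (hp : p.Prime) (hq : q.Prime) (hp2 : p ≠ 2) (hq2 : q ≠ 2)
    (hpq : p ≠ q) :
    (derivative (cyclotomic (p * q) ℝ)).roots.card = 3 ∧
    (derivative (cyclotomic (p * q) ℝ)).roots.Nodup ∧
    ((derivative (cyclotomic (p * q) ℝ)).roots.filter (fun x => -1 < x ∧ x < 0)).card = 2 ∧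
    ((derivative (cyclotomic (p * q) ℝ)).roots.filter (fun x => 0 < x ∧ x < 1)).card = 1 := by
  obtain ⟨h1, h2⟩ := two_primes hp hq hp2 hq2 hpq
  obtain ⟨S, hS⟩ : ∃ S : Finset ℕ, S = {p, q} := ⟨_, rfl⟩
  have hSp : ∏ r ∈ S, r = p * q := by rw [hS, Finset.prod_pair hpq]
  have hSc : S.card = 2 := by rw [hS, Finset.card_pair hpq]
  have hSo : ∀ r ∈ S, r.Prime ∧ r ≠ 2 := by
    intro r hr
    rw [hS, Finset.mem_insert, Finset.mem_singleton] at hr
    rcases hr with rfl | rfl
    · exact ⟨hp, hp2⟩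
    · exact ⟨hq, hq2⟩
  have hne : S.Nonempty := ⟨p, by rw [hS]; simp⟩
  obtain ⟨h3, h4⟩ := main_lower S hSo hne
  rw [hSp, hSc] at h3 h4
  have h5 : ((derivative (cyclotomic (p * q) ℝ)).roots.filter
      (fun x => -1 < x ∧ x < 0)) + ((derivative (cyclotomic (p * q) ℝ)).roots.filter
      (fun x => 0 < x ∧ x < 1)) ≤ (derivative (cyclotomic (p * q) ℝ)).roots := by
    rw [Multiset.filter_add_filter]
    have h6 : Multiset.filter (fun a : ℝ => (-1 < a ∧ a < 0) ∧ 0 < a ∧ a < 1)
        (derivative (cyclotomic (p * q) ℝ)).roots = 0 := by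
      rw [Multiset.filter_eq_nil]
      rintro a _ ⟨⟨_, h5⟩, h6, _⟩
      exact absurd h5 (not_lt.mpr h6.le)
    rw [h6, add_zero]
    exact Multiset.filter_le _ _
  have h7 := Multiset.card_le_card h5
  rw [Multiset.card_add] at h7
  exact ⟨by omega, h1, by omega, by omega⟩

end Pool.Agent.CycCrit
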