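import Pool.Agent.CycCrit.ThreeNeg
import Pool.Agent.CycCrit.ThreePos
import Pool.Agent.CycCrit.RootMem
import Pool.Agent.CycCrit.TwoCount

/-!
# The real critical points of the cyclotomic polynomial of a product of three odd primes
-/

set_option autoImplicit false

namespace Pool.Agent.CycCrit

open Polynomial

section three

variable {p q r : ℕ} (hp : p.Prime) (hq : q.Prime) (hr : r.Prime) (hp2 : p ≠ 2)
  (hpq : p < q) (hqr : q < r)

include hp hq hr hp2 hpq hqr

theorem three_gt : 2 < p * q * r := by
  obtain ⟨h1, h2, h3, h4, h5, -⟩ := bounds3 hp hq hr hp2 hpq hqr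
  omega

theorem LD3_pos {t : ℝ} (ht : 0 < t) : t * LD (p * q * r) (1 * Real.exp (-t)) =
    ((A0 (p * (q * (r * t))) - A0 (q * (r * t))) - (A0 (p * (r * t)) - A0 (r * t))) -
      ((A0 (p * (q * t)) - A0 (q * t)) - (A0 (p * t) - A0 t)) := by
  have hq2 : q ≠ 2 := by
    have := hp.two_le
    omega
  have hr2 : r ≠ 2 := by
    have := hp.two_le
    omega
  have hr0 : (0 : ℝ) < r := by exact_mod_cast hr.pos
  have h4 := LD_step (n := p * q) hr (hr.odd_of_ne_two hr2) (by
    intro h
    rcases (Nat.Prime.dvd_mul hr).1 h with h | h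
    · exact (hpq.trans hqr).ne' ((Nat.prime_dvd_prime_iff_eq hr hp).1 h)
    · exact hqr.ne' ((Nat.prime_dvd_prime_iff_eq hr hq).1 h)) (Or.inl rfl) (t := t)
    (cyclotomic_pos (two_lt_pq hp hq hp2 hq2 hpq.ne) _).ne'
    (cyclotomic_pos (three_gt hp hq hr hp2 hpq hqr) _).ne'
  rw [h4, LD_pos hp hq hp2 hq2 hpq.ne (by positivity), LD_pos hp hq hp2 hq2 hpq.ne ht]

theorem pos_three : ((derivative (cyclotomic (p * q * r) ℝ)).roots.filter
      (fun x => 0 < x)).Nodup ∧
    ((derivative (cyclotomic (p * q * r) ℝ)).roots.filter (fun x => 0 < x)).card ≤ 2 := by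
  classical
  have hn2 := three_gt hp hq hr hp2 hpq hqr
  have hp1 : (1 : ℝ) < p := by exact_mod_cast hp.one_lt
  have hq1 : (1 : ℝ) < q := by exact_mod_cast hq.one_lt
  have hr1 : (1 : ℝ) < r := by exact_mod_cast hr.one_lt
  have hodd : Odd (p * q * r) := ((hp.odd_of_ne_two hp2).mul (hq.odd_of_ne_two (by
    have := hp.two_le
    omega))).mul (hr.odd_of_ne_two (by
      have := hp.two_le
      omega))
  obtain ⟨G, H, y', z', g1, f2, f3, f4, f5, f6, f7⟩ := three_pos hp1 hq1 hr1
  have hG : ∀ t : ℝ, 0 < t → t * LD (p * q * r) (1 * Real.exp (-t)) = G t := fun t ht => by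
    rw [LD3_pos hp hq hr hp2 hpq hqr ht, g1]
  have hP0 := derivative_cyclotomic_ne_zero (n := p * q * r) (by omega)
  obtain ⟨P, hP⟩ : ∃ P, P = derivative (cyclotomic (p * q * r) ℝ) := ⟨_, rfl⟩
  rw [← hP] at hP0 ⊢
  have key : ∀ x : ℝ, 0 < x → P.IsRoot x → (x = Real.exp (-y') ∨ x = Real.exp (-z')) ∧
      ¬ (derivative P).IsRoot x := by
    intro x h hx
    rw [hP] at hx
    obtain ⟨b1, b2⟩ := root_mem_odd hn2 hodd hx
    have hxe : (derivative (cyclotomic (p * q * r) ℝ)).eval x = 0 := hx
    obtain ⟨t, ht⟩ : ∃ t, t = -Real.log x := ⟨_, rfl⟩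
    have ht0 : 0 < t := by
      have := Real.log_neg h b2
      linarith
    have hxt : x = 1 * Real.exp (-t) := by
      rw [ht, neg_neg, Real.exp_log h]
      ring
    have hz0 : G t = 0 := by
      rw [← hG t ht0, LD, ← hxt, hxe]
      ring
    have hcase : t = y' ∨ t = z' := by
      obtain ⟨c1, c2, c3, c4, c5⟩ := f3
      rcases lt_trichotomy t y' with h1 | h1 | h1
      · have := c3 t ht0 h1
        linarith
      · exact Or.inl h1
      · rcases lt_trichotomy t z' with h2 | h2 | h2
        · have := c4 t h1 h2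
          linarith
        · exact Or.inr h2
        · have := c5 t h2
          linarith
    refine ⟨?_, ?_⟩
    · rcases hcase with h1 | h1
      · left
        rw [hxt, h1]
        ring
      · right
        rw [hxt, h1]
        ring
    · intro h3
      rw [hP] at h3
      have h4 := double (s := 1) (t := t) hn2 (by rw [← hxt]; exact hxe)
        (by rw [← hxt]; exact h3)
      have h5 : HasDerivAt G 0 t := by
        refine h4.congr_of_eventuallyEq ?_
        filter_upwards [Ioi_mem_nhds ht0] with t ht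
        exact (hG t ht).symm
      have h6 := h5.unique (f2 t ht0)
      have h7 : H t = 0 := by
        rcases div_eq_zero_iff.1 h6.symm with h | h
        · exact h
        · exact absurd h ht0.ne'
      rcases hcase with h1 | h1
      · exact f6 (h1 ▸ h7)
      · exact f7 (h1 ▸ h7)
  have hnd : (P.roots.filter (fun x => 0 < x)).Nodup := by
    rw [Multiset.nodup_iff_count_le_one]
    intro x
    by_cases hx : 0 < x
    · rw [Multiset.count_filter_of_pos hx, count_roots]
      by_contra hcon
      push Not at hcon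
      obtain ⟨h1, h2⟩ := (one_lt_rootMultiplicity_iff_isRoot hP0).1 hcon
      exact (key x hx h1).2 h2
    · rw [Multiset.count_filter_of_neg hx]
      exact Nat.zero_le _
  refine ⟨hnd, ?_⟩
  have hsub : (P.roots.filter (fun x => 0 < x)).toFinset ⊆
      {Real.exp (-y'), Real.exp (-z')} := by
    intro x hx
    rw [Multiset.mem_toFinset, Multiset.mem_filter, mem_roots hP0] at hx
    simpa using (key x hx.2 hx.1).1
  calc (P.roots.filter (fun x => 0 < x)).card =
        (P.roots.filter (fun x => 0 < x)).toFinset.card :=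
          (Multiset.toFinset_card_of_nodup hnd).symm
    _ ≤ ({Real.exp (-y'), Real.exp (-z')} : Finset ℝ).card := Finset.card_le_card hsub
    _ ≤ 2 := Finset.card_le_two

theorem split3 : (derivative (cyclotomic (p * q * r) ℝ)).roots.card =
    ((derivative (cyclotomic (p * q * r) ℝ)).roots.filter (fun x => -1 < x ∧ x < 0)).card +
    ((derivative (cyclotomic (p * q * r) ℝ)).roots.filter (fun x => 0 < x ∧ x < 1)).card := by
  classical
  have hn2 := three_gt hp hq hr hp2 hpq hqr
  have hodd : Odd (p * q * r) := ((hp.odd_of_ne_two hp2).mul (hq.odd_of_ne_two (by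
    have := hp.two_le
    omega))).mul (hr.odd_of_ne_two (by
      have := hp.two_le
      omega))
  have hP0 := derivative_cyclotomic_ne_zero (n := p * q * r) (by omega)
  have hz : (derivative (cyclotomic (p * q * r) ℝ)).eval 0 ≠ 0 := by
    refine der_zero_step (by
      have := hp.two_le
      have := hq.two_le
      nlinarith) hr (fun h => ?_) ?_
    · rcases (Nat.Prime.dvd_mul hr).1 h with h | h
      · exact (hpq.trans hqr).ne' ((Nat.prime_dvd_prime_iff_eq hr hp).1 h)
      · exact hqr.ne' ((Nat.prime_dvd_prime_iff_eq hr hq).1 h)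
    · exact der_zero_step hp.one_lt hq (fun h =>
        hpq.ne' ((Nat.prime_dvd_prime_iff_eq hq hp).1 h)) (der_zero_prime hp)
  have hmem : ∀ x ∈ (derivative (cyclotomic (p * q * r) ℝ)).roots,
      (-1 < x ∧ x < 0) ∨ (0 < x ∧ x < 1) := by
    intro x hx
    rw [mem_roots hP0] at hx
    obtain ⟨b1, b2⟩ := root_mem_odd hn2 hodd hx
    rcases lt_trichotomy x 0 with h | h | h
    · exact Or.inl ⟨b1, h⟩
    · rw [h] at hx
      exact absurd hx hz
    · exact Or.inr ⟨h, b2⟩
  have h1 : (derivative (cyclotomic (p * q * r) ℝ)).roots.filter (fun x => 0 < x ∧ x < 1) =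
      (derivative (cyclotomic (p * q * r) ℝ)).roots.filter (fun x => ¬ (-1 < x ∧ x < 0)) := by
    apply Multiset.filter_congr
    intro x hx
    rcases hmem x hx with h | h
    · constructor
      · rintro ⟨h2, -⟩
        linarith [h.2]
      · intro h2
        exact absurd h h2
    · constructor
      · rintro ⟨h2, -⟩ ⟨-, h3⟩
        linarith
      · intro _
        exact h
  rw [h1, ← Multiset.card_add, Multiset.filter_add_not]

/-- three primes: two positive critical points, and the bounds on the negative side -/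
theorem three_count :
    (((derivative (cyclotomic (p * q * r) ℝ)).roots.filter (fun x => 0 < x ∧ x < 1)).card = 2 ∧
    ((derivative (cyclotomic (p * q * r) ℝ)).roots.filter (fun x => 0 < x)).Nodup ∧
    ((derivative (cyclotomic (p * q * r) ℝ)).roots.filter (fun x => 0 < x)).card = 2) ∧
    (p + q + r < p * q → (derivative (cyclotomic (p * q * r) ℝ)).roots.card = 5 ∧
      ((derivative (cyclotomic (p * q * r) ℝ)).roots.filter
        (fun x => -1 < x ∧ x < 0)).card = 3) ∧
    ((p + 1) * (q + 1) < r → 5 ≤ (derivative (cyclotomic (p * q * r) ℝ)).roots.card ∧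
      (derivative (cyclotomic (p * q * r) ℝ)).roots.card ≤ 7) := by
  classical
  obtain ⟨S, hS⟩ : ∃ S : Finset ℕ, S = {p, q, r} := ⟨_, rfl⟩
  have hpr : p ≠ r := (hpq.trans hqr).ne
  have hSp : ∏ a ∈ S, a = p * q * r := by
    rw [hS, Finset.prod_insert (by simp [hpq.ne, hpr]), Finset.prod_pair hqr.ne, mul_assoc]
  have hSc : S.card = 3 := by
    rw [hS, Finset.card_insert_of_notMem (by simp [hpq.ne, hpr]), Finset.card_pair hqr.ne]
  have hSo : ∀ a ∈ S, a.Prime ∧ a ≠ 2 := by
    intro a ha
    have := hp.two_le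
    rw [hS, Finset.mem_insert, Finset.mem_insert, Finset.mem_singleton] at ha
    rcases ha with rfl | rfl | rfl
    · exact ⟨hp, hp2⟩
    · exact ⟨hq, by omega⟩
    · exact ⟨hr, by omega⟩
  have hne : S.Nonempty := ⟨p, by rw [hS]; simp⟩
  obtain ⟨h3, h4⟩ := main_lower S hSo hne
  rw [hSp, hSc] at h3 h4
  obtain ⟨h5, h6⟩ := pos_three hp hq hr hp2 hpq hqr
  have h7 := split3 hp hq hr hp2 hpq hqr
  have h8 : ((derivative (cyclotomic (p * q * r) ℝ)).roots.filter
      (fun x => 0 < x ∧ x < 1)).card ≤
      ((derivative (cyclotomic (p * q * r) ℝ)).roots.filter (fun x => 0 < x)).card :=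
    Multiset.card_le_card (Multiset.monotone_filter_right _ (fun x h => h.1))
  have h9 : ((derivative (cyclotomic (p * q * r) ℝ)).roots.filter
      (fun x => -1 < x ∧ x < 0)).card ≤
      (derivative (cyclotomic (p * q * r) ℝ)).roots.countP (fun x => x < 0) := by
    rw [Multiset.countP_eq_card_filter]
    exact Multiset.card_le_card (Multiset.monotone_filter_right _ (fun x h => h.2))
  refine ⟨⟨by omega, h5, by omega⟩, fun h => ?_, fun h => ?_⟩
  · have h10 := neg_le_three hp hq hr hp2 hpq hqr h
    constructor <;> omega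
  · have h10 := neg_le_five hp hq hr hp2 hpq hqr h
    constructor <;> omega

end three

end Pool.Agent.CycCrit
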