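import Pool.Agent.CycCrit.ThreeNeg

/-!
# Negative critical points for three primes, the equality case
-/

set_option autoImplicit false

namespace Pool.Agent.CycCrit

open Polynomial

theorem coeff_mul1 (F : ℝ[X]) (d u : ℕ) :
    ((1 + X ^ d) * F).coeff u = F.coeff u + if d ≤ u then F.coeff (u - d) else 0 := by
  rw [add_mul, one_mul, coeff_add, coeff_X_pow_mul']

theorem coeff_mul1_lt (F : ℝ[X]) {d u : ℕ} (h : u < d) :
    ((1 + X ^ d) * F).coeff u = F.coeff u := by
  rw [coeff_mul1, if_neg (by omega), add_zero]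

theorem coeff_mul1_one (d u : ℕ) :
    ((1 + X ^ d) * (1 : ℝ[X])).coeff u = (if u = 0 then 1 else 0) + if u = d then 1 else 0 := by
  rw [coeff_mul1, coeff_one, coeff_one]
  congr 1
  by_cases h : d ≤ u
  · rw [if_pos h]
    by_cases h2 : u = d
    · rw [if_pos h2, if_pos (by omega)]
    · rw [if_neg h2, if_neg (by omega)]
  · rw [if_neg h, if_neg (by omega)]

theorem P2_coeff {p q : ℕ} (hp : 0 < p) (hpq : p < q) (v : ℕ) :
    ((1 + X ^ q) * ((1 + X ^ p) * (1 : ℝ[X]))).coeff v =
      if v = 0 ∨ v = p ∨ v = q ∨ v = p + q then 1 else 0 := by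
  rw [coeff_mul1, coeff_mul1_one, coeff_mul1_one]
  split_ifs <;> first
    | (exfalso; omega)
    | norm_num

/-- two distinguished terms -/
theorem num_two {A B : ℝ[X]} {i : ℕ} (a b : ℕ × ℕ) (hab : a ≠ b) (ha : a.1 + a.2 = i)
    (hb : b.1 + b.2 = i)
    (h : ∀ u v, u + v = i → (u, v) ≠ a → (u, v) ≠ b → A.coeff u = 0 ∨ B.coeff v = 0) :
    (X * (derivative A * B - A * derivative B)).coeff i =
      ((a.1 : ℝ) - a.2) * (A.coeff a.1 * B.coeff a.2) +
      ((b.1 : ℝ) - b.2) * (A.coeff b.1 * B.coeff b.2) := by
  rw [coeff_num]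
  have ha' : a ∈ Finset.HasAntidiagonal.antidiagonal i :=
    Finset.HasAntidiagonal.mem_antidiagonal.2 ha
  have hb' : b ∈ (Finset.HasAntidiagonal.antidiagonal i).erase a :=
    Finset.mem_erase.2 ⟨hab.symm, Finset.HasAntidiagonal.mem_antidiagonal.2 hb⟩
  rw [← Finset.add_sum_erase _ _ ha', ← Finset.add_sum_erase _ _ hb']
  rw [Finset.sum_eq_zero, add_zero]
  intro x hx
  rw [Finset.mem_erase, Finset.mem_erase] at hx
  rcases h x.1 x.2 (Finset.HasAntidiagonal.mem_antidiagonal.1 hx.2.2) hx.2.1 hx.1 with h1 | h1
  · rw [h1]; simp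
  · rw [h1]; simp

section three

variable {p q r : ℕ} (hp : p.Prime) (hq : q.Prime) (hr : r.Prime) (hp2 : p ≠ 2)
  (hpq : p < q) (hqr : q < r)

include hp hq hr hp2 hpq hqr

theorem PA_zero : (PA p q r).coeff 0 = 1 := by
  obtain ⟨h1, h2, h3, h4, h5, h6, h7, h8⟩ := bounds3 hp hq hr hp2 hpq hqr
  unfold PA
  rw [coeff_mul1_lt _ (by omega), coeff_mul1_lt _ (by omega), coeff_mul1_lt _ (by omega),
    coeff_mul1_one, if_pos rfl, if_neg (by omega), add_zero]

theorem PA_top (h : p + q + r = p * q) : (PA p q r).coeff (p * q) = 1 := by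
  obtain ⟨h1, h2, h3, h4, h5, h6, h7, h8⟩ := bounds3 hp hq hr hp2 hpq hqr
  unfold PA
  rw [coeff_mul1_lt _ (by omega), ← h, coeff_mul1, if_pos (by omega),
    P2_coeff (by omega) hpq, P2_coeff (by omega) hpq, if_neg (by omega), if_pos (by omega)]
  norm_num

theorem PA_below (h : p + q + r = p * q) : (PA p q r).coeff (p * q - 1) = 0 := by
  obtain ⟨h1, h2, h3, h4, h5, h6, h7, h8⟩ := bounds3 hp hq hr hp2 hpq hqr
  unfold PA
  rw [coeff_mul1_lt _ (by omega), ← h, coeff_mul1, if_pos (by omega),
    P2_coeff (by omega) hpq, P2_coeff (by omega) hpq, if_neg (by omega), if_neg (by omega)]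
  norm_num

theorem PB_zero : (PB p q r).coeff 0 = 1 := by
  obtain ⟨h1, h2, h3, h4, h5, h6, h7, h8⟩ := bounds3 hp hq hr hp2 hpq hqr
  unfold PB
  rw [coeff_mul1_lt _ (by omega), coeff_mul1_lt _ (by omega), coeff_mul1_lt _ (by omega),
    coeff_mul1_one, if_pos rfl, if_neg (by omega), add_zero]

theorem PB_one : (PB p q r).coeff 1 = 1 := by
  obtain ⟨h1, h2, h3, h4, h5, h6, h7, h8⟩ := bounds3 hp hq hr hp2 hpq hqr
  unfold PB
  rw [coeff_mul1_lt _ (by omega), coeff_mul1_lt _ (by omega), coeff_mul1_lt _ (by omega),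
    coeff_mul1_one, if_neg (by omega), if_pos rfl, zero_add]

theorem PB_m : (PB p q r).coeff (p * q) = 1 := by
  obtain ⟨h1, h2, h3, h4, h5, h6, h7, h8⟩ := bounds3 hp hq hr hp2 hpq hqr
  unfold PB
  rw [coeff_mul1_lt _ (by omega), coeff_mul1_lt _ (by omega), coeff_mul1, if_pos le_rfl,
    coeff_mul1_one, coeff_mul1_one, if_neg (by omega), if_neg (by omega), if_pos (by omega),
    if_neg (by omega)]
  norm_num

theorem PB_m1 : (PB p q r).coeff (p * q + 1) = 1 := by
  obtain ⟨h1, h2, h3, h4, h5, h6, h7, h8⟩ := bounds3 hp hq hr hp2 hpq hqr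
  have h9 : p * q + 1 < p * r := by nlinarith
  unfold PB
  rw [coeff_mul1_lt _ (by omega), coeff_mul1_lt _ h9, coeff_mul1, if_pos (by omega),
    coeff_mul1_one, coeff_mul1_one, if_neg (by omega), if_neg (by omega), if_neg (by omega),
    if_pos (by omega)]
  norm_num

theorem neg_le_three_eq (h : p + q + r = p * q) :
    (derivative (cyclotomic (p * q * r) ℝ)).roots.countP (fun x => x < 0) ≤ 3 := by
  refine (neg_le_sv hp hq hr hp2 hpq hqr).trans ?_
  have sA := suppA hp hq hr hp2 hpq hqr
  have sB := suppB hp hq hr hp2 hpq hqr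
  have a0 := PA_zero hp hq hr hp2 hpq hqr
  have a1 := PA_top hp hq hr hp2 hpq hqr h
  have a2 := PA_below hp hq hr hp2 hpq hqr h
  have b0 := PB_zero hp hq hr hp2 hpq hqr
  have b1 := PB_one hp hq hr hp2 hpq hqr
  have b2 := PB_m hp hq hr hp2 hpq hqr
  have b3 := PB_m1 hp hq hr hp2 hpq hqr
  obtain ⟨h1, h2, h3, h4, h5, h6, h7, h8⟩ := bounds3 hp hq hr hp2 hpq hqr
  have c0 : (X * (derivative (PA p q r) * PB p q r -
      PA p q r * derivative (PB p q r))).coeff (p * q) ≤ 0 := by
    rw [num_two (p * q, 0) (0, p * q) (by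
      intro hh
      have := congrArg Prod.fst hh
      simp only at this
      omega) (by simp) (by simp)]
    · simp only [a0, a1, b0, b2]
      push_cast
      linarith
    · intro u v huv hu hv
      by_contra hcon
      rw [not_or] at hcon
      have hA := (sA u).2 hcon.1
      have hB := (sB v).2 hcon.2
      have hu2 : ¬ (v = 0) := by
        intro hv0
        apply hu
        rw [hv0, Prod.mk.injEq]
        exact ⟨by omega, rfl⟩
      have hv2 : ¬ (u = 0) := by
        intro hv0
        apply hv
        rw [hv0, Prod.mk.injEq]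
        exact ⟨rfl, by omega⟩
      have hw : ¬ (u = p * q - 1) := by
        intro hw
        rw [hw] at hcon
        exact hcon.1 a2
      generalize p * q = m at *
      generalize p * r = m' at *
      omega
  have c1 : (X * (derivative (PA p q r) * PB p q r -
      PA p q r * derivative (PB p q r))).coeff (p * q + 1) ≤ 0 := by
    rw [num_two (p * q, 1) (0, p * q + 1) (by
      intro hh
      have := congrArg Prod.fst hh
      simp only at this
      omega) (by simp) (by simp)]
    · simp only [a0, a1, b1, b3]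
      push_cast
      linarith
    · intro u v huv hu hv
      by_contra hcon
      rw [not_or] at hcon
      have hA := (sA u).2 hcon.1
      have hB := (sB v).2 hcon.2
      have hu2 : ¬ (v = 1) := by
        intro hv0
        apply hu
        rw [hv0, Prod.mk.injEq]
        exact ⟨by omega, rfl⟩
      have hv2 : ¬ (u = 0) := by
        intro hv0
        apply hv
        rw [hv0, Prod.mk.injEq]
        exact ⟨rfl, by omega⟩
      generalize p * q = m at *
      generalize p * r = m' at *
      generalize m * r = n at *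
      omega
  refine (sv_le _ (fun i => decide ((2 ≤ i ∧ i < p * q) ∨ p * q * r ≤ i)) ?_).trans ?_
  · intro i
    simp only [decide_eq_true_eq, decide_eq_false_iff_not]
    by_cases hi0 : i = p * q
    · constructor
      · intro hi
        exfalso
        generalize p * q = m at *
        generalize m * r = n at *
        omega
      · intro _
        rw [hi0]
        exact c0
    by_cases hi1 : i = p * q + 1
    · constructor
      · intro hi
        exfalso
        generalize p * q = m at *
        generalize m * r = n at *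
        omega
      · intro _
        rw [hi1]
        exact c1
    clear c0 c1 a0 a1 a2 b0 b1 b2 b3
    generalize p * q = m at *
    generalize p * r = m' at *
    generalize q * r = m'' at *
    generalize m * r = n at *
    constructor
    · intro hi
      refine num_nonneg sA sB ?_
      intro u v huv hu hv
      omega
    · intro hi
      refine num_nonpos sA sB ?_
      intro u v huv hu hv
      omega
  · refine (Finset.card_le_card (t := {1, p * q - 1, p * q * r - 1}) ?_).trans
      Finset.card_le_three
    intro i hi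
    rw [Finset.mem_filter] at hi
    have hi2 := hi.2
    simp only [ne_eq, decide_eq_decide] at hi2
    simp only [Finset.mem_insert, Finset.mem_singleton]
    generalize p * q = m at *
    generalize m * r = n at *
    by_contra hcon
    apply hi2
    omega

end three

end Pool.Agent.CycCrit
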