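import Pool.Agent.CycCrit.ThreeNeg

/-!
# Negative critical points for three primes with `p + q + r = p q` (helper23, backup)
-/

set_option autoImplicit false

namespace Pool.Agent.CycCrit.EqB

open Polynomial Pool.Agent.CycCrit

theorem c1 (F : ℝ[X]) (d u : ℕ) :
    ((1 + X ^ d) * F).coeff u = F.coeff u + if d ≤ u then F.coeff (u - d) else 0 := by
  rw [add_mul, one_mul, coeff_add, coeff_X_pow_mul']

theorem suppA' {p q r : ℕ} : Supp (PA p q r) (fun u => u = 0 ∨ u = p ∨ u = q ∨ u = p + q ∨
    u = r ∨ u = r + p ∨ u = r + q ∨ u = r + p + q ∨ p * q * r ≤ u) := by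
  unfold PA
  refine Supp.mul1 (S := fun u => u = 0 ∨ u = p ∨ u = q ∨ u = p + q ∨
    u = r ∨ u = r + p ∨ u = r + q ∨ u = r + p + q) ?_ (p * q * r) (fun u hu => ?_)
    (fun u hu => ?_)
  · refine Supp.mul1 (S := fun u => u = 0 ∨ u = p ∨ u = q ∨ u = p + q) ?_ r
      (fun u hu => ?_) (fun u hu => ?_)
    · refine Supp.mul1 (S := fun u => u = 0 ∨ u = p) ?_ q (fun u hu => ?_) (fun u hu => ?_)
      · exact Supp.one.mul1 p (fun u hu => Or.inl hu) (fun u hu => by right; omega)
      · omega
      · omega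
    · omega
    · omega
  · generalize p * q * r = n at *
    omega
  · generalize p * q * r = n at *
    omega

theorem H2 {a b : ℕ} (ha : 0 < a) (hab : a < b) (u : ℕ) :
    ((1 + X ^ b) * ((1 + X ^ a) * 1) : ℝ[X]).coeff u =
      if u = 0 ∨ u = a ∨ u = b ∨ u = a + b then 1 else 0 := by
  have K : ∀ u, ((1 + X ^ a) * 1 : ℝ[X]).coeff u = if u = 0 ∨ u = a then 1 else 0 := by
    intro u
    rw [c1, coeff_one, coeff_one]
    split_ifs <;> first | (exfalso; omega) | norm_num
  rw [c1, K, K]
  split_ifs <;> first | (exfalso; omega) | norm_num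

theorem coefs {p q r m m' m'' n : ℕ} (h1 : 3 ≤ p) (h2 : p + 2 ≤ q) (h3 : q + 2 ≤ r)
    (h : r + p + q = m) (h6 : m + 1 < m') (h7 : m' < m'') (h8 : m'' < n) :
    ((1 + X ^ n) * ((1 + X ^ r) * ((1 + X ^ q) * ((1 + X ^ p) * 1))) : ℝ[X]).coeff 0 = 1 ∧
    ((1 + X ^ n) * ((1 + X ^ r) * ((1 + X ^ q) * ((1 + X ^ p) * 1))) : ℝ[X]).coeff m = 1 ∧
    ((1 + X ^ m'') * ((1 + X ^ m') * ((1 + X ^ m) * ((1 + X ^ 1) * 1))) : ℝ[X]).coeff 0 = 1 ∧
    ((1 + X ^ m'') * ((1 + X ^ m') * ((1 + X ^ m) * ((1 + X ^ 1) * 1))) : ℝ[X]).coeff 1 = 1 ∧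
    ((1 + X ^ m'') * ((1 + X ^ m') * ((1 + X ^ m) * ((1 + X ^ 1) * 1))) : ℝ[X]).coeff m = 1 ∧
    ((1 + X ^ m'') * ((1 + X ^ m') * ((1 + X ^ m) * ((1 + X ^ 1) * 1))) : ℝ[X]).coeff (m + 1)
      = 1 := by
  have HA := fun u => H2 (a := p) (b := q) (by omega) (by omega) u
  have HB := fun u => H2 (a := 1) (b := m) (by omega) (by omega) u
  refine ⟨?_, ?_, ?_, ?_, ?_, ?_⟩
  · rw [c1, if_neg (by omega), add_zero, c1, if_neg (by omega), add_zero, HA, if_pos (by omega)]
  · rw [c1, if_neg (by omega), add_zero, c1, if_pos (by omega), HA, HA, if_neg (by omega),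
      if_pos (by omega), zero_add]
  · rw [c1, if_neg (by omega), add_zero, c1, if_neg (by omega), add_zero, HB, if_pos (by omega)]
  · rw [c1, if_neg (by omega), add_zero, c1, if_neg (by omega), add_zero, HB, if_pos (by omega)]
  · rw [c1, if_neg (by omega), add_zero, c1, if_neg (by omega), add_zero, HB, if_pos (by omega)]
  · rw [c1, if_neg (by omega), add_zero, c1, if_neg (by omega), add_zero, HB, if_pos (by omega)]

/-- all terms but two are nonpositive -/
theorem num_le_two {A B : ℝ[X]} {S T : ℕ → Prop} (hA : Supp A S) (hB : Supp B T) {i a b : ℕ}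
    (ha : a ≤ i) (hab : a ≠ i - b) (hb : b ≤ i)
    (h : ∀ u v, u + v = i → u ≠ i - b → u ≠ a → S u → T v → u ≤ v) :
    (X * (derivative A * B - A * derivative B)).coeff i ≤
      ((a : ℝ) - (i - a : ℕ)) * (A.coeff a * B.coeff (i - a)) +
      (((i - b : ℕ) : ℝ) - b) * (A.coeff (i - b) * B.coeff b) := by
  rw [coeff_num]
  have hsub : ({(a, i - a), (i - b, b)} : Finset (ℕ × ℕ)) ⊆
      Finset.HasAntidiagonal.antidiagonal i := by
    intro x hx
    rw [Finset.mem_insert, Finset.mem_singleton] at hx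
    rw [Finset.HasAntidiagonal.mem_antidiagonal]
    rcases hx with rfl | rfl
    · simp only; omega
    · simp only; omega
  have hne : ((a, i - a) : ℕ × ℕ) ≠ (i - b, b) := by
    intro hc
    exact hab (congrArg Prod.fst hc)
  have key : ∑ x ∈ ({(a, i - a), (i - b, b)} : Finset (ℕ × ℕ)),
      -(((x.1 : ℝ) - x.2) * (A.coeff x.1 * B.coeff x.2)) ≤
      ∑ x ∈ Finset.HasAntidiagonal.antidiagonal i,
      -(((x.1 : ℝ) - x.2) * (A.coeff x.1 * B.coeff x.2)) := by
    refine Finset.sum_le_sum_of_subset_of_nonneg hsub ?_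
    intro x hx hx2
    rw [Finset.mem_insert, Finset.mem_singleton, not_or] at hx2
    have hx3 := Finset.HasAntidiagonal.mem_antidiagonal.1 hx
    by_cases k1 : A.coeff x.1 = 0
    · rw [k1]; simp
    by_cases k2 : B.coeff x.2 = 0
    · rw [k2]; simp
    have k3 := h x.1 x.2 hx3 (fun e => hx2.2 (Prod.ext e (by simp only; omega)))
      (fun e => hx2.1 (Prod.ext e (by simp only; omega))) ((hA _).2 k1) ((hB _).2 k2)
    have k4 : (x.1 : ℝ) ≤ x.2 := by exact_mod_cast k3
    have k5 := mul_nonpos_of_nonpos_of_nonneg (by linarith : (x.1 : ℝ) - x.2 ≤ 0)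
      (mul_nonneg (hA x.1).1 (hB x.2).1)
    linarith
  rw [Finset.sum_pair hne, Finset.sum_neg_distrib] at key
  simp only at key
  linarith

theorem neg_le_three_eq {p q r : ℕ} (hp : p.Prime) (hq : q.Prime) (hr : r.Prime) (hp2 : p ≠ 2)
    (hpq : p < q) (hqr : q < r) (h : p + q + r = p * q) :
    (derivative (cyclotomic (p * q * r) ℝ)).roots.countP (fun x => x < 0) ≤ 3 := by
  refine (neg_le_sv hp hq hr hp2 hpq hqr).trans ?_
  have sA := suppA' (p := p) (q := q) (r := r)
  have sB := suppB hp hq hr hp2 hpq hqr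
  obtain ⟨h1, h2, h3, h4, h5, h6, h7, h8⟩ := bounds3 hp hq hr hp2 hpq hqr
  have hmr : p * q + 1 < p * r := by nlinarith
  refine (sv_le _ (fun i => decide ((2 ≤ i ∧ i < p * q) ∨ p * q * r ≤ i)) ?_).trans ?_
  · intro i
    simp only [decide_eq_true_eq, decide_eq_false_iff_not]
    have hco := coefs (m := p * q) (m' := p * r) (m'' := q * r) (n := p * q * r) h1 h2 h3
      (by omega) hmr h6 (by omega)
    have eA : PA p q r =
      (1 + X ^ (p * q * r)) * ((1 + X ^ r) * ((1 + X ^ q) * ((1 + X ^ p) * 1))) := rfl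
    have eB : PB p q r =
      (1 + X ^ (q * r)) * ((1 + X ^ (p * r)) * ((1 + X ^ (p * q)) * ((1 + X ^ 1) * 1))) := rfl
    rw [← eA, ← eB] at hco
    clear eA eB
    generalize PA p q r = A at *
    generalize PB p q r = B at *
    generalize p * q = m at *
    generalize p * r = m' at *
    generalize q * r = m'' at *
    generalize m * r = n at *
    constructor
    · intro hi
      refine num_nonneg sA sB ?_
      intro u v huv hu hv
      omega
    · intro hi
      rcases eq_or_ne i m with e | e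
      · subst e
        have k := num_le_two sA sB (i := i) (a := 0) (b := 0) (by omega) (by omega) (by omega) ?_
        · rw [Nat.sub_zero, hco.1, hco.2.1, hco.2.2.1, hco.2.2.2.2.1] at k
          push_cast at k
          linarith
        · intro u v huv hu1 hu2 hu hv
          omega
      · rcases eq_or_ne i (m + 1) with e' | e'
        · subst e'
          have k := num_le_two sA sB (i := m + 1) (a := 0) (b := 1) (by omega) (by omega)
            (by omega) ?_
          · rw [Nat.sub_zero, Nat.add_sub_cancel, hco.1, hco.2.1, hco.2.2.2.1,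
              hco.2.2.2.2.2] at k
            push_cast at k
            linarith
          · intro u v huv hu1 hu2 hu hv
            omega
        · refine num_nonpos sA sB ?_
          intro u v huv hu hv
          omega
  · refine (Finset.card_le_card (t := {1, p * q - 1, p * q * r - 1}) ?_).trans
      Finset.card_le_three
    intro i hi
    rw [Finset.mem_filter] at hi
    have hi2 := hi.2
    simp only [ne_eq, decide_eq_decide] at hi2
    simp only [Finset.mem_insert, Finset.mem_singleton]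
    generalize p * q = m at *
    generalize m * r = n at *
    by_contra hcon
    apply hi2
    omega

end Pool.Agent.CycCrit.EqB
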