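import Pool.Agent.CycCrit.WinTan

/-!
MP_1d6ef7_nt: the window `p q - p - q ≤ r ≤ p q + p + q`, all cases.
-/

set_option autoImplicit false

namespace Pool.Agent.CycCrit

namespace WinAll

open WinTan

/-- An affine function on an interval. -/
theorem aff_nonneg (u v s D f : ℝ) (hs : 0 < s) (h0 : 0 ≤ D) (h1 : D ≤ s) (hu : 0 ≤ u)
    (hv : 0 ≤ v) (c : ℝ) (hc : 0 ≤ c)
    (e : s * f = (s - D) * u + D * v + c * (D * (s - D)) * s) : 0 ≤ f := by
  have h2 := mul_nonneg (sub_nonneg.2 h1) hu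
  have h3 := mul_nonneg h0 hv
  have h4 := mul_nonneg (mul_nonneg hc (mul_nonneg h0 (sub_nonneg.2 h1))) hs.le
  by_contra h5
  push Not at h5
  have h6 := mul_neg_of_pos_of_neg hs h5
  linarith

theorem sl_ge (a b D : ℝ) (ha : 0 ≤ a) (hb : 0 ≤ b) (h0 : 0 ≤ D)
    (h1 : D ≤ a + 3 + (a + 5 + b)) : 0 ≤ sl (a + 3) (a + 5 + b) D - 1 := by
  refine aff_nonneg (sl (a + 3) (a + 5 + b) 0 - 1)
    (sl (a + 3) (a + 5 + b) (a + 3 + (a + 5 + b)) - 1) (a + 3 + (a + 5 + b)) D _ (by linarith)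
    h0 h1 ?_ ?_ 0 le_rfl ?_
  · unfold sl
    ring_nf
    positivity
  · unfold sl
    ring_nf
    positivity
  · unfold sl
    ring

theorem cn_ge (a b D : ℝ) (ha : 0 ≤ a) (hb : 0 ≤ b) (h0 : 0 ≤ D)
    (h1 : D ≤ a + 3 + (a + 5 + b)) : 0 ≤ cn (a + 3) (a + 5 + b) D := by
  refine aff_nonneg (cn (a + 3) (a + 5 + b) 0)
    (cn (a + 3) (a + 5 + b) (a + 3 + (a + 5 + b))) (a + 3 + (a + 5 + b)) D _ (by linarith)
    h0 h1 ?_ ?_ (((a + 3) * (a + 5 + b) - (a + 3 + (a + 5 + b) - 1)) / 2) ?_ ?_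
  · unfold cn
    ring_nf
    positivity
  · unfold cn
    ring_nf
    positivity
  · ring_nf
    positivity
  · unfold cn
    ring

/-- `r = p q + D`, `m + 1 = r + y`. -/
theorem plus (a b D y : ℝ) (ha : 0 ≤ a) (hb : 0 ≤ b) (h0 : 0 ≤ D)
    (h1 : D ≤ a + 3 + (a + 5 + b)) (hy : 0 ≤ y) :
    y ≤ Lw (a + 3) (a + 5 + b) ((a + 3) * (a + 5 + b) + D + y) +
      Lw (a + 3) (a + 5 + b) (y + D) + Lw (a + 3) (a + 5 + b) y +
      D * (y * (y + 1) / 2) - (a + 3) * (a + 5 + b) * D * y -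
      (a + 3) * (a + 5 + b) * D * (D + 1) / 2 := by
  have e : Lw (a + 3) (a + 5 + b) ((a + 3) * (a + 5 + b) + D + y) +
      Lw (a + 3) (a + 5 + b) (y + D) + Lw (a + 3) (a + 5 + b) y +
      D * (y * (y + 1) / 2) - (a + 3) * (a + 5 + b) * D * y -
      (a + 3) * (a + 5 + b) * D * (D + 1) / 2 - y =
      (3 * (a + 3 + (a + 5 + b) - 1) / 4 + D / 2) *
        (y - 3 * ((a + 3) * (a + 5 + b)) / 10) ^ 2 + (sl (a + 3) (a + 5 + b) D - 1) * y +
        cn (a + 3) (a + 5 + b) D := by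
    unfold Lw sl cn
    ring
  have h2 : 0 ≤ 3 * (a + 3 + (a + 5 + b) - 1) / 4 + D / 2 := by linarith
  have h3 := mul_nonneg h2 (sq_nonneg (y - 3 * ((a + 3) * (a + 5 + b)) / 10))
  have h4 := mul_nonneg (sl_ge a b D ha hb h0 h1) hy
  have h5 := cn_ge a b D ha hb h0 h1
  linarith

/-- `p q ≤ m < r`, `x = m + 1 - p q`. -/
theorem low (a b x : ℝ) (ha : 0 ≤ a) (hb : 0 ≤ b) (h0 : 0 ≤ x)
    (h1 : x ≤ a + 3 + (a + 5 + b)) :
    0 ≤ Lw (a + 3) (a + 5 + b) ((a + 3) * (a + 5 + b) + x) - (a + 3) ^ 2 -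
      (a + 3) * (a + 5 + b) * (x * (x + 1) / 2) := by
  refine aff_nonneg
    (Lw (a + 3) (a + 5 + b) ((a + 3) * (a + 5 + b) + 0) - (a + 3) ^ 2 -
      (a + 3) * (a + 5 + b) * (0 * (0 + 1) / 2))
    (Lw (a + 3) (a + 5 + b) ((a + 3) * (a + 5 + b) + (a + 3 + (a + 5 + b))) - (a + 3) ^ 2 -
      (a + 3) * (a + 5 + b) * ((a + 3 + (a + 5 + b)) * ((a + 3 + (a + 5 + b)) + 1) / 2))
    (a + 3 + (a + 5 + b)) x _ (by linarith)
    h0 h1 ?_ ?_ ((2 * ((a + 3) * (a + 5 + b)) - (a + 3 + (a + 5 + b) - 1)) / 4) ?_ ?_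
  · unfold Lw
    ring_nf
    positivity
  · unfold Lw
    ring_nf
    positivity
  · ring_nf
    positivity
  · unfold Lw
    ring

/-- The bound at `p q - p - q`. -/
theorem big1 (a b x : ℝ) (ha : 0 ≤ a) (hb : 0 ≤ b)
    (h : (a + 3) * (a + 5 + b) - (a + 3 + (a + 5 + b)) ≤ x) :
    0 ≤ Lw (a + 3) (a + 5 + b) x - (a + 3) ^ 2 := by
  obtain ⟨t, ht⟩ : ∃ t, x = (a + 3) * (a + 5 + b) - (a + 3 + (a + 5 + b)) + t :=
    ⟨x - ((a + 3) * (a + 5 + b) - (a + 3 + (a + 5 + b))), by ring⟩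
  have ht0 : 0 ≤ t := by linarith
  rw [ht]
  unfold Lw
  ring_nf
  positivity

/-- The bound at `p q`. -/
theorem big2 (a b x : ℝ) (ha : 0 ≤ a) (hb : 0 ≤ b) (h : (a + 3) * (a + 5 + b) ≤ x) :
    0 ≤ Lw (a + 3) (a + 5 + b) x - 2 * (a + 3) ^ 2 := by
  obtain ⟨t, ht⟩ : ∃ t, x = (a + 3) * (a + 5 + b) + t :=
    ⟨x - (a + 3) * (a + 5 + b), by ring⟩
  have ht0 : 0 ≤ t := by linarith
  rw [ht]
  unfold Lw
  ring_nf
  positivity

/-- `r = p q - D`, `p q ≤ m < p q + r`, `x = m + 1 - p q`. -/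
theorem mid (N D x : ℝ) (h0 : 0 ≤ D) (hx : 0 ≤ x) (h : x + D ≤ N) :
    0 ≤ (N - D) * ((x + D) * (x + D + 1) / 2) - N * (x * (x + 1) / 2) := by
  have hN : 0 ≤ N := by linarith
  have e : (N - D) * ((x + D) * (x + D + 1) / 2) - N * (x * (x + 1) / 2) =
      D * ((N - (x + D)) * (x + D + 1) / 2 + N * x / 2) := by ring
  rw [e]
  have h1 : 0 ≤ N - (x + D) := by linarith
  positivity

/-- The slope in the last case. -/
theorem sl2 (a b D : ℝ) (ha : 0 ≤ a) (hb : 0 ≤ b) (h0 : 0 ≤ D)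
    (h1 : D ≤ a + 3 + (a + 5 + b)) :
    0 ≤ (a + 3 + (a + 5 + b) - 1) * (2 * ((a + 3) * (a + 5 + b)) - D + 1) -
      ((a + 3) ^ 2 + (a + 5 + b) ^ 2) - D - (a + 3) * ((a + 3) * (a + 5 + b) - D) := by
  refine aff_nonneg
    ((a + 3 + (a + 5 + b) - 1) * (2 * ((a + 3) * (a + 5 + b)) - 0 + 1) -
      ((a + 3) ^ 2 + (a + 5 + b) ^ 2) - 0 - (a + 3) * ((a + 3) * (a + 5 + b) - 0))
    ((a + 3 + (a + 5 + b) - 1) *
      (2 * ((a + 3) * (a + 5 + b)) - (a + 3 + (a + 5 + b)) + 1) -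
      ((a + 3) ^ 2 + (a + 5 + b) ^ 2) - (a + 3 + (a + 5 + b)) -
      (a + 3) * ((a + 3) * (a + 5 + b) - (a + 3 + (a + 5 + b))))
    (a + 3 + (a + 5 + b)) D _ (by linarith) h0 h1 ?_ ?_ 0 le_rfl ?_
  · ring_nf
    positivity
  · ring_nf
    positivity
  · ring

/-- Constant in the last case. -/
noncomputable def c2 (p q D : ℝ) : ℝ :=
  (p + q - 1) * ((2 * (p * q) - D) * (2 * (p * q) - D + 1) + p * q * (p * q + 1) +
    (p * q - D) * (p * q - D + 1)) / 4 - (p ^ 2 + q ^ 2) * (4 * (p * q) - 2 * D) / 4 -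
    4 * ((p ^ 3 + q ^ 3) / 8) + (p * q - D) * (p * q) * D / 2

theorem c2_nonneg (a b D : ℝ) (ha : 0 ≤ a) (hb : 0 ≤ b) (h0 : 0 ≤ D)
    (h1 : D ≤ a + 3 + (a + 5 + b)) : 0 ≤ c2 (a + 3) (a + 5 + b) D := by
  refine aff_nonneg (c2 (a + 3) (a + 5 + b) 0)
    (c2 (a + 3) (a + 5 + b) (a + 3 + (a + 5 + b))) (a + 3 + (a + 5 + b)) D _ (by linarith)
    h0 h1 ?_ ?_ (((a + 3) * (a + 5 + b) - (a + 3 + (a + 5 + b) - 1)) / 2) ?_ ?_
  · unfold c2
    ring_nf
    positivity
  · unfold c2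
    ring_nf
    positivity
  · ring_nf
    positivity
  · unfold c2
    ring

/-- `r = p q - D`, `w = m + 1 - p q - r`. -/
theorem last (a b D w : ℝ) (ha : 0 ≤ a) (hb : 0 ≤ b) (h0 : 0 ≤ D)
    (h1 : D ≤ a + 3 + (a + 5 + b)) (hw : 0 ≤ w)
    (hw2 : w ≤ (a + 3) * ((a + 3) * (a + 5 + b) - D)) :
    0 ≤ Lw (a + 3) (a + 5 + b) (2 * ((a + 3) * (a + 5 + b)) - D + w) +
      Lw (a + 3) (a + 5 + b) ((a + 3) * (a + 5 + b) + w) +
      Lw (a + 3) (a + 5 + b) ((a + 3) * (a + 5 + b) - D + w) +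
      Lw (a + 3) (a + 5 + b) w +
      ((a + 3) * (a + 5 + b) - D) *
        (((a + 3) * (a + 5 + b) + w) * ((a + 3) * (a + 5 + b) + w + 1) / 2) -
      (a + 3) * (a + 5 + b) * (((a + 3) * (a + 5 + b) - D + w) *
        ((a + 3) * (a + 5 + b) - D + w + 1) / 2) -
      D * (w * (w + 1) / 2) := by
  have e : Lw (a + 3) (a + 5 + b) (2 * ((a + 3) * (a + 5 + b)) - D + w) +
      Lw (a + 3) (a + 5 + b) ((a + 3) * (a + 5 + b) + w) +
      Lw (a + 3) (a + 5 + b) ((a + 3) * (a + 5 + b) - D + w) +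
      Lw (a + 3) (a + 5 + b) w +
      ((a + 3) * (a + 5 + b) - D) *
        (((a + 3) * (a + 5 + b) + w) * ((a + 3) * (a + 5 + b) + w + 1) / 2) -
      (a + 3) * (a + 5 + b) * (((a + 3) * (a + 5 + b) - D + w) *
        ((a + 3) * (a + 5 + b) - D + w + 1) / 2) -
      D * (w * (w + 1) / 2) =
      (a + 3 + (a + 5 + b) - D) * w * w +
        w * ((a + 3) * ((a + 3) * (a + 5 + b) - D) - w) +
        w * ((a + 3 + (a + 5 + b) - 1) * (2 * ((a + 3) * (a + 5 + b)) - D + 1) -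
          ((a + 3) ^ 2 + (a + 5 + b) ^ 2) - D - (a + 3) * ((a + 3) * (a + 5 + b) - D)) +
        c2 (a + 3) (a + 5 + b) D := by
    unfold Lw c2
    ring
  rw [e]
  have h2 := mul_nonneg (mul_nonneg (sub_nonneg.2 h1) hw) hw
  have h3 := mul_nonneg hw (sub_nonneg.2 hw2)
  have h4 := mul_nonneg hw (sl2 a b D ha hb h0 h1)
  have h5 := c2_nonneg a b D ha hb h0 h1
  linarith

end WinAll

/-- The triangular numbers. -/
noncomputable def TT (k : ℕ) : ℝ := ((k : ℝ) + 1) * ((k : ℝ) + 2) / 2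

theorem TT_nonneg (k : ℕ) : 0 ≤ TT k := by
  unfold TT
  positivity

open WinAll in
/-- **The window inequality** -/
theorem win_all (p q r m : ℕ) (hp : 3 ≤ p) (hq : p + 2 ≤ q) (h1 : p * q ≤ p + q + r)
    (h2 : r ≤ p * q + p + q) (F : ℕ → ℝ) (hF1 : ∀ k : ℕ, Lw p q ((k : ℝ) + 1) ≤ F k)
    (hF2 : ∀ k, -(p : ℝ) ^ 2 ≤ F k) (hF3 : ∀ k, 2 * p ≤ k → 0 ≤ F k) (hm : 2 * p ≤ m)
    (hm2 : m < p * r) :
    0 ≤ F m + (if r ≤ m then F (m - r) else 0) + (if p * q ≤ m then F (m - p * q) else 0) +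
      (if p * q + r ≤ m then F (m - (p * q + r)) else 0) +
      (if r ≤ m then (r : ℝ) * TT (m - r) else 0) +
      (if p * q + r ≤ m then ((r : ℝ) - (p : ℝ) * q) * TT (m - (p * q + r)) else 0) -
      (if p * q ≤ m then (p : ℝ) * q * TT (m - p * q) else 0) := by
  obtain ⟨a, hpa⟩ : ∃ a : ℝ, (p : ℝ) = a + 3 := ⟨p - 3, by ring⟩
  obtain ⟨b, hqb⟩ : ∃ b : ℝ, (q : ℝ) = a + 5 + b := ⟨q - (a + 5), by ring⟩
  have hp' : (3 : ℝ) ≤ p := by exact_mod_cast hp
  have hq' : (p : ℝ) + 2 ≤ q := by exact_mod_cast hq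
  have h1' : (p : ℝ) * q ≤ p + q + r := by exact_mod_cast h1
  have h2' : (r : ℝ) ≤ p * q + p + q := by exact_mod_cast h2
  have hm2' : (m : ℝ) + 1 ≤ p * r := by exact_mod_cast hm2
  have ha : 0 ≤ a := by linarith
  have hb : 0 ≤ b := by linarith
  have hm1 := hF1 m
  rcases le_or_gt (p * q) r with hr | hr
  · -- `p q ≤ r`
    have hr' : (p : ℝ) * q ≤ r := by exact_mod_cast hr
    obtain ⟨D, hD⟩ : ∃ D : ℝ, (r : ℝ) = p * q + D := ⟨r - p * q, by ring⟩
    have hD0 : 0 ≤ D := by linarith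
    have hD1 : D ≤ a + 3 + (a + 5 + b) := by linarith
    by_cases hN : p * q ≤ m
    · have hN' : (p : ℝ) * q ≤ m := by exact_mod_cast hN
      have eN : ((m - p * q : ℕ) : ℝ) = (m : ℝ) - p * q := by
        rw [Nat.cast_sub hN]
        push_cast
        ring
      by_cases hrm : r ≤ m
      · have hrm' : (r : ℝ) ≤ m := by exact_mod_cast hrm
        have eR : ((m - r : ℕ) : ℝ) = (m : ℝ) - r := by rw [Nat.cast_sub hrm]
        have k1 := hF1 (m - r)
        have k2 := hF1 (m - p * q)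
        obtain ⟨y, hy⟩ : ∃ y : ℝ, (m : ℝ) = r + y - 1 := ⟨m + 1 - r, by ring⟩
        have hy0 : 0 ≤ y := by linarith
        have k3 := plus a b D y ha hb hD0 hD1 hy0
        rw [← hqb, ← hpa] at k3
        have em : (m : ℝ) + 1 = p * q + D + y := by linarith
        have e1 : (m : ℝ) - r + 1 = y := by linarith
        have e2 : (m : ℝ) - p * q + 1 = y + D := by linarith
        rw [eR, e1] at k1
        rw [eN, e2] at k2
        rw [em] at hm1
        have t1 : (r : ℝ) * TT (m - r) = (p * q + D) * (y * (y + 1) / 2) := by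
          unfold TT
          rw [eR, hD, show (m : ℝ) - (p * q + D) = y - 1 by linarith]
          ring
        have t2 : (p : ℝ) * q * TT (m - p * q) = p * q * ((y + D) * (y + D + 1) / 2) := by
          unfold TT
          rw [eN, show (m : ℝ) - p * q = y + D - 1 by linarith]
          ring
        rw [if_pos hrm, if_pos hrm, if_pos hN, if_pos hN, t1, t2]
        by_cases hNr : p * q + r ≤ m
        · have hNr' : (p : ℝ) * q + r ≤ m := by exact_mod_cast hNr
          rw [if_pos hNr, if_pos hNr]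
          have k4 := hF2 (m - (p * q + r))
          have k5 : 0 ≤ ((r : ℝ) - (p : ℝ) * q) * TT (m - (p * q + r)) :=
            mul_nonneg (by linarith) (TT_nonneg _)
          have k6 : (p : ℝ) ^ 2 ≤ y := by nlinarith
          nlinarith
        · rw [if_neg hNr, if_neg hNr]
          nlinarith
      · rw [if_neg hrm, if_neg hrm, if_pos hN, if_pos hN,
          if_neg (by omega : ¬ p * q + r ≤ m), if_neg (by omega : ¬ p * q + r ≤ m)]
        obtain ⟨x, hx⟩ : ∃ x : ℝ, (m : ℝ) = p * q + x - 1 := ⟨m + 1 - p * q, by ring⟩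
        have hx0 : 0 ≤ x := by linarith
        have hrm' : (m : ℝ) + 1 ≤ r := by exact_mod_cast (by omega : m + 1 ≤ r)
        have k3 := low a b x ha hb hx0 (by linarith)
        rw [← hqb, ← hpa] at k3
        rw [show (m : ℝ) + 1 = p * q + x by linarith] at hm1
        have k4 := hF2 (m - p * q)
        have t2 : (p : ℝ) * q * TT (m - p * q) = p * q * (x * (x + 1) / 2) := by
          unfold TT
          rw [eN, show (m : ℝ) - p * q = x - 1 by linarith]
          ring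
        rw [t2]
        linarith
    · rw [if_neg (by omega : ¬ r ≤ m), if_neg (by omega : ¬ r ≤ m), if_neg hN, if_neg hN,
        if_neg (by omega : ¬ p * q + r ≤ m), if_neg (by omega : ¬ p * q + r ≤ m)]
      have := hF3 m hm
      linarith
  · -- `r < p q`
    have hr' : (r : ℝ) ≤ p * q := by exact_mod_cast hr.le
    obtain ⟨D, hD⟩ : ∃ D : ℝ, (r : ℝ) = p * q - D := ⟨p * q - r, by ring⟩
    have hD0 : 0 ≤ D := by linarith
    have hD1 : D ≤ a + 3 + (a + 5 + b) := by linarith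
    by_cases hrm : r ≤ m
    · have hrm' : (r : ℝ) ≤ m := by exact_mod_cast hrm
      have eR : ((m - r : ℕ) : ℝ) = (m : ℝ) - r := by rw [Nat.cast_sub hrm]
      have k1 := hF2 (m - r)
      rw [if_pos hrm, if_pos hrm]
      by_cases hN : p * q ≤ m
      · have hN' : (p : ℝ) * q ≤ m := by exact_mod_cast hN
        have eN : ((m - p * q : ℕ) : ℝ) = (m : ℝ) - p * q := by
          rw [Nat.cast_sub hN]
          push_cast
          ring
        rw [if_pos hN, if_pos hN]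
        by_cases hNr : p * q + r ≤ m
        · have hNr' : (p : ℝ) * q + r ≤ m := by exact_mod_cast hNr
          have eNr : ((m - (p * q + r) : ℕ) : ℝ) = (m : ℝ) - (p * q + r) := by
            rw [Nat.cast_sub hNr]
            push_cast
            ring
          rw [if_pos hNr, if_pos hNr]
          obtain ⟨w, hw⟩ : ∃ w : ℝ, (m : ℝ) = p * q + r + w - 1 :=
            ⟨m + 1 - (p * q + r), by ring⟩
          have hw0 : 0 ≤ w := by linarith
          have hw2 : w ≤ (a + 3) * ((a + 3) * (a + 5 + b) - D) := by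
            rw [← hqb, ← hpa, ← hD]
            have : (0 : ℝ) ≤ p * q + r := by positivity
            linarith
          have k3 := last a b D w ha hb hD0 hD1 hw0 hw2
          rw [← hqb, ← hpa] at k3
          have j1 := hF1 (m - r)
          have j2 := hF1 (m - p * q)
          have j3 := hF1 (m - (p * q + r))
          rw [eR, show (m : ℝ) - r + 1 = p * q + w by linarith] at j1
          rw [eN, show (m : ℝ) - p * q + 1 = p * q - D + w by linarith] at j2
          rw [eNr, show (m : ℝ) - (p * q + r) + 1 = w by linarith] at j3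
          rw [show (m : ℝ) + 1 = 2 * (p * q) - D + w by linarith] at hm1
          have t1 : (r : ℝ) * TT (m - r) =
              (p * q - D) * ((p * q + w) * (p * q + w + 1) / 2) := by
            unfold TT
            rw [eR, show (m : ℝ) - r = p * q + w - 1 by linarith, hD]
            ring
          have t2 : (p : ℝ) * q * TT (m - p * q) =
              p * q * ((p * q - D + w) * (p * q - D + w + 1) / 2) := by
            unfold TT
            rw [eN, show (m : ℝ) - p * q = p * q - D + w - 1 by linarith]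
            ring
          have t3 : ((r : ℝ) - (p : ℝ) * q) * TT (m - (p * q + r)) =
              -(D * (w * (w + 1) / 2)) := by
            unfold TT
            rw [eNr, show (m : ℝ) - (p * q + r) = w - 1 by linarith, hD]
            ring
          rw [t1, t2, t3]
          linarith
        · rw [if_neg hNr, if_neg hNr]
          obtain ⟨x, hx⟩ : ∃ x : ℝ, (m : ℝ) = p * q + x - 1 := ⟨m + 1 - p * q, by ring⟩
          have hx0 : 0 ≤ x := by linarith
          have hNr' : (m : ℝ) + 1 ≤ p * q + r := by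
            exact_mod_cast (by omega : m + 1 ≤ p * q + r)
          have k3 := mid (p * q) D x hD0 hx0 (by linarith)
          have k4 := big2 a b ((m : ℝ) + 1) ha hb (by rw [← hqb, ← hpa]; linarith)
          rw [← hqb, ← hpa] at k4
          have k5 := hF2 (m - p * q)
          have t1 : (r : ℝ) * TT (m - r) = (p * q - D) * ((x + D) * (x + D + 1) / 2) := by
            unfold TT
            rw [eR, show (m : ℝ) - r = x + D - 1 by linarith, hD]
            ring
          have t2 : (p : ℝ) * q * TT (m - p * q) = p * q * (x * (x + 1) / 2) := by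
            unfold TT
            rw [eN, show (m : ℝ) - p * q = x - 1 by linarith]
            ring
          rw [t1, t2]
          linarith
      · rw [if_neg hN, if_neg hN, if_neg (by omega : ¬ p * q + r ≤ m),
          if_neg (by omega : ¬ p * q + r ≤ m)]
        have k4 := big1 a b ((m : ℝ) + 1) ha hb (by rw [← hqb, ← hpa]; linarith)
        rw [← hqb, ← hpa] at k4
        have k5 : 0 ≤ (r : ℝ) * TT (m - r) := mul_nonneg (by positivity) (TT_nonneg _)
        linarith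
    · rw [if_neg hrm, if_neg hrm, if_neg (by omega : ¬ p * q ≤ m),
        if_neg (by omega : ¬ p * q ≤ m), if_neg (by omega : ¬ p * q + r ≤ m),
        if_neg (by omega : ¬ p * q + r ≤ m)]
      have := hF3 m hm
      linarith

end Pool.Agent.CycCrit
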