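import Pool.Agent.CycCrit.Win3Lam

set_option autoImplicit false

/-! # The three facts about `Lam` used by the window inequality (MP_1d6ef7_nt) -/

namespace Pool.Agent.CycCrit.Win

theorem fact1 {p q : ℕ} (hp : 3 ≤ p) (hq : p + 2 ≤ q) (k : ℕ) :
    ((p : ℝ) + q - 1) * ((k : ℝ) + 1) * ((k : ℝ) + 1 + 1) / 4 -
      ((p : ℝ) ^ 2 + (q : ℝ) ^ 2) * ((k : ℝ) + 1) / 4 - ((p : ℝ) ^ 3 + (q : ℝ) ^ 3) / 8 ≤
      Lam p q k := by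
  have h := Lam_sharp (p := p) (q := q) (by omega) (by omega) k
  have hp' : (3 : ℝ) ≤ p := by exact_mod_cast hp
  have hq' : (3 : ℝ) ≤ q := by exact_mod_cast (by omega : 3 ≤ q)
  have hk : (0 : ℝ) ≤ k := Nat.cast_nonneg k
  have h1 : (0 : ℝ) ≤ (p : ℝ) * ((p : ℝ) ^ 2 - 2 * p - 1) :=
    mul_nonneg (by linarith) (by nlinarith)
  have h2 : (0 : ℝ) ≤ (q : ℝ) * ((q : ℝ) ^ 2 - 2 * q - 1) :=
    mul_nonneg (by linarith) (by nlinarith)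
  nlinarith [h, h1, h2]

theorem fact2 {p q : ℕ} (hp : 3 ≤ p) (hq : p + 2 ≤ q) (k : ℕ) : -(p : ℝ) ^ 2 ≤ Lam p q k := by
  have h := Lam_ge (p := p) (q := q) (by omega) (by omega) k
  have hp' : (3 : ℝ) ≤ p := by exact_mod_cast hp
  nlinarith

theorem fact3 {p q : ℕ} (hp : 3 ≤ p) (hq : p + 2 ≤ q) (k : ℕ) (hk : 2 * p ≤ k) :
    0 ≤ Lam p q k := by
  obtain ⟨m0, -, h2, -, h4⟩ := Lam_sign (p := p) (q := q) (by omega) (by omega)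
  exact h4 k (by omega)

/-- the sign pattern of `Lam` -/
theorem fact4 {p q : ℕ} (hp : 3 ≤ p) (hq : p + 2 ≤ q) :
    ∃ m0, p ≤ m0 ∧ m0 < 2 * p ∧ (∀ m, m < m0 → Lam p q m ≤ 0) ∧
      ∀ m, m0 ≤ m → 0 ≤ Lam p q m :=
  Lam_sign (by omega) (by omega)

end Pool.Agent.CycCrit.Win
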