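import Pool.Agent.CycCrit.Window
import Pool.Agent.CycCrit.WinAll
import Pool.Agent.CycCrit.WinFacts

/-!
# The window inequality for three primes: all `3 ≤ p`
-/

set_option autoImplicit false

namespace Pool.Agent.CycCrit.Window

open Finset Pool.Agent.CycCrit Pool.Agent.CycCrit.Win

/-- The window inequality from `2 p` on, for all `3 ≤ p`. -/
theorem W3_nonneg3 {p q r m : ℕ} (hp : 3 ≤ p) (hq : p + 2 ≤ q) (h1 : p * q ≤ p + q + r)
    (h2 : r ≤ p * q + p + q) (hm : 2 * p ≤ m) (hmr : m < p * r) : 0 ≤ W3 p q r m := by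
  have h := win_all p q r m hp hq h1 h2 (Lam p q) (fun k => by
    unfold Lw
    exact fact1 hp hq k) (fact2 hp hq) (fact3 hp hq) hm hmr
  have e : W3 p q r m = Lam p q m + (if r ≤ m then Lam p q (m - r) else 0) +
      (if p * q ≤ m then Lam p q (m - p * q) else 0) +
      (if p * q + r ≤ m then Lam p q (m - (p * q + r)) else 0) +
      (if r ≤ m then (r : ℝ) * TT (m - r) else 0) +
      (if p * q + r ≤ m then ((r : ℝ) - (p : ℝ) * q) * TT (m - (p * q + r)) else 0) -
      (if p * q ≤ m then (p : ℝ) * q * TT (m - p * q) else 0) := by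
    rw [W3_eq]
    unfold sh T TT
    split_ifs <;> ring
  rw [e]
  exact h

/-- `W3` changes sign once on `[0, p r)`, for all `3 ≤ p`. -/
theorem W3_shape3 {p q r : ℕ} (hp : 3 ≤ p) (hq : p + 2 ≤ q)
    (h1 : p * q ≤ p + q + r) (h2 : r ≤ p * q + p + q) :
    ∃ m0, p ≤ m0 ∧ m0 < 2 * p ∧ (∀ m, m < m0 → W3 p q r m ≤ 0) ∧
      (∀ m, m0 ≤ m → m < p * r → 0 ≤ W3 p q r m) := by
  have h2r : 2 * p < r := by nlinarith
  have h2pq : 2 * p < p * q := by nlinarith
  obtain ⟨m0, k1, k2, k3, k4⟩ := fact4 hp hq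
  refine ⟨m0, k1, k2, fun m hm => ?_, fun m hm hmr => ?_⟩
  · rw [W3_eq_Lam p q r m (by omega) (by omega)]
    exact k3 m hm
  · by_cases hm2 : 2 * p ≤ m
    · exact W3_nonneg3 hp hq h1 h2 hm2 hmr
    · rw [W3_eq_Lam p q r m (by omega) (by omega)]
      exact k4 m hm

end Pool.Agent.CycCrit.Window
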