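import Pool.Agent.CycCrit.WinFinal
import Pool.Agent.CycCrit.WindowThree
import Pool.Agent.CycCrit.Exc3

/-!
# The negative critical points for `p = 3`, `r = 2 q - 1` or `r = 2 q + 1`
-/

set_option autoImplicit false

namespace Pool.Agent.CycCrit

open Polynomial

/-- nonnegative up to `t`, nonpositive up to `b`, nondecreasing from `b - 1` on -/
theorem NAlt.le_one_mono {a t b : ℕ} {c : ℕ → ℝ} {v : ℕ} (h0 : ∀ i, a < i → i < t → 0 ≤ c i)
    (h1 : ∀ i, t ≤ i → i < b → c i ≤ 0) (h2 : ∀ i j, b ≤ i → i ≤ j → c i ≤ c j)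
    (h : NAlt a c v) : v ≤ 1 := by
  by_contra hcon
  push Not at hcon
  obtain ⟨m, h3, h4, h5⟩ := h
  have e0 : m 0 < m 1 := h4 0 (by omega)
  have e1 : m 1 < m 2 := h4 1 (by omega)
  have s0 := h5 0 (by omega)
  have s1 := h5 1 (by omega)
  have s2 := h5 2 (by omega)
  rw [pow_zero, one_mul] at s0
  rw [pow_one] at s1
  have s2' : c (m 2) < 0 := by
    have : (-1 : ℝ) ^ 2 = 1 := by norm_num
    rw [this] at s2
    linarith
  have ht : t ≤ m 0 := by
    by_contra ht
    push Not at ht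
    have := h0 (m 0) h3 ht
    linarith
  have hb : b ≤ m 1 := by
    by_contra hb
    push Not at hb
    have := h1 (m 1) (by omega) hb
    linarith
  have := h2 (m 1) (m 2) hb e1.le
  linarith

theorem WW_eq_W1 (p q r : ℕ) : WW p q r = Window.W1 p q r := by
  funext m
  unfold WW Window.W1 Window.sh
  rfl

/-- the low product -/
noncomputable def PL (p q r : ℕ) : ℝ[X] := A0p p q r * B0p p q

theorem PL_eval (p q r : ℕ) : (PL p q r).eval 1 = 32 := by
  unfold PL A0p B0p
  simp only [eval_add, eval_mul, eval_pow, eval_X, eval_one, one_pow]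
  norm_num

theorem PL_nonneg (p q r i : ℕ) : 0 ≤ (PL p q r).coeff i := by
  unfold PL
  rw [coeff_mul]
  exact Finset.sum_nonneg fun x _ => mul_nonneg (suppA0 x.1).1 (suppB0 x.2).1

theorem KL_ge {q r i : ℕ} (hr : 2 * q ≤ r + 1) (hi : 3 * r ≤ i) :
    -5 * (PL 3 q r).coeff i ≤ (KL 3 q r).coeff i := by
  have e : (KL 3 q r).coeff i - -5 * (PL 3 q r).coeff i =
      ∑ x ∈ Finset.HasAntidiagonal.antidiagonal i,
        (((x.1 : ℝ) - x.2) + 5) * ((A0p 3 q r).coeff x.1 * (B0p 3 q).coeff x.2) := by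
    unfold KL PL
    rw [coeff_num, coeff_mul, Finset.mul_sum, ← Finset.sum_sub_distrib]
    exact Finset.sum_congr rfl fun x _ => by ring
  have h0 : 0 ≤ ∑ x ∈ Finset.HasAntidiagonal.antidiagonal i,
        (((x.1 : ℝ) - x.2) + 5) * ((A0p 3 q r).coeff x.1 * (B0p 3 q).coeff x.2) := by
    refine Finset.sum_nonneg fun x hx => ?_
    by_cases h2 : (B0p 3 q).coeff x.2 = 0
    · rw [h2]; simp
    have hv : x.2 ≤ 3 * q + 1 := (suppB0 x.2).2 h2
    have hx' := Finset.HasAntidiagonal.mem_antidiagonal.1 hx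
    have h4 : x.2 ≤ x.1 + 5 := by omega
    have h5 : (x.2 : ℝ) ≤ x.1 + 5 := by exact_mod_cast h4
    exact mul_nonneg (by linarith) (mul_nonneg (suppA0 x.1).1 (suppB0 x.2).1)
  linarith

theorem sum_PL {p q r a N : ℕ} : ∑ i ∈ Finset.Ico a N, (PL p q r).coeff i ≤ 32 := by
  rw [← PL_eval p q r, eval_eq_sum_range' (n := N + ((PL p q r).natDegree + 1)) (by omega)]
  have e : ∑ i ∈ Finset.range (N + ((PL p q r).natDegree + 1)), (PL p q r).coeff i * 1 ^ i =
      ∑ i ∈ Finset.range (N + ((PL p q r).natDegree + 1)), (PL p q r).coeff i :=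
    Finset.sum_congr rfl fun i _ => by ring
  rw [e]
  refine Finset.sum_le_sum_of_subset_of_nonneg ?_ (fun i _ _ => PL_nonneg p q r i)
  intro i hi
  rw [Finset.mem_Ico] at hi
  rw [Finset.mem_range]
  omega

/-- the second partial sum at the end of the window -/
theorem c2_spec {q r : ℕ} (h5 : 5 ≤ q) (h : r + 1 = 2 * q ∨ r = 2 * q + 1) :
    0 ≤ ∑ i ∈ Finset.range (3 * r), ((3 * r : ℝ) - i) * (KL 3 q r).coeff i := by
  obtain ⟨N, hN⟩ : ∃ N, N = r + 4 * q + 5 := ⟨_, rfl⟩
  have hN3 : 3 * r ≤ N := by omega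
  have hN7 : N ≤ 3 * r + 7 := by omega
  have kz : ∀ i, N ≤ i → (KL 3 q r).coeff i = 0 := fun i hi => KL_coeff_zero (by omega)
  have tot : ∑ i ∈ Finset.range N, ((3 * r : ℝ) - i) * (KL 3 q r).coeff i =
      3 * r * (KL 3 q r).eval 1 - (derivative (KL 3 q r)).eval 1 := by
    rw [← sum_coeff kz, ← sum_coeff_mul kz, Finset.mul_sum, ← Finset.sum_sub_distrib]
    exact Finset.sum_congr rfl fun i _ => by ring
  have spl := Finset.sum_range_add_sum_Ico
    (fun i : ℕ => ((3 * r : ℝ) - i) * (KL 3 q r).coeff i) hN3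
  have ext : ∑ i ∈ Finset.Ico (3 * r) N, ((3 * r : ℝ) - i) * (KL 3 q r).coeff i ≤ 960 := by
    have h1 : ∑ i ∈ Finset.Ico (3 * r) N, ((3 * r : ℝ) - i) * (KL 3 q r).coeff i ≤
        ∑ i ∈ Finset.Ico (3 * r) N, 30 * (PL 3 q r).coeff i := by
      refine Finset.sum_le_sum fun i hi => ?_
      rw [Finset.mem_Ico] at hi
      have g1 := KL_ge (q := q) (r := r) (i := i) (by omega) hi.1
      have g2 := PL_nonneg 3 q r i
      have g3 : (3 : ℝ) * r ≤ i := by exact_mod_cast hi.1
      have g4 : (i : ℝ) ≤ 3 * r + 6 := by exact_mod_cast (by omega : i ≤ 3 * r + 6)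
      have g5 := mul_le_mul_of_nonneg_left g1 (by linarith : (0 : ℝ) ≤ i - 3 * r)
      have g6 := mul_nonneg (by linarith : (0 : ℝ) ≤ 3 * r + 6 - i) g2
      nlinarith
    rw [← Finset.mul_sum] at h1
    have h2 := sum_PL (p := 3) (q := q) (r := r) (a := 3 * r) (N := N)
    linarith
  rw [tot, KL_eval, KL_deriv_eval] at spl
  have hq : (5 : ℝ) ≤ q := by exact_mod_cast h5
  push_cast at spl
  rcases h with h | h
  · have hr : (r : ℝ) = 2 * q - 1 := by
      have : ((r + 1 : ℕ) : ℝ) = ((2 * q : ℕ) : ℝ) := by exact_mod_cast h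
      push_cast at this
      linarith
    rw [hr] at spl ext ⊢
    nlinarith
  · have hr : (r : ℝ) = 2 * q + 1 := by exact_mod_cast h
    rw [hr] at spl ext ⊢
    nlinarith

/-- `p = 3` and `r = 2 q - 1` or `r = 2 q + 1` -/
theorem neg_specC {q r : ℕ} (hq : q.Prime) (hr : r.Prime) (h5 : 5 ≤ q)
    (h : r + 1 = 2 * q ∨ r = 2 * q + 1) :
    (derivative (cyclotomic (3 * q * r) ℝ)).roots.countP (fun x => x < 0) ≤ 3 := by
  have hp : Nat.Prime 3 := Nat.prime_three
  have hpq : 3 < q := by omega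
  have hqr : q < r := by omega
  have hp2 : (3 : ℕ) ≠ 2 := by omega
  refine (neg_le_roots hp hq hr hp2 hpq hqr).trans ?_
  have hne := num_ne_zero hp hq hr hp2 hpq hqr
  have hA := alt_of_roots _ hne
  have sA := suppA hp hq hr hp2 hpq hqr
  have sB := suppB hp hq hr hp2 hpq hqr
  obtain ⟨h1, h2, h3, h4, hN, h6, h7, h8⟩ := bounds3 hp hq hr hp2 hpq hqr
  obtain ⟨g, hg⟩ : ∃ g : ℕ → ℝ, g = (X * (derivative (PA 3 q r) * PB 3 q r -
      PA 3 q r * derivative (PB 3 q r))).coeff := ⟨_, rfl⟩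
  have i3 : 3 * r ≤ q * r := h6.le
  have i4 : 3 * r ≤ 3 * q * r := by omega
  obtain ⟨m0, w1, w2, w3, w4⟩ := Window.W3_shape3 (p := 3) (q := q) (r := r) le_rfl
    (by omega) (by omega) (by omega)
  have hW : ∀ m, m0 ≤ m → m < 3 * r → 0 ≤ psum (psum (WW 3 q r)) m := by
    intro m hm hm2
    rw [WW_eq_W1]
    exact w4 m hm hm2
  have win : ∀ m, q + 9 ≤ m → m < 3 * r → 0 ≤ psum (psum (psum g)) m := by
    intro m hm hm2
    rw [hg]
    exact window_nonneg hp.pos hq.pos i3 i4 hW (by omega) hm2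
  have g1 : ∀ i, i < 2 → g i ≤ 0 := by
    intro i hi
    rw [hg]
    refine num_nonpos sA sB ?_
    intro u v huv hu hv
    generalize q * r = m'' at *
    generalize 3 * q * r = n at *
    omega
  have g2 : ∀ i, 2 ≤ i → i < 3 * q → 0 ≤ g i := by
    intro i hi hi2
    rw [hg]
    refine num_nonneg sA sB ?_
    intro u v huv hu hv
    generalize q * r = m'' at *
    generalize 3 * q * r = n at *
    omega
  have g4 : ∀ i, 3 * q * r ≤ i → 0 ≤ g i := by
    intro i hi
    rw [hg]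
    refine num_nonneg sA sB ?_
    intro u v huv hu hv
    generalize q * r = m'' at *
    generalize 3 * q * r = n at *
    omega
  obtain ⟨a, ha⟩ : ∃ a, a = 3 * r - 1 := ⟨_, rfl⟩
  have ha1 : a + 1 = 3 * r := by omega
  have c2 : 0 ≤ psum (psum g) a := by
    rw [psum2, ha1]
    have e := c2_spec h5 h
    have ha2 : (a : ℝ) + 1 = 3 * r := by exact_mod_cast ha1
    refine le_of_le_of_eq e (Finset.sum_congr rfl fun i hi => ?_)
    rw [ha2, hg, num_low (Finset.mem_range.1 hi) i3 i4]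
    rfl
  have c3 : 0 ≤ psum (psum (psum g)) a := win a (by omega) (by omega)
  rw [← hg] at hA
  refine alt_split (a := a) (K := 1) ?_ ?_ hA
  · have u0 : Up g (3 * q) := by
      intro i j hij hj hi
      have : 2 ≤ i := by
        by_contra hc
        push Not at hc
        have := g1 i hc
        linarith
      exact g2 j (by omega) (by omega)
    have u3 := u0.psum.psum.psum
    intro i j hij hj hi
    by_cases hjl : j < 3 * q
    · exact u3 i j hij hjl hi
    · exact win j (by omega) (by omega)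
  · intro w hw
    obtain ⟨t, t1, t2, t3, t4⟩ := Exc3.exc_pattern h5 h
    refine ((hw.down c3).down c2).le_one_mono (t := t) (b := 3 * q * r) ?_ ?_ ?_
    · intro i hi hi2
      rw [hg]
      exact t3 i (by omega) hi2
    · intro i hi hi2
      rw [hg]
      exact t4 i hi hi2
    · intro i j hi hij
      rw [psum_step hij]
      have : 0 ≤ ∑ k ∈ Finset.Ico (i + 1) (j + 1), g k := by
        refine Finset.sum_nonneg fun k hk => g4 k ?_
        rw [Finset.mem_Ico] at hk
        omega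
      linarith

/-- the form of the job P3SPEC, with the exact number -/
theorem neg_spec3 {q r : ℕ} (hq : q.Prime) (hr : r.Prime) (h5 : 5 ≤ q)
    (h : r = 2 * q - 1 ∨ r = 2 * q + 1) :
    (derivative (cyclotomic (3 * q * r) ℝ)).roots.countP (fun x => x < 0) ≤ 3 :=
  neg_specC hq hr h5 (by omega)

end Pool.Agent.CycCrit
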