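import Pool.Agent.CycCrit.AltSeq
import Pool.Agent.CycCrit.WinLam

/-!
# The window inequality for three primes: closed form of `W3` and its sign pattern
-/

set_option autoImplicit false

namespace Pool.Agent.CycCrit.Window

open Finset Pool.Agent.CycCrit Pool.Agent.CycCrit.Win

/-- the sequence `f` moved to the right by `a` places -/
noncomputable def sh (a : ℕ) (f : ℕ → ℝ) (m : ℕ) : ℝ := if a ≤ m then f (m - a) else 0

/-- triangular numbers -/
noncomputable def T (k : ℕ) : ℝ := ((k : ℝ) + 1) * ((k : ℝ) + 2) / 2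

noncomputable def W1 (p q r m : ℕ) : ℝ :=
  phi p q m + sh r (phi p q) m + sh (p * q) (phi p q) m + sh (p * q + r) (phi p q) m
    + sh r (fun _ => (r : ℝ)) m + sh (p * q + r) (fun _ => (r : ℝ) - (p : ℝ) * q) m
    - sh (p * q) (fun _ => (p : ℝ) * q) m

noncomputable def W3 (p q r m : ℕ) : ℝ := psum (psum (W1 p q r)) m

lemma psum_succ (c : ℕ → ℝ) (n : ℕ) : psum c (n + 1) = psum c n + c (n + 1) := by
  unfold psum; rw [Finset.sum_range_succ]

lemma psum_zero (c : ℕ → ℝ) : psum c 0 = c 0 := by
  unfold psum; simp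

lemma psum_add (c d : ℕ → ℝ) : psum (fun m => c m + d m) = fun m => psum c m + psum d m := by
  funext n; unfold psum; rw [Finset.sum_add_distrib]

lemma psum_sub (c d : ℕ → ℝ) : psum (fun m => c m - d m) = fun m => psum c m - psum d m := by
  funext n; unfold psum; rw [Finset.sum_sub_distrib]

lemma psum_sh (a : ℕ) (f : ℕ → ℝ) : psum (sh a f) = sh a (psum f) := by
  funext n
  induction n with
  | zero =>
    rw [psum_zero]
    unfold sh
    split
    · rename_i h
      have : a = 0 := by omega
      subst this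
      rw [psum_zero]
    · rfl
  | succ n ih =>
    rw [psum_succ, ih]
    unfold sh
    by_cases h : a ≤ n
    · rw [if_pos h, if_pos (by omega), if_pos (by omega)]
      have e : n + 1 - a = (n - a) + 1 := by omega
      rw [e, psum_succ]
    · rw [if_neg h]
      by_cases h2 : a ≤ n + 1
      · rw [if_pos h2, if_pos h2]
        have e : n + 1 - a = 0 := by omega
        rw [e, psum_zero]; ring
      · rw [if_neg h2, if_neg h2]; ring

lemma psum_const (c : ℝ) : psum (fun _ => c) = fun k : ℕ => c * ((k : ℝ) + 1) := by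
  funext n; unfold psum; rw [Finset.sum_const, Finset.card_range, nsmul_eq_mul]; push_cast; ring

lemma psum_psum_const (c : ℝ) : psum (psum (fun _ => c)) = fun k : ℕ => c * T k := by
  rw [psum_const]
  funext n
  induction n with
  | zero => rw [psum_zero]; unfold T; norm_num
  | succ n ih => rw [psum_succ, ih]; unfold T; push_cast; ring

lemma psum_psum_phi (p q : ℕ) : psum (psum (phi p q)) = Lam p q := by
  funext m; rfl

lemma sh_mul (a : ℕ) (c : ℝ) (f : ℕ → ℝ) (m : ℕ) : sh a (fun k => c * f k) m = c * sh a f m := by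
  unfold sh; split
  · rfl
  · ring

/-- The closed form of `W3`. -/
theorem W3_eq (p q r m : ℕ) :
    W3 p q r m = Lam p q m + sh r (Lam p q) m + sh (p * q) (Lam p q) m
      + sh (p * q + r) (Lam p q) m + r * sh r T m + ((r : ℝ) - (p : ℝ) * q) * sh (p * q + r) T m
      - (p : ℝ) * q * sh (p * q) T m := by
  have h1 : W1 p q r = fun m => phi p q m + sh r (phi p q) m + sh (p * q) (phi p q) m
      + sh (p * q + r) (phi p q) m + sh r (fun _ => (r : ℝ)) m
      + sh (p * q + r) (fun _ => (r : ℝ) - (p : ℝ) * q) m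
      - sh (p * q) (fun _ => (p : ℝ) * q) m := by
    funext m; rfl
  unfold W3
  rw [h1]
  simp only [psum_sub, psum_add]
  have e : ∀ (a : ℕ) (f : ℕ → ℝ), psum (fun m => psum (sh a f) m) = sh a (psum (psum f)) := by
    intro a f
    have : (fun m => psum (sh a f) m) = psum (sh a f) := rfl
    rw [this, psum_sh, psum_sh]
  have e0 : psum (fun m => psum (fun m => phi p q m) m) = Lam p q := psum_psum_phi p q
  have e2 : ∀ a : ℕ, psum (fun m => psum (fun m => sh a (phi p q) m) m) = sh a (Lam p q) := by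
    intro a
    have := e a (phi p q)
    rw [psum_psum_phi] at this
    exact this
  have e3 : ∀ (a : ℕ) (c : ℝ), psum (fun m => psum (fun m => sh a (fun _ => c) m) m)
      = sh a (fun k => c * T k) := by
    intro a c
    have := e a (fun _ => c)
    rw [psum_psum_const] at this
    exact this
  rw [e2 r, e2 (p * q), e2 (p * q + r), e3 r, e3 (p * q + r), e3 (p * q), sh_mul, sh_mul, sh_mul]
  rw [e0]

/-- Below `r` and `p q` the function `W3` is `Lam`. -/
theorem W3_eq_Lam (p q r m : ℕ) (h1 : m < r) (h2 : m < p * q) : W3 p q r m = Lam p q m := by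
  rw [W3_eq]
  unfold sh
  rw [if_neg (by omega), if_neg (by omega), if_neg (by omega), if_neg (by omega),
    if_neg (by omega), if_neg (by omega)]
  ring

/-- The sign pattern of `W3`, given the inequality from `2 p` on. -/
theorem W3_shape_of (p q r : ℕ) (hp : 5 ≤ p) (hq : p + 2 ≤ q) (hr : q + 2 ≤ r)
    (h2r : 2 * p < r)
    (hbig : ∀ m, 2 * p ≤ m → m < p * r → 0 ≤ W3 p q r m) :
    ∃ m0, p ≤ m0 ∧ m0 ≤ 2 * p ∧ (∀ m, m < m0 → W3 p q r m ≤ 0) ∧
      (∀ m, m0 ≤ m → m < p * r → 0 ≤ W3 p q r m) := by
  classical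
  have h2pq : 2 * p < p * q := by nlinarith
  have hL2 : 0 ≤ Lam p q (2 * p) := by
    have := hbig (2 * p) le_rfl (by nlinarith)
    rwa [W3_eq_Lam p q r (2 * p) h2r h2pq] at this
  have hex : ∃ m, p ≤ m ∧ 0 ≤ Lam p q m := ⟨2 * p, by omega, hL2⟩
  refine ⟨Nat.find hex, (Nat.find_spec hex).1, Nat.find_min' hex ⟨by omega, hL2⟩, ?_, ?_⟩
  · intro m hm
    have hm2 : m < 2 * p := lt_of_lt_of_le hm (Nat.find_min' hex ⟨by omega, hL2⟩)
    rw [W3_eq_Lam p q r m (by omega) (by omega)]
    by_cases hmp : m + 1 ≤ p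
    · exact (Lam_small_bound (q := q) (by omega) (by omega)).1
    · have := Nat.find_min hex hm
      push Not at this
      exact (this (by omega)).le
  · intro m hm hmr
    by_cases hm2 : 2 * p ≤ m
    · exact hbig m hm2 hmr
    · rw [W3_eq_Lam p q r m (by omega) (by omega)]
      have h0 := (Nat.find_spec hex)
      exact h0.2.trans (Lam_mono (by omega) (by omega) hm)

end Pool.Agent.CycCrit.Window
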