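import Pool.Agent.CycCrit.WinFinal
import Pool.Agent.CycCrit.WinAll
import Pool.Agent.CycCrit.WinFacts
import Pool.Agent.CycCrit.Window

/-!
# The window for three primes, all cases with `p r` beyond the window
-/

set_option autoImplicit false

namespace Pool.Agent.CycCrit

open Polynomial

theorem WW_eq (p q r : ℕ) : WW p q r = Window.W1 p q r := by
  funext m
  unfold WW Window.W1 Window.sh
  split_ifs <;> ring

theorem WW_nonneg {p q r m : ℕ} (hp : 3 ≤ p) (hq : p + 2 ≤ q) (h1 : p * q ≤ p + q + r)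
    (h2 : r ≤ p * q + p + q) (hm : 2 * p ≤ m) (hm2 : m < p * r) :
    0 ≤ psum (psum (WW p q r)) m := by
  have h := win_all p q r m hp hq h1 h2 (Win.Lam p q) (fun k => by
    have := Win.fact1 hp hq k
    unfold Lw
    exact this) (Win.fact2 hp hq) (Win.fact3 hp hq) hm hm2
  have e := Window.W3_eq p q r m
  unfold Window.W3 at e
  rw [WW_eq, e]
  unfold Window.sh Window.T
  unfold TT at h
  refine h.trans_eq ?_
  split_ifs <;> ring

theorem WW_small {r m : ℕ} (hr : 13 ≤ r) (hm : 4 ≤ m) (hm2 : m < 6) :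
    0 ≤ psum (psum (WW 3 5 r)) m := by
  have e := Window.W3_eq 3 5 r m
  unfold Window.W3 at e
  rw [WW_eq, e]
  have n1 : ¬ r ≤ m := by omega
  have n2 : ¬ 3 * 5 ≤ m := by omega
  have n3 : ¬ 3 * 5 + r ≤ m := by omega
  simp only [Window.sh, if_neg n1, if_neg n2, if_neg n3]
  have h : 0 ≤ Win.Lam 3 5 m := by
    have : m = 4 ∨ m = 5 := by omega
    rcases this with rfl | rfl
    · norm_num [Win.Lam, Win.S, Win.phi, Finset.sum_range_succ, Nat.odd_iff]
    · norm_num [Win.Lam, Win.S, Win.phi, Finset.sum_range_succ, Nat.odd_iff]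
  linarith

section three

variable {p q r : ℕ} (hp : p.Prime) (hq : q.Prime) (hr : r.Prime) (hp2 : p ≠ 2)
  (hpq : p < q) (hqr : q < r)

include hp hq hr hp2 hpq hqr

/-- three negative critical points, `r` at most `(p + 1)(q + 1)` -/
theorem neg_full (h1 : p * q < p + q + r) (h2 : r ≤ (p + 1) * (q + 1))
    (h3 : 5 ≤ p ∨ 2 * q + 3 ≤ r) :
    (derivative (cyclotomic (p * q * r) ℝ)).roots.countP (fun x => x < 0) ≤ 3 := by
  obtain ⟨b1, b2, b3, b4, hN, b6, b7, b8⟩ := bounds3 hp hq hr hp2 hpq hqr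
  have h2' : r ≤ p * q + p + q := by
    have op := hp.odd_of_ne_two hp2
    have oq := hq.odd_of_ne_two (by omega)
    have or' := hr.odd_of_ne_two (by omega)
    obtain ⟨x, hx⟩ := op.mul oq
    obtain ⟨y, hy⟩ := op
    obtain ⟨z, hz⟩ := oq
    obtain ⟨w, hw⟩ := or'
    have : r ≤ p * q + p + q + 1 := by nlinarith
    omega
  have hW : ∀ m, 2 * p ≤ m → m < p * r → 0 ≤ psum (psum (WW p q r)) m :=
    fun m hm hm2 => WW_nonneg b1 b2 h1.le h2' hm hm2
  rcases le_or_gt 5 p with h5 | h5
  · exact neg_window hp hq hr hp2 hpq hqr h5 h1 h2 le_rfl hW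
  · have hp3 : p = 3 := by
      have : p ≠ 4 := by
        rintro rfl
        revert hp
        decide
      omega
    subst hp3
    have h3' : 2 * q + 3 ≤ r := by omega
    by_cases hq5 : q = 5
    · subst hq5
      refine neg_window_gen hp hq hr hp2 hpq hqr h1 (m0 := 4) (by omega) (by omega) ?_
      intro m hm hm2
      by_cases hm6 : m < 6
      · exact WW_small (by omega) hm hm6
      · exact hW m (by omega) hm2
    · have hq7 : 7 ≤ q := by
        have : q ≠ 6 := by
          rintro rfl
          revert hq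
          decide
        omega
      exact neg_window_gen hp hq hr hp2 hpq hqr h1 (m0 := 6) (by omega) (by omega) hW

end three

end Pool.Agent.CycCrit
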