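import Pool.Agent.CycCrit.Three
import Pool.Agent.CycCrit.WinFull
import Pool.Agent.CycCrit.ThreeEq
import Pool.Agent.CycCrit.ThreeSpecC
import Pool.Agent.CYD.Simple

/-!
# The real critical points of the cyclotomic polynomial of a product of three odd primes: all cases
-/

set_option autoImplicit false

namespace Pool.Agent.CycCrit

open Polynomial

section three

variable {p q r : ℕ} (hp : p.Prime) (hq : q.Prime) (hr : r.Prime) (hp2 : p ≠ 2)
  (hpq : p < q) (hqr : q < r)

include hp hq hr hp2 hpq hqr

/-- at most three negative critical points if `r < (p + 1)(q + 1)` -/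
theorem neg_three_all (h : r < (p + 1) * (q + 1)) :
    (derivative (cyclotomic (p * q * r) ℝ)).roots.countP (fun x => x < 0) ≤ 3 := by
  obtain ⟨b1, b2, b3, b4, hN, b6, b7, b8⟩ := bounds3 hp hq hr hp2 hpq hqr
  rcases lt_trichotomy (p + q + r) (p * q) with h1 | h1 | h1
  · exact neg_le_three hp hq hr hp2 hpq hqr h1
  · exact neg_le_three_eq hp hq hr hp2 hpq hqr h1
  · by_cases h2 : 5 ≤ p ∨ 2 * q + 3 ≤ r
    · exact neg_full hp hq hr hp2 hpq hqr h1 h.le h2
    · push Not at h2
      have hp3 : p = 3 := by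
        have : p ≠ 4 := by
          rintro rfl
          revert hp
          decide
        omega
      subst hp3
      have oq := hq.odd_of_ne_two (by omega)
      have or' := hr.odd_of_ne_two (by omega)
      obtain ⟨z, hz⟩ := oq
      obtain ⟨w, hw⟩ := or'
      exact neg_spec3 hq hr (by omega) (by omega)

theorem mem3 : ∀ x ∈ (derivative (cyclotomic (p * q * r) ℝ)).roots,
    (-1 < x ∧ x < 0) ∨ (0 < x ∧ x < 1) := by
  have hn2 := three_gt hp hq hr hp2 hpq hqr
  have hodd : Odd (p * q * r) := ((hp.odd_of_ne_two hp2).mul (hq.odd_of_ne_two (by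
    have := hp.two_le
    omega))).mul (hr.odd_of_ne_two (by
      have := hp.two_le
      omega))
  have hP0 := derivative_cyclotomic_ne_zero (n := p * q * r) (by omega)
  have hz : (derivative (cyclotomic (p * q * r) ℝ)).eval 0 ≠ 0 := by
    refine der_zero_step (by
      have := hp.two_le
      have := hq.two_le
      nlinarith) hr (fun h => ?_) ?_
    · rcases (Nat.Prime.dvd_mul hr).1 h with h | h
      · exact (hpq.trans hqr).ne' ((Nat.prime_dvd_prime_iff_eq hr hp).1 h)
      · exact hqr.ne' ((Nat.prime_dvd_prime_iff_eq hr hq).1 h)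
    · exact der_zero_step hp.one_lt hq (fun h =>
        hpq.ne' ((Nat.prime_dvd_prime_iff_eq hq hp).1 h)) (der_zero_prime hp)
  intro x hx
  rw [mem_roots hP0] at hx
  obtain ⟨b1, b2⟩ := root_mem_odd hn2 hodd hx
  rcases lt_trichotomy x 0 with h | h | h
  · exact Or.inl ⟨b1, h⟩
  · rw [h] at hx
    exact absurd hx hz
  · exact Or.inr ⟨h, b2⟩

theorem three_full :
    (5 ≤ (derivative (cyclotomic (p * q * r) ℝ)).roots.card ∧
      (derivative (cyclotomic (p * q * r) ℝ)).roots.card ≤ 7) ∧
    (((derivative (cyclotomic (p * q * r) ℝ)).roots.filter (fun x => 0 < x)).Nodup ∧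
      ((derivative (cyclotomic (p * q * r) ℝ)).roots.filter (fun x => 0 < x)).card = 2) ∧
    (r < (p + 1) * (q + 1) → (derivative (cyclotomic (p * q * r) ℝ)).roots.card = 5 ∧
      ((derivative (cyclotomic (p * q * r) ℝ)).roots.filter
        (fun x => -1 < x ∧ x < 0)).card = 3 ∧
      (derivative (cyclotomic (p * q * r) ℝ)).roots.Nodup) := by
  classical
  obtain ⟨S, hS⟩ : ∃ S : Finset ℕ, S = {p, q, r} := ⟨_, rfl⟩
  have hpr : p ≠ r := (hpq.trans hqr).ne
  have hSp : ∏ a ∈ S, a = p * q * r := by
    rw [hS, Finset.prod_insert (by simp [hpq.ne, hpr]), Finset.prod_pair hqr.ne, mul_assoc]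
  have hSc : S.card = 3 := by
    rw [hS, Finset.card_insert_of_notMem (by simp [hpq.ne, hpr]), Finset.card_pair hqr.ne]
  have hSo : ∀ a ∈ S, a.Prime ∧ a ≠ 2 := by
    intro a ha
    have := hp.two_le
    rw [hS, Finset.mem_insert, Finset.mem_insert, Finset.mem_singleton] at ha
    rcases ha with rfl | rfl | rfl
    · exact ⟨hp, hp2⟩
    · exact ⟨hq, by omega⟩
    · exact ⟨hr, by omega⟩
  have hne : S.Nonempty := ⟨p, by rw [hS]; simp⟩
  obtain ⟨h3, h4⟩ := main_lower S hSo hne
  rw [hSp, hSc] at h3 h4
  obtain ⟨h5, h6⟩ := pos_three hp hq hr hp2 hpq hqr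
  have h7 := split3 hp hq hr hp2 hpq hqr
  have h8 : ((derivative (cyclotomic (p * q * r) ℝ)).roots.filter
      (fun x => 0 < x ∧ x < 1)).card ≤
      ((derivative (cyclotomic (p * q * r) ℝ)).roots.filter (fun x => 0 < x)).card :=
    Multiset.card_le_card (Multiset.monotone_filter_right _ (fun x h => h.1))
  have h9 : ((derivative (cyclotomic (p * q * r) ℝ)).roots.filter
      (fun x => -1 < x ∧ x < 0)).card ≤
      (derivative (cyclotomic (p * q * r) ℝ)).roots.countP (fun x => x < 0) := by
    rw [Multiset.countP_eq_card_filter]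
    exact Multiset.card_le_card (Multiset.monotone_filter_right _ (fun x h => h.2))
  have h10 : (derivative (cyclotomic (p * q * r) ℝ)).roots.countP (fun x => x < 0) ≤ 5 := by
    rcases le_or_gt ((p + 1) * (q + 1)) r with h | h
    · rcases h.lt_or_eq with h' | h'
      · exact neg_le_five hp hq hr hp2 hpq hqr h'
      · exfalso
        have op := hp.odd_of_ne_two hp2
        have hp3 := hp.two_le
        have or' := hr.odd_of_ne_two (by omega)
        have e1 : Even ((p + 1) * (q + 1)) := (op.add_one).mul_right _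
        rw [h'] at e1
        exact (Nat.not_even_iff_odd.2 or') e1
    · exact (neg_three_all hp hq hr hp2 hpq hqr h).trans (by norm_num)
  refine ⟨⟨by omega, by omega⟩, ⟨h5, by omega⟩, fun h => ?_⟩
  have h11 := neg_three_all hp hq hr hp2 hpq hqr h
  refine ⟨by omega, by omega, ?_⟩
  have h12 : ((derivative (cyclotomic (p * q * r) ℝ)).roots.filter
      (fun x => -1 < x ∧ x < 0)).Nodup := by
    have h13 := neg_nodup S hSo hne (by rw [hSp, hSc]; omega)
    rwa [hSp] at h13
  rw [Multiset.nodup_iff_count_le_one] at h5 h12 ⊢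
  intro x
  by_cases hx : x ∈ (derivative (cyclotomic (p * q * r) ℝ)).roots
  · rcases mem3 hp hq hr hp2 hpq hqr x hx with h14 | h14
    · have := h12 x
      rwa [Multiset.count_filter_of_pos (p := fun x : ℝ => -1 < x ∧ x < 0) h14] at this
    · have := h5 x
      rwa [Multiset.count_filter_of_pos (p := fun x : ℝ => 0 < x) h14.1] at this
  · rw [Multiset.count_eq_zero_of_notMem hx]
    exact Nat.zero_le _

end three

end Pool.Agent.CycCrit
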