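import Pool.Agent.CycCrit.Two
import Pool.Agent.CycCrit.SignBlocks

/-!
# Negative critical points for three primes
-/

set_option autoImplicit false

namespace Pool.Agent.CycCrit

open Polynomial

/-- nonnegative coefficients, supported in `S` -/
def Supp (F : ℝ[X]) (S : ℕ → Prop) : Prop := ∀ u, 0 ≤ F.coeff u ∧ (F.coeff u ≠ 0 → S u)

theorem Supp.one : Supp 1 (fun u => u = 0) := by
  intro u
  rw [coeff_one]
  constructor
  · split_ifs <;> norm_num
  · intro h
    by_contra hu
    exact h (if_neg hu)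

theorem Supp.mul1 {F : ℝ[X]} {S T : ℕ → Prop} (h : Supp F S) (d : ℕ)
    (hT1 : ∀ u, S u → T u) (hT2 : ∀ u, S u → T (u + d)) : Supp ((1 + X ^ d) * F) T := by
  intro u
  have e : ((1 + X ^ d) * F).coeff u = F.coeff u + if d ≤ u then F.coeff (u - d) else 0 := by
    rw [add_mul, one_mul, coeff_add, coeff_X_pow_mul']
  rw [e]
  constructor
  · refine add_nonneg (h u).1 ?_
    split_ifs
    · exact (h _).1
    · exact le_rfl
  · intro hne
    by_cases h1 : F.coeff u = 0
    · rw [h1, zero_add] at hne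
      by_cases h2 : d ≤ u
      · rw [if_pos h2] at hne
        have := hT2 _ ((h _).2 hne)
        rwa [Nat.sub_add_cancel h2] at this
      · rw [if_neg h2] at hne
        exact absurd rfl hne
    · exact hT1 u ((h u).2 h1)

theorem coeff_X_mul_der (F : ℝ[X]) (i : ℕ) : (X * derivative F).coeff i = i * F.coeff i := by
  rcases i with _ | i
  · simp
  · rw [coeff_X_mul, coeff_derivative]
    push_cast
    ring

/-- the numerator -/
theorem coeff_num (A B : ℝ[X]) (i : ℕ) :
    (X * (derivative A * B - A * derivative B)).coeff i =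
      ∑ x ∈ Finset.HasAntidiagonal.antidiagonal i, ((x.1 : ℝ) - x.2) * (A.coeff x.1 * B.coeff x.2) := by
  have e : X * (derivative A * B - A * derivative B) =
      (X * derivative A) * B - A * (X * derivative B) := by ring
  rw [e, coeff_sub, coeff_mul, coeff_mul, ← Finset.sum_sub_distrib]
  refine Finset.sum_congr rfl fun x _ => ?_
  rw [coeff_X_mul_der, coeff_X_mul_der]
  ring

theorem num_nonneg {A B : ℝ[X]} {S T : ℕ → Prop} (hA : Supp A S) (hB : Supp B T) {i : ℕ}
    (h : ∀ u v, u + v = i → S u → T v → v ≤ u) :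
    0 ≤ (X * (derivative A * B - A * derivative B)).coeff i := by
  rw [coeff_num]
  refine Finset.sum_nonneg fun x hx => ?_
  by_cases h1 : A.coeff x.1 = 0
  · rw [h1]; simp
  by_cases h2 : B.coeff x.2 = 0
  · rw [h2]; simp
  have h3 := h x.1 x.2 (Finset.HasAntidiagonal.mem_antidiagonal.1 hx) ((hA _).2 h1) ((hB _).2 h2)
  have h4 : (x.2 : ℝ) ≤ x.1 := by exact_mod_cast h3
  exact mul_nonneg (by linarith) (mul_nonneg (hA _).1 (hB _).1)

theorem num_nonpos {A B : ℝ[X]} {S T : ℕ → Prop} (hA : Supp A S) (hB : Supp B T) {i : ℕ}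
    (h : ∀ u v, u + v = i → S u → T v → u ≤ v) :
    (X * (derivative A * B - A * derivative B)).coeff i ≤ 0 := by
  rw [coeff_num]
  refine Finset.sum_nonpos fun x hx => ?_
  by_cases h1 : A.coeff x.1 = 0
  · rw [h1]; simp
  by_cases h2 : B.coeff x.2 = 0
  · rw [h2]; simp
  have h3 := h x.1 x.2 (Finset.HasAntidiagonal.mem_antidiagonal.1 hx) ((hA _).2 h1) ((hB _).2 h2)
  have h4 : (x.1 : ℝ) ≤ x.2 := by exact_mod_cast h3
  exact mul_nonpos_of_nonpos_of_nonneg (by linarith) (mul_nonneg (hA _).1 (hB _).1)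

/-- the numerator polynomial -/
noncomputable def PA (p q r : ℕ) : ℝ[X] :=
  (1 + X ^ (p * q * r)) * ((1 + X ^ r) * ((1 + X ^ q) * ((1 + X ^ p) * 1)))

/-- the denominator polynomial -/
noncomputable def PB (p q r : ℕ) : ℝ[X] :=
  (1 + X ^ (q * r)) * ((1 + X ^ (p * r)) * ((1 + X ^ (p * q)) * ((1 + X ^ 1) * 1)))

section three

variable {p q r : ℕ} (hp : p.Prime) (hq : q.Prime) (hr : r.Prime) (hp2 : p ≠ 2)
  (hpq : p < q) (hqr : q < r)

include hp hq hr hp2 hpq hqr

theorem cyc3 : cyclotomic (p * q * r) ℝ * ((X ^ (q * r) - 1) * (X ^ (p * r) - 1) *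
    (X ^ (p * q) - 1) * (X - 1)) = (X ^ (p * q * r) - 1) * (X ^ r - 1) * (X ^ q - 1) *
      (X ^ p - 1) := by
  haveI := Fact.mk hp
  have e1 : cyclotomic p ℝ * (X - 1) = X ^ p - 1 := cyclotomic_prime_mul_X_sub_one ℝ p
  have e2 := cyclotomic_expand_eq_cyclotomic_mul hq (n := p) (by
    intro h
    exact hpq.ne' ((Nat.prime_dvd_prime_iff_eq hq hp).1 h)) ℝ
  have e3 := cyclotomic_expand_eq_cyclotomic_mul hr (n := p * q) (by
    intro h
    rcases (Nat.Prime.dvd_mul hr).1 h with h | h
    · exact (hpq.trans hqr).ne' ((Nat.prime_dvd_prime_iff_eq hr hp).1 h)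
    · exact hqr.ne' ((Nat.prime_dvd_prime_iff_eq hr hq).1 h)) ℝ
  have f1 := congrArg (expand ℝ q) e1
  simp only [map_mul, map_sub, map_pow, expand_X, map_one] at f1
  rw [← pow_mul] at f1
  have g2 : cyclotomic (p * q) ℝ * ((X ^ p - 1) * (X ^ q - 1)) =
      (X ^ (q * p) - 1) * (X - 1) := by
    linear_combination (cyclotomic (p * q) ℝ * (X ^ q - 1)) * (-e1) -
      (X - 1) * (X ^ q - 1) * e2 + (X - 1) * f1
  have f2 := congrArg (expand ℝ r) g2
  simp only [map_mul, map_sub, map_pow, expand_X, map_one] at f2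
  rw [← pow_mul, ← pow_mul, ← pow_mul] at f2
  have h1 : r * p = p * r := mul_comm _ _
  have h2 : r * q = q * r := mul_comm _ _
  have h3 : r * (q * p) = p * q * r := by ring
  have h4 : q * p = p * q := mul_comm _ _
  rw [h1, h2, h3] at f2
  rw [h4] at g2
  linear_combination (-cyclotomic (p * q * r) ℝ * (X ^ (p * r) - 1) * (X ^ (q * r) - 1)) * g2 -
    (X ^ p - 1) * (X ^ q - 1) * (X ^ (p * r) - 1) * (X ^ (q * r) - 1) * e3 +
    (X ^ p - 1) * (X ^ q - 1) * f2

theorem cyc3neg : (cyclotomic (p * q * r) ℝ).comp (-X) * PB p q r = PA p q r := by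
  have h := congrArg (fun P => P.comp (-X)) (cyc3 hp hq hr hp2 hpq hqr)
  have op : Odd p := hp.odd_of_ne_two hp2
  have oq : Odd q := hq.odd_of_ne_two (by have := hp.two_le; omega)
  have or' : Odd r := hr.odd_of_ne_two (by have := hp.two_le; omega)
  simp only [mul_comp, sub_comp, pow_comp, X_comp, one_comp] at h
  rw [(oq.mul or').neg_pow, (op.mul or').neg_pow, (op.mul oq).neg_pow,
    ((op.mul oq).mul or').neg_pow, op.neg_pow, oq.neg_pow, or'.neg_pow] at h
  unfold PA PB
  linear_combination h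


theorem bounds3 : 3 ≤ p ∧ p + 2 ≤ q ∧ q + 2 ≤ r ∧ p + q + 1 < p * q ∧
    p * q + p * r + q * r + 1 + p + q + r < p * q * r ∧ p * r < q * r ∧ p + q + r < p * r ∧
    p * q < p * r := by
  have h1 := hp.two_le
  have h3 : 3 ≤ p := by omega
  obtain ⟨a, ha⟩ := hp.odd_of_ne_two hp2
  obtain ⟨b, hb⟩ := hq.odd_of_ne_two (by omega)
  obtain ⟨c, hc⟩ := hr.odd_of_ne_two (by omega)
  have h4 : p + 2 ≤ q := by omega
  have h5 : q + 2 ≤ r := by omega
  refine ⟨h3, h4, h5, by nlinarith, ?_, by nlinarith, by nlinarith, by nlinarith⟩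
  obtain ⟨x, rfl⟩ := Nat.exists_eq_add_of_le h3
  obtain ⟨y, rfl⟩ := Nat.exists_eq_add_of_le h4
  obtain ⟨z, rfl⟩ := Nat.exists_eq_add_of_le h5
  ring_nf
  nlinarith [Nat.zero_le x, Nat.zero_le y, Nat.zero_le z, Nat.zero_le (x * y),
    Nat.zero_le (x * z), Nat.zero_le (y * z), Nat.zero_le (x * y * z), Nat.zero_le (x ^ 2),
    Nat.zero_le (x ^ 3), Nat.zero_le (x ^ 2 * y), Nat.zero_le (x ^ 2 * z),
    Nat.zero_le (x * y ^ 2), Nat.zero_le (y ^ 2)]

theorem suppA : Supp (PA p q r) (fun u => u = 0 ∨ (p ≤ u ∧ u ≤ p + q) ∨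
    (r ≤ u ∧ u ≤ p + q + r) ∨ p * q * r ≤ u) := by
  obtain ⟨h1, h2, h3, -⟩ := bounds3 hp hq hr hp2 hpq hqr
  unfold PA
  refine Supp.mul1 (S := fun u => u = 0 ∨ (p ≤ u ∧ u ≤ p + q) ∨ (r ≤ u ∧ u ≤ p + q + r)) ?_
    (p * q * r) (fun u hu => ?_) (fun u hu => ?_)
  · refine Supp.mul1 (S := fun u => u = 0 ∨ (p ≤ u ∧ u ≤ p + q)) ?_ r
      (fun u hu => ?_) (fun u hu => ?_)
    · refine Supp.mul1 (S := fun u => u = 0 ∨ u = p) ?_ q (fun u hu => ?_) (fun u hu => ?_)
      · exact Supp.one.mul1 p (fun u hu => Or.inl hu) (fun u hu => by right; omega)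
      · rcases hu with h | h
        · exact Or.inl h
        · right; constructor <;> omega
      · right; rcases hu with h | h <;> constructor <;> omega
    · rcases hu with h | h
      · exact Or.inl h
      · exact Or.inr (Or.inl h)
    · right; right; rcases hu with h | h <;> constructor <;> omega
  · rcases hu with h | h | h
    · exact Or.inl h
    · exact Or.inr (Or.inl h)
    · exact Or.inr (Or.inr (Or.inl h))
  · right; right; right; exact Nat.le_add_left _ _

theorem suppB : Supp (PB p q r) (fun u => u ≤ 1 ∨ (p * q ≤ u ∧ u ≤ p * q + 1) ∨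
    (p * r ≤ u ∧ u ≤ p * q + p * r + q * r + 1)) := by
  obtain ⟨h1, h2, h3, h4, h5, h6, h7, h8⟩ := bounds3 hp hq hr hp2 hpq hqr
  unfold PB
  generalize p * q = m at *
  generalize p * r = m' at *
  generalize q * r = m'' at *
  refine Supp.mul1 (S := fun u => u ≤ 1 ∨ (m ≤ u ∧ u ≤ m + 1) ∨
    (m' ≤ u ∧ u ≤ m + m' + 1)) ?_ m'' (fun u hu => ?_) (fun u hu => ?_)
  · refine Supp.mul1 (S := fun u => u ≤ 1 ∨ (m ≤ u ∧ u ≤ m + 1)) ?_ m'
      (fun u hu => ?_) (fun u hu => ?_)
    · refine Supp.mul1 (S := fun u => u ≤ 1) ?_ m (fun u hu => Or.inl hu) (fun u hu => ?_)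
      · exact Supp.one.mul1 1 (fun u hu => by omega) (fun u hu => by omega)
      · right; constructor <;> omega
    · rcases hu with h | h
      · exact Or.inl h
      · exact Or.inr (Or.inl h)
    · right; right; rcases hu with h | h <;> constructor <;> omega
  · rcases hu with h | h | h
    · exact Or.inl h
    · exact Or.inr (Or.inl h)
    · right; right; constructor <;> omega
  · right; right; rcases hu with h | h | h <;> constructor <;> omega

/-- the numerator -/
theorem num_eq : X * (derivative (PA p q r) * PB p q r - PA p q r * derivative (PB p q r)) =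
    -((derivative (cyclotomic (p * q * r) ℝ)).comp (-X)) * (X * PB p q r ^ 2) := by
  have h := cyc3neg hp hq hr hp2 hpq hqr
  have h2 := congrArg derivative h
  rw [derivative_mul, derivative_comp] at h2
  have e : derivative (-X : ℝ[X]) = -1 := by simp
  rw [e] at h2
  rw [← h2, ← h]
  ring

theorem PB_pos {x : ℝ} (hx : 0 < x) : 0 < (PB p q r).eval x := by
  unfold PB
  simp only [eval_mul, eval_add, eval_one, eval_pow, eval_X]
  positivity

theorem neg_le_sv : (derivative (cyclotomic (p * q * r) ℝ)).roots.countP (fun x => x < 0) ≤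
    signVariations (X * (derivative (PA p q r) * PB p q r -
      PA p q r * derivative (PB p q r))) := by
  have hn : 0 < p * q * r := by
    have := hp.pos
    have := hq.pos
    have := hr.pos
    positivity
  have hP0 := derivative_cyclotomic_ne_zero hn
  have hB0 : PB p q r ≠ 0 := by
    intro h
    have := PB_pos hp hq hr hp2 hpq hqr (x := 1) one_pos
    rw [h] at this
    simp at this
  have hc0 : (derivative (cyclotomic (p * q * r) ℝ)).comp (-X) ≠ 0 := by
    intro h
    apply hP0
    have h2 := congrArg (fun P => P.comp (-X : ℝ[X])) h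
    simpa [comp_assoc] using h2
  have hne : -((derivative (cyclotomic (p * q * r) ℝ)).comp (-X)) * (X * PB p q r ^ 2) ≠ 0 :=
    mul_ne_zero (neg_ne_zero.2 hc0) (mul_ne_zero X_ne_zero (pow_ne_zero 2 hB0))
  refine le_trans ?_ (roots_countP_pos_le_signVariations _)
  rw [num_eq hp hq hr hp2 hpq hqr, roots_mul hne, Multiset.countP_add, roots_neg,
    roots_comp_neg_X, Multiset.countP_map]
  refine le_trans (le_of_eq ?_) (Nat.le_add_right _ _)
  rw [Multiset.countP_eq_card_filter]
  congr 1
  apply Multiset.filter_congr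
  intro x _
  constructor
  · intro h; linarith
  · intro h; linarith

theorem neg_le_three (h : p + q + r < p * q) :
    (derivative (cyclotomic (p * q * r) ℝ)).roots.countP (fun x => x < 0) ≤ 3 := by
  refine (neg_le_sv hp hq hr hp2 hpq hqr).trans ?_
  have sA := suppA hp hq hr hp2 hpq hqr
  have sB := suppB hp hq hr hp2 hpq hqr
  obtain ⟨h1, h2, h3, h4, h5, h6, h7, h8⟩ := bounds3 hp hq hr hp2 hpq hqr
  have hpar : p + q + r + 1 < p * q := by
    have op := hp.odd_of_ne_two hp2
    have oq := hq.odd_of_ne_two (by omega)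
    have or' := hr.odd_of_ne_two (by omega)
    have o1 : Odd (p * q) := op.mul oq
    have o2 : Odd (p + q + r) := (op.add_odd oq).add_odd or'
    obtain ⟨x, hx⟩ := o1
    obtain ⟨y, hy⟩ := o2
    omega
  refine (sv_le _ (fun i => decide ((2 ≤ i ∧ i < p * q) ∨ p * q * r ≤ i)) ?_).trans ?_
  · intro i
    simp only [decide_eq_true_eq, decide_eq_false_iff_not]
    generalize p * q = m at *
    generalize p * r = m' at *
    generalize q * r = m'' at *
    generalize m * r = n at *
    constructor
    · intro hi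
      refine num_nonneg sA sB ?_
      intro u v huv hu hv
      omega
    · intro hi
      refine num_nonpos sA sB ?_
      intro u v huv hu hv
      omega
  · refine (Finset.card_le_card (t := {1, p * q - 1, p * q * r - 1}) ?_).trans
      Finset.card_le_three
    intro i hi
    rw [Finset.mem_filter] at hi
    have hi2 := hi.2
    simp only [ne_eq, decide_eq_decide] at hi2
    simp only [Finset.mem_insert, Finset.mem_singleton]
    generalize p * q = m at *
    generalize m * r = n at *
    by_contra hcon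
    apply hi2
    omega

theorem neg_le_five (h : (p + 1) * (q + 1) < r) :
    (derivative (cyclotomic (p * q * r) ℝ)).roots.countP (fun x => x < 0) ≤ 5 := by
  refine (neg_le_sv hp hq hr hp2 hpq hqr).trans ?_
  have sA := suppA hp hq hr hp2 hpq hqr
  have sB := suppB hp hq hr hp2 hpq hqr
  obtain ⟨h1, h2, h3, h4, h5, h6, h7, h8⟩ := bounds3 hp hq hr hp2 hpq hqr
  have h9 : p * q + p + q + 1 < r := by nlinarith
  have h10 : p * q + p + q + r + 1 < p * r := by nlinarith
  refine (sv_le _ (fun i => decide ((2 ≤ i ∧ i < p * q) ∨ (r ≤ i ∧ i < p * r) ∨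
    p * q * r ≤ i)) ?_).trans ?_
  · intro i
    simp only [decide_eq_true_eq, decide_eq_false_iff_not]
    generalize p * q = m at *
    generalize p * r = m' at *
    generalize q * r = m'' at *
    generalize m * r = n at *
    constructor
    · intro hi
      refine num_nonneg sA sB ?_
      intro u v huv hu hv
      omega
    · intro hi
      refine num_nonpos sA sB ?_
      intro u v huv hu hv
      omega
  · refine (Finset.card_le_card (t := {1, p * q - 1, r - 1, p * r - 1, p * q * r - 1}) ?_).trans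
      Finset.card_le_five
    intro i hi
    rw [Finset.mem_filter] at hi
    have hi2 := hi.2
    simp only [ne_eq, decide_eq_decide] at hi2
    simp only [Finset.mem_insert, Finset.mem_singleton]
    generalize p * q = m at *
    generalize p * r = m' at *
    generalize m * r = n at *
    by_contra hcon
    apply hi2
    omega

end three

end Pool.Agent.CycCrit
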