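import Mathlib

set_option autoImplicit false

/-!
# A lower bound for the double sums of the indicator of `⌊i / d⌋` odd
-/

namespace Pool.Agent.CycCrit.TriB_

open Finset

/-- the indicator of `⌊i / d⌋` odd -/
noncomputable def ind (d i : ℕ) : ℝ := if (i / d) % 2 = 1 then 1 else 0

theorem ind_eq {d : ℕ} (hd : 0 < d) (k s : ℕ) (hs : s < 2 * d) :
    ind d (2 * d * k + s) = if d ≤ s then 1 else 0 := by
  have h1 : (2 * d * k + s) / d = s / d + 2 * k := by
    rw [show 2 * d * k + s = s + d * (2 * k) by ring, Nat.add_mul_div_left _ _ hd]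
  unfold ind
  rw [h1]
  by_cases h : d ≤ s
  · have h2 : s / d = 1 := by
      apply Nat.div_eq_of_lt_le <;> omega
    rw [h2, if_pos (by omega), if_pos h]
  · have h2 : s / d = 0 := Nat.div_eq_of_lt (by omega)
    rw [h2, if_neg (by omega), if_neg h]

/-- the exact values in one period -/
theorem step {d : ℕ} (hd : 0 < d) (k : ℕ) (a b : ℝ)
    (ha : ∑ i ∈ range (2 * d * k), ind d i = a)
    (hb : ∑ j ∈ range (2 * d * k), ∑ i ∈ range (j + 1), ind d i = b) (s : ℕ) (hs : s ≤ 2 * d) :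
    ∑ i ∈ range (2 * d * k + s), ind d i = a + ((s - d : ℕ) : ℝ) ∧
    ∑ j ∈ range (2 * d * k + s), ∑ i ∈ range (j + 1), ind d i =
      b + a * s + ((s - d : ℕ) : ℝ) * (((s - d : ℕ) : ℝ) + 1) / 2 := by
  induction s with
  | zero =>
    constructor
    · simp [ha]
    · simp [hb]
  | succ s ih =>
    obtain ⟨h1, h2⟩ := ih (by omega)
    have h3 := ind_eq hd k s (by omega)
    have h4 : ∑ i ∈ range (2 * d * k + (s + 1)), ind d i = a + ((s + 1 - d : ℕ) : ℝ) := by
      rw [show 2 * d * k + (s + 1) = (2 * d * k + s) + 1 by ring, sum_range_succ, h1, h3]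
      by_cases h : d ≤ s
      · rw [if_pos h, show s + 1 - d = (s - d) + 1 by omega]
        push_cast
        ring
      · rw [if_neg h, show s + 1 - d = 0 by omega, show s - d = 0 by omega]
        simp
    refine ⟨h4, ?_⟩
    rw [show 2 * d * k + (s + 1) = (2 * d * k + s) + 1 by ring, sum_range_succ, h2,
      show 2 * d * k + s + 1 = 2 * d * k + (s + 1) by ring, h4]
    by_cases h : d ≤ s
    · rw [show s + 1 - d = (s - d) + 1 by omega]
      push_cast
      ring
    · rw [show s + 1 - d = 0 by omega, show s - d = 0 by omega]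
      push_cast
      ring

theorem period {d : ℕ} (hd : 0 < d) (k : ℕ) :
    ∑ i ∈ range (2 * d * k), ind d i = (d : ℝ) * k ∧
    ∑ j ∈ range (2 * d * k), ∑ i ∈ range (j + 1), ind d i =
      (d : ℝ) ^ 2 * k * (k - 1) + k * (d * (d + 1) / 2) := by
  induction k with
  | zero => simp
  | succ k ih =>
    obtain ⟨h1, h2⟩ := ih
    obtain ⟨h3, h4⟩ := step hd k _ _ h1 h2 (2 * d) le_rfl
    rw [show 2 * d * (k + 1) = 2 * d * k + 2 * d by ring, h3, h4,
      show 2 * d - d = d by omega]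
    push_cast
    constructor <;> ring

/-- the lower bound of the double sum -/
theorem double_ge {d : ℕ} (hd : 0 < d) (y : ℕ) :
    (y : ℝ) * (y + 1) / 4 - d * y / 4 - (d : ℝ) ^ 2 / 16 - d / 4 ≤
      ∑ j ∈ range y, ∑ i ∈ range (j + 1), ind d i := by
  have hy : y = 2 * d * (y / (2 * d)) + y % (2 * d) := (Nat.div_add_mod y (2 * d)).symm
  set k := y / (2 * d)
  set s := y % (2 * d)
  have hs : s < 2 * d := Nat.mod_lt _ (by omega)
  obtain ⟨h1, h2⟩ := period hd k
  obtain ⟨-, h4⟩ := step hd k _ _ h1 h2 s hs.le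
  rw [hy, h4]
  have hd' : (1 : ℝ) ≤ d := by exact_mod_cast hd
  have hs' : (0 : ℝ) ≤ s := by positivity
  push_cast
  by_cases h : d ≤ s
  · have h5 : ((s - d : ℕ) : ℝ) = (s : ℝ) - d := by
      rw [Nat.cast_sub h]
    have h6 : (d : ℝ) ≤ s := by exact_mod_cast h
    rw [h5]
    nlinarith [sq_nonneg (2 * (s : ℝ) - 3 * d)]
  · have h5 : s - d = 0 := by omega
    have h6 : (s : ℝ) ≤ d := by exact_mod_cast (by omega : s ≤ d)
    rw [h5]
    push_cast
    nlinarith [mul_nonneg hs' (sub_nonneg.2 h6), sq_nonneg (d : ℝ)]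

/-- the double sum for `d = 1` is at most `y ^ 2 / 4` -/
theorem odd_le (y : ℕ) :
    ∑ j ∈ range y, ∑ i ∈ range (j + 1), ind 1 i ≤ (y : ℝ) ^ 2 / 4 := by
  have hy : y = 2 * 1 * (y / 2) + y % 2 := by omega
  set k := y / 2
  set s := y % 2
  have hs : s < 2 := Nat.mod_lt _ (by omega)
  obtain ⟨h1, h2⟩ := period one_pos k
  obtain ⟨-, h4⟩ := step one_pos k _ _ h1 h2 s (by omega)
  rw [hy, h4]
  have h5 : s = 0 ∨ s = 1 := by omega
  rcases h5 with h5 | h5 <;> rw [h5] <;> push_cast <;> nlinarith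

end Pool.Agent.CycCrit.TriB_
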