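import Pool.Agent.CycCrit.Lower
import Pool.Agent.CycCrit.Base

/-!
# The real critical points of the cyclotomic polynomial of a product of two odd primes
-/

set_option autoImplicit false

namespace Pool.Agent.CycCrit

open Polynomial Set

theorem LD_one_pos {t : ℝ} (ht : 0 < t) : t * LD 1 (1 * Real.exp (-t)) = A0 t := by
  unfold LD A0
  rw [cyclotomic_one, Real.exp_neg]
  have h0 := (em1_pos ht).ne'
  have h1 := (Real.exp_pos t).ne'
  have h2 : (Real.exp t)⁻¹ - 1 ≠ 0 := by
    intro h
    apply h0
    field_simp at h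
    linarith
  simp only [derivative_sub, derivative_X, derivative_one, sub_zero, eval_one, eval_sub, eval_X,
    one_mul, mul_one]
  rw [← mul_div_assoc, ← neg_div, div_eq_div_iff h2 h0]
  field_simp
  ring

theorem LD_one_neg {t : ℝ} : t * LD 1 (-1 * Real.exp (-t)) = B0 t := by
  unfold LD B0
  rw [cyclotomic_one, Real.exp_neg]
  have h0 := (ep1_pos t).ne'
  have h1 := (Real.exp_pos t)
  have h2 : -1 * (Real.exp t)⁻¹ - 1 ≠ 0 := by
    have : 0 < (Real.exp t)⁻¹ := by positivity
    intro h
    linarith
  simp only [derivative_sub, derivative_X, derivative_one, sub_zero, eval_one, eval_sub, eval_X,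
    mul_one]
  rw [← mul_div_assoc, div_eq_div_iff h2 h0]
  field_simp
  ring

theorem LD_step {n p : ℕ} (hp : p.Prime) (hodd : Odd p) (hpn : ¬ p ∣ n) {s : ℝ}
    (hs : s = 1 ∨ s = -1) {t : ℝ}
    (h1 : (cyclotomic n ℝ).eval (s * Real.exp (-t)) ≠ 0)
    (h2 : (cyclotomic (n * p) ℝ).eval (s * Real.exp (-t)) ≠ 0) :
    t * LD (n * p) (s * Real.exp (-t)) = (p * t) * LD n (s * Real.exp (-(p * t))) -
      t * LD n (s * Real.exp (-t)) := by
  have hsp : s ^ p = s := by
    rcases hs with rfl | rfl
    · exact one_pow _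
    · exact hodd.neg_one_pow
  have e1 : (s * Real.exp (-t)) ^ p = s * Real.exp (-(p * t)) := by
    rw [mul_pow, hsp, ← Real.exp_nat_mul]
    congr 2
    ring
  rw [LD_mul hp hpn h1 h2, e1]
  ring

section two

variable {p q : ℕ} (hp : p.Prime) (hq : q.Prime) (hp2 : p ≠ 2) (hq2 : q ≠ 2) (hpq : p ≠ q)

include hp hp2

theorem two_lt_p : 2 < p := by
  have := hp.two_le
  omega

include hq hq2 hpq

theorem two_lt_pq : 2 < p * q := by
  have h1 := hp.two_le
  have h2 := hq.two_le
  nlinarith

theorem LD_pos {t : ℝ} (ht : 0 < t) : t * LD (p * q) (1 * Real.exp (-t)) =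
    (A0 (p * (q * t)) - A0 (q * t)) - (A0 (p * t) - A0 t) := by
  have hp0 : (0 : ℝ) < p := by exact_mod_cast hp.pos
  have hq0 : (0 : ℝ) < q := by exact_mod_cast hq.pos
  have hstep : ∀ t : ℝ, 0 < t → t * LD p (1 * Real.exp (-t)) = A0 (p * t) - A0 t := by
    intro t ht
    have h3 := LD_step (n := 1) hp (hp.odd_of_ne_two hp2) (by
      intro h
      exact hp.one_lt.ne' (Nat.dvd_one.1 h)) (Or.inl rfl) (t := t) (by
        rw [cyclotomic_one]
        have : Real.exp (-t) < 1 := by
          rw [Real.exp_lt_one_iff]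
          linarith
        simp only [eval_sub, eval_X, eval_one, one_mul]
        intro h
        linarith) (by
        rw [one_mul p]
        exact (cyclotomic_pos (two_lt_p hp hp2) _).ne')
    rw [one_mul p, LD_one_pos ht, LD_one_pos (by positivity)] at h3
    exact h3
  have h4 := LD_step (n := p) hq (hq.odd_of_ne_two hq2) (by
    intro h
    exact hpq ((Nat.prime_dvd_prime_iff_eq hq hp).1 h).symm) (Or.inl rfl) (t := t)
    (cyclotomic_pos (two_lt_p hp hp2) _).ne' (cyclotomic_pos (two_lt_pq hp hq hp2 hq2 hpq) _).ne'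
  rw [h4, hstep _ (by positivity), hstep t ht]

theorem LD_neg {t : ℝ} : t * LD (p * q) (-1 * Real.exp (-t)) =
    (B0 (p * (q * t)) - B0 (q * t)) - (B0 (p * t) - B0 t) := by
  have hstep : ∀ t : ℝ, t * LD p (-1 * Real.exp (-t)) = B0 (p * t) - B0 t := by
    intro t
    have h3 := LD_step (n := 1) hp (hp.odd_of_ne_two hp2) (by
      intro h
      exact hp.one_lt.ne' (Nat.dvd_one.1 h)) (Or.inr rfl) (t := t) (by
        rw [cyclotomic_one]
        have : 0 < Real.exp (-t) := Real.exp_pos _
        simp only [eval_sub, eval_X, eval_one]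
        intro h
        linarith) (by
        rw [one_mul p]
        exact (cyclotomic_pos (two_lt_p hp hp2) _).ne')
    rw [one_mul p, LD_one_neg, LD_one_neg] at h3
    exact h3
  have h4 := LD_step (n := p) hq (hq.odd_of_ne_two hq2) (by
    intro h
    exact hpq ((Nat.prime_dvd_prime_iff_eq hq hp).1 h).symm) (Or.inr rfl) (t := t)
    (cyclotomic_pos (two_lt_p hp hp2) _).ne' (cyclotomic_pos (two_lt_pq hp hq hp2 hq2 hpq) _).ne'
  rw [h4, hstep, hstep]

/-- `0` is not a critical point -/
theorem deriv_zero : (derivative (cyclotomic (p * q) ℝ)).eval 0 ≠ 0 := by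
  haveI := Fact.mk hp
  have e := cyclotomic_expand_eq_cyclotomic_mul hq (n := p) (by
    intro h
    exact hpq ((Nat.prime_dvd_prime_iff_eq hq hp).1 h).symm) ℝ
  have e2 := congrArg (fun P => eval 0 (derivative P)) e
  simp only [derivative_expand, derivative_mul, eval_mul, eval_add, expand_eval, eval_natCast,
    eval_pow, eval_X] at e2
  have h1 : (cyclotomic p ℝ).eval 0 = 1 := by
    rw [← coeff_zero_eq_eval_zero, cyclotomic_coeff_zero ℝ hp.one_lt]
  have h2 : (cyclotomic (p * q) ℝ).eval 0 = 1 := by
    rw [← coeff_zero_eq_eval_zero, cyclotomic_coeff_zero ℝ (by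
      have := two_lt_pq hp hq hp2 hq2 hpq
      omega)]
  have h3 : (derivative (cyclotomic p ℝ)).eval 0 = 1 := by
    rw [← coeff_zero_eq_eval_zero, coeff_derivative, cyclotomic_prime, finsetSum_coeff]
    have h4 : ∀ i ∈ Finset.range p, ((X : ℝ[X]) ^ i).coeff (0 + 1) = if i = 1 then 1 else 0 := by
      intro i _
      rw [coeff_X_pow]
      simp [eq_comm]
    rw [Finset.sum_congr rfl h4, Finset.sum_ite_eq' , if_pos (Finset.mem_range.2 hp.one_lt)]
    norm_num
  have hq1 : (0 : ℝ) ^ (q - 1) = 0 := zero_pow (by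
    have := hq.two_le
    omega)
  rw [h1, h2, h3, hq1] at e2
  intro h
  rw [h] at e2
  norm_num at e2

/-- the critical points are in `(-1, 1)` -/
theorem root_mem {x : ℝ} (hx : (derivative (cyclotomic (p * q) ℝ)).IsRoot x) :
    -1 < x ∧ x < 1 := by
  obtain ⟨n, hn⟩ : ∃ n, n = p * q := ⟨_, rfl⟩
  have hn2 := two_lt_pq hp hq hp2 hq2 hpq
  rw [← hn] at hx hn2
  have hodd : Odd n := by
    rw [hn]
    exact (hp.odd_of_ne_two hp2).mul (hq.odd_of_ne_two hq2)
  have hdeg : 0 < (cyclotomic n ℂ).degree := degree_cyclotomic_pos n ℂ (by omega)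
  have hroot : ∀ z ∈ (cyclotomic n ℂ).rootSet ℂ, ‖z‖ = 1 ∧ z ^ n = 1 ∧ z ≠ 1 := by
    intro z hz
    have h1 : (cyclotomic n ℂ).IsRoot z := by
      have := (mem_rootSet.1 hz).2
      simpa [IsRoot.def, coe_aeval_eq_eval] using this
    haveI : NeZero (n : ℂ) := ⟨by exact_mod_cast (by omega : n ≠ 0)⟩
    have h2 := (isRoot_cyclotomic_iff).1 h1
    refine ⟨Complex.norm_eq_one_of_pow_eq_one h2.pow_eq_one (by omega), h2.pow_eq_one, ?_⟩
    exact h2.ne_one (by omega)
  have hxr : (x : ℂ) ∈ (derivative (cyclotomic n ℂ)).rootSet ℂ := by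
    rw [mem_rootSet]
    have hmap : derivative (cyclotomic n ℂ) = (derivative (cyclotomic n ℝ)).map
        (algebraMap ℝ ℂ) := by
      rw [← derivative_map, map_cyclotomic]
    refine ⟨?_, ?_⟩
    · intro h
      have h1 := derivative_eq_zero.mp h
      rw [natDegree_cyclotomic] at h1
      exact (Nat.totient_pos.mpr (by omega)).ne' h1
    · rw [hmap, aeval_def, Algebra.algebraMap_self, eval₂_id]
      have h3 := eval_map_algebraMap (derivative (cyclotomic n ℝ)) (x : ℂ)
      rw [h3]
      have h4 : aeval (algebraMap ℝ ℂ x) (derivative (cyclotomic n ℝ)) =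
          algebraMap ℝ ℂ ((derivative (cyclotomic n ℝ)).eval x) := by
        rw [aeval_algebraMap_apply, coe_aeval_eq_eval]
      have h5 : (derivative (cyclotomic n ℝ)).eval x = 0 := hx
      have h6 : (algebraMap ℝ ℂ x) = (x : ℂ) := rfl
      rw [← h6, h4, h5, map_zero]
  have hc := rootSet_derivative_subset_convexHull_rootSet hdeg hxr
  constructor
  · have hconv : Convex ℝ {z : ℂ | -1 < z.re} := convex_halfSpace_re_gt (-1)
    have h1 : (cyclotomic n ℂ).rootSet ℂ ⊆ {z : ℂ | -1 < z.re} := by
      intro z hz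
      obtain ⟨h2, h3, h4⟩ := hroot z hz
      show -1 < z.re
      by_contra hcon
      push Not at hcon
      have h5 := Complex.abs_re_le_norm z
      rw [h2] at h5
      have h6 : z.re = -1 := le_antisymm hcon (by linarith [neg_abs_le z.re])
      have h7 : z.im = 0 := by
        have := Complex.sq_norm z
        rw [h2, Complex.normSq_apply, h6] at this
        nlinarith
      have h8 : z = -1 := by
        apply Complex.ext
        · simpa using h6
        · simpa using h7
      rw [h8, hodd.neg_one_pow] at h3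
      norm_num at h3
    have := convexHull_min h1 hconv hc
    simpa using this
  · have hconv : Convex ℝ {z : ℂ | z.re < 1} := convex_halfSpace_re_lt 1
    have h1 : (cyclotomic n ℂ).rootSet ℂ ⊆ {z : ℂ | z.re < 1} := by
      intro z hz
      obtain ⟨h2, h3, h4⟩ := hroot z hz
      show z.re < 1
      by_contra hcon
      push Not at hcon
      have h5 := Complex.abs_re_le_norm z
      rw [h2] at h5
      have h6 : z.re = 1 := le_antisymm (by linarith [le_abs_self z.re]) hcon
      have h7 : z.im = 0 := by
        have := Complex.sq_norm z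
        rw [h2, Complex.normSq_apply, h6] at this
        nlinarith
      apply h4
      apply Complex.ext
      · simpa using h6
      · simpa using h7
    have := convexHull_min h1 hconv hc
    simpa using this

end two

/-- a double critical point is a zero of the derivative in `t` -/
theorem double {n : ℕ} {s t : ℝ} (hn : 2 < n)
    (h0 : (derivative (cyclotomic n ℝ)).eval (s * Real.exp (-t)) = 0)
    (h1 : (derivative (derivative (cyclotomic n ℝ))).eval (s * Real.exp (-t)) = 0) :
    HasDerivAt (fun t => t * LD n (s * Real.exp (-t))) 0 t := by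
  have hu : HasDerivAt (fun t : ℝ => s * Real.exp (-t)) (s * (Real.exp (-t) * -1)) t := by
    have h3 : HasDerivAt (fun t : ℝ => -t) (-1) t := hasDerivAt_neg t
    exact (h3.exp).const_mul s
  have hP : HasDerivAt (fun t => (derivative (cyclotomic n ℝ)).eval (s * Real.exp (-t))) 0 t := by
    have h3 := ((derivative (cyclotomic n ℝ)).hasDerivAt (s * Real.exp (-t))).comp t hu
    rw [h1, zero_mul] at h3
    exact h3
  have hQ := ((cyclotomic n ℝ).hasDerivAt (s * Real.exp (-t))).comp t hu
  have hne : (cyclotomic n ℝ).eval (s * Real.exp (-t)) ≠ 0 := (cyclotomic_pos hn _).ne'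
  have h4 := ((hasDerivAt_id t).mul ((hu.mul hP).div hQ hne))
  refine (h4.congr_deriv ?_).congr_of_eventuallyEq ?_
  · simp [h0]
  · refine Filter.Eventually.of_forall fun s => ?_
    simp [LD]

theorem two_primes {p q : ℕ} (hp : p.Prime) (hq : q.Prime) (hp2 : p ≠ 2) (hq2 : q ≠ 2)
    (hpq : p ≠ q) : (derivative (cyclotomic (p * q) ℝ)).roots.Nodup ∧
    (derivative (cyclotomic (p * q) ℝ)).roots.card ≤ 3 := by
  classical
  have hn2 := two_lt_pq hp hq hp2 hq2 hpq
  have hp1 : (1 : ℝ) < p := by exact_mod_cast hp.one_lt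
  have hq1 : (1 : ℝ) < q := by exact_mod_cast hq.one_lt
  obtain ⟨G, H, z, g1, g2, g3, g4, g5⟩ := two_pos hp1 hq1
  obtain ⟨G', H', y', z', f1, f2, f3, f4, f5, f6, f7⟩ := two_neg hp1 hq1
  have hG : ∀ t : ℝ, 0 < t → t * LD (p * q) (1 * Real.exp (-t)) = G t := fun t ht => by
    rw [LD_pos hp hq hp2 hq2 hpq ht, g1]
  have hG' : ∀ t : ℝ, t * LD (p * q) (-1 * Real.exp (-t)) = G' t := fun t => by
    rw [LD_neg hp hq hp2 hq2 hpq, f1]
  have hP0 := derivative_cyclotomic_ne_zero (n := p * q) (by omega)
  obtain ⟨P, hP⟩ : ∃ P, P = derivative (cyclotomic (p * q) ℝ) := ⟨_, rfl⟩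
  rw [← hP] at hP0 ⊢
  have key : ∀ x : ℝ, P.IsRoot x → (x = Real.exp (-z) ∨ x = -Real.exp (-y') ∨
      x = -Real.exp (-z')) ∧ ¬ (derivative P).IsRoot x := by
    intro x hx
    rw [hP] at hx
    obtain ⟨b1, b2⟩ := root_mem hp hq hp2 hq2 hpq hx
    have hx0 : x ≠ 0 := by
      rintro rfl
      exact deriv_zero hp hq hp2 hq2 hpq hx
    have hxe : (derivative (cyclotomic (p * q) ℝ)).eval x = 0 := hx
    rcases lt_or_gt_of_ne hx0 with h | h
    · obtain ⟨t, ht⟩ : ∃ t, t = -Real.log (-x) := ⟨_, rfl⟩
      have ht0 : 0 < t := by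
        have := Real.log_neg (show 0 < -x by linarith) (by linarith)
        linarith
      have hxt : x = -1 * Real.exp (-t) := by
        rw [ht, neg_neg, Real.exp_log (by linarith)]
        ring
      have hz0 : G' t = 0 := by
        rw [← hG' t, LD, ← hxt, hxe]
        ring
      have hcase : t = y' ∨ t = z' := by
        obtain ⟨c1, c2, c3, c4, c5⟩ := f3
        rcases lt_trichotomy t y' with h1 | h1 | h1
        · have := c3 t ht0 h1
          linarith
        · exact Or.inl h1
        · rcases lt_trichotomy t z' with h2 | h2 | h2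
          · have := c4 t h1 h2
            linarith
          · exact Or.inr h2
          · have := c5 t h2
            linarith
      refine ⟨?_, ?_⟩
      · rcases hcase with h1 | h1
        · right; left
          rw [hxt, h1]
          ring
        · right; right
          rw [hxt, h1]
          ring
      · intro h3
        rw [hP] at h3
        have h4 := double (s := -1) (t := t) hn2 (by rw [← hxt]; exact hxe)
          (by rw [← hxt]; exact h3)
        have h5 : HasDerivAt G' 0 t := by
          refine h4.congr_of_eventuallyEq ?_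
          exact Filter.Eventually.of_forall fun t => (hG' t).symm
        have h6 := h5.unique (f2 t ht0)
        have h7 : H' t = 0 := by
          rcases div_eq_zero_iff.1 h6.symm with h | h
          · exact h
          · exact absurd h ht0.ne'
        rcases hcase with h1 | h1
        · exact f6 (h1 ▸ h7)
        · exact f7 (h1 ▸ h7)
    · obtain ⟨t, ht⟩ : ∃ t, t = -Real.log x := ⟨_, rfl⟩
      have ht0 : 0 < t := by
        have := Real.log_neg h b2
        linarith
      have hxt : x = 1 * Real.exp (-t) := by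
        rw [ht, neg_neg, Real.exp_log h]
        ring
      have hz0 : G t = 0 := by
        rw [← hG t ht0, LD, ← hxt, hxe]
        ring
      have hcase : t = z := by
        obtain ⟨c1, c2, c3⟩ := g3
        rcases lt_trichotomy t z with h1 | h1 | h1
        · have := c2 t ht0 h1
          linarith
        · exact h1
        · have := c3 t h1
          linarith
      refine ⟨?_, ?_⟩
      · left
        rw [hxt, hcase]
        ring
      · intro h3
        rw [hP] at h3
        have h4 := double (s := 1) (t := t) hn2 (by rw [← hxt]; exact hxe)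
          (by rw [← hxt]; exact h3)
        have h5 : HasDerivAt G 0 t := by
          refine h4.congr_of_eventuallyEq ?_
          filter_upwards [Ioi_mem_nhds ht0] with t ht
          exact (hG t ht).symm
        have h6 := h5.unique (g2 t ht0)
        have h7 : H t = 0 := by
          rcases div_eq_zero_iff.1 h6.symm with h | h
          · exact h
          · exact absurd h ht0.ne'
        exact g5 (hcase ▸ h7)
  have hnd : P.roots.Nodup := by
    rw [Multiset.nodup_iff_count_le_one]
    intro x
    rw [count_roots]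
    by_contra hcon
    push Not at hcon
    obtain ⟨h1, h2⟩ := (one_lt_rootMultiplicity_iff_isRoot hP0).1 hcon
    exact (key x h1).2 h2
  refine ⟨hnd, ?_⟩
  have hsub : P.roots.toFinset ⊆ {Real.exp (-z), -Real.exp (-y'), -Real.exp (-z')} := by
    intro x hx
    rw [Multiset.mem_toFinset, mem_roots hP0] at hx
    simpa using (key x hx).1
  calc P.roots.card = P.roots.toFinset.card := (Multiset.toFinset_card_of_nodup hnd).symm
    _ ≤ ({Real.exp (-z), -Real.exp (-y'), -Real.exp (-z')} : Finset ℝ).card :=
        Finset.card_le_card hsub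
    _ ≤ 3 := Finset.card_le_three

end Pool.Agent.CycCrit
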