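import Pool.Agent.CycCrit.ThreeNeg
import Pool.Agent.CycCrit.RootMem

/-!
# A bound for the number of real critical points that depends only on the number of primes
-/

set_option autoImplicit false

namespace Pool.Agent.CycCrit

open Polynomial

theorem sv_le_card (P : ℝ[X]) (hP : P ≠ 0) : signVariations P + 1 ≤ P.support.card := by
  induction hn : P.support.card using Nat.strong_induction_on generalizing P with
  | _ n ih =>
    have h1 := card_support_eraseLead_add_one hP
    rw [hn] at h1
    by_cases h0 : P.eraseLead = 0
    · have h2 : signVariations P = 0 := by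
        have h3 := eraseLead_add_monomial_natDegree_leadingCoeff P
        rw [h0, zero_add] at h3
        rw [← h3]
        exact signVariations_monomial _ _
      rw [h0] at h1
      simp at h1
      omega
    · have h2 := ih _ (by omega) P.eraseLead h0 rfl
      have h3 := signVariations_le_eraseLead_succ P
      omega

theorem card_comp_neg (P : ℝ[X]) : (P.comp (-X)).support.card ≤ P.support.card := by
  refine Finset.card_le_card fun i hi => ?_
  rw [mem_support_iff] at hi ⊢
  intro h
  apply hi
  have e : (-X : ℝ[X]) = C (-1) * X := by simp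
  rw [e, comp_C_mul_X_coeff, h, zero_mul]

theorem card_expand (P : ℝ[X]) {p : ℕ} (hp : 0 < p) :
    (expand ℝ p P).support.card ≤ P.support.card := by
  refine (Finset.card_le_card (t := P.support.image (fun i => i * p)) fun i hi => ?_).trans
    Finset.card_image_le
  rw [mem_support_iff, coeff_expand hp] at hi
  by_cases h : p ∣ i
  · rw [if_pos h] at hi
    rw [Finset.mem_image]
    exact ⟨i / p, mem_support_iff.2 hi, Nat.div_mul_cancel h⟩
  · rw [if_neg h] at hi
    exact absurd rfl hi

theorem card_num (A B : ℝ[X]) : (X * (derivative A * B - A * derivative B)).support.card ≤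
    A.support.card * B.support.card := by
  rw [← Finset.card_product]
  refine (Finset.card_le_card (t := (A.support ×ˢ B.support).image (fun x => x.1 + x.2))
    fun i hi => ?_).trans Finset.card_image_le
  rw [mem_support_iff, coeff_num] at hi
  obtain ⟨x, hx, hx2⟩ := Finset.exists_ne_zero_of_sum_ne_zero hi
  rw [Finset.mem_image]
  refine ⟨x, ?_, Finset.HasAntidiagonal.mem_antidiagonal.1 hx⟩
  rw [Finset.mem_product, mem_support_iff, mem_support_iff]
  constructor
  · intro h
    rw [h] at hx2
    simp at hx2
  · intro h
    rw [h] at hx2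
    simp at hx2

/-- a quotient presentation with few terms -/
theorem present (S : Finset ℕ) (hS : ∀ p ∈ S, p.Prime) : ∃ A B : ℝ[X], B ≠ 0 ∧ A ≠ 0 ∧
    cyclotomic (∏ p ∈ S, p) ℝ * B = A ∧ A.support.card * B.support.card ≤ 2 ^ 2 ^ S.card := by
  classical
  induction S using Finset.induction_on with
  | empty =>
    refine ⟨X - 1, 1, one_ne_zero, X_sub_C_ne_zero (1 : ℝ), ?_, ?_⟩
    · rw [Finset.prod_empty, cyclotomic_one, mul_one]
    · have h1 : (X - 1 : ℝ[X]).support.card ≤ 2 := by
        refine (Finset.card_le_card (t := {0, 1}) fun i hi => ?_).trans Finset.card_le_two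
        rw [mem_support_iff, coeff_sub, coeff_X, coeff_one] at hi
        by_contra hc
        simp only [Finset.mem_insert, Finset.mem_singleton, not_or] at hc
        apply hi
        rw [if_neg (fun h => hc.2 h.symm), if_neg hc.1, sub_zero]
      have h2 : (1 : ℝ[X]).support.card ≤ 1 := by
        refine (Finset.card_le_card (t := {0}) fun i hi => ?_).trans (by simp)
        rw [mem_support_iff, coeff_one] at hi
        rw [Finset.mem_singleton]
        by_contra hc
        exact hi (if_neg hc)
      calc (X - 1 : ℝ[X]).support.card * (1 : ℝ[X]).support.card ≤ 2 * 1 :=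
            Nat.mul_le_mul h1 h2
        _ = 2 ^ 2 ^ (∅ : Finset ℕ).card := by simp
  | insert a S ha ih =>
    obtain ⟨A, B, hB, hA, h1, h2⟩ := ih (fun p hp => hS p (Finset.mem_insert_of_mem hp))
    have hap := hS a (Finset.mem_insert_self _ _)
    have hexA : expand ℝ a A ≠ 0 := (expand_ne_zero hap.pos).2 hA
    have hexB : expand ℝ a B ≠ 0 := (expand_ne_zero hap.pos).2 hB
    refine ⟨expand ℝ a A * B, A * expand ℝ a B, mul_ne_zero hA hexB, mul_ne_zero hexA hB, ?_, ?_⟩
    · rw [Finset.prod_insert ha, mul_comm a]
      have hnd : ¬ a ∣ ∏ p ∈ S, p := by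
        intro h
        obtain ⟨b, hb, hab⟩ := (Prime.dvd_finset_prod_iff hap.prime _).1 h
        have := (Nat.prime_dvd_prime_iff_eq hap (hS b (Finset.mem_insert_of_mem hb))).1 hab
        exact ha (this ▸ hb)
      have h3 := cyclotomic_expand_eq_cyclotomic_mul hap hnd ℝ
      have h4 := congrArg (expand ℝ a) h1
      rw [map_mul, h3] at h4
      rw [← h4, ← h1]
      ring
    · rw [Finset.card_insert_of_notMem ha]
      have h5 : (expand ℝ a A * B).support.card ≤ A.support.card * B.support.card :=
        card_support_mul_le.trans (Nat.mul_le_mul_right _ (card_expand A hap.pos))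
      have h6 : (A * expand ℝ a B).support.card ≤ A.support.card * B.support.card :=
        card_support_mul_le.trans (Nat.mul_le_mul_left _ (card_expand B hap.pos))
      calc _ ≤ (A.support.card * B.support.card) * (A.support.card * B.support.card) :=
            Nat.mul_le_mul h5 h6
        _ ≤ 2 ^ 2 ^ S.card * 2 ^ 2 ^ S.card := Nat.mul_le_mul h2 h2
        _ = 2 ^ 2 ^ (S.card + 1) := by
            rw [← pow_add, pow_succ 2 S.card]
            congr 1
            ring

theorem pos_bound {P A B : ℝ[X]} (hB : B ≠ 0) (hP : derivative P ≠ 0) (h : P * B = A) :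
    (derivative P).roots.countP (fun x => 0 < x) + 1 ≤ A.support.card * B.support.card := by
  have e : X * (derivative A * B - A * derivative B) = derivative P * (X * B ^ 2) := by
    rw [← h, derivative_mul]
    ring
  have hne : derivative P * (X * B ^ 2) ≠ 0 :=
    mul_ne_zero hP (mul_ne_zero X_ne_zero (pow_ne_zero 2 hB))
  have h1 := roots_countP_pos_le_signVariations (derivative P * (X * B ^ 2))
  have h2 := sv_le_card _ hne
  have h3 := card_num A B
  rw [e] at h3
  rw [roots_mul hne, Multiset.countP_add] at h1
  omega

theorem uniform (S : Finset ℕ) (hS : ∀ p ∈ S, p.Prime ∧ p ≠ 2) (hne : S.Nonempty) :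
    (derivative (cyclotomic (∏ p ∈ S, p) ℝ)).roots.card ≤ 2 * (2 ^ 2 ^ S.card - 1) := by
  classical
  obtain ⟨A, B, hB, hA, h1, h2⟩ := present S (fun p hp => (hS p hp).1)
  obtain ⟨hn, hz⟩ := der_zero_prod S (fun p hp => (hS p hp).1) hne
  obtain ⟨n, hn'⟩ : ∃ n, n = ∏ p ∈ S, p := ⟨_, rfl⟩
  rw [← hn'] at h1 hn hz ⊢
  have hP0 := derivative_cyclotomic_ne_zero (n := n) (by omega)
  have p1 := pos_bound hB hP0 h1
  -- the negative side
  have hcB : B.comp (-X) ≠ 0 := by
    intro h
    apply hB
    have h3 := congrArg (fun P => P.comp (-X : ℝ[X])) h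
    simpa [comp_assoc] using h3
  have hc0 : (derivative (cyclotomic n ℝ)).comp (-X) ≠ 0 := by
    intro h
    apply hP0
    have h3 := congrArg (fun P => P.comp (-X : ℝ[X])) h
    simpa [comp_assoc] using h3
  have hd : derivative ((cyclotomic n ℝ).comp (-X)) =
      -(derivative (cyclotomic n ℝ)).comp (-X) := by
    rw [derivative_comp]
    simp
  have p2 := pos_bound (P := (cyclotomic n ℝ).comp (-X)) (A := A.comp (-X)) hcB
    (by rw [hd]; exact neg_ne_zero.2 hc0) (by rw [← h1, mul_comp])
  rw [hd, roots_neg, roots_comp_neg_X, Multiset.countP_map] at p2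
  have h3 : (A.comp (-X)).support.card * (B.comp (-X)).support.card ≤ 2 ^ 2 ^ S.card :=
    (Nat.mul_le_mul (card_comp_neg A) (card_comp_neg B)).trans h2
  have h4 : (derivative (cyclotomic n ℝ)).roots.card =
      (derivative (cyclotomic n ℝ)).roots.countP (fun x => 0 < x) +
      ((derivative (cyclotomic n ℝ)).roots.filter (fun x => 0 < -x)).card := by
    rw [Multiset.countP_eq_card_filter]
    have h5 : (derivative (cyclotomic n ℝ)).roots.filter (fun x => 0 < -x) =
        (derivative (cyclotomic n ℝ)).roots.filter (fun x => ¬ 0 < x) := by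
      apply Multiset.filter_congr
      intro x hx
      rw [mem_roots hP0] at hx
      have hx0 : x ≠ 0 := by
        rintro rfl
        exact hz hx
      constructor
      · intro h
        linarith
      · intro h
        rcases lt_or_gt_of_ne hx0 with h6 | h6
        · linarith
        · exact absurd h6 h
    rw [h5, ← Multiset.card_add, Multiset.filter_add_not]
  omega

end Pool.Agent.CycCrit
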