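import Pool.Agent.CycCrit.WinLam
import Pool.Agent.CycCrit.SumBound

set_option autoImplicit false

/-!
# The double partial sums of the window sequence: sharp lower bound, and the case `p = 3`
-/

namespace Pool.Agent.CycCrit.Win

open Finset

theorem cnt_cast (d n : ℕ) :
    ((cnt d n : ℕ) : ℤ) = ∑ i ∈ range n, _root_.Pool.Agent.CycCrit.od d i := by
  unfold cnt _root_.Pool.Agent.CycCrit.od
  push_cast
  refine sum_congr rfl fun i _ => ?_
  by_cases h : Odd (i / d)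
  · rw [if_pos h, if_pos (Nat.odd_iff.mp h)]
  · rw [if_neg h, if_neg (fun h' => h (Nat.odd_iff.mpr h'))]

theorem Lam_eq (p q m : ℕ) :
    Lam p q m = -(∑ j ∈ range (m + 1), (cnt 1 (j + 1) : ℝ)) +
      p * (∑ j ∈ range (m + 1), (cnt p (j + 1) : ℝ)) +
      q * (∑ j ∈ range (m + 1), (cnt q (j + 1) : ℝ)) := by
  unfold Lam
  rw [sum_congr rfl fun j _ => S_eq p q j, sum_add_distrib, sum_add_distrib, sum_neg_distrib,
    ← mul_sum, ← mul_sum]

theorem dbl_lower {d : ℕ} (hd : 0 < d) (x : ℕ) :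
    4 * (x : ℝ) * (x + 1) - 4 * d * x - (d + 1) ^ 2 ≤
      16 * ∑ j ∈ range x, (cnt d (j + 1) : ℝ) := by
  have h := _root_.Pool.Agent.CycCrit.S_lower d hd x
  rw [← sum_congr rfl fun j _ => cnt_cast d (j + 1)] at h
  exact_mod_cast h

theorem dbl_one (x : ℕ) : 4 * ∑ j ∈ range x, (cnt 1 (j + 1) : ℝ) ≤ (x : ℝ) ^ 2 := by
  have h := _root_.Pool.Agent.CycCrit.S_odd x
  rw [← sum_congr rfl fun j _ => cnt_cast 1 (j + 1)] at h
  exact_mod_cast h

/-- sharp lower bound of `Lam` -/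
theorem Lam_sharp {p q : ℕ} (hp : 0 < p) (hq : 0 < q) (m : ℕ) :
    4 * ((p : ℝ) + q - 1) * (m + 1) ^ 2 - 4 * (p ^ 2 + q ^ 2 - p - q) * (m + 1) -
      p * (p + 1) ^ 2 - q * (q + 1) ^ 2 ≤ 16 * Lam p q m := by
  rw [Lam_eq]
  have h1 := dbl_one (m + 1)
  have h2 := mul_le_mul_of_nonneg_left (dbl_lower hp (m + 1)) (Nat.cast_nonneg (α := ℝ) p)
  have h3 := mul_le_mul_of_nonneg_left (dbl_lower hq (m + 1)) (Nat.cast_nonneg (α := ℝ) q)
  push_cast at h1 h2 h3
  linarith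

/-- the case `p = 3`: sharp lower bound -/
theorem Lam3_lower {q : ℕ} (hq : 0 < q) (m : ℕ) :
    4 * ((q : ℝ) + 2) * (m + 1) ^ 2 - 4 * (q ^ 2 - q + 6) * (m + 1) -
      48 - q * (q + 1) ^ 2 ≤ 16 * Lam 3 q m := by
  have h := Lam_sharp (p := 3) (q := q) (by norm_num) hq m
  push_cast at h
  linarith

theorem phi3_values {q : ℕ} (hq : 5 ≤ q) :
    phi 3 q 0 = 0 ∧ phi 3 q 1 = -1 ∧ phi 3 q 2 = 0 ∧ phi 3 q 3 = 2 ∧ phi 3 q 4 = 3 := by
  have e : ∀ i, i < 5 → i / q = 0 := fun i hi => Nat.div_eq_of_lt (by omega)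
  have o1 : Odd 1 := by decide
  have o3 : Odd 3 := by decide
  have n0 : ¬ Odd 0 := by decide
  have n2 : ¬ Odd 2 := by decide
  have n4 : ¬ Odd 4 := by decide
  refine ⟨?_, ?_, ?_, ?_, ?_⟩
  · unfold phi
    rw [e 0 (by omega)]
    norm_num
  · unfold phi
    rw [e 1 (by omega), show 1 / 3 = 0 by norm_num, if_pos o1, if_neg n0]
    norm_num
  · unfold phi
    rw [e 2 (by omega), show 2 / 3 = 0 by norm_num, if_neg n2, if_neg n0]
    norm_num
  · unfold phi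
    rw [e 3 (by omega), show 3 / 3 = 1 by norm_num, if_pos o3, if_pos o1, if_neg n0]
    norm_num
  · unfold phi
    rw [e 4 (by omega), show 4 / 3 = 1 by norm_num, if_neg n4, if_pos o1, if_neg n0]
    norm_num

theorem Lam3_values {q : ℕ} (hq : 5 ≤ q) :
    Lam 3 q 0 = 0 ∧ Lam 3 q 1 = -1 ∧ Lam 3 q 2 = -2 ∧ Lam 3 q 3 = -1 ∧ Lam 3 q 4 = 3 := by
  obtain ⟨h0, h1, h2, h3, h4⟩ := phi3_values hq
  have s0 : S 3 q 0 = 0 := by
    unfold S; simp only [zero_add, sum_range_one]; exact h0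
  have st : ∀ j, S 3 q (j + 1) = S 3 q j + phi 3 q (j + 1) := by
    intro j; unfold S; rw [sum_range_succ]
  have s1 : S 3 q 1 = -1 := by rw [st 0, s0]; simp only [zero_add]; rw [h1]
  have s2 : S 3 q 2 = -1 := by
    have := st 1
    simp only [Nat.reduceAdd] at this
    rw [this, s1, h2]; norm_num
  have s3 : S 3 q 3 = 1 := by
    have := st 2
    simp only [Nat.reduceAdd] at this
    rw [this, s2, h3]; norm_num
  have s4 : S 3 q 4 = 4 := by
    have := st 3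
    simp only [Nat.reduceAdd] at this
    rw [this, s3, h4]; norm_num
  have l0 : Lam 3 q 0 = 0 := by
    unfold Lam; simp only [zero_add, sum_range_one]; exact s0
  have l1 : Lam 3 q 1 = -1 := by rw [Lam_succ 3 q 0, l0]; simp only [zero_add]; exact s1
  have l2 : Lam 3 q 2 = -2 := by
    have := Lam_succ 3 q 1
    simp only [Nat.reduceAdd] at this
    rw [this, l1, s2]; norm_num
  have l3 : Lam 3 q 3 = -1 := by
    have := Lam_succ 3 q 2
    simp only [Nat.reduceAdd] at this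
    rw [this, l2, s3]; norm_num
  have l4 : Lam 3 q 4 = 3 := by
    have := Lam_succ 3 q 3
    simp only [Nat.reduceAdd] at this
    rw [this, l3, s4]; norm_num
  exact ⟨l0, l1, l2, l3, l4⟩

theorem Lam3_nonneg {q : ℕ} (hq : 5 ≤ q) {m : ℕ} (hm : 4 ≤ m) : 0 ≤ Lam 3 q m := by
  have h := Lam_mono (p := 3) (q := q) (by norm_num) (m := 4) (n := m) (by norm_num) hm
  rw [(Lam3_values hq).2.2.2.2] at h
  linarith

theorem Lam3_nonpos {q : ℕ} (hq : 5 ≤ q) {m : ℕ} (hm : m ≤ 3) : Lam 3 q m ≤ 0 := by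
  obtain ⟨l0, l1, l2, l3, l4⟩ := Lam3_values hq
  interval_cases m
  · rw [l0]
  · rw [l1]; norm_num
  · rw [l2]; norm_num
  · rw [l3]; norm_num

theorem Lam3_ge {q : ℕ} (hq : 5 ≤ q) (m : ℕ) : -2 ≤ Lam 3 q m := by
  obtain ⟨l0, l1, l2, l3, l4⟩ := Lam3_values hq
  rcases le_or_gt 4 m with h | h
  · have := Lam3_nonneg hq h
    linarith
  · interval_cases m
    · rw [l0]; norm_num
    · rw [l1]; norm_num
    · rw [l2]
    · rw [l3]; norm_num

end Pool.Agent.CycCrit.Win
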