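import Pool.Agent.CycCrit.Win3Glue
import Pool.Agent.CycCrit.Win3Lam
import Pool.Agent.CycCrit.Window

set_option autoImplicit false

/-!
# MP_1d6ef7_nt: the window inequality for p = 3
-/

namespace Pool.Agent.CycCrit.Win3

open Pool.Agent.CycCrit Pool.Agent.CycCrit.Win Pool.Agent.CycCrit.Window

theorem Lam3_low {q : ℕ} (hq : 5 ≤ q) (m : ℕ) : low3 q m ≤ Lam 3 q m := by
  have h := Lam3_lower (q := q) (by omega) m
  unfold low3
  nlinarith [h]

/-- the window inequality for `p = 3` -/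
theorem W3_three {q r : ℕ} (hq : 5 ≤ q) (h1 : 2 * q ≤ r + 3) (h2 : r ≤ 4 * q + 4)
    (hne : r + 2 ≤ 3 * q ∨ 3 * q + 2 ≤ r) :
    (∀ m, m < 4 → W3 3 q r m ≤ 0) ∧ (∀ m, 4 ≤ m → m < 3 * r → 0 ≤ W3 3 q r m) := by
  refine ⟨fun m hm => ?_, fun m hm hm2 => ?_⟩
  · rw [W3_eq_Lam 3 q r m (by omega) (by omega)]
    exact Lam3_nonpos hq (by omega)
  · rw [W3_eq]
    have h := win3_glue (Lam 3 q) q r hq h1 h2 hne (fun m => Lam3_low hq m)
      (fun m hm => Lam3_nonneg hq hm) (fun m => Lam3_ge hq m) m hm hm2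
    unfold sh T
    push_cast at h ⊢
    linarith

end Pool.Agent.CycCrit.Win3
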