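import Pool.Agent.CycCrit.Win3Poly

set_option autoImplicit false

/-!
# MP_1d6ef7_nt: the window inequality for p = 3 from three bounds of the double sum
-/

namespace Pool.Agent.CycCrit

theorem win3_glue (L : ℕ → ℝ) (q r : ℕ) (hq : 5 ≤ q) (h1 : 2 * q ≤ r + 3)
    (h2 : r ≤ 4 * q + 4) (hne : r + 2 ≤ 3 * q ∨ 3 * q + 2 ≤ r)
    (hlow : ∀ m : ℕ, low3 q m ≤ L m) (hpos : ∀ m, 4 ≤ m → 0 ≤ L m)
    (hall : ∀ m, -2 ≤ L m) (m : ℕ) (hm : 4 ≤ m) (hm2 : m < 3 * r) :
    0 ≤ L m + (if r ≤ m then L (m - r) else 0) + (if 3 * q ≤ m then L (m - 3 * q) else 0)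
      + (if 3 * q + r ≤ m then L (m - (3 * q + r)) else 0)
      + (r : ℝ) * (if r ≤ m then (((m - r : ℕ) : ℝ) + 1) * (((m - r : ℕ) : ℝ) + 2) / 2 else 0)
      + ((r : ℝ) - 3 * q) * (if 3 * q + r ≤ m then
          (((m - (3 * q + r) : ℕ) : ℝ) + 1) * (((m - (3 * q + r) : ℕ) : ℝ) + 2) / 2 else 0)
      - 3 * q * (if 3 * q ≤ m then
          (((m - 3 * q : ℕ) : ℝ) + 1) * (((m - 3 * q : ℕ) : ℝ) + 2) / 2 else 0) := by
  have hqr : (5 : ℝ) ≤ q := by exact_mod_cast hq
  rcases hne with hB | hA
  · -- r < 3 q
    obtain ⟨D, hD⟩ : ∃ D, 3 * q = r + D := ⟨3 * q - r, by omega⟩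
    have hDR : (3 : ℝ) * q = r + D := by exact_mod_cast hD
    have hD2 : (2 : ℝ) ≤ D := by exact_mod_cast (by omega : 2 ≤ D)
    have hD3 : (D : ℝ) ≤ q + 3 := by exact_mod_cast (by omega : D ≤ q + 3)
    have hr2 : (7 : ℝ) ≤ r := by exact_mod_cast (by omega : 7 ≤ r)
    by_cases c1 : r ≤ m
    · rw [if_pos c1, if_pos c1]
      by_cases c2 : 3 * q ≤ m
      · rw [if_pos c2, if_pos c2]
        by_cases c3 : 3 * q + r ≤ m
        · rw [if_pos c3, if_pos c3]
          obtain ⟨w, rfl⟩ : ∃ w, m = 3 * q + r + w := ⟨m - (3 * q + r), by omega⟩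
          have e1 : 3 * q + r + w - r = w + 3 * q := by omega
          have e2 : 3 * q + r + w - 3 * q = w + r := by omega
          have e3 : 3 * q + r + w - (3 * q + r) = w := by omega
          rw [e1, e2, e3]
          have hw : (w : ℝ) ≤ 3 * q - 2 * D := by
            have : w + 2 * D ≤ 3 * q := by omega
            have h : ((w + 2 * D : ℕ) : ℝ) ≤ ((3 * q : ℕ) : ℝ) := by exact_mod_cast this
            push_cast at h
            linarith
          have h := win3_B3 q D w hqr hD2 hD3 (Nat.cast_nonneg w) hw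
          have h3 := hlow (3 * q + r + w)
          have e4 : ((3 * q + r + w : ℕ) : ℝ) = 6 * q - D + w := by
            push_cast
            linarith
          rw [e4] at h3
          have a1 := hall (w + 3 * q)
          have a2 := hall (w + r)
          have a3 := hall w
          push_cast
          have e5 : (r : ℝ) = 3 * q - D := by linarith
          rw [e5]
          nlinarith
        · rw [if_neg c3, if_neg c3]
          obtain ⟨u, rfl⟩ : ∃ u, m = 3 * q + u := ⟨m - 3 * q, by omega⟩
          have e1 : 3 * q + u - r = u + D := by omega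
          have e2 : 3 * q + u - 3 * q = u := by omega
          rw [e1, e2]
          have hu : (u : ℝ) ≤ r - 1 := by
            have : u + 1 ≤ r := by omega
            have h : ((u + 1 : ℕ) : ℝ) ≤ (r : ℝ) := by exact_mod_cast this
            push_cast at h
            linarith
          have hu0 : (0 : ℝ) ≤ u := Nat.cast_nonneg u
          have a0 := hpos (3 * q + u) (by omega)
          have a1 := hall (u + D)
          have a2 := hall u
          push_cast
          have k1 : (2 : ℝ) ≤ r * u + r * (D + 3) / 2 - (u + 1) * (u + 2) / 2 := by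
            nlinarith [mul_nonneg hu0 (by linarith : (0 : ℝ) ≤ r - 1 - u)]
          have k2 : (4 : ℝ) ≤ D * (r * u + r * (D + 3) / 2 - (u + 1) * (u + 2) / 2) := by
            nlinarith
          have k3 : (r : ℝ) * ((u + D + 1) * (u + D + 2) / 2) - 3 * q * ((u + 1) * (u + 2) / 2)
              = D * (r * u + r * (D + 3) / 2 - (u + 1) * (u + 2) / 2) := by
            rw [hDR]
            ring
          linarith
      · rw [if_neg c2, if_neg c2, if_neg (by omega), if_neg (by omega)]
        have a0 := hpos m hm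
        have a1 := hall (m - r)
        have hv : (0 : ℝ) ≤ ((m - r : ℕ) : ℝ) := Nat.cast_nonneg _
        have k1 : (1 : ℝ) ≤ (((m - r : ℕ) : ℝ) + 1) * (((m - r : ℕ) : ℝ) + 2) / 2 := by
          nlinarith
        nlinarith
    · rw [if_neg c1, if_neg c1, if_neg (by omega), if_neg (by omega), if_neg (by omega),
        if_neg (by omega)]
      have a0 := hpos m hm
      linarith
  · -- r > 3 q
    obtain ⟨D, rfl⟩ : ∃ D, r = 3 * q + D := ⟨r - 3 * q, by omega⟩
    have hD2 : (2 : ℝ) ≤ D := by exact_mod_cast (by omega : 2 ≤ D)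
    have hD3 : (D : ℝ) ≤ q + 4 := by exact_mod_cast (by omega : D ≤ q + 4)
    by_cases c2 : 3 * q ≤ m
    · rw [if_pos c2, if_pos c2]
      by_cases c1 : 3 * q + D ≤ m
      · rw [if_pos c1, if_pos c1]
        obtain ⟨t, rfl⟩ : ∃ t, m = 3 * q + D + t := ⟨m - (3 * q + D), by omega⟩
        have e1 : 3 * q + D + t - (3 * q + D) = t := by omega
        have e2 : 3 * q + D + t - 3 * q = D + t := by omega
        rw [e1, e2]
        have ht0 : (0 : ℝ) ≤ t := Nat.cast_nonneg t
        have h := win3_A2 q D t hqr hD2 hD3 ht0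
        have h3 := hlow (3 * q + D + t)
        have a1 := hall t
        have a2 := hall (D + t)
        push_cast at h3 ⊢
        have k3 : ((3 : ℝ) * q + D) * ((t + 1) * (t + 2) / 2)
            - 3 * q * ((D + t + 1) * (D + t + 2) / 2)
            = D * ((t + 1) * (t + 2) / 2) - 3 * q * D * (t + (3 + D) / 2) := by
          ring
        by_cases c3 : 3 * q + (3 * q + D) ≤ 3 * q + D + t
        · rw [if_pos c3, if_pos c3]
          have a3 := hall (3 * q + D + t - (3 * q + (3 * q + D)))
          have hw : (0 : ℝ) ≤ ((3 * q + D + t - (3 * q + (3 * q + D)) : ℕ) : ℝ) :=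
            Nat.cast_nonneg _
          have k4 : (0 : ℝ) ≤ (3 * q + D - 3 * q) *
              ((((3 * q + D + t - (3 * q + (3 * q + D)) : ℕ) : ℝ) + 1) *
              (((3 * q + D + t - (3 * q + (3 * q + D)) : ℕ) : ℝ) + 2) / 2) := by
            have : (0 : ℝ) ≤ 3 * q + D - 3 * q := by linarith
            positivity
          linarith
        · rw [if_neg c3, if_neg c3]
          linarith
      · rw [if_neg c1, if_neg c1, if_neg (by omega), if_neg (by omega)]
        obtain ⟨u, rfl⟩ : ∃ u, m = 3 * q + u := ⟨m - 3 * q, by omega⟩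
        have e2 : 3 * q + u - 3 * q = u := by omega
        rw [e2]
        have hu : (u : ℝ) ≤ q + 3 := by exact_mod_cast (by omega : u ≤ q + 3)
        have h := win3_A1 q u hqr (Nat.cast_nonneg u) hu
        have h3 := hlow (3 * q + u)
        have a1 := hall u
        push_cast at h3 ⊢
        linarith
    · rw [if_neg c2, if_neg c2, if_neg (by omega), if_neg (by omega), if_neg (by omega),
        if_neg (by omega)]
      have a0 := hpos m hm
      linarith

end Pool.Agent.CycCrit
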