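import Mathlib

set_option autoImplicit false

/-!
# MP_1d6ef7_nt: the window inequality for p = 3, real inequalities
-/

namespace Pool.Agent.CycCrit

/-- lower bound of the double partial sum for `p = 3` -/
noncomputable def low3 (q x : ℝ) : ℝ :=
  (q + 2) * (x + 1) * (x + 2) / 4 + (x + 1) / 4 - (x + 1) * (q ^ 2 + 9) / 4
    - 3 - q * (q + 1) ^ 2 / 16

theorem win3_A1 (q u : ℝ) (hq : 5 ≤ q) (hu : 0 ≤ u) (hu2 : u ≤ q + 3) :
    2 + 3 * q * ((u + 1) * (u + 2) / 2) ≤ low3 q (3 * q + u) := by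
  unfold low3
  obtain ⟨s, hs, rfl⟩ : ∃ s : ℝ, 0 ≤ s ∧ q = 5 + s := ⟨q - 5, by linarith, by ring⟩
  nlinarith [mul_nonneg hu (by linarith : 0 ≤ 5 + s + 3 - u), mul_nonneg hs hs,
    mul_nonneg (mul_nonneg hs hs) hs, mul_nonneg hs hu, mul_nonneg (mul_nonneg hs hs) hu,
    mul_nonneg hs (mul_nonneg hu (by linarith : 0 ≤ 5 + s + 3 - u))]

theorem win3_A2 (q D t : ℝ) (hq : 5 ≤ q) (hD : 2 ≤ D) (hD2 : D ≤ q + 4) (ht : 0 ≤ t) :
    6 + 3 * q * D * (t + (3 + D) / 2) ≤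
      low3 q (3 * q + D + t) + D * ((t + 1) * (t + 2) / 2) := by
  unfold low3
  obtain ⟨s, hs, rfl⟩ : ∃ s : ℝ, 0 ≤ s ∧ q = 5 + s := ⟨q - 5, by linarith, by ring⟩
  set f2 : ℝ := (1/4 * s + 11/4) * t ^ 2 + (5/4 * s ^ 2 + 45/4 * s + 59/2) * t
    + (23/16 * s ^ 3 + 487/16 * s ^ 2 + 189 * s + 1427/4) with hf2
  set A : ℝ := 3/4 * s + 25/4 with hA
  set B : ℝ := -5/4 * s ^ 2 - 65/4 * s - 81/2 with hB
  set C : ℝ := 23/16 * s ^ 3 + 363/16 * s ^ 2 + 199/2 * s + 110 with hC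
  have h2 : 0 ≤ f2 := by positivity
  have hApos : 0 < A := by positivity
  have hdisc : 0 ≤ 4 * A * C - B ^ 2 := by
    have : 4 * A * C - B ^ 2 =
      11/4 * s ^ 4 + 507/8 * s ^ 3 + 4003/8 * s ^ 2 + 6005/4 * s + 4439/4 := by
      rw [hA, hB, hC]; ring
    rw [this]; positivity
  have h3 : 0 ≤ A * t ^ 2 + B * t + C := by
    have h4 : 0 ≤ 4 * A * (A * t ^ 2 + B * t + C) := by
      have : 4 * A * (A * t ^ 2 + B * t + C) = (2 * A * t + B) ^ 2 + (4 * A * C - B ^ 2) := by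
        ring
      rw [this]; positivity
    exact nonneg_of_mul_nonneg_right h4 (by positivity)
  have h5 : (s + 7) * ((5 + s + 2) * (3 * (5 + s) + D + t + 1) * (3 * (5 + s) + D + t + 2) / 4
      + (3 * (5 + s) + D + t + 1) / 4 - (3 * (5 + s) + D + t + 1) * ((5 + s) ^ 2 + 9) / 4
      - 3 - (5 + s) * (5 + s + 1) ^ 2 / 16 + D * ((t + 1) * (t + 2) / 2)
      - (6 + 3 * (5 + s) * D * (t + (3 + D) / 2))) =
      (5 + s + 4 - D) * f2 + (D - 2) * (A * t ^ 2 + B * t + C)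
      + (5/4 * (5 + s) - 1/2) * (s + 7) * ((D - 2) * (5 + s + 4 - D)) := by
    rw [hf2, hA, hB, hC]; ring
  have h6 : 0 ≤ (s + 7) * ((5 + s + 2) * (3 * (5 + s) + D + t + 1)
      * (3 * (5 + s) + D + t + 2) / 4
      + (3 * (5 + s) + D + t + 1) / 4 - (3 * (5 + s) + D + t + 1) * ((5 + s) ^ 2 + 9) / 4
      - 3 - (5 + s) * (5 + s + 1) ^ 2 / 16 + D * ((t + 1) * (t + 2) / 2)
      - (6 + 3 * (5 + s) * D * (t + (3 + D) / 2))) := by
    rw [h5]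
    have a1 : 0 ≤ 5 + s + 4 - D := by linarith
    have a2 : 0 ≤ D - 2 := by linarith
    have a3 : 0 ≤ 5/4 * (5 + s) - 1/2 := by linarith
    positivity
  have h7 := nonneg_of_mul_nonneg_right h6 (by positivity)
  linarith

theorem win3_B3 (q D w : ℝ) (hq : 5 ≤ q) (hD : 2 ≤ D) (hD2 : D ≤ q + 3) (hw : 0 ≤ w)
    (hw2 : w ≤ 3 * q - 2 * D) :
    6 + D * (w ^ 2 + 3 * w + 2) ≤
      low3 q (6 * q - D + w) + D * (3 * q * (3 * q - D) / 2) := by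
  unfold low3
  have h1 : 0 ≤ D * w * (3 * q - 2 * D - w) := by
    have : 0 ≤ 3 * q - 2 * D - w := by linarith
    positivity
  have h2 : 0 ≤ 11/4 * q ^ 2 - 7/2 * q * D + 2 * D ^ 2 + 27/4 * q - 4 * D - 1/2 := by
    nlinarith [sq_nonneg (7 * q - 8 * D), sq_nonneg q]
  have h3 : 0 ≤ w * (11/4 * q ^ 2 - 7/2 * q * D + 2 * D ^ 2 + 27/4 * q - 4 * D - 1/2) :=
    mul_nonneg hw h2
  have h4 : 0 ≤ 119/16 * q ^ 3 + 7/4 * q ^ 2 * D + 177/8 * q ^ 2 - 5/4 * q * D ^ 2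
      - 27/4 * q * D - 41/16 * q + D ^ 2 / 2 - 3/2 * D - 10 := by
    nlinarith [mul_nonneg (mul_nonneg (by linarith : (0:ℝ) ≤ q) (by linarith : 0 ≤ D))
      (by linarith : 0 ≤ q + 3 - D), mul_nonneg (by linarith : (0:ℝ) ≤ q)
      (by linarith : 0 ≤ q + 3 - D), mul_nonneg (mul_nonneg (by linarith : (0:ℝ) ≤ q)
      (by linarith : (0:ℝ) ≤ q)) (by linarith : 0 ≤ q + 3 - D), mul_nonneg
      (mul_nonneg (by linarith : (0:ℝ) ≤ q) (by linarith : (0:ℝ) ≤ q))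
      (by linarith : 0 ≤ q - 5), mul_nonneg (by linarith : (0:ℝ) ≤ q)
      (by linarith : 0 ≤ q - 5), sq_nonneg D]
  have h5 : 0 ≤ w ^ 2 * q := by positivity
  nlinarith [sq_nonneg w]

end Pool.Agent.CycCrit
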