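import Pool.Agent.CycCrit.Bridge
import Pool.Agent.CycCrit.Tail
import Pool.Agent.CycCrit.RootMem

/-!
# The negative critical points in the window
-/

set_option autoImplicit false

namespace Pool.Agent.CycCrit

open Polynomial

/-- the low numerator -/
noncomputable def KL (p q r : ℕ) : ℝ[X] :=
  X * (derivative (A0p p q r) * B0p p q - A0p p q r * derivative (B0p p q))

theorem KL_eval (p q r : ℕ) : (KL p q r).eval 1 = 16 * ((p : ℝ) + q + r - 1 - p * q) := by
  unfold KL
  rw [low_poly]
  simp only [eval_add, eval_sub, eval_mul, eval_pow, eval_X, eval_C, eval_one, one_pow]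
  push_cast
  ring

theorem KL_deriv_eval (p q r : ℕ) : (derivative (KL p q r)).eval 1 =
    8 * ((p : ℝ) ^ 2 + q ^ 2 + r ^ 2 + (p + q + r) ^ 2 - 1 - (p * q) ^ 2 - (1 + p * q) ^ 2) := by
  unfold KL
  rw [low_poly]
  simp only [derivative_add, derivative_sub, derivative_mul, derivative_X_pow, derivative_C,
    derivative_one, eval_add, eval_sub, eval_mul, eval_pow, eval_X, eval_C, eval_one, one_pow,
    eval_zero]
  push_cast
  ring

theorem suppA0 {p q r : ℕ} : Supp (A0p p q r) (fun u => u ≤ p + q + r) := by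
  unfold A0p
  refine Supp.mul1 (S := fun u => u ≤ p + q) ?_ r (fun u hu => by omega) (fun u hu => by omega)
  refine Supp.mul1 (S := fun u => u ≤ p) ?_ q (fun u hu => by omega) (fun u hu => by omega)
  exact Supp.one.mul1 p (fun u hu => by omega) (fun u hu => by omega)

theorem suppB0 {p q : ℕ} : Supp (B0p p q) (fun u => u ≤ p * q + 1) := by
  unfold B0p
  generalize p * q = m
  refine Supp.mul1 (S := fun u => u ≤ 1) ?_ m (fun u hu => by omega) (fun u hu => by omega)
  exact Supp.one.mul1 1 (fun u hu => by omega) (fun u hu => by omega)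

theorem KL_coeff_zero {p q r i : ℕ} (hi : p + q + r + p * q + 1 < i) :
    (KL p q r).coeff i = 0 := by
  refine le_antisymm (num_nonpos suppA0 suppB0 ?_) (num_nonneg suppA0 suppB0 ?_)
  · intro u v huv hu hv
    generalize p * q = m at *
    omega
  · intro u v huv hu hv
    generalize p * q = m at *
    omega

theorem psum2 (c : ℕ → ℝ) (n : ℕ) : psum (psum c) n =
    ∑ i ∈ Finset.range (n + 1), ((n : ℝ) + 1 - i) * c i := by
  induction n with
  | zero => simp [psum]
  | succ n ih =>
    have e : psum (psum c) (n + 1) = psum (psum c) n + psum c (n + 1) := by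
      conv_lhs => rw [psum, Finset.sum_range_succ]
      rfl
    have e1 : psum c (n + 1) = ∑ i ∈ Finset.range (n + 1), c i + c (n + 1) := by
      rw [psum, Finset.sum_range_succ]
    have e2 : ∑ i ∈ Finset.range (n + 1 + 1), (((n + 1 : ℕ) : ℝ) + 1 - i) * c i =
        ∑ i ∈ Finset.range (n + 1), (((n + 1 : ℕ) : ℝ) + 1 - i) * c i +
        (((n + 1 : ℕ) : ℝ) + 1 - ((n + 1 : ℕ) : ℝ)) * c (n + 1) := Finset.sum_range_succ _ _
    rw [e, ih, e1, e2, ← add_assoc, ← Finset.sum_add_distrib]
    congr 1
    · refine Finset.sum_congr rfl fun i _ => ?_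
      push_cast
      ring
    · push_cast
      ring

theorem sum_coeff {P : ℝ[X]} {n : ℕ} (h : ∀ i, n ≤ i → P.coeff i = 0) :
    ∑ i ∈ Finset.range n, P.coeff i = P.eval 1 := by
  rw [eval_eq_sum_range' (n := n + (P.natDegree + 1)) (by omega), Finset.sum_range_add]
  have e : ∑ x ∈ Finset.range (P.natDegree + 1), P.coeff (n + x) * 1 ^ (n + x) = 0 :=
    Finset.sum_eq_zero fun x _ => by rw [h _ (by omega)]; ring
  rw [e, add_zero]
  exact Finset.sum_congr rfl fun i _ => by ring

theorem sum_coeff_mul {P : ℝ[X]} {n : ℕ} (h : ∀ i, n ≤ i → P.coeff i = 0) :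
    ∑ i ∈ Finset.range n, (i : ℝ) * P.coeff i = (derivative P).eval 1 := by
  have h1 : ∀ i, n ≤ i → (X * derivative P).coeff i = 0 := fun i hi => by
    rw [coeff_X_mul_der, h i hi, mul_zero]
  have h2 := sum_coeff h1
  rw [eval_mul, eval_X, one_mul] at h2
  rw [← h2]
  exact Finset.sum_congr rfl fun i _ => by rw [coeff_X_mul_der]

section three

variable {p q r : ℕ} (hp : p.Prime) (hq : q.Prime) (hr : r.Prime) (hp2 : p ≠ 2)
  (hpq : p < q) (hqr : q < r)

include hp hq hr hp2 hpq hqr

theorem neg_le_roots : (derivative (cyclotomic (p * q * r) ℝ)).roots.countP (fun x => x < 0) ≤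
    (X * (derivative (PA p q r) * PB p q r -
      PA p q r * derivative (PB p q r))).roots.countP (fun x => 0 < x ∧ x < 1) := by
  have hn : 0 < p * q * r := by
    have := hp.pos
    have := hq.pos
    have := hr.pos
    positivity
  have hn2 : 2 < p * q * r := by
    obtain ⟨h1, h2, h3, h4, h5, -⟩ := bounds3 hp hq hr hp2 hpq hqr
    omega
  have hodd : Odd (p * q * r) := ((hp.odd_of_ne_two hp2).mul (hq.odd_of_ne_two (by
    have := hp.two_le
    omega))).mul (hr.odd_of_ne_two (by
      have := hp.two_le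
      omega))
  have hP0 := derivative_cyclotomic_ne_zero hn
  have hB0 : PB p q r ≠ 0 := by
    intro h
    have := PB_pos hp hq hr hp2 hpq hqr (x := 1) one_pos
    rw [h] at this
    simp at this
  have hc0 : (derivative (cyclotomic (p * q * r) ℝ)).comp (-X) ≠ 0 := by
    intro h
    apply hP0
    have h2 := congrArg (fun P => P.comp (-X : ℝ[X])) h
    simpa [comp_assoc] using h2
  have hne : -((derivative (cyclotomic (p * q * r) ℝ)).comp (-X)) * (X * PB p q r ^ 2) ≠ 0 :=
    mul_ne_zero (neg_ne_zero.2 hc0) (mul_ne_zero X_ne_zero (pow_ne_zero 2 hB0))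
  rw [num_eq hp hq hr hp2 hpq hqr, roots_mul hne, Multiset.countP_add, roots_neg,
    roots_comp_neg_X, Multiset.countP_map]
  refine le_trans (le_of_eq ?_) (Nat.le_add_right _ _)
  rw [Multiset.countP_eq_card_filter]
  congr 1
  apply Multiset.filter_congr
  intro x hx
  rw [mem_roots hP0] at hx
  obtain ⟨b1, b2⟩ := root_mem_odd hn2 hodd hx
  constructor
  · intro h
    constructor <;> linarith
  · intro h
    linarith [h.1]

theorem num_ne_zero : X * (derivative (PA p q r) * PB p q r -
      PA p q r * derivative (PB p q r)) ≠ 0 := by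
  have hn : 0 < p * q * r := by
    have := hp.pos
    have := hq.pos
    have := hr.pos
    positivity
  have hP0 := derivative_cyclotomic_ne_zero hn
  have hB0 : PB p q r ≠ 0 := by
    intro h
    have := PB_pos hp hq hr hp2 hpq hqr (x := 1) one_pos
    rw [h] at this
    simp at this
  have hc0 : (derivative (cyclotomic (p * q * r) ℝ)).comp (-X) ≠ 0 := by
    intro h
    apply hP0
    have h2 := congrArg (fun P => P.comp (-X : ℝ[X])) h
    simpa [comp_assoc] using h2
  rw [num_eq hp hq hr hp2 hpq hqr]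
  exact mul_ne_zero (neg_ne_zero.2 hc0) (mul_ne_zero X_ne_zero (pow_ne_zero 2 hB0))

/-- the window, from the inequality for the double partial sums of `WW` -/
theorem neg_window_gen (hw1 : p * q < p + q + r)
    {m0 : ℕ} (i1 : m0 + (p + q + 1) ≤ min (p * q) r) (i2 : p + q + r + p * q + 1 < p * r)
    (hW : ∀ m, m0 ≤ m → m < p * r → 0 ≤ psum (psum (WW p q r)) m) :
    (derivative (cyclotomic (p * q * r) ℝ)).roots.countP (fun x => x < 0) ≤ 3 := by
  refine (neg_le_roots hp hq hr hp2 hpq hqr).trans ?_
  have hne := num_ne_zero hp hq hr hp2 hpq hqr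
  have hA := alt_of_roots _ hne
  have sA := suppA hp hq hr hp2 hpq hqr
  have sB := suppB hp hq hr hp2 hpq hqr
  obtain ⟨h1, h2, h3, h4, hN, h6, h7, h8⟩ := bounds3 hp hq hr hp2 hpq hqr
  obtain ⟨g, hg⟩ : ∃ g : ℕ → ℝ, g = (X * (derivative (PA p q r) * PB p q r -
      PA p q r * derivative (PB p q r))).coeff := ⟨_, rfl⟩
  have hq7 : p + 2 ≤ q := h2
  have i3 : p * r ≤ q * r := h6.le
  have i4 : p * r ≤ p * q * r := by omega
  have win : ∀ m, m0 + (p + q + 1) ≤ m → m < p * r → 0 ≤ psum (psum (psum g)) m := by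
    intro m hm hm2
    rw [hg]
    exact window_nonneg hp.pos hq.pos i3 i4 hW hm hm2
  -- signs of the coefficients
  have g1 : ∀ i, i < 2 → g i ≤ 0 := by
    intro i hi
    rw [hg]
    refine num_nonpos sA sB ?_
    intro u v huv hu hv
    generalize p * q = m at *
    generalize p * r = m' at *
    generalize q * r = m'' at *
    generalize m * r = n at *
    omega
  have g2 : ∀ i, 2 ≤ i → i < p * q → i < r → 0 ≤ g i := by
    intro i hi hi2 hi3
    rw [hg]
    refine num_nonneg sA sB ?_
    intro u v huv hu hv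
    generalize p * q = m at *
    generalize p * r = m' at *
    generalize q * r = m'' at *
    generalize m * r = n at *
    omega
  have g3 : ∀ i, p * r - 1 < i → i < p * q * r → g i ≤ 0 := by
    intro i hi hi2
    rw [hg]
    refine num_nonpos sA sB ?_
    intro u v huv hu hv
    generalize p * q = m at *
    generalize p * r = m' at *
    generalize q * r = m'' at *
    generalize m * r = n at *
    omega
  have g4 : ∀ i, p * q * r ≤ i → 0 ≤ g i := by
    intro i hi
    rw [hg]
    refine num_nonneg sA sB ?_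
    intro u v huv hu hv
    generalize p * q = m at *
    generalize p * r = m' at *
    generalize q * r = m'' at *
    generalize m * r = n at *
    omega
  -- values at the end of the window
  obtain ⟨a, ha⟩ : ∃ a, a = p * r - 1 := ⟨_, rfl⟩
  have ha1 : a + 1 = p * r := by omega
  have glow : ∀ i, i < a + 1 → g i = (KL p q r).coeff i := by
    intro i hi
    rw [hg]
    exact num_low (by omega) i3 i4
  have kz : ∀ i, a + 1 ≤ i → (KL p q r).coeff i = 0 := fun i hi => KL_coeff_zero (by omega)
  have hs : (1 : ℝ) ≤ (p : ℝ) + q + r - p * q := by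
    have : p * q + 1 ≤ p + q + r := hw1
    have : ((p * q + 1 : ℕ) : ℝ) ≤ ((p + q + r : ℕ) : ℝ) := by exact_mod_cast this
    push_cast at this
    linarith
  have c1 : 0 ≤ psum g a := by
    have : psum g a = (KL p q r).eval 1 := by
      rw [← sum_coeff kz, psum]
      exact Finset.sum_congr rfl fun i hi => glow i (Finset.mem_range.1 hi)
    rw [this, KL_eval]
    nlinarith
  have c2 : 0 ≤ psum (psum g) a := by
    have e : psum (psum g) a = ((a : ℝ) + 1) * (KL p q r).eval 1 -
        (derivative (KL p q r)).eval 1 := by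
      rw [psum2, ← sum_coeff kz, ← sum_coeff_mul kz, Finset.mul_sum, ← Finset.sum_sub_distrib]
      refine Finset.sum_congr rfl fun i hi => ?_
      rw [glow i (Finset.mem_range.1 hi)]
      ring
    have ha2 : (a : ℝ) + 1 = p * r := by exact_mod_cast ha1
    rw [e, ha2, KL_eval, KL_deriv_eval]
    have j1 : (3 : ℝ) ≤ p := by exact_mod_cast h1
    have j2 : (p : ℝ) + 2 ≤ q := by exact_mod_cast hq7
    have j4 : (q : ℝ) + 2 ≤ r := by exact_mod_cast h3
    have j5 : (p : ℝ) + q + r + p * q + 1 ≤ p * r := by exact_mod_cast i2.le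
    obtain ⟨s, hs'⟩ : ∃ s : ℝ, s = (p : ℝ) + q + r - 1 - p * q := ⟨_, rfl⟩
    have hs0 : 0 ≤ s := by linarith
    have hr' : (r : ℝ) = s + 1 + p * q - p - q := by linarith
    have k2 : 0 ≤ s * ((2 * p - 2) * r - (p + 1) * (q + 1) - p * q) := by
      refine mul_nonneg hs0 ?_
      nlinarith
    have k3 : 0 ≤ ((p : ℝ) + q - 1) * (r + p * q) - (p ^ 2 + q ^ 2 - 1) := by
      nlinarith
    have e2 : (p : ℝ) * r * (16 * ((p : ℝ) + q + r - 1 - p * q)) - 8 * ((p : ℝ) ^ 2 + q ^ 2 +
        r ^ 2 + (p + q + r) ^ 2 - 1 - (p * q) ^ 2 - (1 + p * q) ^ 2) =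
        8 * (s * ((2 * p - 2) * r - (p + 1) * (q + 1) - p * q) +
          ((p + q - 1) * (r + p * q) - (p ^ 2 + q ^ 2 - 1))) := by
      rw [hr']
      ring
    rw [e2]
    linarith
  have c3 : 0 ≤ psum (psum (psum g)) a := win a (by omega) (by omega)
  rw [← hg] at hA
  refine alt_split (a := a) (K := 1) ?_ ?_ hA
  · have u0 : Up g (min (p * q) r) := by
      intro i j hij hj hi
      have : 2 ≤ i := by
        by_contra hc
        push Not at hc
        have := g1 i hc
        linarith
      exact g2 j (by omega) (by omega) (by omega)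
    have u3 := u0.psum.psum.psum
    intro i j hij hj hi
    by_cases hjl : j < min (p * q) r
    · exact u3 i j hij hjl hi
    · exact win j (by omega) (by omega)
  · intro w hw
    refine (((hw.down c3).down c2).down c1).le_one (b := p * q * r) ?_ g4
    intro i hi hi2
    exact g3 i (by omega) hi2

/-- the window for `p` at least five -/
theorem neg_window (h5 : 5 ≤ p) (hw1 : p * q < p + q + r) (_hw2 : r ≤ (p + 1) * (q + 1))
    {m0 : ℕ} (hm0 : m0 ≤ 2 * p)
    (hW : ∀ m, m0 ≤ m → m < p * r → 0 ≤ psum (psum (WW p q r)) m) :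
    (derivative (cyclotomic (p * q * r) ℝ)).roots.countP (fun x => x < 0) ≤ 3 := by
  obtain ⟨h1, h2, h3, h4, hN, h6, h7, h8⟩ := bounds3 hp hq hr hp2 hpq hqr
  have i1 : 4 * p + 2 * q + 1 ≤ p * q := by
    obtain ⟨x, rfl⟩ := Nat.exists_eq_add_of_le h5
    obtain ⟨y, rfl⟩ := Nat.exists_eq_add_of_le h2
    ring_nf
    nlinarith [Nat.zero_le (x * y), Nat.zero_le (x ^ 2)]
  have i2 : p + q + r + p * q + 1 < p * r := by
    have : 5 * r ≤ p * r := Nat.mul_le_mul_right r h5
    omega
  exact neg_window_gen hp hq hr hp2 hpq hqr hw1 (m0 := m0) (by omega) i2 hW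

end three

end Pool.Agent.CycCrit
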