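import Mathlib

/-! Polynomial inequalities for the window `|r - p q| ≤ p + q + 1` (P3WIN, MP_1d6ef7_nt). -/

namespace Pool.Agent.CycCrit

/-- Lower bound of the double sum `Lam`. -/
noncomputable def Cq (p q x : ℝ) : ℝ :=
  (p + q - 1) * (x + 1) * (x + 2) / 4 - (p ^ 2 + q ^ 2) * (x + 1) / 2

/-- Triangular numbers. -/
noncomputable def Tq (x : ℝ) : ℝ := (x + 1) * (x + 2) / 2

private theorem subst2 {p q : ℝ} (hp : 5 ≤ p) (hq : p + 2 ≤ q) :
    ∃ s t : ℝ, 0 ≤ s ∧ 0 ≤ t ∧ p = 5 + s ∧ q = 7 + s + t :=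
  ⟨p - 5, q - p - 2, by linarith, by linarith, by ring, by ring⟩

/-- Case A1: `r = pq + D`, `u < D`. -/
theorem winA1 {p q u : ℝ} (hp : 5 ≤ p) (hq : p + 2 ≤ q) (h0 : 0 ≤ u) (h1 : u ≤ p + q) :
    p * q * Tq u + p ^ 2 ≤ Cq p q (p * q + u) := by
  have key : ∀ v : ℝ, (v = 0 ∨ v = p + q) → 0 ≤ Cq p q (p * q + v) - p * q * Tq v - p ^ 2 := by
    rintro v (rfl | rfl)
    · obtain ⟨s, t, hs, ht, rfl, rfl⟩ := subst2 hp hq
      unfold Cq Tq
      ring_nf
      positivity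
    · obtain ⟨s, t, hs, ht, rfl, rfl⟩ := subst2 hp hq
      unfold Cq Tq
      ring_nf
      positivity
  have k0 := key 0 (Or.inl rfl)
  have k1 := key (p + q) (Or.inr rfl)
  have hE : 0 < p + q := by linarith
  have hk : 0 ≤ p * q / 2 - (p + q - 1) / 4 := by nlinarith
  have id : (p + q) * (Cq p q (p * q + u) - p * q * Tq u - p ^ 2)
      = (p + q - u) * (Cq p q (p * q + 0) - p * q * Tq 0 - p ^ 2)
        + u * (Cq p q (p * q + (p + q)) - p * q * Tq (p + q) - p ^ 2)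
        + (p * q / 2 - (p + q - 1) / 4) * ((p + q) * (u * (p + q - u))) := by
    unfold Cq Tq
    ring
  have hpos : 0 ≤ (p + q) * (Cq p q (p * q + u) - p * q * Tq u - p ^ 2) := by
    rw [id]
    have a1 : 0 ≤ p + q - u := by linarith
    positivity
  have := nonneg_of_mul_nonneg_right hpos hE
  linarith

/-- The function of case A2: `r = pq + D`, `m = pq + D + w`. -/
noncomputable def FA (p q D w : ℝ) : ℝ :=
  Cq p q (p * q + D + w) + Cq p q (D + w) + Cq p q w + D * Tq w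
    - p * q * D * (2 * w + D + 3) / 2

theorem FA_zero {p q w : ℝ} (hp : 5 ≤ p) (hq : p + 2 ≤ q) (hw : 0 ≤ w) : 0 ≤ FA p q 0 w := by
  obtain ⟨s, t, hs, ht, rfl, rfl⟩ := subst2 hp hq
  unfold FA Cq Tq
  ring_nf
  positivity

theorem FA_E {p q w : ℝ} (hp : 5 ≤ p) (hq : p + 2 ≤ q) : 0 ≤ FA p q (p + q + 1) w := by
  set A : ℝ := 3 * (p + q - 1) / 4 + (p + q + 1) / 2 with hA
  set B : ℝ := (p + q - 1) * (2 * (p * q) + 4 * (p + q + 1) + 9) / 4 - 3 * (p ^ 2 + q ^ 2) / 2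
    + 3 * (p + q + 1) / 2 - p * q * (p + q + 1) with hB
  set C : ℝ := FA p q (p + q + 1) 0 with hC
  have hF : FA p q (p + q + 1) w = A * w ^ 2 + B * w + C := by
    rw [hA, hB, hC]
    unfold FA Cq Tq
    ring
  have hApos : 0 < A := by rw [hA]; linarith
  have hdisc : 0 ≤ 4 * A * C - B ^ 2 := by
    rw [hA, hB, hC]
    obtain ⟨s, t, hs, ht, rfl, rfl⟩ := subst2 hp hq
    unfold FA Cq Tq
    ring_nf
    positivity
  have h4 : 0 ≤ (4 * A) * FA p q (p + q + 1) w := by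
    have : (4 * A) * FA p q (p + q + 1) w = (2 * A * w + B) ^ 2 + (4 * A * C - B ^ 2) := by
      rw [hF]; ring
    rw [this]
    positivity
  exact nonneg_of_mul_nonneg_right h4 (by linarith)

/-- Case A2: `r = pq + D`, `m = pq + D + w`, `0 ≤ w`. -/
theorem winA2 {p q D w : ℝ} (hp : 5 ≤ p) (hq : p + 2 ≤ q) (hD0 : 0 ≤ D) (hD1 : D ≤ p + q + 1)
    (hw : 0 ≤ w) : 0 ≤ FA p q D w := by
  have h0 := FA_zero hp hq hw
  have h1 := FA_E (w := w) hp hq
  have hE : 0 < p + q + 1 := by linarith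
  have id : (p + q + 1) * FA p q D w = (p + q + 1 - D) * FA p q 0 w + D * FA p q (p + q + 1) w
      + (p - 1) * (q - 1) / 2 * ((p + q + 1) * (D * (p + q + 1 - D))) := by
    unfold FA Cq Tq
    ring
  have hpos : 0 ≤ (p + q + 1) * FA p q D w := by
    rw [id]
    have a1 : 0 ≤ p + q + 1 - D := by linarith
    have a2 : 0 ≤ p - 1 := by linarith
    have a3 : 0 ≤ q - 1 := by linarith
    positivity
  exact nonneg_of_mul_nonneg_right hpos hE

/-- Case B2, first part. -/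
theorem winB2a {p q u : ℝ} (hp : 5 ≤ p) (hq : p + 2 ≤ q) (h0 : 0 ≤ u) :
    2 * p ^ 2 ≤ Cq p q (p * q + u) := by
  have : 0 ≤ Cq p q (p * q + u) - 2 * p ^ 2 := by
    obtain ⟨s, t, hs, ht, rfl, rfl⟩ := subst2 hp hq
    unfold Cq
    ring_nf
    positivity
  linarith

/-- Case B2, second part (`u < r = a - D`). -/
theorem winB2b {a D u : ℝ} (hD0 : 0 ≤ D) (h0 : 0 ≤ u) (h1 : u + D + 1 ≤ a) :
    D * Tq (u + D) ≤ a * D * (2 * u + 3 + D) / 2 := by
  unfold Tq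
  have e1 : (u + D + 1) * (u + D + 2) ≤ a * (2 * u + 3 + D) := by nlinarith
  nlinarith

/-- The function of case B3: `r = pq - D`, `m = 2pq - D + z`. -/
noncomputable def FB (p q D z : ℝ) : ℝ :=
  Cq p q (z + 2 * (p * q) - D) + Cq p q (z + p * q - D) + Cq p q (z + p * q) + Cq p q z
    + p * q * D * (2 * z + 2 * (p * q) - D + 3) / 2 - D * Tq (z + p * q) - D * Tq z

theorem FB_zero {p q z : ℝ} (hp : 5 ≤ p) (hq : p + 2 ≤ q) (hz : 0 ≤ z) : 0 ≤ FB p q 0 z := by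
  obtain ⟨s, t, hs, ht, rfl, rfl⟩ := subst2 hp hq
  unfold FB Cq Tq
  ring_nf
  positivity

theorem FB_E {p q z : ℝ} (hp : 5 ≤ p) (hq : p + 2 ≤ q) (hz : 0 ≤ z) (hz1 : z ≤ p * (p * q)) :
    0 ≤ FB p q (p + q) z := by
  set B : ℝ := (p + q - 1) * (2 * (p * q) - (p + q) + 3) - 2 * (p ^ 2 + q ^ 2) - 3 * (p + q)
    with hB
  have hF : FB p q (p + q) z = z * (p * (p * q) - z) + (B - p * (p * q)) * z
      + FB p q (p + q) 0 := by
    rw [hB]
    unfold FB Cq Tq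
    ring
  have h1 : 0 ≤ B - p * (p * q) := by
    rw [hB]
    obtain ⟨s, t, hs, ht, rfl, rfl⟩ := subst2 hp hq
    ring_nf
    positivity
  have h2 : 0 ≤ FB p q (p + q) 0 := by
    obtain ⟨s, t, hs, ht, rfl, rfl⟩ := subst2 hp hq
    unfold FB Cq Tq
    ring_nf
    positivity
  have h3 : 0 ≤ p * (p * q) - z := by linarith
  rw [hF]
  positivity

/-- Case B3: `r = pq - D`, `m = 2pq - D + z`, `0 ≤ z`, `m < p r`. -/
theorem winB3 {p q D z : ℝ} (hp : 5 ≤ p) (hq : p + 2 ≤ q) (hD0 : 0 ≤ D) (hD1 : D ≤ p + q)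
    (hz : 0 ≤ z) (hz1 : z ≤ p * (p * q)) : 0 ≤ FB p q D z := by
  have h0 := FB_zero hp hq hz
  have h1 := FB_E hp hq hz hz1
  have hE : 0 < p + q := by linarith
  have id : (p + q) * FB p q D z = (p + q - D) * FB p q 0 z + D * FB p q (p + q) z
      + (p - 1) * (q - 1) / 2 * ((p + q) * (D * (p + q - D))) := by
    unfold FB Cq Tq
    ring
  have hpos : 0 ≤ (p + q) * FB p q D z := by
    rw [id]
    have a1 : 0 ≤ p + q - D := by linarith
    have a2 : 0 ≤ p - 1 := by linarith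
    have a3 : 0 ≤ q - 1 := by linarith
    positivity
  exact nonneg_of_mul_nonneg_right hpos hE

end Pool.Agent.CycCrit
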