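import Mathlib
import Pool.Agent.CycCrit.WinPoly
import Pool.Agent.CycCrit.WinLam

/-! Glue for the window inequality (P3WIN, MP_1d6ef7_nt): `Lam` facts and the case distinction. -/

namespace Pool.Agent.CycCrit.Win

open Finset Pool.Agent.CycCrit

lemma Lam_zero (p q : ℕ) : Lam p q 0 = S p q 0 := by
  unfold Lam; simp

lemma S_lower0 (p q m : ℕ) : -((m : ℝ) + 1) / 2 ≤ S p q m := by
  rw [S_eq]
  have h1 : (2 : ℝ) * cnt 1 (m + 1) ≤ (m : ℝ) + 1 := by exact_mod_cast cnt_one (m + 1)
  have h2 : (0 : ℝ) ≤ (p : ℝ) * (cnt p (m + 1) : ℝ) := by positivity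
  have h3 : (0 : ℝ) ≤ (q : ℝ) * (cnt q (m + 1) : ℝ) := by positivity
  linarith

lemma S_lower1 (p q m : ℕ) (hp : 0 < p) :
    -((m : ℝ) + 1) / 2 + p * ((m : ℝ) + 1 - p) / 2 ≤ S p q m := by
  rw [S_eq]
  have h1 : (2 : ℝ) * cnt 1 (m + 1) ≤ (m : ℝ) + 1 := by exact_mod_cast cnt_one (m + 1)
  have h2 : (m : ℝ) + 1 ≤ 2 * cnt p (m + 1) + p := by exact_mod_cast cnt_lower hp (m + 1)
  have h3 : (0 : ℝ) ≤ (q : ℝ) * (cnt q (m + 1) : ℝ) := by positivity
  have h4 := mul_le_mul_of_nonneg_left h2 (Nat.cast_nonneg (α := ℝ) p)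
  linarith

/-- `Lam ≥ -T/2`. -/
lemma Lam_lowerT (p q m : ℕ) : -(Tq m) / 2 ≤ Lam p q m := by
  unfold Tq
  induction m with
  | zero =>
    rw [Lam_zero]
    have := S_lower0 p q 0
    push_cast at this ⊢
    linarith
  | succ m ih =>
    rw [Lam_succ]
    have := S_lower0 p q (m + 1)
    push_cast at this ⊢
    nlinarith

lemma Lam_neg (p q m : ℕ) (hp : 2 ≤ p) : -(p : ℝ) ^ 2 ≤ Lam p q m := by
  have hp' : (2 : ℝ) ≤ p := by exact_mod_cast hp
  rcases le_or_gt (p - 1) m with h | h
  · have h1 := Lam_mono (p := p) (q := q) hp (m := p - 1) (by omega) h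
    have h2 := Lam_lowerT p q (p - 1)
    have e : ((p - 1 : ℕ) : ℝ) = p - 1 := by
      rw [Nat.cast_sub (by omega)]; simp
    rw [e] at h2
    unfold Tq at h2
    nlinarith
  · have h2 := Lam_lowerT p q m
    have h3 : (m : ℝ) + 1 ≤ p := by exact_mod_cast (by omega : m + 1 ≤ p)
    have h4 : (0 : ℝ) ≤ m := Nat.cast_nonneg m
    unfold Tq at h2
    nlinarith

lemma Lam_lowerk (p q k : ℕ) (hp : 1 ≤ p) :
    -((p : ℝ) + k) * (p + k + 1) / 4 + p * k * (k + 1) / 4 ≤ Lam p q (p - 1 + k) := by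
  induction k with
  | zero =>
    have h2 := Lam_lowerT p q (p - 1)
    have e : ((p - 1 : ℕ) : ℝ) = p - 1 := by
      rw [Nat.cast_sub hp]; simp
    rw [e] at h2
    unfold Tq at h2
    simp only [Nat.add_zero, Nat.cast_zero]
    nlinarith
  | succ k ih =>
    have e : p - 1 + (k + 1) = (p - 1 + k) + 1 := by omega
    rw [e, Lam_succ]
    have h1 := S_lower1 p q (p - 1 + k + 1) (by omega)
    have e2 : ((p - 1 + k + 1 : ℕ) : ℝ) = p + k := by
      have : p - 1 + k + 1 = p + k := by omega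
      rw [this]; push_cast; ring
    rw [e2] at h1
    push_cast
    nlinarith

/-- `Lam ≥ 0` from `2 p - 1` on. -/
lemma Lam_nonneg (p q m : ℕ) (hp : 5 ≤ p) (h : 2 * p ≤ m + 1) : 0 ≤ Lam p q m := by
  obtain ⟨k, rfl⟩ : ∃ k, m = p - 1 + k := ⟨m - (p - 1), by omega⟩
  have h1 := Lam_lowerk p q k (by omega)
  have hk : p ≤ k := by omega
  have hk' : (p : ℝ) ≤ k := by exact_mod_cast hk
  have hp' : (5 : ℝ) ≤ p := by exact_mod_cast hp
  have h2 : ((p : ℝ) + k) * (p + k + 1) ≤ (2 * k) * (2 * k + 1) := by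
    apply mul_le_mul <;> linarith
  have h3 : (2 * (k : ℝ)) * (2 * k + 1) ≤ p * k * (k + 1) := by
    have : (2 * (k : ℝ)) * (2 * k + 1) ≤ 5 * k * (k + 1) := by nlinarith
    have h4 : 5 * (k : ℝ) * (k + 1) ≤ p * k * (k + 1) := by
      have : (0 : ℝ) ≤ k * (k + 1) := by positivity
      nlinarith
    linarith
  linarith

/-- The case distinction, for any function `L` with the four lower bounds. -/
theorem glue {p q r : ℕ} (hp : 5 ≤ p) (hq : p + 2 ≤ q) (h1 : p * q ≤ p + q + r)
    (h2 : r ≤ p * q + p + q + 1) (hr : 1 ≤ r) (hne : r ≠ p * q) (L : ℕ → ℝ)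
    (hC : ∀ m : ℕ, Cq p q m ≤ L m) (hneg : ∀ m, -(p : ℝ) ^ 2 ≤ L m)
    (hT : ∀ m : ℕ, -(Tq m) / 2 ≤ L m) (h0 : ∀ m, 2 * p ≤ m → 0 ≤ L m)
    {m : ℕ} (hm : 2 * p ≤ m) (hm2 : m < p * r) :
    0 ≤ L m + (if r ≤ m then L (m - r) + r * Tq ((m - r : ℕ) : ℝ) else 0)
      + (if p * q ≤ m then L (m - p * q) - p * q * Tq ((m - p * q : ℕ) : ℝ) else 0)
      + (if p * q + r ≤ m then L (m - (p * q + r)) +
          ((r : ℝ) - p * q) * Tq ((m - (p * q + r) : ℕ) : ℝ) else 0) := by
  have hpR : (5 : ℝ) ≤ p := by exact_mod_cast hp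
  have hqR : (p : ℝ) + 2 ≤ q := by exact_mod_cast hq
  have hTn : ∀ n : ℕ, 0 ≤ Tq n := fun n => by unfold Tq; positivity
  rcases lt_or_gt_of_ne hne with hlt | hgt
  · -- r < p q
    obtain ⟨D, hD⟩ : ∃ D, p * q = r + D := ⟨p * q - r, by omega⟩
    have hD1 : 1 ≤ D := by omega
    have hD2 : D ≤ p + q := by omega
    have hDR : (r : ℝ) = p * q - D := by
      have : ((p * q : ℕ) : ℝ) = ((r + D : ℕ) : ℝ) := by rw [hD]
      push_cast at this
      linarith
    have hD0R : (0 : ℝ) ≤ D := Nat.cast_nonneg D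
    have hD1R : (D : ℝ) ≤ p + q := by exact_mod_cast hD2
    rcases lt_or_ge m r with c1 | c1
    · rw [if_neg (by omega), if_neg (by omega), if_neg (by omega)]
      have := h0 m hm
      linarith
    rcases lt_or_ge m (p * q) with c2 | c2
    · rw [if_pos c1, if_neg (by omega), if_neg (by omega)]
      have e1 := h0 m hm
      have e2 := hT (m - r)
      have e3 := hTn (m - r)
      have hrR : (1 : ℝ) ≤ r := by exact_mod_cast hr
      nlinarith
    rcases lt_or_ge m (p * q + r) with c3 | c3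
    · obtain ⟨u, rfl⟩ : ∃ u, m = p * q + u := ⟨m - p * q, by omega⟩
      rw [if_pos c1, if_pos c2, if_neg (by omega)]
      have x1 : p * q + u - p * q = u := by omega
      have x2 : p * q + u - r = u + D := by omega
      rw [x1, x2]
      have e1 := hC (p * q + u)
      have e2 := hneg u
      have e3 := hneg (u + D)
      have e4 := winB2a (u := (u : ℝ)) hpR hqR (Nat.cast_nonneg u)
      have hu : (u : ℝ) + D + 1 ≤ p * q := by
        have : u + D + 1 ≤ p * q := by omega
        exact_mod_cast this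
      have e5 := winB2b (a := (p : ℝ) * q) hD0R (Nat.cast_nonneg u) hu
      have e6 : (r : ℝ) * Tq ((u + D : ℕ) : ℝ) - p * q * Tq (u : ℝ)
          = p * q * D * (2 * u + 3 + D) / 2 - D * Tq ((u : ℝ) + D) := by
        rw [hDR]; unfold Tq; push_cast; ring
      push_cast at e1 e3 e6 ⊢
      linarith
    · obtain ⟨z, rfl⟩ : ∃ z, m = p * q + r + z := ⟨m - (p * q + r), by omega⟩
      rw [if_pos c1, if_pos c2, if_pos c3]
      have x1 : p * q + r + z - p * q = r + z := by omega
      have x2 : p * q + r + z - r = p * q + z := by omega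
      have x3 : p * q + r + z - (p * q + r) = z := by omega
      rw [x1, x2, x3]
      have hz : (z : ℝ) ≤ p * (p * q) := by
        have : z ≤ p * (p * q) := by
          have : p * r ≤ p * (p * q) := Nat.mul_le_mul_left p hlt.le
          omega
        exact_mod_cast this
      have e0 := winB3 hpR hqR hD0R hD1R (Nat.cast_nonneg z) hz
      have e1 := hC (p * q + r + z)
      have e2 := hC (r + z)
      have e3 := hC (p * q + z)
      have e4 := hC z
      have y1 : ((p * q + r + z : ℕ) : ℝ) = z + 2 * (p * q) - D := by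
        push_cast; rw [hDR]; ring
      have y2 : ((r + z : ℕ) : ℝ) = z + p * q - D := by push_cast; rw [hDR]; ring
      have y3 : ((p * q + z : ℕ) : ℝ) = z + p * q := by push_cast; ring
      rw [y1] at e1
      rw [y2] at e2
      rw [y3] at e3
      rw [y2, y3]
      have e5 : (r : ℝ) * Tq ((z : ℝ) + p * q) - p * q * Tq ((z : ℝ) + p * q - D)
          + ((r : ℝ) - p * q) * Tq (z : ℝ)
          = p * q * D * (2 * z + 2 * (p * q) - D + 3) / 2 - D * Tq ((z : ℝ) + p * q)
            - D * Tq (z : ℝ) := by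
        rw [hDR]; unfold Tq; ring
      unfold FB at e0
      linarith
  · -- p q < r
    obtain ⟨D, rfl⟩ : ∃ D, r = p * q + D := ⟨r - p * q, by omega⟩
    have hD1 : 1 ≤ D := by omega
    have hD2 : D ≤ p + q + 1 := by omega
    have hD0R : (1 : ℝ) ≤ D := by exact_mod_cast hD1
    have hD1R : (D : ℝ) ≤ p + q + 1 := by exact_mod_cast hD2
    rcases lt_or_ge m (p * q) with c1 | c1
    · rw [if_neg (by omega), if_neg (by omega), if_neg (by omega)]
      have := h0 m hm
      linarith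
    rcases lt_or_ge m (p * q + D) with c2 | c2
    · obtain ⟨u, rfl⟩ : ∃ u, m = p * q + u := ⟨m - p * q, by omega⟩
      rw [if_neg (by omega), if_pos c1, if_neg (by omega)]
      have x1 : p * q + u - p * q = u := by omega
      rw [x1]
      have e1 := hC (p * q + u)
      have e2 := hneg u
      have hu : (u : ℝ) ≤ p + q := by
        have : u ≤ p + q := by omega
        exact_mod_cast this
      have e4 := winA1 (u := (u : ℝ)) hpR hqR (Nat.cast_nonneg u) hu
      push_cast at e1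
      linarith
    · obtain ⟨w, rfl⟩ : ∃ w, m = p * q + D + w := ⟨m - (p * q + D), by omega⟩
      rw [if_pos c2, if_pos c1]
      have x1 : p * q + D + w - p * q = D + w := by omega
      have x2 : p * q + D + w - (p * q + D) = w := by omega
      rw [x1, x2]
      have e0 := winA2 (D := (D : ℝ)) hpR hqR (by linarith) hD1R (Nat.cast_nonneg w)
      have e1 := hC (p * q + D + w)
      have e2 := hC (D + w)
      have e3 := hC w
      have e4 : ((p * q + D : ℕ) : ℝ) * Tq (w : ℝ) - p * q * Tq ((D + w : ℕ) : ℝ)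
          = D * Tq (w : ℝ) - p * q * D * (2 * w + D + 3) / 2 := by
        unfold Tq; push_cast; ring
      unfold FA at e0
      push_cast at e1 e2 e4 ⊢
      split_ifs with c3
      · have e5 := hT (p * q + D + w - (p * q + (p * q + D)))
        have e6 := hTn (p * q + D + w - (p * q + (p * q + D)))
        nlinarith
      · linarith

/-- The window inequality with `Lam` itself. -/
theorem glue_Lam {p q r : ℕ} (hp : 5 ≤ p) (hq : p + 2 ≤ q) (h1 : p * q ≤ p + q + r)
    (h2 : r ≤ p * q + p + q + 1) (hr : 1 ≤ r) (hne : r ≠ p * q)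
    {m : ℕ} (hm : 2 * p ≤ m) (hm2 : m < p * r) :
    0 ≤ Lam p q m + (if r ≤ m then Lam p q (m - r) + r * Tq ((m - r : ℕ) : ℝ) else 0)
      + (if p * q ≤ m then Lam p q (m - p * q) - p * q * Tq ((m - p * q : ℕ) : ℝ) else 0)
      + (if p * q + r ≤ m then Lam p q (m - (p * q + r)) +
          ((r : ℝ) - p * q) * Tq ((m - (p * q + r) : ℕ) : ℝ) else 0) :=
  glue hp hq h1 h2 hr hne (Lam p q)
    (fun m => by unfold Cq; exact Lam_lower (by omega) (by omega) m)
    (fun m => Lam_neg p q m (by omega)) (Lam_lowerT p q)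
    (fun m hm => Lam_nonneg p q m hp (by omega)) hm hm2

end Pool.Agent.CycCrit.Win
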