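import Mathlib
import Pool.Agent.CycCrit.WinGlue

/-! The window inequality in the form one sign change (P3WIN, MP_1d6ef7_nt). -/

namespace Pool.Agent.CycCrit.Win

open Finset Pool.Agent.CycCrit

/-- shift by `a` -/
noncomputable def sh (a : ℕ) (f : ℕ → ℝ) (m : ℕ) : ℝ := if a ≤ m then f (m - a) else 0

/-- triangular numbers on `ℕ` -/
noncomputable def Tn (k : ℕ) : ℝ := ((k : ℝ) + 1) * (k + 2) / 2

/-- closed form of `W3` -/
noncomputable def Wc (p q r m : ℕ) : ℝ :=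
  Lam p q m + sh r (Lam p q) m + sh (p * q) (Lam p q) m + sh (p * q + r) (Lam p q) m
    + r * sh r Tn m + ((r : ℝ) - p * q) * sh (p * q + r) Tn m - p * q * sh (p * q) Tn m

theorem Wc_nonneg {p q r : ℕ} (hp : 5 ≤ p) (hq : p + 2 ≤ q) (h1 : p * q ≤ p + q + r)
    (h2 : r ≤ p * q + p + q + 1) (hr : 1 ≤ r) (hne : r ≠ p * q)
    {m : ℕ} (hm : 2 * p ≤ m) (hm2 : m < p * r) : 0 ≤ Wc p q r m := by
  have h := glue_Lam hp hq h1 h2 hr hne hm hm2
  unfold Wc sh Tn
  unfold Tq at h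
  split_ifs at h ⊢ <;> linarith

theorem exists_m0 (p q : ℕ) (hp : 5 ≤ p) (hpq : p ≤ q) :
    ∃ m0, m0 ≤ 2 * p ∧ (∀ m, m < m0 → Lam p q m ≤ 0) ∧ (∀ m, m0 ≤ m → 0 ≤ Lam p q m) := by
  classical
  have hex : ∃ m, p ≤ m + 1 ∧ 0 ≤ Lam p q m :=
    ⟨2 * p, by omega, Lam_nonneg p q (2 * p) hp (by omega)⟩
  refine ⟨Nat.find hex, ?_, ?_, ?_⟩
  · exact Nat.find_min' hex ⟨by omega, Lam_nonneg p q (2 * p) hp (by omega)⟩
  · intro m hm
    rcases le_or_gt (m + 1) p with h | h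
    · exact (Lam_small_bound hpq (by omega)).1
    · by_contra hc
      exact Nat.find_min hex hm ⟨by omega, by linarith⟩
  · intro m hm
    have h := Nat.find_spec hex
    exact h.2.trans (Lam_mono (by omega) h.1 hm)

/-- One sign change below `p r`. -/
theorem Wc_one_change {p q r : ℕ} (hp : 5 ≤ p) (hq : p + 2 ≤ q) (h1 : p * q ≤ p + q + r)
    (h2 : r ≤ p * q + p + q + 1) (hne : r ≠ p * q) :
    ∃ m0, m0 ≤ 2 * p ∧ (∀ m, m < m0 → Wc p q r m ≤ 0) ∧
      (∀ m, m0 ≤ m → m < p * r → 0 ≤ Wc p q r m) := by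
  obtain ⟨m0, h0, ha, hb⟩ := exists_m0 p q hp (by omega)
  have hpq : 5 * q ≤ p * q := Nat.mul_le_mul_right q hp
  have hr2 : 2 * p ≤ r := by nlinarith
  have hlt : ∀ m, m < 2 * p → Wc p q r m = Lam p q m := by
    intro m hm
    unfold Wc sh
    rw [if_neg (by omega), if_neg (by omega), if_neg (by omega), if_neg (by omega),
      if_neg (by omega), if_neg (by omega)]
    ring
  refine ⟨m0, h0, ?_, ?_⟩
  · intro m hm
    rw [hlt m (by omega)]
    exact ha m hm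
  · intro m hm hm2
    rcases lt_or_ge m (2 * p) with h | h
    · rw [hlt m h]
      exact hb m hm
    · exact Wc_nonneg hp hq h1 h2 (by omega) hne h hm2

end Pool.Agent.CycCrit.Win
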