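import Mathlib
import Pool.Agent.CycCrit.WinPoly

/-! Polynomial inequalities for the window `|r - 3 q| ≤ q + 4` (`p = 3`, MP_1d6ef7_nt), with the
sharper lower bound `Cr` of the double sum `Lam`. -/

set_option autoImplicit false

namespace Pool.Agent.CycCrit

/-- Sharp lower bound of the double sum `Lam` for `p = 3`. -/
noncomputable def Cr (q x : ℝ) : ℝ :=
  (q + 2) * (x + 1) * (x + 2) / 4 + (x + 1) / 4 - (9 + q ^ 2) * (x + 1) / 4 - (27 + q ^ 3) / 16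
    - (9 + q ^ 2) / 4

private theorem subst1 {q : ℝ} (hq : 5 ≤ q) : ∃ t : ℝ, 0 ≤ t ∧ q = 5 + t :=
  ⟨q - 5, by linarith, by ring⟩

/-- Case A1: `r = 3 q + D`, `u < D`. -/
theorem winA1_3 {q u : ℝ} (hq : 5 ≤ q) (h0 : 0 ≤ u) (h1 : u ≤ q + 3) :
    3 * q * Tq u + 9 ≤ Cr q (3 * q + u) := by
  have key : ∀ v : ℝ, (v = 0 ∨ v = q + 3) → 0 ≤ Cr q (3 * q + v) - 3 * q * Tq v - 9 := by
    rintro v (rfl | rfl)
    · obtain ⟨t, ht, rfl⟩ := subst1 hq
      unfold Cr Tq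
      ring_nf
      positivity
    · obtain ⟨t, ht, rfl⟩ := subst1 hq
      unfold Cr Tq
      ring_nf
      positivity
  have k0 := key 0 (Or.inl rfl)
  have k1 := key (q + 3) (Or.inr rfl)
  have hE : 0 < q + 3 := by linarith
  have hk : 0 ≤ 3 * q / 2 - (q + 2) / 4 := by linarith
  have id : (q + 3) * (Cr q (3 * q + u) - 3 * q * Tq u - 9)
      = (q + 3 - u) * (Cr q (3 * q + 0) - 3 * q * Tq 0 - 9)
        + u * (Cr q (3 * q + (q + 3)) - 3 * q * Tq (q + 3) - 9)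
        + (3 * q / 2 - (q + 2) / 4) * ((q + 3) * (u * (q + 3 - u))) := by
    unfold Cr Tq
    ring
  have hpos : 0 ≤ (q + 3) * (Cr q (3 * q + u) - 3 * q * Tq u - 9) := by
    rw [id]
    have a1 : 0 ≤ q + 3 - u := by linarith
    positivity
  have := nonneg_of_mul_nonneg_right hpos hE
  linarith

/-- The function of case A2: `r = 3 q + D`, `m = 3 q + D + w`. -/
noncomputable def FA3 (q D w : ℝ) : ℝ :=
  Cr q (3 * q + D + w) + Cr q (D + w) + Cr q w + D * Tq w - 3 * q * D * (2 * w + D + 3) / 2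

theorem FA3_zero {q w : ℝ} (hq : 5 ≤ q) (hw : 0 ≤ w) : 0 ≤ FA3 q 0 w := by
  obtain ⟨t, ht, rfl⟩ := subst1 hq
  unfold FA3 Cr Tq
  ring_nf
  positivity

theorem FA3_E {q w : ℝ} (hq : 5 ≤ q) : 0 ≤ FA3 q (q + 4) w := by
  set A : ℝ := (5 * q + 14) / 4 with hA
  set B : ℝ := FA3 q (q + 4) 1 - FA3 q (q + 4) 0 - (5 * q + 14) / 4 with hB
  set C : ℝ := FA3 q (q + 4) 0 with hC
  have hF : FA3 q (q + 4) w = A * w ^ 2 + B * w + C := by
    rw [hA, hB, hC]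
    unfold FA3 Cr Tq
    ring
  have hApos : 0 < A := by rw [hA]; linarith
  have hdisc : 0 ≤ 4 * A * C - B ^ 2 := by
    rw [hA, hB, hC]
    obtain ⟨t, ht, rfl⟩ := subst1 hq
    unfold FA3 Cr Tq
    ring_nf
    positivity
  have h4 : 0 ≤ (4 * A) * FA3 q (q + 4) w := by
    have : (4 * A) * FA3 q (q + 4) w = (2 * A * w + B) ^ 2 + (4 * A * C - B ^ 2) := by
      rw [hF]; ring
    rw [this]
    positivity
  exact nonneg_of_mul_nonneg_right h4 (by linarith)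

/-- Case A2: `r = 3 q + D`, `m = 3 q + D + w`, `0 ≤ w`. -/
theorem winA2_3 {q D w : ℝ} (hq : 5 ≤ q) (hD0 : 0 ≤ D) (hD1 : D ≤ q + 4) (hw : 0 ≤ w) :
    0 ≤ FA3 q D w := by
  have h0 := FA3_zero hq hw
  have h1 := FA3_E (w := w) hq
  have hE : 0 < q + 4 := by linarith
  have id : (q + 4) * FA3 q D w = (q + 4 - D) * FA3 q 0 w + D * FA3 q (q + 4) w
      + (q - 1) * ((q + 4) * (D * (q + 4 - D))) := by
    unfold FA3 Cr Tq
    ring
  have hpos : 0 ≤ (q + 4) * FA3 q D w := by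
    rw [id]
    have a1 : 0 ≤ q + 4 - D := by linarith
    have a3 : 0 ≤ q - 1 := by linarith
    positivity
  exact nonneg_of_mul_nonneg_right hpos hE

/-- Case B2, first part. -/
theorem winB2a_3 {q u : ℝ} (hq : 5 ≤ q) (h0 : 0 ≤ u) : 18 ≤ Cr q (3 * q + u) := by
  have : 0 ≤ Cr q (3 * q + u) - 18 := by
    obtain ⟨t, ht, rfl⟩ := subst1 hq
    unfold Cr
    ring_nf
    positivity
  linarith

/-- The function of case B3: `r = 3 q - D`, `m = 6 q - D + z`. -/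
noncomputable def FB3 (q D z : ℝ) : ℝ :=
  Cr q (z + 6 * q - D) + Cr q (z + 3 * q - D) + Cr q (z + 3 * q) + Cr q z
    + 3 * q * D * (2 * z + 6 * q - D + 3) / 2 - D * Tq (z + 3 * q) - D * Tq z

theorem FB3_zero {q z : ℝ} (hq : 5 ≤ q) (hz : 0 ≤ z) : 0 ≤ FB3 q 0 z := by
  obtain ⟨t, ht, rfl⟩ := subst1 hq
  unfold FB3 Cr Tq
  ring_nf
  positivity

theorem FB3_E {q z : ℝ} (hq : 5 ≤ q) (hz : 0 ≤ z) (hz1 : z ≤ 9 * q) : 0 ≤ FB3 q (q + 3) z := by
  set B : ℝ := FB3 q (q + 3) 1 - FB3 q (q + 3) 0 + 1 with hB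
  have hF : FB3 q (q + 3) z = z * (9 * q - z) + (B - 9 * q) * z + FB3 q (q + 3) 0 := by
    rw [hB]
    unfold FB3 Cr Tq
    ring
  have h1 : 0 ≤ B - 9 * q := by
    rw [hB]
    obtain ⟨t, ht, rfl⟩ := subst1 hq
    unfold FB3 Cr Tq
    ring_nf
    positivity
  have h2 : 0 ≤ FB3 q (q + 3) 0 := by
    obtain ⟨t, ht, rfl⟩ := subst1 hq
    unfold FB3 Cr Tq
    ring_nf
    positivity
  have h3 : 0 ≤ 9 * q - z := by linarith
  rw [hF]
  positivity

/-- Case B3: `r = 3 q - D`, `m = 6 q - D + z`, `0 ≤ z`, `m < 3 r`. -/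
theorem winB3_3 {q D z : ℝ} (hq : 5 ≤ q) (hD0 : 0 ≤ D) (hD1 : D ≤ q + 3) (hz : 0 ≤ z)
    (hz1 : z ≤ 9 * q) : 0 ≤ FB3 q D z := by
  have h0 := FB3_zero hq hz
  have h1 := FB3_E hq hz hz1
  have hE : 0 < q + 3 := by linarith
  have id : (q + 3) * FB3 q D z = (q + 3 - D) * FB3 q 0 z + D * FB3 q (q + 3) z
      + (q - 1) * ((q + 3) * (D * (q + 3 - D))) := by
    unfold FB3 Cr Tq
    ring
  have hpos : 0 ≤ (q + 3) * FB3 q D z := by
    rw [id]
    have a1 : 0 ≤ q + 3 - D := by linarith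
    have a3 : 0 ≤ q - 1 := by linarith
    positivity
  exact nonneg_of_mul_nonneg_right hpos hE

end Pool.Agent.CycCrit
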