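import Mathlib

set_option autoImplicit false

/-!
# MP_1d6ef7_nt: the real inequalities for the window `|r - p q| <= p + q + 1`
-/

namespace Pool.Agent.CycCrit

/-- the lower bound of the double partial sums -/
noncomputable def LL (p q M : ℝ) : ℝ :=
  ((p + q - 1) * M ^ 2 + ((p + q) - (p ^ 2 + q ^ 2)) * M) / 4
    - (p * (p + 1) ^ 2 + q * (q + 1) ^ 2) / 16

theorem quad_nonneg {A B C U : ℝ} (hA : 0 < A) (h : B ^ 2 ≤ 4 * A * C) :
    0 ≤ A * U ^ 2 + B * U + C := by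
  have h1 : 0 ≤ 4 * A * (A * U ^ 2 + B * U + C) := by
    nlinarith [sq_nonneg (2 * A * U + B)]
  exact nonneg_of_mul_nonneg_right h1 (by linarith)

/-- the discriminant, as a function of `D` -/
noncomputable def disc (p q D : ℝ) : ℝ :=
  4 * (3 * (p + q - 1) / 4) * ((p + q - 1) / 4 * ((p * q) ^ 2 + D ^ 2)
      + ((p + q) - (p ^ 2 + q ^ 2)) / 4 * (p * q - D)
      - 3 * (p * (p + 1) ^ 2 + q * (q + 1) ^ 2) / 16 - p * q * D * (1 - D) / 2 - p ^ 2)
    - ((p + q - 1) / 4 * (2 * (p * q) - 2 * D) + 3 * ((p + q) - (p ^ 2 + q ^ 2)) / 4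
      - p * q * D) ^ 2

theorem disc_zero {p q : ℝ} (hp : 3 ≤ p) (hq : 5 ≤ q) : 0 ≤ disc p q 0 := by
  obtain ⟨x, rfl⟩ : ∃ x, p = x + 3 := ⟨p - 3, by ring⟩
  obtain ⟨y, rfl⟩ : ∃ y, q = y + 5 := ⟨q - 5, by ring⟩
  have hx : 0 ≤ x := by linarith
  have hy : 0 ≤ y := by linarith
  unfold disc
  ring_nf
  positivity

theorem disc_end {p q : ℝ} (hp : 3 ≤ p) (hq : 5 ≤ q) : 0 ≤ disc p q (p + q + 1) := by
  obtain ⟨x, rfl⟩ : ∃ x, p = x + 3 := ⟨p - 3, by ring⟩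
  obtain ⟨y, rfl⟩ : ∃ y, q = y + 5 := ⟨q - 5, by ring⟩
  have hx : 0 ≤ x := by linarith
  have hy : 0 ≤ y := by linarith
  unfold disc
  ring_nf
  positivity

theorem disc_nonneg {p q D : ℝ} (hp : 3 ≤ p) (hq : 5 ≤ q) (h0 : 0 ≤ D) (h1 : D ≤ p + q + 1) :
    0 ≤ disc p q D := by
  have h2 : (p + q + 1) * disc p q D = (p + q + 1 - D) * disc p q 0
      + D * disc p q (p + q + 1)
      + ((2 * (p * q) + (p + q - 1)) * (p * q - (p + q - 1)) / 2) * D * (p + q + 1 - D)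
        * (p + q + 1) := by
    unfold disc
    ring
  have h3 : 0 ≤ p * q - (p + q - 1) := by nlinarith
  have h4 : 0 ≤ (p + q + 1) * disc p q D := by
    rw [h2]
    have h5 := disc_zero hp hq
    have h6 := disc_end hp hq
    have h7 : 0 ≤ p + q + 1 - D := by linarith
    have h8 : 0 ≤ 2 * (p * q) + (p + q - 1) := by nlinarith
    have h9 : 0 ≤ p + q + 1 := by linarith
    positivity
  exact nonneg_of_mul_nonneg_right h4 (by linarith)

theorem win_up {p q D U : ℝ} (hp : 3 ≤ p) (hq : 5 ≤ q) (h0 : 0 ≤ D) (h1 : D ≤ p + q + 1) :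
    p ^ 2 ≤ LL p q (p * q + U) + LL p q U + LL p q (U - D) - p * q * D * U
      + p * q * D * (D - 1) / 2 := by
  have h2 := disc_nonneg hp hq h0 h1
  have h3 := quad_nonneg (A := 3 * (p + q - 1) / 4)
    (B := (p + q - 1) / 4 * (2 * (p * q) - 2 * D) + 3 * ((p + q) - (p ^ 2 + q ^ 2)) / 4
      - p * q * D)
    (C := (p + q - 1) / 4 * ((p * q) ^ 2 + D ^ 2)
      + ((p + q) - (p ^ 2 + q ^ 2)) / 4 * (p * q - D)
      - 3 * (p * (p + 1) ^ 2 + q * (q + 1) ^ 2) / 16 - p * q * D * (1 - D) / 2 - p ^ 2)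
    (U := U) (by linarith) (by unfold disc at h2; linarith)
  unfold LL
  linarith

end Pool.Agent.CycCrit
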