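import Pool.Agent.CycCrit.WinReal

set_option autoImplicit false

/-!
# MP_1d6ef7_nt: the real inequalities for the window `|r - p q| <= p + q + 1`, second part
-/

namespace Pool.Agent.CycCrit

theorem mul_ge {p q : ℝ} (hp : 3 ≤ p) (hq : 5 ≤ q) : p + q ≤ p * q := by nlinarith

/-- `p q <= m < r = p q + D`, `U = m - p q + 1` -/
theorem win_gap {p q U : ℝ} (hp : 3 ≤ p) (hq : 5 ≤ q) (h0 : 0 ≤ U) (h1 : U ≤ p + q + 1) :
    p ^ 2 ≤ LL p q (p * q + U) - p * q * (U * (U + 1) / 2) := by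
  have hz : 0 ≤ LL p q (p * q) - p ^ 2 := by
    obtain ⟨x, rfl⟩ : ∃ x, p = x + 3 := ⟨p - 3, by ring⟩
    obtain ⟨y, rfl⟩ : ∃ y, q = y + 5 := ⟨q - 5, by ring⟩
    have hx : 0 ≤ x := by linarith
    have hy : 0 ≤ y := by linarith
    unfold LL
    ring_nf
    positivity
  have he : 0 ≤ LL p q (p * q + (p + q + 1)) - p * q * ((p + q + 1) * (p + q + 1 + 1) / 2)
      - p ^ 2 := by
    obtain ⟨x, rfl⟩ : ∃ x, p = x + 3 := ⟨p - 3, by ring⟩
    obtain ⟨y, rfl⟩ : ∃ y, q = y + 5 := ⟨q - 5, by ring⟩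
    have hx : 0 ≤ x := by linarith
    have hy : 0 ≤ y := by linarith
    unfold LL
    ring_nf
    positivity
  have hm := mul_ge hp hq
  have h2 : (p + q + 1) * (LL p q (p * q + U) - p * q * (U * (U + 1) / 2) - p ^ 2) =
      (p + q + 1 - U) * (LL p q (p * q) - p ^ 2)
      + U * (LL p q (p * q + (p + q + 1)) - p * q * ((p + q + 1) * (p + q + 1 + 1) / 2) - p ^ 2)
      + ((2 * (p * q) - (p + q - 1)) / 4) * U * (p + q + 1 - U) * (p + q + 1) := by
    unfold LL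
    ring
  have h3 : 0 ≤ (p + q + 1) * (LL p q (p * q + U) - p * q * (U * (U + 1) / 2) - p ^ 2) := by
    rw [h2]
    have h4 : 0 ≤ p + q + 1 - U := by linarith
    have h5 : 0 ≤ 2 * (p * q) - (p + q - 1) := by linarith
    have h6 : 0 ≤ p + q + 1 := by linarith
    positivity
  have h7 := nonneg_of_mul_nonneg_right h3 (by linarith)
  linarith

/-- monotonicity of the lower bound -/
theorem LL_low {p q z : ℝ} (hp : 3 ≤ p) (hq : 5 ≤ q) (h0 : 0 ≤ z) :
    p ^ 2 ≤ LL p q (p * q - (p + q) + z) := by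
  obtain ⟨x, rfl⟩ : ∃ x, p = x + 3 := ⟨p - 3, by ring⟩
  obtain ⟨y, rfl⟩ : ∃ y, q = y + 5 := ⟨q - 5, by ring⟩
  have hx : 0 ≤ x := by linarith
  have hy : 0 ≤ y := by linarith
  have h : 0 ≤ LL (x + 3) (y + 5) ((x + 3) * (y + 5) - (x + 3 + (y + 5)) + z) - (x + 3) ^ 2 := by
    unfold LL
    ring_nf
    positivity
  linarith

/-- `r = p q - D`, `p q <= m < p q + r`, `V = m - r + 1 = D + z` -/
theorem win_down {p q D V : ℝ} (hp : 3 ≤ p) (hq : 5 ≤ q) (h0 : 0 ≤ D) (h1 : D ≤ p + q)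
    (hV : D ≤ V) :
    p ^ 2 ≤ LL p q (V + p * q - D) + LL p q V + LL p q (V - D) + p * q * D * V
      - p * q * D * (D - 1) / 2 - D * V * (V + 1) / 2 := by
  obtain ⟨z, rfl⟩ : ∃ z, V = D + z := ⟨V - D, by ring⟩
  have hz : 0 ≤ z := by linarith
  have hm := mul_ge hp hq
  have e1 : 0 ≤ LL p q (p * q) - ((p ^ 2 + q ^ 2) - (p + q)) * (p + q) / 4
      - 2 * (p * (p + 1) ^ 2 + q * (q + 1) ^ 2) / 16 - p ^ 2 := by
    obtain ⟨x, rfl⟩ : ∃ x, p = x + 3 := ⟨p - 3, by ring⟩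
    obtain ⟨y, rfl⟩ : ∃ y, q = y + 5 := ⟨q - 5, by ring⟩
    have hx : 0 ≤ x := by linarith
    have hy : 0 ≤ y := by linarith
    unfold LL
    ring_nf
    positivity
  have e2 : 0 ≤ (p + q - 1) * (p * q) / 2 - 3 * ((p ^ 2 + q ^ 2) - (p + q)) / 4 := by
    obtain ⟨x, rfl⟩ : ∃ x, p = x + 3 := ⟨p - 3, by ring⟩
    obtain ⟨y, rfl⟩ : ∃ y, q = y + 5 := ⟨q - 5, by ring⟩
    have hx : 0 ≤ x := by linarith
    have hy : 0 ≤ y := by linarith
    ring_nf
    positivity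
  have e3 : 0 ≤ (p ^ 2 + q ^ 2) - (p + q) := by nlinarith
  have hA : 0 ≤ 3 * (p + q - 1) / 4 - D / 2 := by linarith
  have id : LL p q (D + z + p * q - D) + LL p q (D + z) + LL p q (D + z - D)
      + p * q * D * (D + z) - p * q * D * (D - 1) / 2 - D * (D + z) * (D + z + 1) / 2 - p ^ 2 =
      (3 * (p + q - 1) / 4 - D / 2) * z ^ 2
      + (2 * (3 * (p + q - 1) / 4 - D / 2) * D
          + ((p + q - 1) * (p * q) / 2 - 3 * ((p ^ 2 + q ^ 2) - (p + q)) / 4)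
          + (p * q - (p + q) + 1 / 2) * D) * z
      + ((LL p q (p * q) - ((p ^ 2 + q ^ 2) - (p + q)) * (p + q) / 4
          - 2 * (p * (p + 1) ^ 2 + q * (q + 1) ^ 2) / 16 - p ^ 2)
        + ((p ^ 2 + q ^ 2) - (p + q)) * (p + q - D) / 4
        + (p + q - 1) * D ^ 2 / 4
        + (p * q - D) * D * (D + 1) / 2) := by
    unfold LL
    ring
  have h2 : 0 ≤ LL p q (D + z + p * q - D) + LL p q (D + z) + LL p q (D + z - D)
      + p * q * D * (D + z) - p * q * D * (D - 1) / 2 - D * (D + z) * (D + z + 1) / 2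
      - p ^ 2 := by
    rw [id]
    have h3 : 0 ≤ p * q - (p + q) + 1 / 2 := by linarith
    have h4 : 0 ≤ p + q - D := by linarith
    have h5 : 0 ≤ p * q - D := by linarith
    have h6 : 0 ≤ p + q - 1 := by linarith
    positivity
  linarith

/-- the concave function of `D` -/
noncomputable def PhiD (p q D : ℝ) : ℝ :=
  p * q * (q * (p * q) + D * (p * q - (p + q)) - ((p ^ 2 + q ^ 2) - (p + q)))
    + (p + q - 1) / 2 * ((p * q) ^ 2 - p * q * D + D ^ 2)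
    + ((p ^ 2 + q ^ 2) - (p + q)) * D / 2
    - (p * (p + 1) ^ 2 + q * (q + 1) ^ 2) / 4 - p * q * D ^ 2 / 2 + p * q * D
    - D * (p * q) ^ 2 / 2

theorem PhiD_zero {p q : ℝ} (hp : 3 ≤ p) (hq : 5 ≤ q) : 0 ≤ PhiD p q 0 := by
  obtain ⟨x, rfl⟩ : ∃ x, p = x + 3 := ⟨p - 3, by ring⟩
  obtain ⟨y, rfl⟩ : ∃ y, q = y + 5 := ⟨q - 5, by ring⟩
  have hx : 0 ≤ x := by linarith
  have hy : 0 ≤ y := by linarith
  unfold PhiD
  ring_nf
  positivity

theorem PhiD_end {p q : ℝ} (hp : 3 ≤ p) (hq : 5 ≤ q) : 0 ≤ PhiD p q (p + q) := by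
  obtain ⟨x, rfl⟩ : ∃ x, p = x + 3 := ⟨p - 3, by ring⟩
  obtain ⟨y, rfl⟩ : ∃ y, q = y + 5 := ⟨q - 5, by ring⟩
  have hx : 0 ≤ x := by linarith
  have hy : 0 ≤ y := by linarith
  unfold PhiD
  ring_nf
  positivity

theorem PhiD_nonneg {p q D : ℝ} (hp : 3 ≤ p) (hq : 5 ≤ q) (h0 : 0 ≤ D) (h1 : D ≤ p + q) :
    0 ≤ PhiD p q D := by
  have hm := mul_ge hp hq
  have h2 : (p + q) * PhiD p q D = (p + q - D) * PhiD p q 0 + D * PhiD p q (p + q)
      + ((p * q - (p + q - 1)) / 2) * D * (p + q - D) * (p + q) := by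
    unfold PhiD
    ring
  have h3 : 0 ≤ (p + q) * PhiD p q D := by
    rw [h2]
    have h4 := PhiD_zero hp hq
    have h5 := PhiD_end hp hq
    have h6 : 0 ≤ p + q - D := by linarith
    have h7 : 0 ≤ p * q - (p + q - 1) := by linarith
    have h8 : 0 ≤ p + q := by linarith
    positivity
  exact nonneg_of_mul_nonneg_right h3 (by linarith)

/-- `r = p q - D`, `p q + r <= m < p r`, `V = m - r + 1` -/
theorem win_far {p q D V : ℝ} (hp : 3 ≤ p) (hq : 5 ≤ q) (hpq : p ≤ q) (h0 : 0 ≤ D)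
    (h1 : D ≤ p + q) (hV : p * q ≤ V) (hV2 : V ≤ p * (p * q)) :
    0 ≤ LL p q (V + p * q - D) + LL p q V + LL p q (V - D) + LL p q (V - p * q)
      + p * q * D * V - p * q * D * (D - 1) / 2 - D * V * (V + 1) / 2
      - D * (V - p * q) * (V - p * q + 1) / 2 := by
  have hm := mul_ge hp hq
  have h2 := PhiD_nonneg hp hq h0 h1
  have e3 : 0 ≤ q * (p * q) - ((p ^ 2 + q ^ 2) - (p + q)) := by
    have f1 : 0 ≤ (p - 3) * q ^ 2 := mul_nonneg (by linarith) (sq_nonneg q)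
    have f2 : 0 ≤ (q - p) * (q + p) := mul_nonneg (by linarith) (by linarith)
    nlinarith [sq_nonneg q]
  have id : LL p q (V + p * q - D) + LL p q V + LL p q (V - D) + LL p q (V - p * q)
      + p * q * D * V - p * q * D * (D - 1) / 2 - D * V * (V + 1) / 2
      - D * (V - p * q) * (V - p * q + 1) / 2 =
      (p + q - D) * (V * (V - p * q)) + V * (p * (p * q) - V)
      + (V - p * q) * ((q * (p * q) - ((p ^ 2 + q ^ 2) - (p + q))) + D * (p * q - (p + q)))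
      + PhiD p q D := by
    unfold LL PhiD
    ring
  rw [id]
  have h3 : 0 ≤ p + q - D := by linarith
  have h4 : 0 ≤ V - p * q := by linarith
  have h5 : 0 ≤ p * (p * q) - V := by linarith
  have h6 : 0 ≤ p * q - (p + q) := by linarith
  have h7 : 0 ≤ V := by
    have : 0 ≤ p * q := by positivity
    linarith
  positivity

end Pool.Agent.CycCrit
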