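import Mathlib

/-!
MP_1d6ef7_nt: the window `p q - p - q ≤ r ≤ p q + p + q + 1`, elementary inequalities.
-/

set_option autoImplicit false

namespace Pool.Agent.CycCrit

/-- The lower bound of the double sum. -/
noncomputable def Lw (p q x : ℝ) : ℝ :=
  (p + q - 1) * x * (x + 1) / 4 - (p ^ 2 + q ^ 2) * x / 4 - (p ^ 3 + q ^ 3) / 8

namespace WinTan

/-- Slope. -/
noncomputable def sl (p q D : ℝ) : ℝ :=
  2 * (3 * (p + q - 1) / 4 + D / 2) * (3 * (p * q) / 10) +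
    ((p + q - 1) * (2 * (p * q + D) + 2 * D + 3) / 4 - 3 * (p ^ 2 + q ^ 2) / 4 + D / 2 -
      p * q * D)

/-- Constant. -/
noncomputable def cn (p q D : ℝ) : ℝ :=
  (p + q - 1) * ((p * q + D) * (p * q + D + 1) + D * (D + 1)) / 4 -
    (p ^ 2 + q ^ 2) * (p * q + D + D) / 4 - 3 * ((p ^ 3 + q ^ 3) / 8) -
    p * q * D * (D + 1) / 2 -
    (3 * (p + q - 1) / 4 + D / 2) * (3 * (p * q) / 10) ^ 2

theorem sl_zero (a b : ℝ) (ha : 0 ≤ a) (hb : 0 ≤ b) : 0 ≤ sl (a + 5) (a + 7 + b) 0 := by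
  unfold sl
  ring_nf
  positivity

theorem sl_top (a b : ℝ) (ha : 0 ≤ a) (hb : 0 ≤ b) :
    0 ≤ sl (a + 5) (a + 7 + b) (a + 5 + (a + 7 + b) + 1) := by
  unfold sl
  ring_nf
  positivity

theorem cn_zero (a b : ℝ) (ha : 0 ≤ a) (hb : 0 ≤ b) : 0 ≤ cn (a + 5) (a + 7 + b) 0 := by
  unfold cn
  ring_nf
  positivity

theorem cn_top (a b : ℝ) (ha : 0 ≤ a) (hb : 0 ≤ b) :
    0 ≤ cn (a + 5) (a + 7 + b) (a + 5 + (a + 7 + b) + 1) := by
  unfold cn
  ring_nf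
  positivity

theorem sl_nonneg (p q D : ℝ) (hp : 5 ≤ p) (hq : p + 2 ≤ q) (h0 : 0 ≤ D)
    (h1 : D ≤ p + q + 1) : 0 ≤ sl p q D := by
  obtain ⟨a, rfl⟩ : ∃ a, p = a + 5 := ⟨p - 5, by ring⟩
  obtain ⟨b, rfl⟩ : ∃ b, q = a + 7 + b := ⟨q - (a + 7), by ring⟩
  have ha : 0 ≤ a := by linarith
  have hb : 0 ≤ b := by linarith
  have e : (a + 5 + (a + 7 + b) + 1) * sl (a + 5) (a + 7 + b) D =
      (a + 5 + (a + 7 + b) + 1 - D) * sl (a + 5) (a + 7 + b) 0 +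
        D * sl (a + 5) (a + 7 + b) (a + 5 + (a + 7 + b) + 1) := by
    unfold sl
    ring
  have h2 := mul_nonneg (sub_nonneg.2 h1) (sl_zero a b ha hb)
  have h3 := mul_nonneg h0 (sl_top a b ha hb)
  have h4 : 0 < a + 5 + (a + 7 + b) + 1 := by linarith
  by_contra h5
  push Not at h5
  have h6 := mul_neg_of_pos_of_neg h4 h5
  linarith

theorem cn_nonneg (p q D : ℝ) (hp : 5 ≤ p) (hq : p + 2 ≤ q) (h0 : 0 ≤ D)
    (h1 : D ≤ p + q + 1) : 0 ≤ cn p q D := by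
  obtain ⟨a, rfl⟩ : ∃ a, p = a + 5 := ⟨p - 5, by ring⟩
  obtain ⟨b, rfl⟩ : ∃ b, q = a + 7 + b := ⟨q - (a + 7), by ring⟩
  have ha : 0 ≤ a := by linarith
  have hb : 0 ≤ b := by linarith
  have e : (a + 5 + (a + 7 + b) + 1) * cn (a + 5) (a + 7 + b) D =
      (a + 5 + (a + 7 + b) + 1 - D) * cn (a + 5) (a + 7 + b) 0 +
        D * cn (a + 5) (a + 7 + b) (a + 5 + (a + 7 + b) + 1) +
        ((a + 5) * (a + 7 + b) - (a + 5 + (a + 7 + b) - 1)) / 2 *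
          (D * (a + 5 + (a + 7 + b) + 1 - D)) * (a + 5 + (a + 7 + b) + 1) := by
    unfold cn
    ring
  have h2 := mul_nonneg (sub_nonneg.2 h1) (cn_zero a b ha hb)
  have h3 := mul_nonneg h0 (cn_top a b ha hb)
  have h4 : 0 < a + 5 + (a + 7 + b) + 1 := by linarith
  have h7 : 0 ≤ ((a + 5) * (a + 7 + b) - (a + 5 + (a + 7 + b) - 1)) / 2 := by
    have : 0 ≤ a * a + a * b + 10 * a + 4 * b + 24 := by positivity
    nlinarith
  have h8 := mul_nonneg (mul_nonneg h7 (mul_nonneg h0 (sub_nonneg.2 h1))) h4.le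
  by_contra h5
  push Not at h5
  have h6 := mul_neg_of_pos_of_neg h4 h5
  linarith

end WinTan

open WinTan in
/-- The case `r = p q + D`, `m + 1 = r + y`. -/
theorem win_plus (p q D y : ℝ) (hp : 5 ≤ p) (hq : p + 2 ≤ q) (h0 : 0 ≤ D)
    (h1 : D ≤ p + q + 1) (hy : 0 ≤ y) :
    0 ≤ Lw p q (p * q + D + y) + Lw p q (y + D) + Lw p q y + D * (y * (y + 1) / 2) -
      p * q * D * y - p * q * D * (D + 1) / 2 := by
  have e : Lw p q (p * q + D + y) + Lw p q (y + D) + Lw p q y + D * (y * (y + 1) / 2) -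
      p * q * D * y - p * q * D * (D + 1) / 2 =
      (3 * (p + q - 1) / 4 + D / 2) * (y - 3 * (p * q) / 10) ^ 2 + sl p q D * y +
        cn p q D := by
    unfold Lw sl cn
    ring
  rw [e]
  have h2 : 0 ≤ 3 * (p + q - 1) / 4 + D / 2 := by linarith
  have h3 := mul_nonneg h2 (sq_nonneg (y - 3 * (p * q) / 10))
  have h4 := mul_nonneg (sl_nonneg p q D hp hq h0 h1) hy
  have h5 := cn_nonneg p q D hp hq h0 h1
  linarith

end Pool.Agent.CycCrit
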