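import Mathlib

/-!
MP_1d6ef7_nt, k = 3: the window inequality for `r < p q`.
-/

set_option autoImplicit false

namespace Pool.Agent.CycCrit

namespace WB_

/-- Triangular numbers. -/
noncomputable def T (k : ℕ) : ℝ := ((k : ℝ) + 1) * (k + 2) / 2

/-- The lower bound for `4 Lam`. -/
noncomputable def A (p q x : ℝ) : ℝ :=
  q * (x - q + 1) * (x - q + 2) + p * (x - p + 1) * (x - p + 2) - (x + 1) * (x + 2)

lemma c1_nonneg {p q : ℝ} (hp : 3 ≤ p) (hq : p + 2 ≤ q) :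
    0 ≤ p ^ 2 * q + 2 * p * q ^ 2 - (3 * p ^ 2 + 3 * q ^ 2 + 2 * p * q - p - q + 3) := by
  nlinarith [mul_nonneg (sub_nonneg.2 hp) (sub_nonneg.2 hq), mul_nonneg (sub_nonneg.2 hp)
    (sq_nonneg q), mul_nonneg (sub_nonneg.2 hp) (sub_nonneg.2 hp), sq_nonneg (q - p)]

lemma c0_nonneg {p q : ℝ} (hp : 3 ≤ p) (hq : p + 2 ≤ q) :
    2 * (p + q) ≤ q * (q - 1) * (q - 2) + p * (p - 1) * (p - 2) - 2 := by
  obtain ⟨a, rfl⟩ : ∃ a, p = 3 + a := ⟨p - 3, by ring⟩
  obtain ⟨b, rfl⟩ : ∃ b, q = 5 + a + b := ⟨q - 5 - a, by ring⟩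
  have ha : 0 ≤ a := by linarith
  have hb : 0 ≤ b := by linarith
  have : 0 ≤ (5 + a + b) * (5 + a + b - 1) * (5 + a + b - 2) +
    (3 + a) * (3 + a - 1) * (3 + a - 2) - 2 - 2 * (3 + a + (5 + a + b)) := by
    ring_nf
    positivity
  linarith

lemma f0_nonneg {p q : ℝ} (hp : 3 ≤ p) (hq : p + 2 ≤ q) :
    0 ≤ 6 * (p * q) * (p + q - 1) - 4 * (2 * (p ^ 2 + q ^ 2) - 3 * (p + q) + 3) := by
  obtain ⟨a, rfl⟩ : ∃ a, p = 3 + a := ⟨p - 3, by ring⟩
  obtain ⟨b, rfl⟩ : ∃ b, q = 5 + a + b := ⟨q - 5 - a, by ring⟩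
  have ha : 0 ≤ a := by linarith
  have hb : 0 ≤ b := by linarith
  ring_nf
  positivity

lemma f1_nonneg {p q : ℝ} (hp : 3 ≤ p) (hq : p + 2 ≤ q) :
    0 ≤ (p + q - 1) * (6 * (p * q) - 6 * (p + q)) + 2 * (p + q) * (p * q) - 2 * (p + q) ^ 2 -
      4 * (2 * (p ^ 2 + q ^ 2) - 3 * (p + q) + 3) := by
  obtain ⟨a, rfl⟩ : ∃ a, p = 3 + a := ⟨p - 3, by ring⟩
  obtain ⟨b, rfl⟩ : ∃ b, q = 5 + a + b := ⟨q - 5 - a, by ring⟩
  have ha : 0 ≤ a := by linarith
  have hb : 0 ≤ b := by linarith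
  ring_nf
  positivity

/-- The fourth case, `w` large. -/
lemma big {p q D w n : ℝ} (hp : 3 ≤ p) (hq : p + 2 ≤ q) (hn : n = p * q) (hD : 2 ≤ D)
    (hD' : D ≤ p + q) (hw : 0 ≤ w) (hw' : w ≤ (p - 2) * n) :
    0 ≤ A p q (w + 2 * n - D) + A p q (w + n) + A p q (w + n - D) + A p q w +
      4 * (D * (n ^ 2 / 2 - n * D / 2 - (w + 1) * (w + 2))) := by
  set s := p + q with hs
  set K := 2 * (p ^ 2 + q ^ 2) - 3 * s + 3 with hK
  set c := q * (q - 1) * (q - 2) + p * (p - 1) * (p - 2) - 2 with hc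
  have e : A p q (w + 2 * n - D) + A p q (w + n) + A p q (w + n - D) + A p q w +
      4 * (D * (n ^ 2 / 2 - n * D / 2 - (w + 1) * (w + 2))) =
      (4 * (s - D)) * w ^ 2 + ((s - 1) * 2 * (4 * n - 2 * D) - 4 * K - 12 * D - 4 * w) * w +
      ((s - 1) * (6 * n ^ 2 - 6 * n * D + 2 * D ^ 2) - K * (4 * n - 2 * D) + 4 * c +
        2 * D * n ^ 2 - 2 * n * D ^ 2 - 8 * D) := by
    rw [hK, hc, hs]
    unfold A
    ring
  rw [e]
  have h1 : 0 ≤ (4 * (s - D)) * w ^ 2 := by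
    have : 0 ≤ s - D := by linarith
    positivity
  have h2 : 0 ≤ ((s - 1) * 2 * (4 * n - 2 * D) - 4 * K - 12 * D - 4 * w) * w := by
    refine mul_nonneg ?_ hw
    have := c1_nonneg hp hq
    rw [hK, hs]
    have h3 : (p + q - 1) * D ≤ (p + q - 1) * (p + q) :=
      mul_le_mul_of_nonneg_left hD' (by linarith)
    rw [hn] at hw' ⊢
    nlinarith
  have h4 : 0 ≤ (s - 1) * (6 * n ^ 2 - 6 * n * D + 2 * D ^ 2) - K * (4 * n - 2 * D) + 4 * c +
        2 * D * n ^ 2 - 2 * n * D ^ 2 - 8 * D := by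
    have hs0 : 0 < s := by rw [hs]; linarith
    have hn0 : 0 ≤ n := by
      rw [hn]
      exact mul_nonneg (by linarith) (by linarith)
    have hc0 : 2 * s ≤ c := by rw [hc, hs]; exact c0_nonneg hp hq
    have hf0 : 0 ≤ (s - 1) * (6 * n ^ 2) - K * (4 * n) + 4 * c := by
      have h5 : 0 ≤ 6 * n * (s - 1) - 4 * K := by
        have := f0_nonneg hp hq
        rw [hK, hn, hs]
        linarith
      nlinarith [mul_nonneg hn0 h5]
    have hfs : 0 ≤ (s - 1) * (6 * n ^ 2 - 6 * n * s + 2 * s ^ 2) - K * (4 * n - 2 * s) + 4 * c +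
        2 * s * n ^ 2 - 2 * n * s ^ 2 - 8 * s := by
      have h5 : 0 ≤ (s - 1) * (6 * n - 6 * s) + 2 * s * n - 2 * s ^ 2 - 4 * K := by
        have := f1_nonneg hp hq
        rw [hK, hn, hs]
        linarith
      have h6 : 0 ≤ K := by
        rw [hK, hs]
        nlinarith [sq_nonneg (p - 1), sq_nonneg (q - 1), sq_nonneg p, sq_nonneg q]
      have h7 : 0 ≤ (s - 1) * (2 * s ^ 2) := by
        have : 0 ≤ s - 1 := by rw [hs]; linarith
        positivity
      have h8 : 0 ≤ K * (2 * s) := by positivity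
      nlinarith [mul_nonneg hn0 h5]
    have h9 : 0 ≤ (n - (s - 1)) * (s * (D * (s - D))) := by
      have h10 : 0 ≤ n - (s - 1) := by
        rw [hn, hs]
        nlinarith [mul_nonneg (sub_nonneg.2 hp) (by linarith : (0 : ℝ) ≤ q)]
      have h11 : 0 ≤ s - D := by linarith
      have h12 : 0 ≤ D := by linarith
      positivity
    have h13 : 0 ≤ (s - D) * ((s - 1) * (6 * n ^ 2) - K * (4 * n) + 4 * c) :=
      mul_nonneg (by linarith) hf0
    have h14 := mul_nonneg (by linarith : 0 ≤ D) hfs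
    have h15 : 0 ≤ s * ((s - 1) * (6 * n ^ 2 - 6 * n * D + 2 * D ^ 2) - K * (4 * n - 2 * D) +
        4 * c + 2 * D * n ^ 2 - 2 * n * D ^ 2 - 8 * D) := by
      have : s * ((s - 1) * (6 * n ^ 2 - 6 * n * D + 2 * D ^ 2) - K * (4 * n - 2 * D) +
        4 * c + 2 * D * n ^ 2 - 2 * n * D ^ 2 - 8 * D) =
        (s - D) * ((s - 1) * (6 * n ^ 2) - K * (4 * n) + 4 * c) +
        D * ((s - 1) * (6 * n ^ 2 - 6 * n * s + 2 * s ^ 2) - K * (4 * n - 2 * s) + 4 * c +
        2 * s * n ^ 2 - 2 * n * s ^ 2 - 8 * s) +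
        2 * ((n - (s - 1)) * (s * (D * (s - D)))) := by ring
      rw [this]
      linarith
    exact nonneg_of_mul_nonneg_right h15 hs0
  linarith

lemma r_low {p q D : ℝ} (hp : 3 ≤ p) (hq : p + 2 ≤ q) (hD' : D ≤ p + q) :
    2 * q - 3 ≤ p * q - D ∧ p ^ 2 - 2 ≤ p * q - D := by
  constructor
  · nlinarith [mul_nonneg (sub_nonneg.2 hp) (by linarith : (0 : ℝ) ≤ q - 1)]
  · nlinarith [mul_nonneg (by linarith : (0 : ℝ) ≤ p - 1) (sub_nonneg.2 hq)]

/-- The fourth case, `w` small. -/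
lemma small {p q D w n : ℝ} (hp : 3 ≤ p) (hq : p + 2 ≤ q) (hn : n = p * q) (hD : 2 ≤ D)
    (hD' : D ≤ p + q) (hw : 0 ≤ w) (hw' : w ≤ q) :
    (w + 1) * (w + 2) / 4 ≤ D * (n ^ 2 / 2 - n * D / 2 - (w + 1) * (w + 2)) := by
  obtain ⟨h1, -⟩ := r_low hp hq hD'
  have h2 : (w + 1) * (w + 2) ≤ (q + 1) * (q + 2) :=
    mul_le_mul (by linarith) (by linarith) (by linarith) (by linarith)
  have h3 : 3 * q * (2 * q - 3) ≤ n * (n - D) := by
    rw [hn]
    refine mul_le_mul ?_ h1 (by linarith) (mul_nonneg (by linarith) (by linarith))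
    exact mul_le_mul_of_nonneg_right hp (by linarith)
  have h4 : 9 / 4 * ((q + 1) * (q + 2)) ≤ 3 * q * (2 * q - 3) := by
    nlinarith [mul_nonneg (by linarith : (0 : ℝ) ≤ q - 5) (by linarith : (0 : ℝ) ≤ q)]
  have h5 : (w + 1) * (w + 2) / 8 ≤ n ^ 2 / 2 - n * D / 2 - (w + 1) * (w + 2) := by
    nlinarith
  have h6 : 0 ≤ (w + 1) * (w + 2) / 8 := by positivity
  have h7 := mul_le_mul hD h5 h6 (by linarith)
  linarith

/-- The third case. -/
lemma third {p q D v n : ℝ} (hp : 3 ≤ p) (hq : p + 2 ≤ q) (hn : n = p * q) (hD : 2 ≤ D)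
    (hD' : D ≤ p + q) (hv : D ≤ v) (hv' : v ≤ n - 1) :
    (p + 1) * (p + 2) / 2 ≤ D * (n * (v + (3 - D) / 2) - (v + 1) * (v + 2) / 2) := by
  obtain ⟨-, h1⟩ := r_low hp hq hD'
  have h2 : ((n - D - 2) * (v + 1) + 2 * n) / 2 ≤
      n * (v + (3 - D) / 2) - (v + 1) * (v + 2) / 2 := by
    have : 0 ≤ (v - D) * (n - 1 - v) := mul_nonneg (by linarith) (by linarith)
    nlinarith
  have h3 : p ^ 2 + 2 * p ≤ n := by
    rw [hn]
    nlinarith
  have h4 : (p ^ 2 - 4) * 3 ≤ (n - D - 2) * (v + 1) := by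
    rw [hn]
    exact mul_le_mul (by linarith) (by linarith) (by norm_num) (by nlinarith)
  have h5 : (p + 1) * (p + 2) / 4 ≤ n * (v + (3 - D) / 2) - (v + 1) * (v + 2) / 2 := by
    nlinarith
  have h6 : 0 ≤ (p + 1) * (p + 2) / 4 := by
    have : 0 ≤ p := by linarith
    positivity
  have h7 := mul_le_mul hD h5 h6 (by linarith)
  linarith

end WB_

open WB_ in
/-- The window inequality for `r < p q`. -/
theorem window_lt {p q r D : ℕ} (L : ℕ → ℝ) (hp : 3 ≤ p) (hq : p + 2 ≤ q) (hr : r + D = p * q)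
    (hD : 2 ≤ D) (hD' : D ≤ p + q) (h0 : ∀ m : ℕ, p + 1 ≤ m → 0 ≤ L m)
    (h1 : ∀ m : ℕ, -(((m : ℝ) + 1) * (m + 2) / 4) ≤ L m)
    (h2 : ∀ m : ℕ, q ≤ m → A p q m / 4 ≤ L m) {m : ℕ} (hm : p + 1 ≤ m) (hm' : m < p * r) :
    0 ≤ L m + (if r ≤ m then L (m - r) + r * T (m - r) else 0) +
      (if p * q ≤ m then L (m - p * q) - p * q * T (m - p * q) else 0) +
      (if p * q + r ≤ m then L (m - p * q - r) + ((r : ℝ) - p * q) * T (m - p * q - r)
        else 0) := by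
  have hp' : (3 : ℝ) ≤ p := by exact_mod_cast hp
  have hq' : (p : ℝ) + 2 ≤ q := by exact_mod_cast hq
  have hDr : (2 : ℝ) ≤ D := by exact_mod_cast hD
  have hDr' : (D : ℝ) ≤ p + q := by exact_mod_cast hD'
  have hrr : (r : ℝ) = (p : ℝ) * q - D := by
    have : ((r + D : ℕ) : ℝ) = ((p * q : ℕ) : ℝ) := by rw [hr]
    push_cast at this
    linarith
  obtain ⟨hr1, hr2⟩ := r_low hp' hq' hDr'
  have hr0 : (1 : ℝ) ≤ r := by rw [hrr]; linarith
  have hLp : ∀ j : ℕ, -(((p : ℝ) + 1) * (p + 2) / 4) ≤ L j := by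
    intro j
    rcases Nat.lt_or_ge p j with h | h
    · have := h0 j h
      have : 0 ≤ ((p : ℝ) + 1) * (p + 2) / 4 := by positivity
      linarith
    · have h3 : (j : ℝ) ≤ p := by exact_mod_cast h
      have h4 : ((j : ℝ) + 1) * (j + 2) ≤ ((p : ℝ) + 1) * (p + 2) :=
        mul_le_mul (by linarith) (by linarith) (by positivity) (by positivity)
      have := h1 j
      linarith
  have hLm := h0 m hm
  rcases Nat.lt_or_ge m r with ha | ha
  · rw [if_neg (by omega), if_neg (by omega), if_neg (by omega)]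
    linarith
  obtain ⟨v, rfl⟩ := Nat.exists_eq_add_of_le ha
  rw [if_pos ha, Nat.add_sub_cancel_left]
  rcases Nat.lt_or_ge (r + v) (p * q) with hb | hb
  · rw [if_neg (by omega), if_neg (by omega)]
    have h3 := h1 v
    have h4 : 0 ≤ ((v : ℝ) + 1) * (v + 2) := by positivity
    have h5 : 1 * (((v : ℝ) + 1) * (v + 2)) ≤ r * (((v : ℝ) + 1) * (v + 2)) :=
      mul_le_mul_of_nonneg_right hr0 h4
    unfold T
    linarith
  rw [if_pos hb]
  obtain ⟨u, rfl⟩ : ∃ u, v = D + u := Nat.exists_eq_add_of_le (by omega)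
  have hu : r + (D + u) - p * q = u := by omega
  rw [hu]
  rcases Nat.lt_or_ge (r + (D + u)) (p * q + r) with hc | hc
  · rw [if_neg (by omega)]
    have h3 := hLp (D + u)
    have h4 := hLp u
    have h5 : (D : ℝ) + u ≤ (p : ℝ) * q - 1 := by
      have : D + u + 1 ≤ p * q := by omega
      have : ((D + u + 1 : ℕ) : ℝ) ≤ ((p * q : ℕ) : ℝ) := by exact_mod_cast this
      push_cast at this
      linarith
    have h6 := third (p := p) (q := q) (D := D) (v := (D : ℝ) + u) hp' hq' rfl hDr hDr'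
      (by have : (0 : ℝ) ≤ u := Nat.cast_nonneg u
          linarith) h5
    unfold T
    push_cast
    rw [hrr]
    nlinarith
  · rw [if_pos hc]
    obtain ⟨w, rfl⟩ : ∃ w, u = r + w := Nat.exists_eq_add_of_le (by omega)
    have hw : r + w - r = w := by omega
    have hw0 : (0 : ℝ) ≤ w := Nat.cast_nonneg w
    have hw1 : (w : ℝ) ≤ ((p : ℝ) - 2) * (p * q) := by
      have h3 : ((r + (D + (r + w)) : ℕ) : ℝ) ≤ ((p * r : ℕ) : ℝ) := by exact_mod_cast hm'.le
      push_cast at h3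
      have h4 : (p - 1 : ℝ) * r ≤ (p - 1 : ℝ) * (p * q) :=
        mul_le_mul_of_nonneg_left (by rw [hrr]; linarith) (by linarith)
      rw [hrr] at h3 h4
      nlinarith
    rw [hw]
    have e : ((r : ℝ) * T (D + (r + w)) - p * q * T (r + w) + (r - p * q) * T w) =
        D * (((p : ℝ) * q) ^ 2 / 2 - p * q * D / 2 - (w + 1) * (w + 2)) := by
      unfold T
      push_cast
      rw [hrr]
      ring
    rcases Nat.lt_or_ge w q with hd | hd
    · have h3 := small (p := p) (q := q) (D := D) (w := w) hp' hq' rfl hDr hDr' hw0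
        (by exact_mod_cast hd.le)
      have h4 := h1 w
      have h5 := h0 (D + (r + w)) (by nlinarith)
      have h6 := h0 (r + w) (by nlinarith)
      linarith
    · have h3 := big (p := p) (q := q) (D := D) (w := w) hp' hq' rfl hDr hDr' hw0 hw1
      have h4 := h2 w hd
      have hqr : q ≤ r := by
        have : (q : ℝ) ≤ r := by rw [hrr]; linarith
        exact_mod_cast this
      have h5 := h2 (D + (r + w)) (by omega)
      have h6 := h2 (r + w) (by omega)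
      have h7 := h2 (r + (D + (r + w))) (by omega)
      have e1 : ((r + (D + (r + w)) : ℕ) : ℝ) = w + 2 * (p * q) - D := by
        push_cast
        rw [hrr]
        ring
      have e2 : ((D + (r + w) : ℕ) : ℝ) = w + p * q := by
        push_cast
        rw [hrr]
        ring
      have e3 : ((r + w : ℕ) : ℝ) = w + p * q - D := by
        push_cast
        rw [hrr]
        ring
      rw [e1] at h7
      rw [e2] at h5
      rw [e3] at h6
      linarith

end Pool.Agent.CycCrit
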