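import Pool.Agent.CycCrit.WindowB

/-!
MP_1d6ef7_nt, k = 3: the window inequality for `r > p q`.
-/

set_option autoImplicit false

namespace Pool.Agent.CycCrit

namespace WC_

open WB_

lemma a1 {p q : ℝ} (hp : 3 ≤ p) (hq : p + 2 ≤ q) :
    0 ≤ A p q (p * q + (p + q) - 1) - (2 * (p * q) + 1) * (p + q) * (p + q + 1) := by
  obtain ⟨a, rfl⟩ : ∃ a, p = 3 + a := ⟨p - 3, by ring⟩
  obtain ⟨b, rfl⟩ : ∃ b, q = 5 + a + b := ⟨q - 5 - a, by ring⟩
  have ha : 0 ≤ a := by linarith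
  have hb : 0 ≤ b := by linarith
  unfold A
  ring_nf
  positivity

lemma a2 {p q : ℝ} (hp : 3 ≤ p) (hq : p + 2 ≤ q) : 0 ≤ A p q (p * q - 1) := by
  obtain ⟨a, rfl⟩ : ∃ a, p = 3 + a := ⟨p - 3, by ring⟩
  obtain ⟨b, rfl⟩ : ∃ b, q = 5 + a + b := ⟨q - 5 - a, by ring⟩
  have ha : 0 ≤ a := by linarith
  have hb : 0 ≤ b := by linarith
  unfold A
  ring_nf
  positivity

/-- The second case. -/
lemma second {p q u : ℝ} (hp : 3 ≤ p) (hq : p + 2 ≤ q) (hu : 0 ≤ u) (hu' : u ≤ p + q - 1) :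
    (2 * (p * q) + 1) * ((u + 1) * (u + 2)) ≤ A p q (p * q + u) := by
  have h1 := a1 hp hq
  have h2 := a2 hp hq
  have hs : 0 < p + q := by linarith
  have h3 : 0 ≤ 2 * (p * q) + 2 - (p + q) := by
    nlinarith [mul_nonneg (sub_nonneg.2 hp) (by linarith : (0 : ℝ) ≤ q)]
  have h4 : 0 ≤ (2 * (p * q) + 2 - (p + q)) * ((p + q) * ((u + 1) * (p + q - 1 - u))) := by
    have : 0 ≤ p + q - 1 - u := by linarith
    positivity
  have h5 := mul_nonneg (by linarith : 0 ≤ p + q - 1 - u) h2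
  have h6 := mul_nonneg (by linarith : 0 ≤ u + 1) h1
  have h7 : (p + q) * (A p q (p * q + u) - (2 * (p * q) + 1) * ((u + 1) * (u + 2))) =
      (p + q - 1 - u) * A p q (p * q - 1) + (u + 1) * (A p q (p * q + (p + q) - 1) -
        (2 * (p * q) + 1) * (p + q) * (p + q + 1)) +
      (2 * (p * q) + 2 - (p + q)) * ((p + q) * ((u + 1) * (p + q - 1 - u))) := by
    unfold A
    ring
  have h8 : 0 ≤ (p + q) * (A p q (p * q + u) - (2 * (p * q) + 1) * ((u + 1) * (u + 2))) := by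
    rw [h7]
    linarith
  have := nonneg_of_mul_nonneg_right h8 hs
  linarith

lemma dsc {p q : ℝ} (hp : 3 ≤ p) (hq : p + 2 ≤ q) :
    0 ≤ 4 * (4 * (p + q) - 2) * ((p + q - 1) * ((p * q + (p + q)) ^ 2 + (p + q) ^ 2) -
      (2 * (p ^ 2 + q ^ 2) - 3 * (p + q) + 3) * (p * q + 2 * (p + q)) +
      2 * (q * (q - 1) * (q - 2) + p * (p - 1) * (p - 2) - 2) - (p + 1) * (p + 2) -
      2 * (p + q) * (p * q) * (3 + (p + q)) + 4 * (p + q)) -
      (2 * (p + q - 1) * (p * q + 2 * (p + q)) - 2 * (2 * (p ^ 2 + q ^ 2) - 3 * (p + q) + 3) -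
      4 * (p + q) * (p * q) + 6 * (p + q)) ^ 2 := by
  obtain ⟨a, rfl⟩ : ∃ a, p = 3 + a := ⟨p - 3, by ring⟩
  obtain ⟨b, rfl⟩ : ∃ b, q = 5 + a + b := ⟨q - 5 - a, by ring⟩
  have ha : 0 ≤ a := by linarith
  have hb : 0 ≤ b := by linarith
  ring_nf
  positivity

/-- The quadratic polynomial of the third case. -/
lemma quad {p q z : ℝ} (hp : 3 ≤ p) (hq : p + 2 ≤ q) :
    0 ≤ A p q (p * q + (p + q) + z) + A p q (p + q + z) - (p + 1) * (p + 2) -
      4 * (p + q) * (p * q) * z - 2 * (p + q) * (p * q) * (3 + (p + q)) +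
      2 * (p + q) * ((z + 1) * (z + 2)) := by
  have h1 := dsc hp hq
  have h2 : 0 < 4 * (4 * (p + q) - 2) := by linarith
  refine nonneg_of_mul_nonneg_right ?_ h2
  have h3 := sq_nonneg (2 * (4 * (p + q) - 2) * z + (2 * (p + q - 1) * (p * q + 2 * (p + q)) -
    2 * (2 * (p ^ 2 + q ^ 2) - 3 * (p + q) + 3) - 4 * (p + q) * (p * q) + 6 * (p + q)))
  have e : 4 * (4 * (p + q) - 2) * (A p q (p * q + (p + q) + z) + A p q (p + q + z) -
      (p + 1) * (p + 2) - 4 * (p + q) * (p * q) * z - 2 * (p + q) * (p * q) * (3 + (p + q)) +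
      2 * (p + q) * ((z + 1) * (z + 2))) =
      (2 * (4 * (p + q) - 2) * z + (2 * (p + q - 1) * (p * q + 2 * (p + q)) -
      2 * (2 * (p ^ 2 + q ^ 2) - 3 * (p + q) + 3) - 4 * (p + q) * (p * q) + 6 * (p + q))) ^ 2 +
      (4 * (4 * (p + q) - 2) * ((p + q - 1) * ((p * q + (p + q)) ^ 2 + (p + q) ^ 2) -
      (2 * (p ^ 2 + q ^ 2) - 3 * (p + q) + 3) * (p * q + 2 * (p + q)) +
      2 * (q * (q - 1) * (q - 2) + p * (p - 1) * (p - 2) - 2) - (p + 1) * (p + 2) -
      2 * (p + q) * (p * q) * (3 + (p + q)) + 4 * (p + q)) -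
      (2 * (p + q - 1) * (p * q + 2 * (p + q)) - 2 * (2 * (p ^ 2 + q ^ 2) - 3 * (p + q) + 3) -
      4 * (p + q) * (p * q) + 6 * (p + q)) ^ 2) := by
    unfold A
    ring
  rw [e]
  linarith

/-- The loss of the third case increases with `D`. -/
lemma mono {s D u n : ℝ} (hD : 0 ≤ D) (hDs : D ≤ s) (hs : s ≤ u) (hu : u - D + 1 ≤ n) :
    D * (n * (u + (3 - D) / 2) - (u - D + 1) * (u - D + 2) / 2) ≤
      s * (n * (u + (3 - s) / 2) - (u - s + 1) * (u - s + 2) / 2) := by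
  have h1 : 0 ≤ (s - D) * ((n - (u - D + 1)) * (u - s + 2)) :=
    mul_nonneg (by linarith) (mul_nonneg (by linarith) (by linarith))
  have h2 : 0 ≤ (s - D) * (n * (u - D + 1)) :=
    mul_nonneg (by linarith) (mul_nonneg (by linarith) (by linarith))
  have h3 : 0 ≤ (s - D) * (D * (u - D + 1) + s * (u - s + 2)) :=
    mul_nonneg (by linarith) (add_nonneg (mul_nonneg hD (by linarith))
      (mul_nonneg (by linarith) (by linarith)))
  have e : s * (n * (u + (3 - s) / 2) - (u - s + 1) * (u - s + 2) / 2) -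
      D * (n * (u + (3 - D) / 2) - (u - D + 1) * (u - D + 2) / 2) =
      ((s - D) * ((n - (u - D + 1)) * (u - s + 2)) + (s - D) * (n * (u - D + 1)) +
        (s - D) * (D * (u - D + 1) + s * (u - s + 2))) / 2 := by
    ring
  linarith

/-- The third case, `u` small. -/
lemma third_small {p q D u : ℝ} (hp : 3 ≤ p) (hq : p + 2 ≤ q) (hD : 2 ≤ D) (hDu : D ≤ u)
    (hu : u ≤ p + q - 1) :
    2 * ((p + 1) * (p + 2)) +
      4 * (D * (p * q * (u + (3 - D) / 2) - (u - D + 1) * (u - D + 2) / 2)) ≤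
      A p q (p * q + u) := by
  have h1 := second hp hq (by linarith : 0 ≤ u) hu
  have hn : 0 ≤ p * q := mul_nonneg (by linarith) (by linarith)
  have h2 : 0 ≤ D * ((u - D + 1) * (u - D + 2)) :=
    mul_nonneg (by linarith) (mul_nonneg (by linarith) (by linarith))
  have h3 : 0 ≤ (u - D) * (u - D + 3) := mul_nonneg (by linarith) (by linarith)
  have h4 : D * (2 * u + 3 - D) ≤ u * (u + 3) := by nlinarith
  have h5 := mul_le_mul_of_nonneg_left h4 hn
  have h6 : p * (p + 2) ≤ p * q := mul_le_mul_of_nonneg_left hq (by linarith)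
  have h7 : 0 ≤ (u + 1) * (u + 2) := mul_nonneg (by linarith) (by linarith)
  nlinarith

/-- The third case, `u` large. -/
lemma third_big {p q D u : ℝ} (hp : 3 ≤ p) (hq : p + 2 ≤ q) (hD : 2 ≤ D) (hDs : D ≤ p + q)
    (hu : p + q ≤ u) (hu' : u - D + 1 ≤ p * q) :
    (p + 1) * (p + 2) +
      4 * (D * (p * q * (u + (3 - D) / 2) - (u - D + 1) * (u - D + 2) / 2)) ≤
      A p q (p * q + u) + A p q u := by
  have h1 := mono (by linarith : 0 ≤ D) hDs hu hu'
  have h2 := quad (z := u - (p + q)) hp hq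
  have e1 : p * q + (p + q) + (u - (p + q)) = p * q + u := by ring
  have e2 : p + q + (u - (p + q)) = u := by ring
  rw [e1, e2] at h2
  have e3 : 4 * ((p + q) * (p * q * (u + (3 - (p + q)) / 2) -
      (u - (p + q) + 1) * (u - (p + q) + 2) / 2)) =
      4 * (p + q) * (p * q) * (u - (p + q)) + 2 * (p + q) * (p * q) * (3 + (p + q)) -
      2 * (p + q) * ((u - (p + q) + 1) * (u - (p + q) + 2)) := by ring
  linarith

lemma a4 {p q : ℝ} (hp : 3 ≤ p) (hq : p + 2 ≤ q) :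
    0 ≤ A p q (2 * (p * q) + (p + q)) - 2 * (p + q) * (p * q) * (p * q + (p + q)) := by
  obtain ⟨a, rfl⟩ : ∃ a, p = 3 + a := ⟨p - 3, by ring⟩
  obtain ⟨b, rfl⟩ : ∃ b, q = 5 + a + b := ⟨q - 5 - a, by ring⟩
  have ha : 0 ≤ a := by linarith
  have hb : 0 ≤ b := by linarith
  unfold A
  ring_nf
  positivity

lemma a5 {p q : ℝ} (hp : 3 ≤ p) (hq : p + 2 ≤ q) : 0 ≤ A p q (2 * (p * q)) := by
  obtain ⟨a, rfl⟩ : ∃ a, p = 3 + a := ⟨p - 3, by ring⟩
  obtain ⟨b, rfl⟩ : ∃ b, q = 5 + a + b := ⟨q - 5 - a, by ring⟩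
  have ha : 0 ≤ a := by linarith
  have hb : 0 ≤ b := by linarith
  unfold A
  ring_nf
  positivity

lemma a6 {p q : ℝ} (hp : 3 ≤ p) (hq : p + 2 ≤ q) :
    0 ≤ (p + q - 1) * (4 * (p * q)) - (2 * (p ^ 2 + q ^ 2) - 3 * (p + q) + 3) := by
  obtain ⟨a, rfl⟩ : ∃ a, p = 3 + a := ⟨p - 3, by ring⟩
  obtain ⟨b, rfl⟩ : ∃ b, q = 5 + a + b := ⟨q - 5 - a, by ring⟩
  have ha : 0 ≤ a := by linarith
  have hb : 0 ≤ b := by linarith
  ring_nf
  positivity

/-- The fourth case. -/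
lemma fourth {p q D w : ℝ} (hp : 3 ≤ p) (hq : p + 2 ≤ q) (hD : 0 ≤ D) (hDs : D ≤ p + q)
    (hw : 0 ≤ w) : 2 * D * (p * q) * (p * q + D) ≤ A p q (w + 2 * (p * q) + D) := by
  have h1 := a4 hp hq
  have h2 := a5 hp hq
  have h3 := a6 hp hq
  have hs : 0 < p + q := by linarith
  have h4 : 0 ≤ 2 * (p * q) - (p + q - 1) := by
    nlinarith [mul_nonneg (sub_nonneg.2 hp) (by linarith : (0 : ℝ) ≤ q)]
  have h5 : 0 ≤ A p q (2 * (p * q) + D) - 2 * D * (p * q) * (p * q + D) := by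
    refine nonneg_of_mul_nonneg_right ?_ hs
    have e : (p + q) * (A p q (2 * (p * q) + D) - 2 * D * (p * q) * (p * q + D)) =
        (p + q - D) * A p q (2 * (p * q)) + D * (A p q (2 * (p * q) + (p + q)) -
          2 * (p + q) * (p * q) * (p * q + (p + q))) +
        (2 * (p * q) - (p + q - 1)) * ((p + q) * (D * (p + q - D))) := by
      unfold A
      ring
    rw [e]
    have h6 := mul_nonneg (by linarith : 0 ≤ p + q - D) h2
    have h7 := mul_nonneg hD h1
    have h8 : 0 ≤ (2 * (p * q) - (p + q - 1)) * ((p + q) * (D * (p + q - D))) := by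
      have : 0 ≤ p + q - D := by linarith
      positivity
    linarith
  have h9 : 0 ≤ w * (((p + q - 1) * (4 * (p * q)) -
      (2 * (p ^ 2 + q ^ 2) - 3 * (p + q) + 3)) + (p + q - 1) * (2 * D + w)) := by
    have : 0 ≤ p + q - 1 := by linarith
    exact mul_nonneg hw (add_nonneg h3 (mul_nonneg this (by linarith)))
  have e : A p q (w + 2 * (p * q) + D) = A p q (2 * (p * q) + D) +
      w * (((p + q - 1) * (4 * (p * q)) -
      (2 * (p ^ 2 + q ^ 2) - 3 * (p + q) + 3)) + (p + q - 1) * (2 * D + w)) := by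
    unfold A
    ring
  rw [e]
  linarith

end WC_

open WB_ WC_ in
/-- The window inequality for `r > p q`. -/
theorem window_gt {p q r D : ℕ} (L : ℕ → ℝ) (hp : 3 ≤ p) (hq : p + 2 ≤ q) (hr : r = p * q + D)
    (hD : 2 ≤ D) (hD' : D ≤ p + q) (h0 : ∀ m : ℕ, p + 1 ≤ m → 0 ≤ L m)
    (h1 : ∀ m : ℕ, -(((m : ℝ) + 1) * (m + 2) / 4) ≤ L m)
    (h2 : ∀ m : ℕ, q ≤ m → A p q m / 4 ≤ L m) {m : ℕ} (hm : p + 1 ≤ m) :
    0 ≤ L m + (if r ≤ m then L (m - r) + r * T (m - r) else 0) +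
      (if p * q ≤ m then L (m - p * q) - p * q * T (m - p * q) else 0) +
      (if p * q + r ≤ m then L (m - p * q - r) + ((r : ℝ) - p * q) * T (m - p * q - r)
        else 0) := by
  have hp' : (3 : ℝ) ≤ p := by exact_mod_cast hp
  have hq' : (p : ℝ) + 2 ≤ q := by exact_mod_cast hq
  have hDr : (2 : ℝ) ≤ D := by exact_mod_cast hD
  have hDr' : (D : ℝ) ≤ p + q := by exact_mod_cast hD'
  have hrr : (r : ℝ) = (p : ℝ) * q + D := by
    rw [hr]
    push_cast
    ring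
  have hqn : q ≤ p * q := Nat.le_mul_of_pos_left q (by omega)
  have hLp : ∀ j : ℕ, -(((p : ℝ) + 1) * (p + 2) / 4) ≤ L j := by
    intro j
    rcases Nat.lt_or_ge p j with h | h
    · have := h0 j h
      have : 0 ≤ ((p : ℝ) + 1) * (p + 2) / 4 := by positivity
      linarith
    · have h3 : (j : ℝ) ≤ p := by exact_mod_cast h
      have h4 : ((j : ℝ) + 1) * (j + 2) ≤ ((p : ℝ) + 1) * (p + 2) :=
        mul_le_mul (by linarith) (by linarith) (by positivity) (by positivity)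
      have := h1 j
      linarith
  have hLm := h0 m hm
  rcases Nat.lt_or_ge m (p * q) with ha | ha
  · rw [if_neg (by omega), if_neg (by omega), if_neg (by omega)]
    linarith
  obtain ⟨u, rfl⟩ := Nat.exists_eq_add_of_le ha
  rw [if_pos ha, Nat.add_sub_cancel_left]
  have hu0 : (0 : ℝ) ≤ u := Nat.cast_nonneg u
  have hA := h2 (p * q + u) (by omega)
  have eA : ((p * q + u : ℕ) : ℝ) = (p : ℝ) * q + u := by push_cast; ring
  rw [eA] at hA
  rcases Nat.lt_or_ge (p * q + u) r with hb | hb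
  · rw [if_neg (by omega), if_neg (by omega)]
    have hu1 : (u : ℝ) ≤ p + q - 1 := by
      have : u + 1 ≤ p + q := by omega
      have : ((u + 1 : ℕ) : ℝ) ≤ ((p + q : ℕ) : ℝ) := by exact_mod_cast this
      push_cast at this
      linarith
    have h3 := second hp' hq' hu0 hu1
    have h4 := h1 u
    unfold T
    linarith
  rw [if_pos hb]
  obtain ⟨y, rfl⟩ : ∃ y, u = D + y := Nat.exists_eq_add_of_le (by omega)
  have hy : p * q + (D + y) - r = y := by omega
  rw [hy]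
  have hy0 : (0 : ℝ) ≤ y := Nat.cast_nonneg y
  have eu : ((D + y : ℕ) : ℝ) = (D : ℝ) + y := by push_cast; ring
  rcases Nat.lt_or_ge (p * q + (D + y)) (p * q + r) with hc | hc
  · rw [if_neg (by omega)]
    have e : (r : ℝ) * T y - p * q * T (D + y) = -(D * (p * q * ((D + y : ℕ) + (3 - D) / 2) -
        ((D + y : ℕ) - D + 1) * ((D + y : ℕ) - D + 2) / 2)) := by
      unfold T
      push_cast
      rw [hrr]
      ring
    have h3 := hLp y
    rcases Nat.lt_or_ge (D + y) (p + q) with hd | hd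
    · have hu1 : ((D + y : ℕ) : ℝ) ≤ p + q - 1 := by
        have : ((D + y + 1 : ℕ) : ℝ) ≤ ((p + q : ℕ) : ℝ) := by exact_mod_cast hd
        push_cast at this ⊢
        linarith
      have h4 := third_small (D := D) hp' hq' hDr (by rw [eu]; linarith) hu1
      have h5 := hLp (D + y)
      linarith
    · have hu1 : (p : ℝ) + q ≤ ((D + y : ℕ) : ℝ) := by exact_mod_cast hd
      have h4 := third_big (D := D) hp' hq' hDr hDr' hu1 (by
        have : y + 1 ≤ p * q := by omega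
        have : ((y + 1 : ℕ) : ℝ) ≤ ((p * q : ℕ) : ℝ) := by exact_mod_cast this
        push_cast at this ⊢
        linarith)
      have h5 := h2 (D + y) (by omega)
      linarith
  · rw [if_pos hc]
    obtain ⟨w, rfl⟩ : ∃ w, y = p * q + w := Nat.exists_eq_add_of_le (by omega)
    have hw : D + (p * q + w) - r = w := by omega
    rw [hw]
    have hw0 : (0 : ℝ) ≤ w := Nat.cast_nonneg w
    have e : (r : ℝ) * T (p * q + w) - p * q * T (D + (p * q + w)) + (r - p * q) * T w =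
        D * ((w + 1) * (w + 2) - p * q * (p * q + D) / 2) := by
      unfold T
      push_cast
      rw [hrr]
      ring
    have h3 := fourth (D := D) (w := w) hp' hq' (by linarith) hDr' hw0
    have e2 : (p : ℝ) * q + ((D + (p * q + w) : ℕ) : ℝ) = w + 2 * (p * q) + D := by
      push_cast
      ring
    rw [e2] at hA
    have h4 := h0 (D + (p * q + w)) (by nlinarith)
    have h5 := h0 (p * q + w) (by nlinarith)
    have h6 := h1 w
    have h7 : 2 * (((w : ℝ) + 1) * (w + 2)) ≤ D * (((w : ℝ) + 1) * (w + 2)) :=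
      mul_le_mul_of_nonneg_right hDr (by positivity)
    have h8 : 0 ≤ ((w : ℝ) + 1) * (w + 2) := by positivity
    linarith

end Pool.Agent.CycCrit
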