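import Pool.Agent.CycCrit.Window
import Pool.Agent.CycCrit.WinGlue

/-!
# The window inequality for three primes: final form
-/

set_option autoImplicit false

namespace Pool.Agent.CycCrit.Window

open Finset Pool.Agent.CycCrit Pool.Agent.CycCrit.Win

/-- The window inequality from `2 p` on. -/
theorem W3_nonneg {p q r m : ℕ} (hp : 5 ≤ p) (hq : p + 2 ≤ q) (h1 : p * q ≤ p + q + r)
    (h2 : r ≤ p * q + p + q + 1) (hne : r ≠ p * q) (hm : 2 * p ≤ m)
    (hmr : m < p * r) : 0 ≤ W3 p q r m := by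
  have hr1 : 1 ≤ r := by nlinarith
  have h := glue_Lam hp hq h1 h2 hr1 hne hm hmr
  have e : W3 p q r m = Lam p q m
      + (if r ≤ m then Lam p q (m - r) + r * Tq ((m - r : ℕ) : ℝ) else 0)
      + (if p * q ≤ m then Lam p q (m - p * q) - p * q * Tq ((m - p * q : ℕ) : ℝ) else 0)
      + (if p * q + r ≤ m then Lam p q (m - (p * q + r)) +
          ((r : ℝ) - p * q) * Tq ((m - (p * q + r) : ℕ) : ℝ) else 0) := by
    rw [W3_eq]
    unfold sh T Tq
    split_ifs <;> ring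
  rw [e]
  exact h

/-- `W3` changes sign once on `[0, p r)`. -/
theorem W3_shape {p q r : ℕ} (hp : 5 ≤ p) (hq : p + 2 ≤ q) (hr : q + 2 ≤ r)
    (h1 : p * q ≤ p + q + r) (h2 : r ≤ p * q + p + q + 1) (hne : r ≠ p * q) :
    ∃ m0, p ≤ m0 ∧ m0 ≤ 2 * p ∧ (∀ m, m < m0 → W3 p q r m ≤ 0) ∧
      (∀ m, m0 ≤ m → m < p * r → 0 ≤ W3 p q r m) := by
  have h2r : 2 * p < r := by nlinarith
  exact W3_shape_of p q r hp hq hr h2r (fun m hm hmr => W3_nonneg hp hq h1 h2 hne hm hmr)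

end Pool.Agent.CycCrit.Window
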