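import Mathlib

/-!
# The window inequality, real part (MP_1d6ef7_nt)
-/

set_option autoImplicit false
set_option linter.unusedVariables false

namespace Pool.Agent.CycCrit

/-- the lower bound for `Lam` -/
noncomputable def wLb (p q x : ℝ) : ℝ := (p + q - 1) / 4 * (x + 1) * (x + 2) - (p ^ 2 + q ^ 2) / 2 * (x + 1)

theorem WinR_.quad {a b c u : ℝ} (ha : 0 < a) (h : 0 ≤ 4 * a * c - b ^ 2) :
    0 ≤ a * u ^ 2 + b * u + c := by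
  have h1 : 0 ≤ 4 * a * (a * u ^ 2 + b * u + c) := by
    have : 4 * a * (a * u ^ 2 + b * u + c) = (2 * a * u + b) ^ 2 + (4 * a * c - b ^ 2) := by ring
    rw [this]; positivity
  by_contra h2
  push Not at h2
  nlinarith

theorem winA1 {p q u : ℝ} (hp : 5 ≤ p) (hq : p + 2 ≤ q) (hu0 : 0 ≤ u) (hu : u ≤ p + q) :
    p * q * ((u + 1) * (u + 2) / 2) + p ^ 2 ≤ wLb p q (p * q + u) := by
  obtain ⟨x, hx, rfl⟩ : ∃ x : ℝ, 0 ≤ x ∧ p = 5 + x := ⟨p - 5, by linarith, by ring⟩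
  obtain ⟨y, hy, rfl⟩ : ∃ y : ℝ, 0 ≤ y ∧ q = 7 + x + y := ⟨q - 7 - x, by linarith, by ring⟩
  obtain ⟨v, hv, rfl⟩ : ∃ v : ℝ, 0 ≤ v ∧ u = 12 + 2 * x + y - v :=
    ⟨12 + 2 * x + y - u, by linarith, by ring⟩
  have h0 : 0 ≤ 2 * x ^ 5 + 5 * x ^ 4 * y + 55 * x ^ 4 + 4 * x ^ 3 * y ^ 2 + 106 * x ^ 3 * y + 602 *
      x ^ 3 + x ^ 2 * y ^ 3 + 59 * x ^ 2 * y ^ 2 + 833 * x ^ 2 * y + 3263 * x ^ 2 + 8 * x
      * y ^ 3 + 281 * x * y ^ 2 + 2857 * x * y + 8708 * x + 15 * y ^ 3 + 428 * y ^ 2 +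
      3579 * y + 9084 := by
    positivity
  have hS : 0 ≤ 2 * x ^ 5 + 5 * x ^ 4 * y + 55 * x ^ 4 + 4 * x ^ 3 * y ^ 2 + 106 * x ^ 3 * y + 586 *
      x ^ 3 + x ^ 2 * y ^ 3 + 59 * x ^ 2 * y ^ 2 + 809 * x ^ 2 * y + 2983 * x ^ 2 + 8 * x
      * y ^ 3 + 271 * x * y ^ 2 + 2585 * x * y + 7078 * x + 14 * y ^ 3 + 374 * y ^ 2 +
      2812 * y + 5928 := by
    positivity
  have hk : 0 ≤ 2 * x ^ 2 + 2 * x * y + 22 * x + 9 * y + 59 := by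
    positivity
  have key : (12 + 2 * x + y) * (4 * (wLb (5 + x) (7 + x + y) ((5 + x) * (7 + x + y) +
      (12 + 2 * x + y - v)) - (5 + x) * (7 + x + y) * ((12 + 2 * x + y - v + 1) *
      (12 + 2 * x + y - v + 2) / 2) - (5 + x) ^ 2)) =
      v * (2 * x ^ 5 + 5 * x ^ 4 * y + 55 * x ^ 4 + 4 * x ^ 3 * y ^ 2 + 106 * x ^ 3 * y + 602 *
      x ^ 3 + x ^ 2 * y ^ 3 + 59 * x ^ 2 * y ^ 2 + 833 * x ^ 2 * y + 3263 * x ^ 2 + 8 * x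
      * y ^ 3 + 281 * x * y ^ 2 + 2857 * x * y + 8708 * x + 15 * y ^ 3 + 428 * y ^ 2 +
      3579 * y + 9084) +
      (12 + 2 * x + y - v) * (2 * x ^ 5 + 5 * x ^ 4 * y + 55 * x ^ 4 + 4 * x ^ 3 * y ^ 2 + 106 * x ^ 3 * y + 586 *
      x ^ 3 + x ^ 2 * y ^ 3 + 59 * x ^ 2 * y ^ 2 + 809 * x ^ 2 * y + 2983 * x ^ 2 + 8 * x
      * y ^ 3 + 271 * x * y ^ 2 + 2585 * x * y + 7078 * x + 14 * y ^ 3 + 374 * y ^ 2 +
      2812 * y + 5928) +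
      (12 + 2 * x + y) * (2 * x ^ 2 + 2 * x * y + 22 * x + 9 * y + 59) *
        ((12 + 2 * x + y - v) * v) := by
    unfold wLb; ring
  have hpos : 0 ≤ (12 + 2 * x + y) * (4 * (wLb (5 + x) (7 + x + y) ((5 + x) * (7 + x + y) +
      (12 + 2 * x + y - v)) - (5 + x) * (7 + x + y) * ((12 + 2 * x + y - v + 1) *
      (12 + 2 * x + y - v + 2) / 2) - (5 + x) ^ 2)) := by
    rw [key]
    have e1 := mul_nonneg hv h0
    have e2 := mul_nonneg hu0 hS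
    have e3 := mul_nonneg (mul_nonneg (by positivity : (0 : ℝ) ≤ 12 + 2 * x + y) hk)
      (mul_nonneg hu0 hv)
    linarith
  have := nonneg_of_mul_nonneg_right hpos (by positivity : (0 : ℝ) < 12 + 2 * x + y)
  linarith

theorem winA2 {p q D : ℝ} (u : ℝ) (hp : 5 ≤ p) (hq : p + 2 ≤ q) (hD0 : 0 ≤ D)
    (hD : D ≤ p + q + 1) :
    p * q * ((u + 1) * (u + 2) / 2) + p ^ 2 ≤ wLb p q (p * q + u) + wLb p q u + wLb p q (u - D) +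
      (p * q + D) * ((u - D + 1) * (u - D + 2) / 2) := by
  obtain ⟨x, hx, rfl⟩ : ∃ x : ℝ, 0 ≤ x ∧ p = 5 + x := ⟨p - 5, by linarith, by ring⟩
  obtain ⟨y, hy, rfl⟩ : ∃ y : ℝ, 0 ≤ y ∧ q = 7 + x + y := ⟨q - 7 - x, by linarith, by ring⟩
  obtain ⟨E, hE, hDE⟩ : ∃ E : ℝ, 0 ≤ E ∧ E = 13 + 2 * x + y - D :=
    ⟨13 + 2 * x + y - D, by linarith, rfl⟩
  have c0 : 0 ≤ 32 * x ^ 6 + 96 * x ^ 5 * y + 1120 * x ^ 5 + 104 * x ^ 4 * y ^ 2 + 2736 * x ^ 4 * y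
      + 16120 * x ^ 4 + 48 * x ^ 3 * y ^ 3 + 2304 * x ^ 3 * y ^ 2 + 30768 * x ^ 3 * y +
      122032 * x ^ 3 + 8 * x ^ 2 * y ^ 4 + 768 * x ^ 2 * y ^ 3 + 18776 * x ^ 2 * y ^ 2 +
      170232 * x ^ 2 * y + 511636 * x ^ 2 + 80 * x * y ^ 4 + 3936 * x * y ^ 3 + 66240 * x
      * y ^ 2 + 461460 * x * y + 1123204 * x + 164 * y ^ 4 + 6228 * y ^ 3 + 84107 * y ^ 2
      + 486618 * y + 1003679 := by
    positivity
  have c1 : 0 ≤ 192 * x ^ 6 + 576 * x ^ 5 * y + 6624 * x ^ 5 + 624 * x ^ 4 * y ^ 2 + 16176 * x ^ 4 *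
      y + 94064 * x ^ 4 + 288 * x ^ 3 * y ^ 3 + 13520 * x ^ 3 * y ^ 2 + 179040 * x ^ 3 * y
      + 702624 * x ^ 3 + 48 * x ^ 2 * y ^ 4 + 4392 * x ^ 2 * y ^ 3 + 107384 * x ^ 2 * y ^
      2 + 973200 * x ^ 2 * y + 2904628 * x ^ 2 + 424 * x * y ^ 4 + 21368 * x * y ^ 3 +
      367992 * x * y ^ 2 + 2585924 * x * y + 6278108 * x + 812 * y ^ 4 + 32308 * y ^ 3 +
      453437 * y ^ 2 + 2667310 * y + 5511769 := by
    positivity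
  have c2 : 0 ≤ 224 * x ^ 6 + 672 * x ^ 5 * y + 7712 * x ^ 5 + 728 * x ^ 4 * y ^ 2 + 18832 * x ^ 4 *
      y + 109128 * x ^ 4 + 336 * x ^ 3 * y ^ 3 + 15696 * x ^ 3 * y ^ 2 + 207504 * x ^ 3 *
      y + 810304 * x ^ 3 + 56 * x ^ 2 * y ^ 4 + 5048 * x ^ 2 * y ^ 3 + 123440 * x ^ 2 * y ^
      2 + 1118480 * x ^ 2 * y + 3316772 * x ^ 2 + 472 * x * y ^ 4 + 23896 * x * y ^ 3 +
      415336 * x * y ^ 2 + 2927860 * x * y + 7052524 * x + 828 * y ^ 4 + 34316 * y ^ 3 +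
      494901 * y ^ 2 + 2941574 * y + 6024385 := by
    positivity
  have c3 : 0 ≤ 64 * x ^ 6 + 192 * x ^ 5 * y + 2080 * x ^ 5 + 208 * x ^ 4 * y ^ 2 + 5072 * x ^ 4 * y
      + 27408 * x ^ 4 + 96 * x ^ 3 * y ^ 3 + 4192 * x ^ 3 * y ^ 2 + 51808 * x ^ 3 * y +
      185456 * x ^ 3 + 16 * x ^ 2 * y ^ 4 + 1312 * x ^ 2 * y ^ 3 + 29984 * x ^ 2 * y ^ 2 +
      251624 * x ^ 2 * y + 666484 * x ^ 2 + 112 * x * y ^ 4 + 5296 * x * y ^ 3 + 86944 * x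
      * y ^ 2 + 562324 * x * y + 1156724 * x + 116 * y ^ 4 + 5356 * y ^ 3 + 78147 * y ^ 2
      + 425586 * y + 672647 := by
    positivity
  have key : (13 + 2 * x + y) ^ 3 * (4 * (6 * x + 3 * y + 2 * D + 33) *
      (2 * x ^ 5 + 5 * x ^ 4 * y + 55 * x ^ 4 + 4 * x ^ 3 * y ^ 2 + 106 * x ^ 3 * y + 602 *
      x ^ 3 + x ^ 2 * y ^ 3 + 59 * x ^ 2 * y ^ 2 + 833 * x ^ 2 * y + 2 * x ^ 2 * D ^ 2 - 2
      * x ^ 2 * D + 3259 * x ^ 2 + 8 * x * y ^ 3 + 281 * x * y ^ 2 + 2 * x * y * D ^ 2 - 2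
      * x * y * D + 2853 * x * y + 26 * x * D ^ 2 - 30 * x * D + 8668 * x + 15 * y ^ 3 + 2
      * y ^ 2 * D + 424 * y ^ 2 + 11 * y * D ^ 2 - 5 * y * D + 3547 * y + 2 * D ^ 3 + 75 *
      D ^ 2 - 91 * D + 8972) -
      (4 * x ^ 3 + 6 * x ^ 2 * y - 4 * x ^ 2 * D + 58 * x ^ 2 + 2 * x * y ^ 2 - 4 * x * y *
      D + 54 * x * y - 52 * x * D + 278 * x + 4 * y ^ 2 - 22 * y * D + 105 * y - 4 * D ^ 2
      - 156 * D + 425) ^ 2) =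
      E ^ 3 * (32 * x ^ 6 + 96 * x ^ 5 * y + 1120 * x ^ 5 + 104 * x ^ 4 * y ^ 2 + 2736 * x ^ 4 * y
      + 16120 * x ^ 4 + 48 * x ^ 3 * y ^ 3 + 2304 * x ^ 3 * y ^ 2 + 30768 * x ^ 3 * y +
      122032 * x ^ 3 + 8 * x ^ 2 * y ^ 4 + 768 * x ^ 2 * y ^ 3 + 18776 * x ^ 2 * y ^ 2 +
      170232 * x ^ 2 * y + 511636 * x ^ 2 + 80 * x * y ^ 4 + 3936 * x * y ^ 3 + 66240 * x
      * y ^ 2 + 461460 * x * y + 1123204 * x + 164 * y ^ 4 + 6228 * y ^ 3 + 84107 * y ^ 2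
      + 486618 * y + 1003679) +
      D * E ^ 2 * (192 * x ^ 6 + 576 * x ^ 5 * y + 6624 * x ^ 5 + 624 * x ^ 4 * y ^ 2 + 16176 * x ^ 4 *
      y + 94064 * x ^ 4 + 288 * x ^ 3 * y ^ 3 + 13520 * x ^ 3 * y ^ 2 + 179040 * x ^ 3 * y
      + 702624 * x ^ 3 + 48 * x ^ 2 * y ^ 4 + 4392 * x ^ 2 * y ^ 3 + 107384 * x ^ 2 * y ^
      2 + 973200 * x ^ 2 * y + 2904628 * x ^ 2 + 424 * x * y ^ 4 + 21368 * x * y ^ 3 +
      367992 * x * y ^ 2 + 2585924 * x * y + 6278108 * x + 812 * y ^ 4 + 32308 * y ^ 3 +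
      453437 * y ^ 2 + 2667310 * y + 5511769) +
      D ^ 2 * E * (224 * x ^ 6 + 672 * x ^ 5 * y + 7712 * x ^ 5 + 728 * x ^ 4 * y ^ 2 + 18832 * x ^ 4 *
      y + 109128 * x ^ 4 + 336 * x ^ 3 * y ^ 3 + 15696 * x ^ 3 * y ^ 2 + 207504 * x ^ 3 *
      y + 810304 * x ^ 3 + 56 * x ^ 2 * y ^ 4 + 5048 * x ^ 2 * y ^ 3 + 123440 * x ^ 2 * y ^
      2 + 1118480 * x ^ 2 * y + 3316772 * x ^ 2 + 472 * x * y ^ 4 + 23896 * x * y ^ 3 +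
      415336 * x * y ^ 2 + 2927860 * x * y + 7052524 * x + 828 * y ^ 4 + 34316 * y ^ 3 +
      494901 * y ^ 2 + 2941574 * y + 6024385) +
      D ^ 3 * (64 * x ^ 6 + 192 * x ^ 5 * y + 2080 * x ^ 5 + 208 * x ^ 4 * y ^ 2 + 5072 * x ^ 4 * y
      + 27408 * x ^ 4 + 96 * x ^ 3 * y ^ 3 + 4192 * x ^ 3 * y ^ 2 + 51808 * x ^ 3 * y +
      185456 * x ^ 3 + 16 * x ^ 2 * y ^ 4 + 1312 * x ^ 2 * y ^ 3 + 29984 * x ^ 2 * y ^ 2 +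
      251624 * x ^ 2 * y + 666484 * x ^ 2 + 112 * x * y ^ 4 + 5296 * x * y ^ 3 + 86944 * x
      * y ^ 2 + 562324 * x * y + 1156724 * x + 116 * y ^ 4 + 5356 * y ^ 3 + 78147 * y ^ 2
      + 425586 * y + 672647) := by
    subst hDE; ring
  have hpos : 0 ≤ (13 + 2 * x + y) ^ 3 * (4 * (6 * x + 3 * y + 2 * D + 33) *
      (2 * x ^ 5 + 5 * x ^ 4 * y + 55 * x ^ 4 + 4 * x ^ 3 * y ^ 2 + 106 * x ^ 3 * y + 602 *
      x ^ 3 + x ^ 2 * y ^ 3 + 59 * x ^ 2 * y ^ 2 + 833 * x ^ 2 * y + 2 * x ^ 2 * D ^ 2 - 2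
      * x ^ 2 * D + 3259 * x ^ 2 + 8 * x * y ^ 3 + 281 * x * y ^ 2 + 2 * x * y * D ^ 2 - 2
      * x * y * D + 2853 * x * y + 26 * x * D ^ 2 - 30 * x * D + 8668 * x + 15 * y ^ 3 + 2
      * y ^ 2 * D + 424 * y ^ 2 + 11 * y * D ^ 2 - 5 * y * D + 3547 * y + 2 * D ^ 3 + 75 *
      D ^ 2 - 91 * D + 8972) -
      (4 * x ^ 3 + 6 * x ^ 2 * y - 4 * x ^ 2 * D + 58 * x ^ 2 + 2 * x * y ^ 2 - 4 * x * y *
      D + 54 * x * y - 52 * x * D + 278 * x + 4 * y ^ 2 - 22 * y * D + 105 * y - 4 * D ^ 2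
      - 156 * D + 425) ^ 2) := by
    rw [key]
    have e0 := mul_nonneg (by positivity : 0 ≤ E ^ 3) c0
    have e1 := mul_nonneg (by positivity : 0 ≤ D * E ^ 2) c1
    have e2 := mul_nonneg (by positivity : 0 ≤ D ^ 2 * E) c2
    have e3 := mul_nonneg (by positivity : 0 ≤ D ^ 3) c3
    linarith
  have hdisc := nonneg_of_mul_nonneg_right hpos (by positivity : (0 : ℝ) < (13 + 2 * x + y) ^ 3)
  have hq := WinR_.quad (u := u) (by positivity) hdisc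
  have id : 4 * (wLb (5 + x) (7 + x + y) ((5 + x) * (7 + x + y) + u) + wLb (5 + x) (7 + x + y) u +
      wLb (5 + x) (7 + x + y) (u - D) + ((5 + x) * (7 + x + y) + D) *
      ((u - D + 1) * (u - D + 2) / 2) - ((5 + x) * (7 + x + y) * ((u + 1) * (u + 2) / 2) +
      (5 + x) ^ 2)) = (6 * x + 3 * y + 2 * D + 33) * u ^ 2 +
      (4 * x ^ 3 + 6 * x ^ 2 * y - 4 * x ^ 2 * D + 58 * x ^ 2 + 2 * x * y ^ 2 - 4 * x * y *
      D + 54 * x * y - 52 * x * D + 278 * x + 4 * y ^ 2 - 22 * y * D + 105 * y - 4 * D ^ 2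
      - 156 * D + 425) * u +
      (2 * x ^ 5 + 5 * x ^ 4 * y + 55 * x ^ 4 + 4 * x ^ 3 * y ^ 2 + 106 * x ^ 3 * y + 602 *
      x ^ 3 + x ^ 2 * y ^ 3 + 59 * x ^ 2 * y ^ 2 + 833 * x ^ 2 * y + 2 * x ^ 2 * D ^ 2 - 2
      * x ^ 2 * D + 3259 * x ^ 2 + 8 * x * y ^ 3 + 281 * x * y ^ 2 + 2 * x * y * D ^ 2 - 2
      * x * y * D + 2853 * x * y + 26 * x * D ^ 2 - 30 * x * D + 8668 * x + 15 * y ^ 3 + 2
      * y ^ 2 * D + 424 * y ^ 2 + 11 * y * D ^ 2 - 5 * y * D + 3547 * y + 2 * D ^ 3 + 75 *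
      D ^ 2 - 91 * D + 8972) := by
    unfold wLb; ring
  linarith

theorem winB1 {p q D u : ℝ} (hp : 5 ≤ p) (hq : p + 2 ≤ q) (hD0 : 0 ≤ D)
    (hD : D ≤ p + q) (hu0 : 0 ≤ u) (hu : u ≤ p * q - D) :
    p * q * ((u + 1) * (u + 2) / 2) + 2 * p ^ 2 ≤ wLb p q (p * q + u) +
      (p * q - D) * ((u + D + 1) * (u + D + 2) / 2) := by
  obtain ⟨x, hx, rfl⟩ : ∃ x : ℝ, 0 ≤ x ∧ p = 5 + x := ⟨p - 5, by linarith, by ring⟩
  obtain ⟨y, hy, rfl⟩ : ∃ y : ℝ, 0 ≤ y ∧ q = 7 + x + y := ⟨q - 7 - x, by linarith, by ring⟩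
  obtain ⟨E, hE, hDE⟩ : ∃ E : ℝ, 0 ≤ E ∧ E = 12 + 2 * x + y - D :=
    ⟨12 + 2 * x + y - D, by linarith, rfl⟩
  have hr : 0 < (5 + x) * (7 + x + y) - D := by
    have : (5 + x) * (7 + x + y) - D = E + (x ^ 2 + x * y + 10 * x + 4 * y + 23) := by
      subst hDE; ring
    rw [this]; positivity
  have k0 : 0 ≤ x ^ 2 * D + 3 * x ^ 2 + x * y * D + 3 * x * y + 12 * x * D + 36 * x + 5 * y * D + 15
      * y - D ^ 2 + 32 * D + 103 := by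
    have key : (12 + 2 * x + y) ^ 2 * (x ^ 2 * D + 3 * x ^ 2 + x * y * D + 3 * x * y + 12 * x * D + 36 * x + 5 * y * D + 15
      * y - D ^ 2 + 32 * D + 103) =
      E ^ 2 * (3 * x ^ 2 + 3 * x * y + 36 * x + 15 * y + 103) +
      D * E * (2 * x ^ 3 + 3 * x ^ 2 * y + 42 * x ^ 2 + x * y ^ 2 + 40 * x * y + 280 * x + 5 * y ^
      2 + 122 * y + 590) +
      D ^ 2 * (2 * x ^ 3 + 3 * x ^ 2 * y + 35 * x ^ 2 + x * y ^ 2 + 33 * x * y + 196 * x + 4 * y ^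
      2 + 83 * y + 343) := by
      subst hDE; ring
    have hp2 : 0 ≤ (12 + 2 * x + y) ^ 2 * (x ^ 2 * D + 3 * x ^ 2 + x * y * D + 3 * x * y + 12 * x * D + 36 * x + 5 * y * D + 15
      * y - D ^ 2 + 32 * D + 103) := by
      rw [key]; positivity
    exact nonneg_of_mul_nonneg_right hp2 (by positivity)
  have kr : 0 ≤ x ^ 4 + 2 * x ^ 3 * y + 24 * x ^ 3 + x ^ 2 * y ^ 2 + 34 * x ^ 2 * y - x ^ 2 * D +
      214 * x ^ 2 + 10 * x * y ^ 2 - x * y * D + 190 * x * y - 12 * x * D + 840 * x + 25 *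
      y ^ 2 - 5 * y * D + 350 * y - 35 * D + 1223 := by
    have key : (12 + 2 * x + y) * (x ^ 4 + 2 * x ^ 3 * y + 24 * x ^ 3 + x ^ 2 * y ^ 2 + 34 * x ^ 2 * y - x ^ 2 * D +
      214 * x ^ 2 + 10 * x * y ^ 2 - x * y * D + 190 * x * y - 12 * x * D + 840 * x + 25 *
      y ^ 2 - 5 * y * D + 350 * y - 35 * D + 1223) =
      E * (x ^ 4 + 2 * x ^ 3 * y + 24 * x ^ 3 + x ^ 2 * y ^ 2 + 34 * x ^ 2 * y + 214 * x ^ 2 +
      10 * x * y ^ 2 + 190 * x * y + 840 * x + 25 * y ^ 2 + 350 * y + 1223) +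
      D * (x ^ 4 + 2 * x ^ 3 * y + 22 * x ^ 3 + x ^ 2 * y ^ 2 + 31 * x ^ 2 * y + 178 * x ^ 2 +
      9 * x * y ^ 2 + 156 * x * y + 626 * x + 20 * y ^ 2 + 255 * y + 803) := by
      subst hDE; ring
    have hp2 : 0 ≤ (12 + 2 * x + y) * (x ^ 4 + 2 * x ^ 3 * y + 24 * x ^ 3 + x ^ 2 * y ^ 2 + 34 * x ^ 2 * y - x ^ 2 * D +
      214 * x ^ 2 + 10 * x * y ^ 2 - x * y * D + 190 * x * y - 12 * x * D + 840 * x + 25 *
      y ^ 2 - 5 * y * D + 350 * y - 35 * D + 1223) := by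
      rw [key]; positivity
    exact nonneg_of_mul_nonneg_right hp2 (by positivity)
  have hf : 0 ≤ 2 * x ^ 5 + 5 * x ^ 4 * y + 55 * x ^ 4 + 4 * x ^ 3 * y ^ 2 + 106 * x ^ 3 * y + 602 *
      x ^ 3 + x ^ 2 * y ^ 3 + 59 * x ^ 2 * y ^ 2 + 833 * x ^ 2 * y + 3263 * x ^ 2 + 8 * x
      * y ^ 3 + 281 * x * y ^ 2 + 2861 * x * y + 8716 * x + 15 * y ^ 3 + 428 * y ^ 2 +
      3599 * y + 9124 := by
    positivity
  have hs : 0 ≤ 4 * x ^ 3 + 6 * x ^ 2 * y + 66 * x ^ 2 + 2 * x * y ^ 2 + 62 * x * y + 362 * x + 8 *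
      y ^ 2 + 155 * y + 655 := by
    positivity
  set P := (5 + x) * (7 + x + y) with hP
  have key : (P - D) * (4 * (wLb (5 + x) (7 + x + y) (P + u) +
      (P - D) * ((u + D + 1) * (u + D + 2) / 2) - (P * ((u + 1) * (u + 2) / 2) +
      2 * (5 + x) ^ 2))) = (P - D) * (2 * x ^ 5 + 5 * x ^ 4 * y + 55 * x ^ 4 + 4 * x ^ 3 * y ^ 2 + 106 * x ^ 3 * y + 602 *
      x ^ 3 + x ^ 2 * y ^ 3 + 59 * x ^ 2 * y ^ 2 + 833 * x ^ 2 * y + 3263 * x ^ 2 + 8 * x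
      * y ^ 3 + 281 * x * y ^ 2 + 2861 * x * y + 8716 * x + 15 * y ^ 3 + 428 * y ^ 2 +
      3599 * y + 9124) +
      (P - D) * u * (4 * x ^ 3 + 6 * x ^ 2 * y + 66 * x ^ 2 + 2 * x * y ^ 2 + 62 * x * y + 362 * x + 8 *
      y ^ 2 + 155 * y + 655) +
      (P - D) * (u * u) * (11 + 2 * x + y) +
      2 * D * ((P - D - u) * (x ^ 2 * D + 3 * x ^ 2 + x * y * D + 3 * x * y + 12 * x * D + 36 * x + 5 * y * D + 15
      * y - D ^ 2 + 32 * D + 103) +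
      u * (x ^ 4 + 2 * x ^ 3 * y + 24 * x ^ 3 + x ^ 2 * y ^ 2 + 34 * x ^ 2 * y - x ^ 2 * D +
      214 * x ^ 2 + 10 * x * y ^ 2 - x * y * D + 190 * x * y - 12 * x * D + 840 * x + 25 *
      y ^ 2 - 5 * y * D + 350 * y - 35 * D + 1223) + (P - D) * (u * (P - D - u))) := by
    rw [hP]; unfold wLb; ring
  have hv : 0 ≤ P - D - u := by linarith
  have hpos : 0 ≤ (P - D) * (4 * (wLb (5 + x) (7 + x + y) (P + u) +
      (P - D) * ((u + D + 1) * (u + D + 2) / 2) - (P * ((u + 1) * (u + 2) / 2) +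
      2 * (5 + x) ^ 2))) := by
    rw [key]
    have e1 := mul_nonneg hr.le hf
    have e2 := mul_nonneg (mul_nonneg hr.le hu0) hs
    have e3 := mul_nonneg (mul_nonneg hr.le (mul_nonneg hu0 hu0))
      (by positivity : (0 : ℝ) ≤ 11 + 2 * x + y)
    have e4 := mul_nonneg hv k0
    have e5 := mul_nonneg hu0 kr
    have e6 := mul_nonneg hr.le (mul_nonneg hu0 hv)
    have e7 := mul_nonneg (mul_nonneg zero_le_two hD0) (add_nonneg (add_nonneg e4 e5) e6)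
    linarith
  have := nonneg_of_mul_nonneg_right hpos hr
  linarith

theorem winB2 {p q D u : ℝ} (hp : 5 ≤ p) (hq : p + 2 ≤ q) (hD0 : 0 ≤ D)
    (hD : D ≤ p + q) (hu0 : p * q - D ≤ u) (hu : u ≤ p * (p * q - D)) :
    p * q * ((u + 1) * (u + 2) / 2) + D * ((u - (p * q - D) + 1) * (u - (p * q - D) + 2) / 2) ≤
      wLb p q (p * q + u) + wLb p q (u + D) + wLb p q u + wLb p q (u - (p * q - D)) +
      (p * q - D) * ((u + D + 1) * (u + D + 2) / 2) := by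
  obtain ⟨x, hx, rfl⟩ : ∃ x : ℝ, 0 ≤ x ∧ p = 5 + x := ⟨p - 5, by linarith, by ring⟩
  obtain ⟨y, hy, rfl⟩ : ∃ y : ℝ, 0 ≤ y ∧ q = 7 + x + y := ⟨q - 7 - x, by linarith, by ring⟩
  obtain ⟨E, hE, hDE⟩ : ∃ E : ℝ, 0 ≤ E ∧ E = 12 + 2 * x + y - D :=
    ⟨12 + 2 * x + y - D, by linarith, rfl⟩
  have hr : 0 < (5 + x) * (7 + x + y) - D := by
    have : (5 + x) * (7 + x + y) - D = E + (x ^ 2 + x * y + 10 * x + 4 * y + 23) := by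
      subst hDE; ring
    rw [this]; positivity
  have kG : 0 ≤ 12 * x ^ 5 + 30 * x ^ 4 * y + 2 * x ^ 4 * D + 338 * x ^ 4 + 24 * x ^ 3 * y ^ 2 + 4 *
      x ^ 3 * y * D + 652 * x ^ 3 * y + 36 * x ^ 3 * D + 3792 * x ^ 3 + 6 * x ^ 2 * y ^ 3
      + 2 * x ^ 2 * y ^ 2 * D + 366 * x ^ 2 * y ^ 2 + 50 * x ^ 2 * y * D + 5268 * x ^ 2 *
      y - 2 * x ^ 2 * D ^ 2 + 226 * x ^ 2 * D + 21152 * x ^ 2 + 52 * x * y ^ 3 + 14 * x *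
      y ^ 2 * D + 1824 * x * y ^ 2 - 2 * x * y * D ^ 2 + 190 * x * y * D + 18704 * x * y -
      20 * x * D ^ 2 + 552 * x * D + 58564 * x + 110 * y ^ 3 + 24 * y ^ 2 * D + 2962 * y ^
      2 - 8 * y * D ^ 2 + 210 * y * D + 24546 * y - 48 * D ^ 2 + 362 * D + 64246 := by
    have key : (12 + 2 * x + y) ^ 2 * (12 * x ^ 5 + 30 * x ^ 4 * y + 2 * x ^ 4 * D + 338 * x ^ 4 + 24 * x ^ 3 * y ^ 2 + 4 *
      x ^ 3 * y * D + 652 * x ^ 3 * y + 36 * x ^ 3 * D + 3792 * x ^ 3 + 6 * x ^ 2 * y ^ 3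
      + 2 * x ^ 2 * y ^ 2 * D + 366 * x ^ 2 * y ^ 2 + 50 * x ^ 2 * y * D + 5268 * x ^ 2 *
      y - 2 * x ^ 2 * D ^ 2 + 226 * x ^ 2 * D + 21152 * x ^ 2 + 52 * x * y ^ 3 + 14 * x *
      y ^ 2 * D + 1824 * x * y ^ 2 - 2 * x * y * D ^ 2 + 190 * x * y * D + 18704 * x * y -
      20 * x * D ^ 2 + 552 * x * D + 58564 * x + 110 * y ^ 3 + 24 * y ^ 2 * D + 2962 * y ^
      2 - 8 * y * D ^ 2 + 210 * y * D + 24546 * y - 48 * D ^ 2 + 362 * D + 64246) =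
      E ^ 2 * (12 * x ^ 5 + 30 * x ^ 4 * y + 338 * x ^ 4 + 24 * x ^ 3 * y ^ 2 + 652 * x ^ 3 * y +
      3792 * x ^ 3 + 6 * x ^ 2 * y ^ 3 + 366 * x ^ 2 * y ^ 2 + 5268 * x ^ 2 * y + 21152 *
      x ^ 2 + 52 * x * y ^ 3 + 1824 * x * y ^ 2 + 18704 * x * y + 58564 * x + 110 * y ^ 3
      + 2962 * y ^ 2 + 24546 * y + 64246) +
      D * E * (28 * x ^ 5 + 70 * x ^ 4 * y + 772 * x ^ 4 + 56 * x ^ 3 * y ^ 2 + 1488 * x ^ 3 * y +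
      8468 * x ^ 3 + 14 * x ^ 2 * y ^ 3 + 834 * x ^ 2 * y ^ 2 + 11742 * x ^ 2 * y + 46120
      * x ^ 2 + 118 * x * y ^ 3 + 4054 * x * y ^ 2 + 40660 * x * y + 124476 * x + 244 * y ^
      3 + 6422 * y ^ 2 + 51974 * y + 132836) +
      D ^ 2 * (16 * x ^ 5 + 40 * x ^ 4 * y + 426 * x ^ 4 + 32 * x ^ 3 * y ^ 2 + 820 * x ^ 3 * y +
      4500 * x ^ 3 + 8 * x ^ 2 * y ^ 3 + 458 * x ^ 2 * y ^ 2 + 6218 * x ^ 2 * y + 23528 *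
      x ^ 2 + 64 * x * y ^ 3 + 2130 * x * y ^ 2 + 20612 * x * y + 60728 * x + 126 * y ^ 3
      + 3220 * y ^ 2 + 25124 * y + 61678) := by
      subst hDE; ring
    have hp2 : 0 ≤ (12 + 2 * x + y) ^ 2 * (12 * x ^ 5 + 30 * x ^ 4 * y + 2 * x ^ 4 * D + 338 * x ^ 4 + 24 * x ^ 3 * y ^ 2 + 4 *
      x ^ 3 * y * D + 652 * x ^ 3 * y + 36 * x ^ 3 * D + 3792 * x ^ 3 + 6 * x ^ 2 * y ^ 3
      + 2 * x ^ 2 * y ^ 2 * D + 366 * x ^ 2 * y ^ 2 + 50 * x ^ 2 * y * D + 5268 * x ^ 2 *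
      y - 2 * x ^ 2 * D ^ 2 + 226 * x ^ 2 * D + 21152 * x ^ 2 + 52 * x * y ^ 3 + 14 * x *
      y ^ 2 * D + 1824 * x * y ^ 2 - 2 * x * y * D ^ 2 + 190 * x * y * D + 18704 * x * y -
      20 * x * D ^ 2 + 552 * x * D + 58564 * x + 110 * y ^ 3 + 24 * y ^ 2 * D + 2962 * y ^
      2 - 8 * y * D ^ 2 + 210 * y * D + 24546 * y - 48 * D ^ 2 + 362 * D + 64246) := by
      rw [key]; positivity
    exact nonneg_of_mul_nonneg_right hp2 (by positivity)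
  have k1 : 0 ≤ 16 * x ^ 3 + 24 * x ^ 2 * y + 264 * x ^ 2 + 8 * x * y ^ 2 + 248 * x * y - 8 * x * D
      + 1448 * x + 32 * y ^ 2 - 4 * y * D + 620 * y - 56 * D + 2620 := by
    have key : (12 + 2 * x + y) * (16 * x ^ 3 + 24 * x ^ 2 * y + 264 * x ^ 2 + 8 * x * y ^ 2 + 248 * x * y - 8 * x * D
      + 1448 * x + 32 * y ^ 2 - 4 * y * D + 620 * y - 56 * D + 2620) =
      E * (16 * x ^ 3 + 24 * x ^ 2 * y + 264 * x ^ 2 + 8 * x * y ^ 2 + 248 * x * y + 1448 * x +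
      32 * y ^ 2 + 620 * y + 2620) +
      D * (16 * x ^ 3 + 24 * x ^ 2 * y + 248 * x ^ 2 + 8 * x * y ^ 2 + 232 * x * y + 1240 * x +
      28 * y ^ 2 + 516 * y + 1948) := by
      subst hDE; ring
    have hp2 : 0 ≤ (12 + 2 * x + y) * (16 * x ^ 3 + 24 * x ^ 2 * y + 264 * x ^ 2 + 8 * x * y ^ 2 + 248 * x * y - 8 * x * D
      + 1448 * x + 32 * y ^ 2 - 4 * y * D + 620 * y - 56 * D + 2620) := by
      rw [key]; positivity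
    exact nonneg_of_mul_nonneg_right hp2 (by positivity)
  have k2 : 0 ≤ 8 * x ^ 4 + 12 * x ^ 3 * y - 4 * x ^ 3 * D + 188 * x ^ 3 + 4 * x ^ 2 * y ^ 2 - 4 * x ^
      2 * y * D + 204 * x ^ 2 * y - 72 * x ^ 2 * D + 1632 * x ^ 2 + 44 * x * y ^ 2 - 40 *
      x * y * D + 1136 * x * y + 4 * x * D ^ 2 - 416 * x * D + 6220 * x + 112 * y ^ 2 -
      100 * y * D + 2060 * y + 16 * D ^ 2 - 792 * D + 8780 := by
    have key : (12 + 2 * x + y) ^ 2 * (8 * x ^ 4 + 12 * x ^ 3 * y - 4 * x ^ 3 * D + 188 * x ^ 3 + 4 * x ^ 2 * y ^ 2 - 4 * x ^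
      2 * y * D + 204 * x ^ 2 * y - 72 * x ^ 2 * D + 1632 * x ^ 2 + 44 * x * y ^ 2 - 40 *
      x * y * D + 1136 * x * y + 4 * x * D ^ 2 - 416 * x * D + 6220 * x + 112 * y ^ 2 -
      100 * y * D + 2060 * y + 16 * D ^ 2 - 792 * D + 8780) =
      E ^ 2 * (8 * x ^ 4 + 12 * x ^ 3 * y + 188 * x ^ 3 + 4 * x ^ 2 * y ^ 2 + 204 * x ^ 2 * y +
      1632 * x ^ 2 + 44 * x * y ^ 2 + 1136 * x * y + 6220 * x + 112 * y ^ 2 + 2060 * y +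
      8780) +
      D * E * (8 * x ^ 4 + 12 * x ^ 3 * y + 184 * x ^ 3 + 4 * x ^ 2 * y ^ 2 + 208 * x ^ 2 * y +
      1568 * x ^ 2 + 48 * x * y ^ 2 + 1176 * x * y + 5864 * x + 124 * y ^ 2 + 2128 * y +
      8056) +
      D ^ 2 * (12 * x ^ 3 + 20 * x ^ 2 * y + 192 * x ^ 2 + 8 * x * y ^ 2 + 200 * x * y + 988 * x +
      28 * y ^ 2 + 452 * y + 1580) := by
      subst hDE; ring
    have hp2 : 0 ≤ (12 + 2 * x + y) ^ 2 * (8 * x ^ 4 + 12 * x ^ 3 * y - 4 * x ^ 3 * D + 188 * x ^ 3 + 4 * x ^ 2 * y ^ 2 - 4 * x ^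
      2 * y * D + 204 * x ^ 2 * y - 72 * x ^ 2 * D + 1632 * x ^ 2 + 44 * x * y ^ 2 - 40 *
      x * y * D + 1136 * x * y + 4 * x * D ^ 2 - 416 * x * D + 6220 * x + 112 * y ^ 2 -
      100 * y * D + 2060 * y + 16 * D ^ 2 - 792 * D + 8780) := by
      rw [key]; positivity
    exact nonneg_of_mul_nonneg_right hp2 (by positivity)
  obtain ⟨w, hw, rfl⟩ : ∃ w : ℝ, 0 ≤ w ∧ u = (5 + x) * (7 + x + y) - D + w :=
    ⟨u - ((5 + x) * (7 + x + y) - D), by linarith, by ring⟩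
  obtain ⟨v, hv, hvw⟩ : ∃ v : ℝ, 0 ≤ v ∧ v = (4 + x) * ((5 + x) * (7 + x + y) - D) - w :=
    ⟨(4 + x) * ((5 + x) * (7 + x + y) - D) - w, by linarith, rfl⟩
  have key : (4 + x) * ((5 + x) * (7 + x + y) - D) *
      (4 * (wLb (5 + x) (7 + x + y) ((5 + x) * (7 + x + y) + ((5 + x) * (7 + x + y) - D + w)) +
      wLb (5 + x) (7 + x + y) ((5 + x) * (7 + x + y) - D + w + D) +
      wLb (5 + x) (7 + x + y) ((5 + x) * (7 + x + y) - D + w) +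
      wLb (5 + x) (7 + x + y) ((5 + x) * (7 + x + y) - D + w - ((5 + x) * (7 + x + y) - D)) +
      ((5 + x) * (7 + x + y) - D) * (((5 + x) * (7 + x + y) - D + w + D + 1) *
      ((5 + x) * (7 + x + y) - D + w + D + 2) / 2) - ((5 + x) * (7 + x + y) *
      (((5 + x) * (7 + x + y) - D + w + 1) * ((5 + x) * (7 + x + y) - D + w + 2) / 2) +
      D * (((5 + x) * (7 + x + y) - D + w - ((5 + x) * (7 + x + y) - D) + 1) *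
      ((5 + x) * (7 + x + y) - D + w - ((5 + x) * (7 + x + y) - D) + 2) / 2)))) =
      (4 + x) * ((5 + x) * (7 + x + y) - D) * (12 * x ^ 5 + 30 * x ^ 4 * y + 2 * x ^ 4 * D + 338 * x ^ 4 + 24 * x ^ 3 * y ^ 2 + 4 *
      x ^ 3 * y * D + 652 * x ^ 3 * y + 36 * x ^ 3 * D + 3792 * x ^ 3 + 6 * x ^ 2 * y ^ 3
      + 2 * x ^ 2 * y ^ 2 * D + 366 * x ^ 2 * y ^ 2 + 50 * x ^ 2 * y * D + 5268 * x ^ 2 *
      y - 2 * x ^ 2 * D ^ 2 + 226 * x ^ 2 * D + 21152 * x ^ 2 + 52 * x * y ^ 3 + 14 * x *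
      y ^ 2 * D + 1824 * x * y ^ 2 - 2 * x * y * D ^ 2 + 190 * x * y * D + 18704 * x * y -
      20 * x * D ^ 2 + 552 * x * D + 58564 * x + 110 * y ^ 3 + 24 * y ^ 2 * D + 2962 * y ^
      2 - 8 * y * D ^ 2 + 210 * y * D + 24546 * y - 48 * D ^ 2 + 362 * D + 64246) +
      w * (v * (16 * x ^ 3 + 24 * x ^ 2 * y + 264 * x ^ 2 + 8 * x * y ^ 2 + 248 * x * y - 8 * x * D
      + 1448 * x + 32 * y ^ 2 - 4 * y * D + 620 * y - 56 * D + 2620) +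
      w * (8 * x ^ 4 + 12 * x ^ 3 * y - 4 * x ^ 3 * D + 188 * x ^ 3 + 4 * x ^ 2 * y ^ 2 - 4 * x ^
      2 * y * D + 204 * x ^ 2 * y - 72 * x ^ 2 * D + 1632 * x ^ 2 + 44 * x * y ^ 2 - 40 *
      x * y * D + 1136 * x * y + 4 * x * D ^ 2 - 416 * x * D + 6220 * x + 112 * y ^ 2 -
      100 * y * D + 2060 * y + 16 * D ^ 2 - 792 * D + 8780)) := by
    subst hvw; unfold wLb; ring
  have hM : 0 < (4 + x) * ((5 + x) * (7 + x + y) - D) := by positivity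
  have hpos := add_nonneg (mul_nonneg hM.le kG)
    (mul_nonneg hw (add_nonneg (mul_nonneg hv k1) (mul_nonneg hw k2)))
  rw [← key] at hpos
  have := nonneg_of_mul_nonneg_right hpos hM
  linarith

end Pool.Agent.CycCrit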